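import Pool.Agent.U227.MotDefs
import Mathlib.CategoryTheory.Monoidal.Braided.Basic

/-!
# Finite-dimensional objects in the sense of Kimura: definitions
-/

set_option autoImplicit false

open CategoryTheory MonoidalCategory

universe v u

namespace Pool.Agent.U227.Mot

variable {C : Type u} [Category.{v} C] [MonoidalCategory C] [SymmetricCategory C]

/-- The tensor power of `M`. -/
def tpow (M : C) : ℕ → C
  | 0 => 𝟙_ C
  | n + 1 => tpow M n ⊗ M

/-- The exchanges of two neighbouring factors of the tensor power. -/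
inductive IsExchange (M : C) : ∀ n : ℕ, (tpow M n ⟶ tpow M n) → Prop
  | last (n : ℕ) : IsExchange M (n + 2)
      ((α_ (tpow M n) M M).hom ≫ tpow M n ◁ (β_ M M).hom ≫ (α_ (tpow M n) M M).inv)
  | step (n : ℕ) (s : tpow M n ⟶ tpow M n) : IsExchange M n s → IsExchange M (n + 1) (s ▷ M)

variable [Preadditive C] [Linear ℚ C]

/-- The `n`-th symmetric power (for `η = 1`) or the `n`-th exterior power (for `η = -1`) of `M` is
zero: a morphism on the tensor power which is multiplied by `η` under all exchanges is zero. -/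
def PowerZero (η : ℚ) (M : C) (n : ℕ) : Prop :=
  ∀ (Z : C) (h : tpow M n ⟶ Z), (∀ s, IsExchange M n s → s ≫ h = η • h) → h = 0

/-- The object `M` is the direct sum of an object with a vanishing exterior power and of an object
with a vanishing symmetric power. -/
def IsKimuraFinite (M : C) : Prop :=
  ∃ (A B : C) (i : A ⟶ M) (p : M ⟶ A) (j : B ⟶ M) (q : M ⟶ B),
    i ≫ p = 𝟙 A ∧ j ≫ q = 𝟙 B ∧ i ≫ q = 0 ∧ j ≫ p = 0 ∧ p ≫ i + q ≫ j = 𝟙 M ∧
    (∃ n, PowerZero (-1) A n) ∧ ∃ n, PowerZero 1 B n

end Pool.Agent.U227.Mot
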