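import Pool.Agent.U227.MotDefs
import Mathlib.Algebra.Category.ModuleCat.Basic
import Mathlib.CategoryTheory.Preadditive.AdditiveFunctor
import Mathlib.CategoryTheory.Limits.Shapes.BinaryBiproducts
import Mathlib.LinearAlgebra.Eigenspace.Basic

/-!
# Purity for the monodromy filtration is stable under direct sums and direct summands
-/

set_option autoImplicit false

open CategoryTheory CategoryTheory.Limits
open scoped ZeroObject

universe v u w

namespace Pool.Agent.U227.MW

open Pool.Agent.U227.Mot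

/-- A realization over a local field: an additive functor `H` to vector spaces over `Ω`, with the Frobenius
`Φ` and the monodromy operator `N` as natural endomorphisms; `wt a j`: the element `a` of `Ω` is algebraic
and all its complex conjugates have the absolute value `q ^ (j / 2)`. -/
structure LocalRealization (C : Type u) [Category.{v} C] [Preadditive C] (Ω : Type w) [Field Ω] where
  /-- the cohomology -/
  H : C ⥤ ModuleCat.{w} Ω
  /-- it is additive -/
  additive : H.Additive
  /-- the Frobenius -/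
  Φ : H ⟶ H
  /-- the monodromy operator -/
  N : H ⟶ H
  /-- the weights of the elements of `Ω` -/
  wt : Ω → ℤ → Prop

variable {C : Type u} [Category.{v} C] [Preadditive C] {Ω : Type w} [Field Ω]

namespace LocalRealization

variable (R : LocalRealization C Ω)

/-- The map on the cohomology. -/
def map {A B : C} (f : A ⟶ B) : R.H.obj A →ₗ[Ω] R.H.obj B := (R.H.map f).hom

/-- The Frobenius of `M`. -/
def frob (M : C) : Module.End Ω (R.H.obj M) := (R.Φ.app M).hom

/-- The monodromy operator of `M`. -/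
def mono (M : C) : Module.End Ω (R.H.obj M) := (R.N.app M).hom

/-- The part of weight `j`: the sum of the generalised eigenspaces of the Frobenius for the eigenvalues of
weight `j`. -/
def part (M : C) (j : ℤ) : Submodule Ω (R.H.obj M) :=
  ⨆ a : {a : Ω // R.wt a j}, Module.End.maxGenEigenspace (R.frob M) (a : Ω)

/-- The cohomology of `M` is mw pure of weight `i`: the eigenvalues of the Frobenius have weights, and `N ^ s`
is, for all `s ≥ 0`, a bijection of the part of weight `i + s` with the part of weight `i - s`. -/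
def IsMWPure (i : ℤ) (M : C) : Prop :=
  (∀ a : Ω, Module.End.HasEigenvalue (R.frob M) a → ∃ j, R.wt a j) ∧
    ∀ s : ℕ, Set.BijOn (⇑(R.mono M ^ s)) (R.part M (i + s)) (R.part M (i - s))

variable {R}

lemma map_comp {A B D : C} (f : A ⟶ B) (g : B ⟶ D) (x : R.H.obj A) :
    R.map (f ≫ g) x = R.map g (R.map f x) := by
  simp [map]

lemma map_id (A : C) (x : R.H.obj A) : R.map (𝟙 A) x = x := by
  simp [map]

lemma map_add {A B : C} (f g : A ⟶ B) (x : R.H.obj A) :
    R.map (f + g) x = R.map f x + R.map g x := by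
  have := R.additive
  simp [map, Functor.map_add]

lemma frob_map {A B : C} (f : A ⟶ B) (x : R.H.obj A) :
    R.map f (R.frob A x) = R.frob B (R.map f x) :=
  (congrArg (fun u => u.hom x) (R.Φ.naturality f)).symm

lemma mono_map {A B : C} (f : A ⟶ B) (x : R.H.obj A) :
    R.map f (R.mono A x) = R.mono B (R.map f x) :=
  (congrArg (fun u => u.hom x) (R.N.naturality f)).symm

lemma mono_pow_map {A B : C} (f : A ⟶ B) (s : ℕ) (x : R.H.obj A) :
    R.map f ((R.mono A ^ s) x) = (R.mono B ^ s) (R.map f x) := by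
  induction s generalizing x with
  | zero => simp
  | succ s ih => rw [pow_succ, pow_succ, Module.End.mul_apply, Module.End.mul_apply, ih, mono_map]

lemma sub_map {A B : C} (f : A ⟶ B) (a : Ω) (s : ℕ) (x : R.H.obj A) :
    R.map f (((R.frob A - a • (1 : Module.End Ω (R.H.obj A))) ^ s) x) =
      ((R.frob B - a • (1 : Module.End Ω (R.H.obj B))) ^ s) (R.map f x) := by
  induction s generalizing x with
  | zero => simp
  | succ s ih =>
    rw [pow_succ, pow_succ, Module.End.mul_apply, Module.End.mul_apply, ih]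
    congr 1
    rw [LinearMap.sub_apply, LinearMap.sub_apply, map_sub, frob_map, LinearMap.smul_apply,
      LinearMap.smul_apply, map_smul, Module.End.one_apply, Module.End.one_apply]

lemma map_part {A B : C} (f : A ⟶ B) (j : ℤ) {x : R.H.obj A} (hx : x ∈ R.part A j) :
    R.map f x ∈ R.part B j := by
  have h : R.part A j ≤ (R.part B j).comap (R.map f) := by
    refine iSup_le fun a y hy => ?_
    rw [Submodule.mem_comap]
    refine Submodule.mem_iSup_of_mem a ?_
    rw [Module.End.mem_maxGenEigenspace] at hy ⊢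
    obtain ⟨s, hs⟩ := hy
    refine ⟨s, ?_⟩
    rw [← sub_map, hs, map_zero]
  exact h hx

lemma hasEigenvalue_iff {M : C} {a : Ω} : Module.End.HasEigenvalue (R.frob M) a ↔
    ∃ x : R.H.obj M, x ≠ 0 ∧ R.frob M x = a • x := by
  constructor
  · intro h
    obtain ⟨x, hx⟩ := h.exists_hasEigenvector
    exact ⟨x, hx.2, hx.apply_eq_smul⟩
  · rintro ⟨x, hx, h⟩
    exact Module.End.hasEigenvalue_of_hasEigenvector ⟨Module.End.mem_eigenspace_iff.mpr h, hx⟩

lemma isMWPure_retract {i : ℤ} {M N : C} (f : M ⟶ N) (g : N ⟶ M) (hfg : f ≫ g = 𝟙 M)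
    (hN : R.IsMWPure i N) : R.IsMWPure i M := by
  have hid : ∀ x : R.H.obj M, R.map g (R.map f x) = x := fun x => by
    rw [← map_comp, hfg, map_id]
  refine ⟨fun a ha => ?_, fun s => ⟨fun x hx => ?_, fun x hx y hy h => ?_, fun y hy => ?_⟩⟩
  · obtain ⟨x, hx, h⟩ := hasEigenvalue_iff.1 ha
    refine hN.1 a (hasEigenvalue_iff.2 ⟨R.map f x, fun h0 => hx ?_, ?_⟩)
    · rw [← hid x, h0, map_zero]
    · rw [← frob_map, h, map_smul]
  · have h1 := (hN.2 s).1 (map_part f _ hx)
    have h2 : R.map g ((R.mono N ^ s) (R.map f x)) ∈ R.part M (i - s) := map_part g _ h1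
    rwa [mono_pow_map, hid] at h2
  · have h1 : R.map f x = R.map f y := by
      refine (hN.2 s).2.1 (map_part f _ hx) (map_part f _ hy) ?_
      change (R.mono N ^ s) (R.map f x) = (R.mono N ^ s) (R.map f y)
      rw [← mono_pow_map, ← mono_pow_map]
      exact congrArg (R.map f) h
    rw [← hid x, h1, hid]
  · obtain ⟨z, hz, h⟩ := (hN.2 s).2.2 (map_part f _ hy)
    refine ⟨R.map g z, map_part g _ hz, ?_⟩
    change (R.mono M ^ s) (R.map g z) = y
    rw [← mono_pow_map]
    change R.map g ((R.mono N ^ s) z) = y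
    have h' : (R.mono N ^ s) z = R.map f y := h
    rw [h', hid]

lemma isMWPure_sum [HasBinaryBiproducts C] {i : ℤ} {M N : C} (hM : R.IsMWPure i M)
    (hN : R.IsMWPure i N) : R.IsMWPure i (M ⊞ N) := by
  have hid : ∀ z : R.H.obj (M ⊞ N),
      z = R.map biprod.inl (R.map biprod.fst z) + R.map biprod.inr (R.map biprod.snd z) := by
    intro z
    rw [← map_comp, ← map_comp, ← map_add, biprod.total, map_id]
  refine ⟨fun a ha => ?_, fun s => ⟨fun x hx => ?_, fun x hx y hy h => ?_, fun y hy => ?_⟩⟩
  · obtain ⟨x, hx, h⟩ := hasEigenvalue_iff.1 ha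
    by_cases h1 : R.map biprod.fst x = 0
    · refine hN.1 a (hasEigenvalue_iff.2 ⟨R.map biprod.snd x, fun h2 => hx ?_, ?_⟩)
      · rw [hid x, h1, h2, map_zero, map_zero, add_zero]
      · rw [← frob_map, h, map_smul]
    · refine hM.1 a (hasEigenvalue_iff.2 ⟨R.map biprod.fst x, h1, ?_⟩)
      rw [← frob_map, h, map_smul]
  · have h1 : (R.mono M ^ s) (R.map biprod.fst x) ∈ R.part M (i - s) :=
      (hM.2 s).1 (map_part _ _ hx)
    have h2 : (R.mono N ^ s) (R.map biprod.snd x) ∈ R.part N (i - s) :=
      (hN.2 s).1 (map_part _ _ hx)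
    have h3 : (R.mono (M ⊞ N) ^ s) x =
        R.map biprod.inl ((R.mono M ^ s) (R.map biprod.fst x)) +
          R.map biprod.inr ((R.mono N ^ s) (R.map biprod.snd x)) := by
      conv_lhs => rw [hid x]
      rw [_root_.map_add, mono_pow_map, mono_pow_map]
    change (R.mono (M ⊞ N) ^ s) x ∈ R.part (M ⊞ N) (i - s)
    rw [h3]
    exact Submodule.add_mem _ (map_part _ _ h1) (map_part _ _ h2)
  · have h' : (R.mono (M ⊞ N) ^ s) x = (R.mono (M ⊞ N) ^ s) y := h
    have h1 : R.map biprod.fst x = R.map biprod.fst y := by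
      refine (hM.2 s).2.1 (map_part _ _ hx) (map_part _ _ hy) ?_
      change (R.mono M ^ s) (R.map biprod.fst x) = (R.mono M ^ s) (R.map biprod.fst y)
      rw [← mono_pow_map, ← mono_pow_map, h']
    have h2 : R.map biprod.snd x = R.map biprod.snd y := by
      refine (hN.2 s).2.1 (map_part _ _ hx) (map_part _ _ hy) ?_
      change (R.mono N ^ s) (R.map biprod.snd x) = (R.mono N ^ s) (R.map biprod.snd y)
      rw [← mono_pow_map, ← mono_pow_map, h']
    rw [hid x, hid y, h1, h2]
  · obtain ⟨z, hz, h1⟩ := (hM.2 s).2.2 (map_part biprod.fst _ hy)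
    obtain ⟨z', hz', h2⟩ := (hN.2 s).2.2 (map_part biprod.snd _ hy)
    have h1' : (R.mono M ^ s) z = R.map biprod.fst y := h1
    have h2' : (R.mono N ^ s) z' = R.map biprod.snd y := h2
    refine ⟨R.map biprod.inl z + R.map biprod.inr z',
      Submodule.add_mem _ (map_part _ _ hz) (map_part _ _ hz'), ?_⟩
    change (R.mono (M ⊞ N) ^ s) (R.map biprod.inl z + R.map biprod.inr z') = y
    rw [_root_.map_add, ← mono_pow_map, ← mono_pow_map, h1', h2', ← hid]

lemma isMWPure_zero [HasZeroObject C] (i : ℤ) : R.IsMWPure i (0 : C) := by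
  have h0 : ∀ x : R.H.obj (0 : C), x = 0 := by
    intro x
    have h1 : (𝟙 (0 : C)) = (𝟙 (0 : C)) + 𝟙 (0 : C) := (isZero_zero C).eq_of_src _ _
    have h2 : R.map (𝟙 (0 : C)) x = R.map (𝟙 (0 : C) + 𝟙 (0 : C)) x := by rw [← h1]
    rw [map_add, map_id] at h2
    exact (left_eq_add.1 h2)
  refine ⟨fun a ha => ?_, fun s => ⟨fun x _ => ?_, fun x _ y _ _ => ?_, fun y _ => ?_⟩⟩
  · obtain ⟨x, hx, _⟩ := hasEigenvalue_iff.1 ha
    exact absurd (h0 x) hx
  · change (R.mono (0 : C) ^ s) x ∈ R.part (0 : C) (i - s)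
    rw [h0 ((R.mono (0 : C) ^ s) x)]
    exact Submodule.zero_mem _
  · rw [h0 x, h0 y]
  · refine ⟨0, Submodule.zero_mem _, ?_⟩
    rw [h0 y]
    exact h0 _

end LocalRealization

/-- The cohomology of `M` is mw pure in all degrees `i` in the set `I`: `R i` is the realization by the
cohomology of degree `i`. -/
def MWPureIn (R : ℤ → LocalRealization C Ω) (I : Set ℤ) (M : C) : Prop :=
  ∀ i ∈ I, (R i).IsMWPure i M

/-- Purity is stable under direct sums and direct summands. -/
theorem isStable [HasZeroObject C] [HasBinaryBiproducts C] (R : ℤ → LocalRealization C Ω) (I : Set ℤ) :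
    IsStable (MWPureIn R I) where
  nonempty := ⟨0, fun i _ => LocalRealization.isMWPure_zero i⟩
  sum M N hM hN := ⟨M ⊞ N, biprod.inl, biprod.fst, biprod.inr, biprod.snd, biprod.inl_fst,
    biprod.inr_snd, biprod.inl_snd, biprod.inr_fst, fun i hi =>
      LocalRealization.isMWPure_sum (hM i hi) (hN i hi)⟩
  retract M N f g h hN := fun i hi => LocalRealization.isMWPure_retract f g h (hN i hi)

end Pool.Agent.U227.MW
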