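import Mathlib

/-!
# Dimensions of fixed spaces and Brauer relations
-/

set_option autoImplicit false
set_option linter.unusedSectionVars false

open Module

namespace Pool.Agent.U227.Br

section

variable {K : Type*} [Field K] [CharZero K] {V : Type*} [AddCommGroup V] [Module K V]
  [FiniteDimensional K V] {G : Type*} [Group G]

/-- The vectors fixed by a subgroup. -/
def fixedSub (ρ : G →* Module.End K V) (C : Subgroup G) : Submodule K V where
  carrier := {v | ∀ c ∈ C, ρ c v = v}
  add_mem' := by
    intro v w hv hw c hc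
    rw [map_add, hv c hc, hw c hc]
  zero_mem' := fun c _ => map_zero _
  smul_mem' := by
    intro t v hv c hc
    rw [map_smul, hv c hc]

lemma mem_fixedSub {ρ : G →* Module.End K V} {C : Subgroup G} {v : V} :
    v ∈ fixedSub ρ C ↔ ∀ c ∈ C, ρ c v = v := Iff.rfl

variable [Fintype G]

open Classical in
/-- The dimension of the fixed space. -/
lemma card_mul_finrank (ρ : G →* Module.End K V) (C : Subgroup G) :
    (Nat.card C : K) * (finrank K (fixedSub ρ C) : K) =
      ∑ g : G with g ∈ C, LinearMap.trace K V (ρ g) := by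
  have hc : (Nat.card C : K) ≠ 0 := by
    have : Nat.card C ≠ 0 := Nat.card_pos.ne'
    exact_mod_cast this
  set P : Module.End K V := (Nat.card C : K)⁻¹ • ∑ g : G with g ∈ C, ρ g with hP
  have hcard : (Finset.univ.filter fun g : G => g ∈ C).card = Nat.card C := by
    rw [Nat.card_eq_fintype_card, ← Fintype.card_subtype]
  have hproj : LinearMap.IsProj (fixedSub ρ C) P := by
    refine ⟨fun v c hc' => ?_, fun v hv => ?_⟩
    · rw [hP, LinearMap.smul_apply, map_smul, LinearMap.sum_apply, map_sum]
      congr 1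
      refine Finset.sum_nbij' (fun g => c * g) (fun g => c⁻¹ * g) ?_ ?_ ?_ ?_ ?_
      · intro g hg
        rw [Finset.mem_filter] at hg ⊢
        exact ⟨Finset.mem_univ _, C.mul_mem hc' hg.2⟩
      · intro g hg
        rw [Finset.mem_filter] at hg ⊢
        exact ⟨Finset.mem_univ _, C.mul_mem (C.inv_mem hc') hg.2⟩
      · intro g _; group
      · intro g _; group
      · intro g _
        rw [map_mul, Module.End.mul_apply]
    · rw [hP, LinearMap.smul_apply, LinearMap.sum_apply]
      have h1 : ∑ g : G with g ∈ C, ρ g v = ∑ g : G with g ∈ C, v :=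
        Finset.sum_congr rfl fun g hg => hv g (Finset.mem_filter.1 hg).2
      rw [h1, Finset.sum_const, hcard, ← Nat.cast_smul_eq_nsmul K, smul_smul, inv_mul_cancel₀ hc,
        one_smul]
  have h1 := hproj.trace
  rw [hP, map_smul, map_sum, smul_eq_mul] at h1
  rw [← h1, ← mul_assoc, mul_inv_cancel₀ hc, one_mul]

end

/-- The linear combination with coefficients `c j` of the permutation characters on the cosets of the
subgroups `C j` is zero. -/
def BrauerRelation {G ι : Type} [Group G] [Fintype ι] (c : ι → ℤ) (C : ι → Subgroup G) : Prop :=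
  ∀ g : G, ∑ j, (c j : ℚ) * ((Nat.card {x : G // x⁻¹ * g * x ∈ C j} : ℚ) / Nat.card (C j)) = 0

section

variable {K : Type*} [Field K] [CharZero K] {G : Type} [Group G] [Fintype G]

open Classical in
/-- Sums over subgroups of class functions. -/
lemma sum_class (χ : G → K) (hχ : ∀ x g, χ (x * g * x⁻¹) = χ g) (C : Subgroup G) :
    (Fintype.card G : K) * ∑ g : G with g ∈ C, χ g =
      ∑ h : G, χ h * (Nat.card {x : G // x⁻¹ * h * x ∈ C} : K) := by
  have h1 : (Fintype.card G : K) * ∑ g : G with g ∈ C, χ g =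
      ∑ x : G, ∑ g : G with g ∈ C, χ (x * g * x⁻¹) := by
    rw [Finset.sum_congr rfl fun x _ => Finset.sum_congr rfl fun g _ => hχ x g, Finset.sum_const,
      Finset.card_univ, nsmul_eq_mul]
  have h2 : ∀ x : G, ∑ g : G with g ∈ C, χ (x * g * x⁻¹) =
      ∑ h : G, if x⁻¹ * h * x ∈ C then χ h else 0 := by
    intro x
    rw [← Finset.sum_filter]
    refine Finset.sum_nbij' (fun g => x * g * x⁻¹) (fun h => x⁻¹ * h * x) ?_ ?_ ?_ ?_ ?_
    · intro g hg
      rw [Finset.mem_filter] at hg ⊢
      refine ⟨Finset.mem_univ _, ?_⟩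
      rw [show x⁻¹ * (x * g * x⁻¹) * x = g by group]
      exact hg.2
    · intro h hh
      rw [Finset.mem_filter] at hh ⊢
      exact ⟨Finset.mem_univ _, hh.2⟩
    · intro g _; group
    · intro g _; group
    · intro g _; rfl
  rw [h1, Finset.sum_congr rfl fun x _ => h2 x, Finset.sum_comm]
  refine Finset.sum_congr rfl fun h _ => ?_
  rw [← Finset.sum_filter, Finset.sum_const, nsmul_eq_mul, mul_comm, Nat.card_eq_fintype_card,
    Fintype.card_subtype]

/-- **Brauer relations.** -/
lemma brauer {ι : Type} [Fintype ι] (c : ι → ℤ) (C : ι → Subgroup G) (h : BrauerRelation c C)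
    (χ : G → K) (hχ : ∀ x g, χ (x * g * x⁻¹) = χ g) (d : ι → K)
    (hd : ∀ j, (Nat.card (C j) : K) * d j = open Classical in ∑ g : G with g ∈ C j, χ g) :
    ∑ j, (c j : K) * d j = 0 := by
  classical
  have hG : (Fintype.card G : K) ≠ 0 := by exact_mod_cast Fintype.card_ne_zero
  have hC : ∀ j, (Nat.card (C j) : K) ≠ 0 := fun j => by
    have : Nat.card (C j) ≠ 0 := Nat.card_pos.ne'
    exact_mod_cast this
  have h1 : ∀ j, (Fintype.card G : K) * ((c j : K) * d j) = ∑ g : G, χ g *
      ((c j : K) * ((Nat.card {x : G // x⁻¹ * g * x ∈ C j} : K) / Nat.card (C j))) := by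
    intro j
    have h2 : d j = (∑ g : G with g ∈ C j, χ g) / Nat.card (C j) := by
      rw [← hd j, mul_div_cancel_left₀ _ (hC j)]
    rw [h2, mul_left_comm, ← mul_div_assoc, sum_class χ hχ, Finset.sum_div, Finset.mul_sum]
    refine Finset.sum_congr rfl fun g _ => ?_
    ring
  apply mul_left_cancel₀ hG
  rw [mul_zero, Finset.mul_sum, Finset.sum_congr rfl fun j _ => h1 j, Finset.sum_comm]
  apply Finset.sum_eq_zero
  intro g _
  rw [← Finset.mul_sum]
  have h3 := congrArg (fun t : ℚ => (t : K)) (h g)
  beta_reduce at h3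
  push_cast at h3
  rw [h3, mul_zero]

end

end Pool.Agent.U227.Br
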