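import Pool.Agent.U227.JbDefs
import Pool.Agent.H447R3.DegDefs
import Pool.Agent.H914R2.KDefs

/-!
# Tate's formula for the square of a variety: definitions
-/

set_option autoImplicit false

open CategoryTheory AlgebraicGeometry

universe u v

namespace Pool.Agent.U227.Nm

section Alg

variable {K : Type*} [Field K] {V : Type*} [AddCommGroup V] [Module K V]

/-- The part of the subspace `U` which belongs to the eigenvalue `α` of `F`: its intersection with the
generalized eigenspace. -/
noncomputable def genPart (F : Module.End K V) (U : Submodule K V) (α : K) : Submodule K V :=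
  U ⊓ F.maxGenEigenspace α

/-- `T` is a subspace of `P`, different from `0` and `P`, which is stable under the operators in `S`. -/
def IsStablePart (S : Set (V →ₗ[K] V)) (P T : Submodule K V) : Prop :=
  T ≤ P ∧ T ≠ ⊥ ∧ T ≠ P ∧ ∀ φ ∈ S, ∀ x ∈ T, φ x ∈ T

/-- The product `s (m - s)`, where `s` and `m` are the dimensions of `T ≤ P`. -/
noncomputable def dimProd (P T : Submodule K V) : ℕ :=
  Module.finrank K T * (Module.finrank K P - Module.finrank K T)

end Alg

open Pool.Agent.H914 Pool.Agent.H447 VarClass Obj WeilCohomology Pool.Agent.U227.Fr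
  Pool.Agent.U227.Jb

variable {k : Type u} [Field k] {𝒱 : VarClass k} {ops : CycleOps 𝒱}

/-- The part of `H^i(X)` which belongs to the eigenvalue `α` of `f^*`. -/
noncomputable def eigenPart (W : WeilCohomology.{u, v} ops) (X : 𝒱.Obj) (f : X ⟶ X) (i : ℕ)
    (α : W.K) : Submodule W.K (W.H X) :=
  genPart (W.map f).toLinearMap (W.gr X i) α

/-- The part of `H^(2n)(X × X)`, `n = dim X`, which belongs to the eigenvalue `q ^ n` of
`(f × f)^*`. -/
noncomputable def tatePart (W : WeilCohomology.{u, v} ops) (X : 𝒱.Obj) (f : X ⟶ X) (q : ℕ) :
    Submodule W.K (W.H (X.prod X)) :=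
  genPart (W.map (squareMap f)).toLinearMap (W.gr (X.prod X) (2 * X.dim)) ((q : W.K) ^ X.dim)

/-- Tate's conjectures for the cycles of codimension `n = dim X` on `X × X` and for `X`:
* the rank of the group of cycles modulo numerical equivalence is the multiplicity of `q ^ n`, i.e. the
  order of the pole of the zeta function of `X × X` at `n`;
* the generalized eigenspace for `q ^ n` in `H^(2n)(X × X)` is spanned by classes of cycles, and so are
  those for `q ^ j` in `H^(2j)(X)`, for all `j ≤ n`;
* the operator `f^*` on `H(X)` is semisimple;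
* numerically trivial cycles are homologically trivial. -/
structure TateForSquare (W : WeilCohomology.{u, v} ops) (X : 𝒱.Obj) (f : X ⟶ X) (q : ℕ) : Prop where
  formula : NumRankAtLeast ops (X.prod X) X.dim (poleOrder W X f q)
  spanned : tatePart W X f q ≤ spanCycles W (X.prod X) X.dim
  factor : ∀ j ≤ X.dim, eigenPart W X f (2 * j) ((q : W.K) ^ j) ≤ spanCycles W X j
  semisimple : Module.End.IsSemisimple (R := W.K) (M := W.H X) (W.map f).toLinearMap
  homNum : HomEqNumIn W (X.prod X) X.dim

end Pool.Agent.U227.Nm
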