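import Pool.Agent.U227.GrpDefs
import Pool.Agent.U227.NmDefs
import Pool.Agent.U227.BrLin

/-!
# Group actions and the Tate conjecture over finite fields: definitions
-/

set_option autoImplicit false

open CategoryTheory AlgebraicGeometry

universe u v

namespace Pool.Agent.U227.Br

open Pool.Agent.H914 VarClass Obj WeilCohomology Pool.Agent.X252.GA Pool.Agent.X252.SCT
  Pool.Agent.U227.Grp Pool.Agent.U227.Nm

variable {k : Type u} [Field k] {𝒱 : VarClass k} {ops : CycleOps 𝒱}

/-- The map `T` multiplies `x` by `q ^ j`. -/
def IsScaled {K V : Type*} [Field K] [AddCommGroup V] [Module K V] (T : V → V) (q j : ℕ) (x : V) :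
    Prop :=
  T x = (q : K) ^ j • x

/-- The dimension of the span of the elements of the subspace `U` with the property `P`. -/
noncomputable def spanDim {K V : Type*} [Field K] [AddCommGroup V] [Module K V] (U : Submodule K V)
    (P : V → Prop) : ℕ :=
  Module.finrank K (Submodule.span K {x | x ∈ U ∧ P x})

/-- The pull-back by `f` multiplies the class of every cycle of codimension `j` by `q ^ j`. (True for the
Frobenius endomorphism relative to the field with `q` elements, if finitely many cycles whose classes span
the algebraic classes are defined over that field.) -/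
def ScalesClasses (W : WeilCohomology.{u, v} ops) (X : 𝒱.Obj) (f : X ⟶ X) (q j : ℕ) : Prop :=
  ∀ z, X.IsCyc j z → IsScaled (K := W.K) (W.map f) q j (W.cl X z)

/-- The generalized eigenspace of `f^*` on `H^(2j)(X)` for the eigenvalue `q ^ j`. -/
noncomputable def tatePart (W : WeilCohomology.{u, v} ops) (X : 𝒱.Obj) (f : X ⟶ X) (q j : ℕ) :
    Submodule W.K (W.H X) :=
  genPart (W.map f).toLinearMap (W.gr X (2 * j)) ((q : W.K) ^ j)

/-- The Tate conjecture for the cycles of codimension `j` on `X`, in the strong form: the generalized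
eigenspace for `q ^ j` is spanned by classes of cycles. -/
def Tate (W : WeilCohomology.{u, v} ops) (X : 𝒱.Obj) (f : X ⟶ X) (q j : ℕ) : Prop :=
  tatePart W X f q j ≤ algSpan W X (2 * j)

/-- The same for the quotient `X/H`, whose cohomology is the part of `H(X)` fixed by `H`. -/
def TateOn (W : WeilCohomology.{u, v} ops) {X : 𝒱.Obj} {G : Type} [Group G] (a : G →* Aut X)
    (f : X ⟶ X) (q j : ℕ) (H : Subgroup G) : Prop :=
  ∀ x ∈ tatePart W X f q j, FixedBy W a H x → x ∈ algSpan W X (2 * j)

/-- The dimension of the part of the subspace `U` which is fixed by `H`. -/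
noncomputable def fixedDim (W : WeilCohomology.{u, v} ops) {X : 𝒱.Obj} {G : Type} [Group G]
    (a : G →* Aut X) (U : Submodule W.K (W.H X)) (H : Subgroup G) : ℕ :=
  spanDim U (FixedBy W a H)

/-- The defect of the Tate conjecture for the cycles of codimension `j` on the quotient `X/H`: the
multiplicity of the eigenvalue `q ^ j` of Frobenius on its cohomology minus the dimension of the span of the
classes of cycles. -/
noncomputable def defect (W : WeilCohomology.{u, v} ops) {X : 𝒱.Obj} {G : Type} [Group G]
    (a : G →* Aut X) (f : X ⟶ X) (q j : ℕ) (H : Subgroup G) : ℤ :=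
  (fixedDim W a (tatePart W X f q j) H : ℤ) - fixedDim W a (algSpan W X (2 * j)) H

/-- The representation `ρ` occurs in the generalized eigenspace modulo the span of the classes of
cycles. -/
def OccursTate (W : WeilCohomology.{u, v} ops) {X : 𝒱.Obj} {G : Type} [Group G] (a : G →* Aut X)
    (f : X ⟶ X) (q j : ℕ) {V : Type} [AddCommGroup V] [Module ℚ V]
    (ρ : G →* Module.End ℚ V) : Prop :=
  OccursMod W a (tatePart W X f q j) (algSpan W X (2 * j)) ρ

/-- Every irreducible rational representation which occurs, and which has a nonzero vector fixed by `H`,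
has for some `i` a nonzero vector fixed by `C i`. -/
def DominatesTate (W : WeilCohomology.{u, v} ops) {X : 𝒱.Obj} {G : Type} [Group G]
    (a : G →* Aut X) (f : X ⟶ X) (q j : ℕ) {ι : Type} (H : Subgroup G) (C : ι → Subgroup G) : Prop :=
  ∀ (V : Type) [AddCommGroup V] [Module ℚ V] (ρ : G →* Module.End ℚ V), Irred ρ →
    OccursTate W a f q j ρ → HasFixed ρ H → ∃ i, HasFixed ρ (C i)

/-- Every irreducible rational representation which occurs has a nonzero vector fixed by some subgroup
`C` such that the Tate conjecture holds for `X/C`. -/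
def CoveredTate (W : WeilCohomology.{u, v} ops) {X : 𝒱.Obj} {G : Type} [Group G]
    (a : G →* Aut X) (f : X ⟶ X) (q j : ℕ) : Prop :=
  ∀ (V : Type) [AddCommGroup V] [Module ℚ V] (ρ : G →* Module.End ℚ V), Irred ρ →
    OccursTate W a f q j ρ → ∃ C : Subgroup G, HasFixed ρ C ∧ TateOn W a f q j C

/-- Some irreducible rational representation in which the elements different from one fix only `0`
occurs. -/
def FreeOccursTate (W : WeilCohomology.{u, v} ops) {X : 𝒱.Obj} {G : Type} [Group G]
    (a : G →* Aut X) (f : X ⟶ X) (q j : ℕ) : Prop :=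
  ∃ (V : Type) (_ : AddCommGroup V) (_ : Module ℚ V) (ρ : G →* Module.End ℚ V),
    IsFree ρ ∧ OccursTate W a f q j ρ

/-- A function `δ ≥ 0` on the subgroups which satisfies the Brauer relations: `∑ c_i δ(C_i) = 0` if the
combination `∑ c_i Ind_(C_i) 1` of permutation characters is zero; for a partition of `K` into `m` subgroups
`C_i` one has `∑ |C_i| δ(C_i) = |K| δ(K) + (m - 1) δ(1)`. -/
def SatisfiesBrauer {G : Type} [Group G] (δ : Subgroup G → ℤ) : Prop :=
  (∀ C, 0 ≤ δ C) ∧
  (∀ (ι : Type) [Fintype ι] (c : ι → ℤ) (C : ι → Subgroup G), BrauerRelation c C →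
    ∑ i, c i * δ (C i) = 0) ∧
  ∀ (ι : Type) [Fintype ι] (K : Subgroup G) (C : ι → Subgroup G), Partitions K C →
    ∑ i, (Nat.card (C i) : ℤ) * δ (C i) = Nat.card K * δ K + (Fintype.card ι - 1) * δ ⊥

end Pool.Agent.U227.Br
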