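import Pool.Agent.U227.GrpB2
import Pool.Agent.U227.BrDefs

/-!
# Group actions and the Tate conjecture over finite fields
-/

set_option autoImplicit false
set_option linter.unusedSectionVars false

open CategoryTheory AlgebraicGeometry Finset

universe u v

namespace Pool.Agent.U227.Br

open Pool.Agent.H914 VarClass Obj WeilCohomology Pool.Agent.X252.GA
  Pool.Agent.X252.SCT Pool.Agent.X252.SCK Pool.Agent.U227.Grp Pool.Agent.U227.Nm

variable {k : Type u} [Field k] {𝒱 : VarClass k} {ops : CycleOps 𝒱}
  {W : WeilCohomology.{u, v} ops} {X : 𝒱.Obj} {G : Type} [Group G] {a : G →* Aut X}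
  {f : X ⟶ X} {q j : ℕ}

lemma tatePart_stable (hc : ∀ g, (a g).hom ≫ f = f ≫ (a g).hom) (g : G) {x : W.H X}
    (hx : x ∈ tatePart W X f q j) : gPull W a g x ∈ tatePart W X f q j := by
  refine ⟨gPull_mem g hx.1, ?_⟩
  have h1 : Commute (W.map f).toLinearMap (W.map (a g).hom).toLinearMap := by
    apply LinearMap.ext
    intro y
    rw [Module.End.mul_apply, Module.End.mul_apply]
    change W.map f (W.map (a g).hom y) = W.map (a g).hom (W.map f y)
    have h2 : W.map (f ≫ (a g).hom) y = W.map f (W.map (a g).hom y) := W.map_comp _ _ y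
    have h3 : W.map ((a g).hom ≫ f) y = W.map (a g).hom (W.map f y) := W.map_comp _ _ y
    rw [← h2, ← h3, hc]
  exact Module.End.mapsTo_maxGenEigenspace_of_comm h1 _ hx.2

lemma algSpan_le (hF : ScalesClasses W X f q j) : algSpan W X (2 * j) ≤ tatePart W X f q j := by
  rw [algSpan, Submodule.span_le]
  rintro _ ⟨p, hp, z, hz, rfl⟩
  obtain rfl : p = j := by omega
  refine ⟨W.cl_mem hz, ?_⟩
  rw [SetLike.mem_coe, Module.End.mem_maxGenEigenspace]
  refine ⟨1, ?_⟩
  have h3 : (W.map f).toLinearMap (W.cl X z) = (q : W.K) ^ p • W.cl X z := hF z hz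
  rw [pow_one, LinearMap.sub_apply, h3, LinearMap.smul_apply, Module.End.one_apply, sub_self]

/-! ### Fixed dimensions -/

lemma mem_fixed_iff {H : Subgroup G} {x : W.H X} :
    x ∈ fixedSub (act W a) H ↔ FixedBy W a H x := by
  constructor
  · intro h g hg
    have h1 := h g⁻¹ (H.inv_mem hg)
    change W.map (a g⁻¹⁻¹).hom x = x at h1
    rwa [inv_inv] at h1
  · intro h g hg
    exact h g⁻¹ (H.inv_mem hg)

lemma fixedDim_eq (U : Submodule W.K (W.H X)) (H : Subgroup G) :
    fixedDim W a U H = Module.finrank W.K (U ⊓ fixedSub (act W a) H : Submodule W.K (W.H X)) := by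
  have h1 : Submodule.span W.K {x | x ∈ U ∧ FixedBy W a H x} = U ⊓ fixedSub (act W a) H := by
    apply le_antisymm
    · rw [Submodule.span_le]
      rintro x ⟨hx, hx'⟩
      exact ⟨hx, mem_fixed_iff.2 hx'⟩
    · rintro x ⟨hx, hx'⟩
      exact Submodule.subset_span ⟨hx, mem_fixed_iff.1 hx'⟩
  rw [fixedDim, spanDim, h1]

section Stable

variable {U : Submodule W.K (W.H X)} (hU : ∀ g : G, ∀ x ∈ U, act W a g x ∈ U)

/-- The action on a stable subspace. -/
noncomputable def actOn : G →* Module.End W.K U where
  toFun g := (act W a g).restrict (hU g)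
  map_one' := by
    apply LinearMap.ext
    intro x
    apply Subtype.ext
    change act W a 1 (x : W.H X) = x
    rw [map_one, Module.End.one_apply]
  map_mul' g h := by
    apply LinearMap.ext
    intro x
    apply Subtype.ext
    change act W a (g * h) (x : W.H X) = act W a g (act W a h x)
    rw [map_mul, Module.End.mul_apply]

/-- The character. -/
noncomputable def chr (g : G) : W.K := LinearMap.trace W.K U (actOn hU g)

lemma chr_conj (x g : G) : chr hU (x * g * x⁻¹) = chr hU g := by
  rw [chr, map_mul, LinearMap.trace_mul_comm, ← map_mul, show x⁻¹ * (x * g) = g by group]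
  rfl

variable [Fintype G]

open Classical in
lemma card_mul_fixedDim (C : Subgroup G) :
    (Nat.card C : W.K) * (fixedDim W a U C : W.K) = ∑ g : G with g ∈ C, chr hU g := by
  have h1 := card_mul_finrank (actOn hU) C
  have h2 : Module.finrank W.K (fixedSub (actOn hU) C) = fixedDim W a U C := by
    rw [fixedDim_eq]
    have h3 : (fixedSub (actOn hU) C).map U.subtype = U ⊓ fixedSub (act W a) C := by
      apply le_antisymm
      · rintro _ ⟨x, hx, rfl⟩
        refine ⟨x.2, fun c hc => ?_⟩
        exact congrArg Subtype.val (hx c hc)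
      · rintro x ⟨hx, hx'⟩
        exact ⟨⟨x, hx⟩, fun c hc => Subtype.ext (hx' c hc), rfl⟩
    rw [← h3]
    exact (Submodule.finrank_map_subtype_eq U _).symm
  rw [h2] at h1
  exact h1

end Stable

lemma act_stable {U : Submodule W.K (W.H X)} (h : ∀ g : G, ∀ x ∈ U, gPull W a g x ∈ U) :
    ∀ g : G, ∀ x ∈ U, act W a g x ∈ U := fun g x hx => h g⁻¹ x hx

/-- **The defect satisfies the Brauer relations.** -/
theorem satisfiesBrauer [Finite G] (hc : ∀ g, (a g).hom ≫ f = f ≫ (a g).hom)
    (hF : ScalesClasses W X f q j) : SatisfiesBrauer (defect W a f q j) := by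
  classical
  have : Fintype G := Fintype.ofFinite G
  have hV := act_stable (a := a) (U := tatePart W X f q j)
    (fun g x hx => tatePart_stable hc g hx)
  have hA := act_stable (a := a) (U := algSpan W X (2 * j)) (fun g x hx => algSpan_stable g hx)
  have hkey : ∀ C : Subgroup G, (Nat.card C : W.K) * ((defect W a f q j C : ℤ) : W.K) =
      ∑ g : G with g ∈ C, (chr hV g - chr hA g) := by
    intro C
    rw [defect]
    push_cast
    rw [mul_sub, card_mul_fixedDim hV, card_mul_fixedDim hA, Finset.sum_sub_distrib]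
  refine ⟨fun C => ?_, ?_, ?_⟩
  · rw [defect, fixedDim_eq, fixedDim_eq]
    have h1 := Submodule.finrank_mono (inf_le_inf_right (fixedSub (act W a) C)
      (algSpan_le (W := W) hF))
    omega
  · intro ι _ c C hrel
    have h1 := brauer (K := W.K) c C hrel (fun g => chr hV g - chr hA g)
      (fun x g => by rw [chr_conj, chr_conj]) (fun i => ((defect W a f q j (C i) : ℤ) : W.K))
      (fun i => hkey (C i))
    have h2 : ((∑ i, c i * defect W a f q j (C i) : ℤ) : W.K) = 0 := by
      push_cast
      exact h1
    exact_mod_cast h2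
  · intro ι _ K C hpart
    obtain ⟨-, h2, hle, huniq⟩ := hpart
    set χ : G → W.K := fun g => chr hV g - chr hA g with hχ
    have h3 : ∑ i, ∑ g : G with g ∈ C i, χ g =
        ∑ g : G with g ∈ K, χ g + ((Fintype.card ι : W.K) - 1) * χ 1 := by
      have h4 : ∀ g : G, ∑ i, (if g ∈ C i then χ g else 0) =
          (if g ∈ K then χ g else 0) +
            (if g = 1 then ((Fintype.card ι : W.K) - 1) * χ 1 else 0) := by
        intro g
        by_cases hg : g = 1
        · subst hg
          simp only [Subgroup.one_mem, if_true]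
          rw [Finset.sum_const, Finset.card_univ, nsmul_eq_mul]
          ring
        · rw [if_neg hg, add_zero]
          by_cases hK : g ∈ K
          · obtain ⟨i, hi, hi'⟩ := huniq g hK hg
            rw [if_pos hK, Finset.sum_eq_single i]
            · rw [if_pos hi]
            · intro i' _ hne
              rw [if_neg fun h => hne (hi' i' h)]
            · intro h
              exact absurd (Finset.mem_univ i) h
          · rw [if_neg hK]
            apply Finset.sum_eq_zero
            intro i _
            rw [if_neg fun h => hK (hle i h)]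
      have h5 : ∀ i, ∑ g : G with g ∈ C i, χ g = ∑ g : G, if g ∈ C i then χ g else 0 :=
        fun i => Finset.sum_filter _ _
      rw [Finset.sum_congr rfl fun i _ => h5 i, Finset.sum_comm,
        Finset.sum_congr rfl fun g _ => h4 g, Finset.sum_add_distrib, ← Finset.sum_filter,
        Finset.sum_ite_eq' Finset.univ (1 : G) (fun _ => ((Fintype.card ι : W.K) - 1) * χ 1),
        if_pos (Finset.mem_univ _)]
    have h6 : ((defect W a f q j ⊥ : ℤ) : W.K) = χ 1 := by
      have h7 := hkey ⊥
      rw [Subgroup.card_bot, Nat.cast_one, one_mul] at h7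
      rw [h7]
      have h8 : (Finset.univ.filter fun g : G => g ∈ (⊥ : Subgroup G)) = {1} := by
        ext g
        rw [Finset.mem_filter, Subgroup.mem_bot, Finset.mem_singleton]
        exact ⟨fun h => h.2, fun h => ⟨Finset.mem_univ _, h⟩⟩
      rw [h8, Finset.sum_singleton]
    have h9 : ((∑ i, (Nat.card (C i) : ℤ) * defect W a f q j (C i) : ℤ) : W.K) =
        ((Nat.card K * defect W a f q j K + (Fintype.card ι - 1) * defect W a f q j ⊥ : ℤ) :
          W.K) := by
      push_cast
      rw [Finset.sum_congr rfl fun i _ => hkey (C i), h3, hkey K, h6]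
    exact_mod_cast h9

/-- The conjecture for a quotient and the defect. -/
lemma tateOn_iff (hF : ScalesClasses W X f q j) (H : Subgroup G) :
    TateOn W a f q j H ↔ defect W a f q j H = 0 := by
  have hle : algSpan W X (2 * j) ⊓ fixedSub (act W a) H ≤
      tatePart W X f q j ⊓ fixedSub (act W a) H :=
    inf_le_inf_right _ (algSpan_le (W := W) hF)
  rw [defect, fixedDim_eq, fixedDim_eq]
  constructor
  · intro h
    have h1 : tatePart W X f q j ⊓ fixedSub (act W a) H =
        algSpan W X (2 * j) ⊓ fixedSub (act W a) H := by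
      apply le_antisymm _ hle
      rintro x ⟨hx, hx'⟩
      exact ⟨h x hx (mem_fixed_iff.1 hx'), hx'⟩
    rw [h1, sub_self]
  · intro h x hx hxH
    have h1 : algSpan W X (2 * j) ⊓ fixedSub (act W a) H =
        tatePart W X f q j ⊓ fixedSub (act W a) H :=
      Submodule.eq_of_le_of_finrank_le hle (by omega)
    have h2 : x ∈ algSpan W X (2 * j) ⊓ fixedSub (act W a) H := by
      rw [h1]
      exact ⟨hx, mem_fixed_iff.2 hxH⟩
    exact h2.1

/-! ### Domination -/

section Dom

variable [Fintype G]

variable (W a) in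
/-- The elements of the group ring which map the generalized eigenspace to the algebraic classes. -/
noncomputable def idT (f : X ⟶ X) (q j : ℕ) : Ideal (MonoidAlgebra ℚ G) where
  carrier := {x | ∀ c ∈ tatePart W X f q j, theta W a x c ∈ algSpan W X (2 * j)}
  add_mem' := by
    intro x y hx hy z hz
    rw [map_add, LinearMap.add_apply]
    exact Submodule.add_mem _ (hx z hz) (hy z hz)
  zero_mem' := by
    intro z _
    rw [map_zero, LinearMap.zero_apply]
    exact Submodule.zero_mem _
  smul_mem' := by
    intro c x hx z hz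
    rw [smul_eq_mul, map_mul, Module.End.mul_apply]
    exact theta_stableK a (fun g s hs => algSpan_stable g hs) c (hx z hz)

/-- **Domination for the Tate conjecture.** -/
theorem tateOn_of_dom (hc : ∀ g, (a g).hom ≫ f = f ≫ (a g).hom)
    (H : Subgroup G) (ι : Type) (C : ι → Subgroup G)
    (hC : DomIn (fun _ _ _ ρ => OccursTate W a f q j ρ) H C) (h : ∀ i, TateOn W a f q j (C i)) :
    TateOn W a f q j H := by
  have hst : ∀ (x : MonoidAlgebra ℚ G), ∀ m ∈ tatePart W X f q j,
      theta W a x m ∈ tatePart W X f q j := fun x m hm =>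
    theta_stableK a (fun g s hs => tatePart_stable hc g hs) x hm
  have hr : ∀ x ∈ idT W a f q j, ∀ y, x * y ∈ idT W a f q j := by
    intro x hx y c hc'
    rw [map_mul, Module.End.mul_apply]
    exact hx _ (hst y c hc')
  have hn : ∀ H : Subgroup G, nA H ∈ idT W a f q j ↔ TateOn W a f q j H := by
    intro H
    constructor
    · intro h c hc' hH
      have h1 := h c hc'
      rw [theta_nA_fixed hH] at h1
      exact (Submodule.smul_mem_iff _ (card_ne H)).1 h1
    · intro h c hc'
      exact h _ (hst _ c hc') (fixed_theta_nA H c)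
  rw [← hn]
  refine dom_of_ideal (idT W a f q j) hr ?_ H ι C hC fun i => (hn _).2 (h i)
  intro S hS
  exact occursMod_of_ann a _ hr _ _ hst
    (fun x m hm => theta_stableK a (fun g s hs => algSpan_stable g hs) x hm)
    (fun _ hx => hx) S hS

end Dom

lemma tate_iff_bot : Tate W X f q j ↔ TateOn W a f q j ⊥ :=
  ⟨fun h x hx _ => h hx, fun h x hx => h x hx (fixed_bot' x)⟩

/-- **The Tate conjecture for a variety with a group action.** -/
theorem main [Finite G] (hc : ∀ g, (a g).hom ≫ f = f ≫ (a g).hom)
    (hF : ScalesClasses W X f q j) :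
    (∀ H : Subgroup G, TateOn W a f q j H ↔ defect W a f q j H = 0) ∧
    SatisfiesBrauer (defect W a f q j) ∧
    (Tate W X f q j ↔ CoveredTate W a f q j) ∧
    (∀ (H : Subgroup G) (ι : Type) (C : ι → Subgroup G), DominatesTate W a f q j H C →
      (∀ i, TateOn W a f q j (C i)) → TateOn W a f q j H) ∧
    QuotientLaws (Tate W X f q j) (TateOn W a f q j) ∧
    (¬ Tate W X f q j → AtPrimes (TateOn W a f q j) →
      FreeOccursTate W a f q j ∧ CyclicSubgroups G) := by
  have : Fintype G := Fintype.ofFinite G
  rw [tate_iff_bot (a := a)]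
  obtain ⟨p1, p2, p3, p4, p6, p5⟩ := parts (G := G)
    (Q := fun _ _ _ ρ => OccursTate W a f q j ρ) (TateOn W a f q j)
    (fun H ι C hC h => tateOn_of_dom hc H ι C hC h)
  refine ⟨fun H => tateOn_iff hF H, satisfiesBrauer hc hF, ⟨fun h V _ _ ρ hρ hQ => ?_, fun h => ?_⟩,
    fun H ι C hC h => tateOn_of_dom hc H ι C hC h, ⟨p2, p3, p4, p6⟩, ?_⟩
  · refine p1.1 h V ρ hρ hQ ?_
    obtain ⟨f, -, hadd, -, v, hv⟩ := hQ
    refine ⟨v, fun h0 => hv ?_⟩
    have h2 := hadd 0 0
    rw [add_zero, sub_add_cancel_left, Submodule.neg_mem_iff] at h2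
    rwa [h0]
  · exact p1.2 fun V _ _ ρ hρ hQ _ => h V ρ hρ hQ
  · intro h0 hP
    obtain ⟨⟨V, _, _, ρ, hfree, hocc⟩, hcyc⟩ := p5 h0 hP
    exact ⟨⟨V, _, _, ρ, hfree, hocc⟩, hcyc⟩

end Pool.Agent.U227.Br
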