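import Pool.Agent.U227.FerFix
import Mathlib.Logic.Equiv.Fintype
import Mathlib.Tactic.FinCases

/-!
# Fermat actions: cubics
-/

set_option autoImplicit false
set_option linter.unusedSectionVars false

universe w

namespace Pool.Agent.U227.Fer

/-- The exponents `-1` (`k` times) and `1`. -/
def signs (r k : ℕ) : Fin r → ZMod 3 := fun j => if (j : ℕ) < k then -1 else 1

lemma exists_signs {r : ℕ} (a : Fin r → ZMod 3) (ha : ∀ j, a j ≠ 0) (c : ZMod 3) (hc : c * c = 1) :
    ∃ π : Equiv.Perm (Fin r), ∀ j,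
      a j = c * signs r (Fintype.card {j : Fin r // a j = -c}) (π j) := by
  classical
  set k := Fintype.card {j : Fin r // a j = -c} with hk
  have hkr : k ≤ r := by
    have h1 := Fintype.card_subtype_le (fun j : Fin r => a j = -c)
    rwa [Fintype.card_fin] at h1
  have h2 : Fintype.card {j : Fin r // (j : ℕ) < k} = k := by
    have e : {j : Fin r // (j : ℕ) < k} ≃ Fin k :=
      { toFun := fun j => ⟨j.1, j.2⟩
        invFun := fun j => ⟨⟨j, lt_of_lt_of_le j.2 hkr⟩, j.2⟩
        left_inv := fun j => rfl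
        right_inv := fun j => rfl }
    rw [Fintype.card_congr e, Fintype.card_fin]
  let e : {j : Fin r // a j = -c} ≃ {j : Fin r // (j : ℕ) < k} :=
    Fintype.equivOfCardEq (hk.symm.trans h2.symm)
  refine ⟨e.extendSubtype, fun j => ?_⟩
  rw [signs]
  by_cases h : a j = -c
  · have h3 : ((e.extendSubtype j : Fin r) : ℕ) < k := e.extendSubtype_mem j h
    rw [if_pos h3, h, mul_neg, mul_one]
  · have h3 : ¬ ((e.extendSubtype j : Fin r) : ℕ) < k := e.extendSubtype_not_mem j h
    rw [if_neg h3, mul_one]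
    have h4 : ∀ x c : ZMod 3, x ≠ 0 → c * c = 1 → x ≠ -c → x = c := by decide
    exact h4 _ _ (ha j) hc h

/-- **Normal forms of the exponents for cubics.** -/
lemma cubic_forms {r : ℕ} (a : Fin r → ZMod 3) (ha : ∀ j, a j ≠ 0) :
    ∃ b ∈ {b : Fin r → ZMod 3 | ∃ k : ℕ, 2 * k ≤ r ∧ b = signs r k}, ∃ (u : (ZMod 3)ˣ)
      (π : Equiv.Perm (Fin r)), ∀ j, a j = u * b (π j) := by
  classical
  have h1 : Fintype.card {j : Fin r // a j = -1} + Fintype.card {j : Fin r // a j = - -1} = r := by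
    have h2 := Fintype.card_subtype_compl (fun j : Fin r => a j = -1)
    have h3 : Fintype.card {j : Fin r // a j = - -1} = Fintype.card {j : Fin r // ¬ a j = -1} := by
      refine Fintype.card_congr (Equiv.subtypeEquivRight fun j => ?_)
      have h4 : ∀ x : ZMod 3, x ≠ 0 → (x = - -1 ↔ ¬ x = -1) := by decide
      exact h4 _ (ha j)
    have h5 := Fintype.card_subtype_le (fun j : Fin r => a j = -1)
    rw [Fintype.card_fin] at h2 h5
    rw [h3, h2]
    omega
  by_cases h : 2 * Fintype.card {j : Fin r // a j = -1} ≤ r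
  · obtain ⟨π, hπ⟩ := exists_signs a ha 1 (by decide)
    exact ⟨_, ⟨_, h, rfl⟩, 1, π, hπ⟩
  · obtain ⟨π, hπ⟩ := exists_signs a ha (-1) (by decide)
    exact ⟨_, ⟨_, by omega, rfl⟩, -1, π, hπ⟩

variable {W : Type w} [AddCommGroup W] [Module ℚ W]

/-- **Cubics.** -/
theorem FermatAction.cubic {r : ℕ} (D : FermatAction 3 (Fin r) W) (hc : ∀ j, D.OnlyH (coord j)) :
    (∀ w : W, ∃ c : ℚ, w = c • D.h) ↔ ∀ k : ℕ, 2 * k ≤ r → D.OnlyH (charKer (signs r k)) := by
  rw [(D.fermat hc).2.2 {b | ∃ k : ℕ, 2 * k ≤ r ∧ b = signs r k} fun a ha => cubic_forms a ha]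
  constructor
  · intro h k hk
    exact h _ ⟨k, hk, rfl⟩
  · rintro h _ ⟨k, hk, rfl⟩
    exact h k hk

end Pool.Agent.U227.Fer
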