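import Pool.Agent.U227.LinFix
import Mathlib.Data.ZMod.Basic
import Mathlib.GroupTheory.OrderOfElement

/-!
# Diagonal groups: the kernels of the characters and fixed vectors
-/

set_option autoImplicit false
set_option linter.unusedSectionVars false

universe w

namespace Pool.Agent.U227.Fer

open Pool.Agent.X252.GA Pool.Agent.X252.SCT Pool.Agent.U227.Grp Pool.Agent.U227.Lin

/-- The group of the `ι`-tuples of `d`-th roots of unity, written as exponents. -/
abbrev Diag (d : ℕ) (ι : Type) : Type := Multiplicative (ι → ZMod d)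

variable {d : ℕ} {ι : Type}

/-- The kernel `K_a` of the character `x ↦ ∑ a_j x_j`. -/
def charKer [Fintype ι] (a : ι → ZMod d) : Subgroup (Diag d ι) where
  carrier := {x | ∑ j, a j * x.toAdd j = 0}
  one_mem' := by simp
  mul_mem' := by
    intro x y hx hy
    simp only [Set.mem_ofPred_eq, toAdd_mul, Pi.add_apply, mul_add, Finset.sum_add_distrib] at *
    rw [hx, hy, add_zero]
  inv_mem' := by
    intro x hx
    simp only [Set.mem_ofPred_eq, toAdd_inv, Pi.neg_apply, mul_neg, Finset.sum_neg_distrib] at *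
    rw [hx, neg_zero]

/-- The roots of unity acting on the coordinate `j`. -/
def coord (j : ι) : Subgroup (Diag d ι) where
  carrier := {x | ∀ i, i ≠ j → x.toAdd i = 0}
  one_mem' := by intro i _; rfl
  mul_mem' := by
    intro x y hx hy i hi
    rw [toAdd_mul, Pi.add_apply, hx i hi, hy i hi, add_zero]
  inv_mem' := by
    intro x hx i hi
    rw [toAdd_inv, Pi.neg_apply, hx i hi, neg_zero]

lemma mem_charKer [Fintype ι] {a : ι → ZMod d} {x : Diag d ι} :
    x ∈ charKer a ↔ ∑ j, a j * x.toAdd j = 0 := Iff.rfl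

lemma coord_le [Fintype ι] {a : ι → ZMod d} {j : ι} (h : a j = 0) : coord j ≤ charKer a := by
  classical
  intro x hx
  rw [mem_charKer]
  refine Finset.sum_eq_zero fun i _ => ?_
  by_cases hi : i = j
  · rw [hi, h, zero_mul]
  · rw [hx i hi, mul_zero]

section
variable {V : Type} [AddCommGroup V] [Module ℚ V] {G : Type} [Group G]
  {ρ : G →* Module.End ℚ V}

/-- In an irreducible representation of a commutative group a subgroup with a nonzero fixed vector acts
trivially. -/
lemma le_ker_of_hasFixed (hab : ∀ x y : G, x * y = y * x) (hρ : Irred ρ) {H : Subgroup G}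
    (h : HasFixed ρ H) : H ≤ ρ.ker := by
  obtain ⟨v, hv0, hv⟩ := h
  let U : Submodule ℚ V :=
    { carrier := {x | ∀ g ∈ H, ρ g x = x}
      add_mem' := fun hx hy g hg => by rw [map_add, hx g hg, hy g hg]
      zero_mem' := fun g _ => map_zero _
      smul_mem' := fun r x hx g hg => by rw [map_smul, hx g hg] }
  have hU : ∀ x, x ∈ U ↔ ∀ g ∈ H, ρ g x = x := fun _ => Iff.rfl
  rcases hρ U (fun k u hu => by
    rw [hU] at hu ⊢
    intro g hg
    rw [← Module.End.mul_apply, ← map_mul, hab g k, map_mul, Module.End.mul_apply, hu g hg]) with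
    h1 | h1
  · have h2 : v ∈ U := hv
    rw [h1, Submodule.mem_bot] at h2
    exact (hv0 h2).elim
  · intro g hg
    rw [MonoidHom.mem_ker]
    refine LinearMap.ext fun x => ?_
    have h2 : x ∈ U := by rw [h1]; trivial
    exact h2 g hg

end

/-- **Irreducible representations of diagonal groups.** -/
lemma exists_char [NeZero d] [Fintype ι] {V : Type} [AddCommGroup V] [Module ℚ V]
    {ρ : Diag d ι →* Module.End ℚ V} (hρ : Irred ρ) (hV : ∃ v : V, v ≠ 0) :
    ∃ a : ι → ZMod d, charKer a = ρ.ker := by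
  classical
  have hab : ∀ x y : Diag d ι, x * y = y * x := mul_comm
  obtain ⟨v, hv⟩ := hV
  obtain ⟨⟨K, g, hg⟩, hK⟩ := dominated_cocyclic hab ⊥ V ρ hρ
    ⟨v, hv, fun h hh => by rw [Subgroup.mem_bot.1 hh, map_one]; rfl⟩
  have hKle : K ≤ ρ.ker := le_ker_of_hasFixed hab hρ hK
  have hexp : ∀ x : Diag d ι, x ^ d = 1 := by
    intro x
    apply Multiplicative.toAdd.injective
    rw [toAdd_pow, toAdd_one]
    funext j
    rw [Pi.smul_apply, Pi.zero_apply, nsmul_eq_mul, ZMod.natCast_self, zero_mul]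
  have hd : d ≠ 0 := NeZero.ne d
  -- natural exponents
  have hnat : ∀ x : Diag d ι, ∃ m : ℕ, ρ x * (ρ g) ^ m = 1 := by
    intro x
    obtain ⟨m, hm⟩ := hg x
    refine ⟨(m % d).toNat, ?_⟩
    have h1 : g ^ m = g ^ (m % d).toNat := by
      have h2 : (0 : ℤ) ≤ m % d := Int.emod_nonneg m (by exact_mod_cast hd)
      rw [← zpow_natCast, Int.toNat_of_nonneg h2]
      conv_lhs => rw [← Int.emod_add_mul_ediv m d, zpow_add, zpow_mul, zpow_natCast, hexp, one_zpow, mul_one]
    rw [h1] at hm
    have h3 := hKle hm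
    rw [MonoidHom.mem_ker, map_mul, map_pow] at h3
    exact h3
  set n := orderOf (ρ g) with hn
  have hnd : n ∣ d := by
    apply orderOf_dvd_of_pow_eq_one
    rw [← map_pow, hexp, map_one]
  obtain ⟨q, hq⟩ := hnd
  have hn0 : 0 < n := Nat.pos_of_ne_zero fun h => hd (by rw [hq, h, zero_mul])
  have hq0 : 0 < q := Nat.pos_of_ne_zero fun h => hd (by rw [hq, h, mul_zero])
  choose m hm using fun j : ι => hnat (Multiplicative.ofAdd (Pi.single j 1))
  have hcomm : ∀ x y : Diag d ι, Commute (ρ x) (ρ y) := fun x y => by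
    rw [Commute, SemiconjBy, ← map_mul, ← map_mul, mul_comm]
  -- the value of the representation
  have hval : ∀ x : Diag d ι, ρ x * (ρ g) ^ (∑ j, (x.toAdd j).val * m j) = 1 := by
    intro x
    have h1 : x = ∏ j, (Multiplicative.ofAdd (Pi.single j (1 : ZMod d)) : Diag d ι) ^
        (x.toAdd j).val := by
      apply Multiplicative.toAdd.injective
      rw [toAdd_prod]
      funext i
      rw [Finset.sum_apply, Finset.sum_eq_single i]
      · rw [toAdd_pow, toAdd_ofAdd, Pi.smul_apply, Pi.single_eq_same, nsmul_eq_mul, mul_one,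
          ZMod.natCast_zmod_val]
      · intro j _ hj
        rw [toAdd_pow, toAdd_ofAdd, Pi.smul_apply, Pi.single_eq_of_ne (Ne.symm hj), smul_zero]
      · intro h
        exact absurd (Finset.mem_univ i) h
    have h2 : ∀ s : Finset ι, ρ (∏ j ∈ s, (Multiplicative.ofAdd (Pi.single j (1 : ZMod d)) :
        Diag d ι) ^ (x.toAdd j).val) * (ρ g) ^ (∑ j ∈ s, (x.toAdd j).val * m j) = 1 := by
      intro s
      induction s using Finset.induction_on with
      | empty => rw [Finset.prod_empty, Finset.sum_empty, map_one, pow_zero, mul_one]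
      | insert j s hj ih =>
        rw [Finset.prod_insert hj, Finset.sum_insert hj, map_mul, pow_add, map_pow,
          mul_assoc, ← mul_assoc (ρ _) ((ρ g) ^ _) ((ρ g) ^ _),
          ((hcomm _ g).pow_right ((x.toAdd j).val * m j)).eq, mul_assoc, ih, mul_one, mul_comm
          (x.toAdd j).val (m j), pow_mul, ← (((hcomm _ g).pow_right (m j))).mul_pow, hm, one_pow]
    conv_lhs => rw [h1]
    have h3 := h2 Finset.univ
    convert h3 using 3
    rw [← h1]
  have hone : ∀ x : Diag d ι, ρ x = 1 ↔ n ∣ ∑ j, (x.toAdd j).val * m j := by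
    intro x
    rw [hn, orderOf_dvd_iff_pow_eq_one]
    constructor
    · intro h
      have h1 := hval x
      rwa [h, one_mul] at h1
    · intro h
      have h1 := hval x
      rwa [h, mul_one] at h1
  refine ⟨fun j => ((m j * q : ℕ) : ZMod d), ?_⟩
  ext x
  rw [mem_charKer, MonoidHom.mem_ker, hone]
  have h1 : ∑ j, ((m j * q : ℕ) : ZMod d) * x.toAdd j =
      (((∑ j, (x.toAdd j).val * m j) * q : ℕ) : ZMod d) := by
    rw [Finset.sum_mul, Nat.cast_sum]
    refine Finset.sum_congr rfl fun j _ => ?_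
    conv_lhs => rw [← ZMod.natCast_zmod_val (x.toAdd j), ← Nat.cast_mul]
    congr 1
    ring
  have h2 : ∀ t : ℕ, d ∣ t * q ↔ n ∣ t := fun t => by
    rw [hq]
    exact Nat.mul_dvd_mul_iff_right hq0
  rw [h1, ZMod.natCast_eq_zero_iff, h2]

variable {W : Type w} [AddCommGroup W] [Module ℚ W]

/-- **Fixed vectors of subgroups of diagonal groups.** -/
theorem diag_iff [NeZero d] [Fintype ι] (σ : Diag d ι →* Module.End ℚ W) {S : Submodule ℚ W}
    (hS : ∀ g, ∀ s ∈ S, σ g s ∈ S) (hc : ∀ j, FixIn σ S (coord j)) (H : Subgroup (Diag d ι)) :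
    FixIn σ S H ↔ ∀ a : ι → ZMod d, (∀ j, a j ≠ 0) → H ≤ charKer a → FixIn σ S (charKer a) := by
  classical
  have : Fintype (Diag d ι) := Fintype.ofFinite _
  constructor
  · intro h a _ hle w hw
    exact h w fun g hg => hw g (hle hg)
  · intro h
    refine (fixIn_iff σ hS H).2 fun V _ _ ρ hρ hocc hfix => ?_
    have hV : ∃ v : V, v ≠ 0 := by
      obtain ⟨v, hv, -⟩ := hfix
      exact ⟨v, hv⟩
    obtain ⟨a, ha⟩ := exists_char hρ hV
    have hle := le_ker_of_hasFixed (fun x y : Diag d ι => mul_comm x y) hρ hfix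
    obtain ⟨v, hv⟩ := hV
    have hker : ∀ L : Subgroup (Diag d ι), L ≤ charKer a → HasFixed ρ L := fun L hL =>
      ⟨v, hv, fun g hg => by
        have h1 := hL hg
        rw [ha, MonoidHom.mem_ker] at h1
        rw [h1]
        rfl⟩
    refine (fixIn_iff σ hS (charKer a)).1 (h a (fun j hj => ?_) (ha ▸ hle)) V ρ hρ hocc
      (hker _ le_rfl)
    exact (fixIn_iff σ hS (coord j)).1 (hc j) V ρ hρ hocc (hker _ (coord_le hj))

/-- The permuted exponents. -/
def permute (π : Equiv.Perm ι) (x : Diag d ι) : Diag d ι :=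
  Multiplicative.ofAdd fun j => x.toAdd (π⁻¹ j)

/-- A rational vector space `W` with an action `σ` of the diagonal group and an action `τ` of the permutations
which permute its coordinates, and a vector `h` fixed by both. The example is `W = A^i(X)`, `h = h^i`,
for a hypersurface `X` with the equation `∑ x_j ^ d + f = 0`, where the `x_j` with index `j` in `ι` do not
occur in `f`. -/
structure FermatAction (d : ℕ) (ι : Type) (W : Type w) [AddCommGroup W] [Module ℚ W] where
  /-- the action of the roots of unity -/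
  σ : Diag d ι →* Module.End ℚ W
  /-- the action of the permutations -/
  τ : Equiv.Perm ι →* Module.End ℚ W
  /-- compatibility -/
  comm : ∀ (π : Equiv.Perm ι) (x : Diag d ι) (w : W), τ π (σ x w) = σ (permute π x) (τ π w)
  /-- the invariant vector -/
  h : W
  /-- invariance -/
  σ_h : ∀ x, σ x h = h
  /-- invariance -/
  τ_h : ∀ π, τ π h = h

/-- The vectors fixed by `H` are multiples of `h`. -/
def FermatAction.OnlyH (D : FermatAction d ι W) (H : Subgroup (Diag d ι)) : Prop :=
  ∀ w : W, (∀ x ∈ H, D.σ x w = w) → ∃ c : ℚ, w = c • D.h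

namespace FermatAction

variable (D : FermatAction d ι W)

lemma onlyH_iff (H : Subgroup (Diag d ι)) : D.OnlyH H ↔ FixIn D.σ (Submodule.span ℚ {D.h}) H := by
  refine forall₂_congr fun w _ => ?_
  rw [Submodule.mem_span_singleton]
  exact ⟨fun ⟨c, hc⟩ => ⟨c, hc.symm⟩, fun ⟨c, hc⟩ => ⟨c, hc.symm⟩⟩

lemma stable (g : Diag d ι) (s : W) (hs : s ∈ Submodule.span ℚ {D.h}) :
    D.σ g s ∈ Submodule.span ℚ {D.h} := by
  obtain ⟨c, rfl⟩ := Submodule.mem_span_singleton.1 hs
  rw [map_smul, D.σ_h]
  exact hs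

variable [Fintype ι]

lemma onlyH_perm (a : ι → ZMod d) (π : Equiv.Perm ι) (h : D.OnlyH (charKer a)) :
    D.OnlyH (charKer fun j => a (π j)) := by
  intro w hw
  have h1 : D.τ π⁻¹ (D.τ π w) = w := by
    rw [← Module.End.mul_apply, ← map_mul, inv_mul_cancel, map_one]
    rfl
  obtain ⟨c, hc⟩ := h (D.τ π w) fun y hy => by
    have h2 : permute π (Multiplicative.ofAdd fun j => y.toAdd (π j)) = y := by
      apply Multiplicative.toAdd.injective
      funext j
      exact congrArg y.toAdd (π.apply_symm_apply j)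
    have h3 : (Multiplicative.ofAdd fun j => y.toAdd (π j) : Diag d ι) ∈
        charKer fun j => a (π j) := by
      rw [mem_charKer] at hy ⊢
      rw [← hy]
      exact Equiv.sum_comp π fun j => a j * y.toAdd j
    rw [← h2, ← D.comm, hw _ h3]
  refine ⟨c, ?_⟩
  rw [← h1, hc, map_smul, D.τ_h]

omit W in
lemma charKer_unit (a : ι → ZMod d) (u : (ZMod d)ˣ) :
    charKer (fun j => (u : ZMod d) * a j) = charKer a := by
  ext x
  rw [mem_charKer, mem_charKer]
  have h1 : ∑ j, (u : ZMod d) * a j * x.toAdd j = u * ∑ j, a j * x.toAdd j := by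
    rw [Finset.mul_sum]
    exact Finset.sum_congr rfl fun j _ => mul_assoc _ _ _
  rw [h1]
  exact Units.mul_right_eq_zero u

/-- **Hypersurfaces with a Fermat part.** -/
theorem fermat [NeZero d] (hc : ∀ j, D.OnlyH (coord j)) :
    (∀ H : Subgroup (Diag d ι), D.OnlyH H ↔
      ∀ a : ι → ZMod d, (∀ j, a j ≠ 0) → H ≤ charKer a → D.OnlyH (charKer a)) ∧
    (∀ H : Subgroup (Diag d ι), (∀ a : ι → ZMod d, (∀ j, a j ≠ 0) → ¬ H ≤ charKer a) →
      D.OnlyH H) ∧
    ∀ R : Set (ι → ZMod d), (∀ a : ι → ZMod d, (∀ j, a j ≠ 0) →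
      ∃ b ∈ R, ∃ (u : (ZMod d)ˣ) (π : Equiv.Perm ι), ∀ j, a j = u * b (π j)) →
        ((∀ w : W, ∃ c : ℚ, w = c • D.h) ↔ ∀ b ∈ R, D.OnlyH (charKer b)) := by
  have h1 : ∀ H : Subgroup (Diag d ι), D.OnlyH H ↔
      ∀ a : ι → ZMod d, (∀ j, a j ≠ 0) → H ≤ charKer a → D.OnlyH (charKer a) := by
    intro H
    rw [onlyH_iff, diag_iff D.σ D.stable (fun j => (D.onlyH_iff _).1 (hc j)) H]
    exact forall₃_congr fun a _ _ => (D.onlyH_iff _).symm
  refine ⟨h1, fun H hH => (h1 H).2 fun a ha hle => (hH a ha hle).elim, fun R hR => ?_⟩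
  constructor
  · intro h b _ w _
    exact h w
  · intro h w
    refine (h1 ⊥).2 (fun a ha _ => ?_) w fun x hx => ?_
    · obtain ⟨b, hb, u, π, hab⟩ := hR a ha
      have h2 : a = fun j => (u : ZMod d) * b (π j) := funext hab
      rw [h2, charKer_unit (fun j => b (π j)) u]
      exact D.onlyH_perm b π (h b hb)
    · rw [Subgroup.mem_bot.1 hx, map_one]
      rfl

end FermatAction

end Pool.Agent.U227.Fer
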