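import Pool.Agent.U227.FrN

/-!
# The inverse of the power of the Lefschetz operator over a finite field: the main theorem
-/

set_option autoImplicit false
set_option linter.unusedSectionVars false

open CategoryTheory AlgebraicGeometry Finset Polynomial

universe u v

namespace Pool.Agent.U227.Fr

open Pool.Agent.H914 VarClass Obj WeilCohomology Pool.Agent.U227.Grp

variable {k : Type u} [Field k] {𝒱 : VarClass k} {ops : CycleOps 𝒱}
  {W : WeilCohomology.{u, v} ops} {X : 𝒱.Obj} {D : X.Cycles} {f : X ⟶ X} {q : ℕ}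

/-- Traces on one graded piece are rational. -/
lemma trace_rat (hq : 1 < q) (hRH : RiemannHypothesis W X f q) {A : Module.End W.K (W.H X)}
    (hA : ROp W X 0 A) (d : ℕ) :
    ∃ t : ℚ, LinearMap.trace W.K (W.H X) (A * proj (W.isInternal X) d) = t := by
  have hK := kunneth_of_rh hq hRH
  have h1 := rop_mul0 hA (rop_proj hK d)
  obtain ⟨t, ht⟩ := rop_str _ h1
  have h2 : par (W.isInternal X) * (A * proj (W.isInternal X) d) =
      (-1 : W.K) ^ d • (A * proj (W.isInternal X) d) := by
    apply LinearMap.ext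
    intro x
    have h3 : (A * proj (W.isInternal X) d) x ∈ W.gr X d :=
      kop_gr (kop_of_rop hA) (proj_mem (W.isInternal X) d x)
    rw [Module.End.mul_apply, par, scal_apply (W.isInternal X) _ h3, LinearMap.smul_apply]
  rw [h2, map_smul] at ht
  refine ⟨(-1) ^ d * t, ?_⟩
  push_cast
  rw [← ht, smul_eq_mul, ← mul_assoc, ← mul_pow]
  norm_num

/-- Traces on a subspace of a graded piece are rational. -/
lemma trace_sub (hq : 1 < q) (hRH : RiemannHypothesis W X f q) {A : Module.End W.K (W.H X)}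
    (hA : ROp W X 0 A) {d : ℕ} {T : Submodule W.K (W.H X)} (hT : T ≤ W.gr X d)
    (hAT : ∀ y ∈ W.gr X d, A y ∈ T) (B : Module.End W.K T)
    (hB : ∀ y : T, (B y : W.H X) = A y) : ∃ t : ℚ, LinearMap.trace W.K T B = t := by
  obtain ⟨t, ht⟩ := trace_rat hq hRH hA d
  refine ⟨t, ?_⟩
  rw [← ht, ← LinearMap.trace_restrict_eq_of_forall_mem T (A * proj (W.isInternal X) d)
    (fun x => hAT _ (proj_mem (W.isInternal X) d x))]
  congr 1
  apply LinearMap.ext
  intro y
  apply Subtype.ext
  rw [hB]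
  change A y = A (proj (W.isInternal X) d y)
  rw [proj_same _ (hT y.2)]

/-- The decomposition of the polynomial annihilating the Frobenius. -/
lemma exists_bezout (hD : X.IsCyc 1 D) (hHL : HardLefschetz W X D) (h1 : (1 : W.H X) ≠ 0)
    (hF : IsFrobenius W X f q) (hq : 1 < q) (hRH : RiemannHypothesis W X f q) {i : ℕ}
    (hi : i ≤ X.dim) :
    ∃ (a : ℚ) (l : ℕ) (P₀ r s : ℚ[X]), r * (Polynomial.X - C a) ^ l + s * P₀ = 1 ∧ P₀ ≠ 0 ∧
      (∀ y ∈ W.gr X (2 * X.dim - i),
        ev (W.map f).toLinearMap ((Polynomial.X - C a) ^ l * P₀) y = 0) ∧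
      ∀ y ∈ W.gr X (2 * X.dim - i),
        ev (W.map f).toLinearMap (r * (Polynomial.X - C a) ^ l) y ∈ trPart W X i := by
  obtain ⟨P, hP0, hPa, -⟩ := hRH (2 * X.dim - i)
  have hgr : ∀ (g : ℚ[X]), ∀ y ∈ W.gr X (2 * X.dim - i),
      ev (W.map f).toLinearMap g y ∈ W.gr X (2 * X.dim - i) := fun g y hy =>
    kop_gr (kop_of_rop (rop_ev (rop_map f) g)) hy
  by_cases hpar : ∃ j, 2 * j = i
  · obtain ⟨j, rfl⟩ := hpar
    obtain ⟨P₀, hP, hnd⟩ := Polynomial.exists_eq_pow_rootMultiplicity_mul_and_not_dvd P hP0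
      ((q : ℚ) ^ (X.dim - j))
    set a : ℚ := (q : ℚ) ^ (X.dim - j) with ha
    set l := P.rootMultiplicity a with hl
    have hcop : IsCoprime ((Polynomial.X - C a) ^ l) P₀ :=
      ((irreducible_X_sub_C a).coprime_iff_not_dvd.2 hnd).pow_left
    obtain ⟨r, s, hrs⟩ := hcop
    have hP₀ : P₀ ≠ 0 := by
      rintro rfl
      exact hnd (dvd_zero _)
    have hkill : ∀ y ∈ W.gr X (2 * X.dim - 2 * j),
        ev (W.map f).toLinearMap ((Polynomial.X - C a) ^ l * P₀) y = 0 := by
      intro y hy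
      rw [← hP, ev_eq]
      exact hPa y hy
    refine ⟨a, l, P₀, r, s, hrs, hP₀, hkill, ?_⟩
    intro y hy
    apply mem_trPart hi (hgr _ y hy)
    intro c hc
    induction hc using Submodule.span_induction with
    | mem c hc =>
      obtain ⟨p, hp, z, hz, rfl⟩ := hc
      obtain rfl : p = j := by omega
      have h2 := tr_ev (frob_adj hD hHL h1 hF (by omega) (by omega) hz) P₀
        (ev (W.map f).toLinearMap (r * (Polynomial.X - C a) ^ l) y)
      rw [← ev_mul_apply, show P₀ * (r * (Polynomial.X - C a) ^ l) =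
        r * ((Polynomial.X - C a) ^ l * P₀) by ring, ev_mul_apply, hkill y hy, map_zero, zero_mul,
        map_zero] at h2
      rcases mul_eq_zero.1 h2.symm with h3 | h3
      · exfalso
        have h4 : P₀.eval a = 0 := (Rat.cast_eq_zero (α := W.K)).1 h3
        exact hnd (dvd_iff_isRoot.2 h4)
      · exact h3
    | zero => rw [mul_zero, map_zero]
    | add x y _ _ hx hy => rw [mul_add, map_add, hx, hy, add_zero]
    | smul t x _ hx => rw [mul_smul_comm, map_smul, hx, smul_zero]
  · refine ⟨0, 0, P, 1, 0, by ring, hP0, ?_, ?_⟩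
    · intro y hy
      rw [pow_zero, one_mul, ev_eq]
      exact hPa y hy
    · intro y hy
      apply mem_trPart hi (hgr _ y hy)
      intro c hc
      have h2 : algSpan W X i = ⊥ := by
        rw [algSpan, Submodule.span_eq_bot]
        rintro _ ⟨p, hp, -⟩
        exact absurd ⟨p, hp⟩ hpar
      rw [h2, Submodule.mem_bot] at hc
      rw [hc, mul_zero, map_zero]

/-- **One nonzero class for every rational factor.** -/
theorem exact_of_factors (hD : X.IsCyc 1 D) (hHL : HardLefschetz W X D)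
    (hF : IsFrobenius W X f q) (hq : 1 < q) (hRH : RiemannHypothesis W X f q) {i : ℕ}
    (hi : i ≤ X.dim) (hsq : SquarefreeOn (W.map f).toLinearMap (trPart W X i))
    (h : ∀ Q : ℚ[X], Irreducible Q →
      (∃ y ∈ rootPart (W.map f).toLinearMap (trPart W X i) Q, y ≠ 0) →
      ∃ z, (X.prod X).IsCyc i z ∧
        ∃ y ∈ rootPart (W.map f).toLinearMap (trPart W X i) Q, W.corr (W.cl _ z) y ≠ 0) :
    ∃ φ' ∈ KOp W X X ((i : ℤ) - X.dim),
      ∀ v ∈ W.gr X i, φ' (lp W D (X.dim - i) v) = v := by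
  classical
  by_cases h1 : (1 : W.H X) = 0
  · refine ⟨0, Submodule.zero_mem _, fun v _ => ?_⟩
    rw [LinearMap.zero_apply, ← one_mul v, h1, zero_mul]
  obtain ⟨hst, hsq⟩ := hsq
  obtain ⟨a, l, P₀, r, s, hbez, hP0, hkill, hmem⟩ := exists_bezout hD hHL h1 hF hq hRH hi
  set F : Module.End W.K (W.H X) := (W.map f).toLinearMap with hFdef
  set T := trPart W X i with hT
  set e : ℚ[X] := r * (Polynomial.X - C a) ^ l with he
  have hTgr : T ≤ W.gr X (2 * X.dim - i) := inf_le_left
  have hropF : ROp W X 0 F := rop_map f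
  have hFk : ∀ k : ℕ, ROp W X 0 (F ^ k) := by
    intro k
    obtain ⟨Y, hY, hY'⟩ := hropF
    refine ⟨_, hY.pow0 k, ?_⟩
    beta_reduce
    rw [hY']
  have hre : ∀ (g : ℚ[X]) (y : T), ((ev (F.restrict hst) g y : T) : W.H X) = ev F g y :=
    fun g y => restrict_ev hst (g.map (algebraMap ℚ W.K)) y
  have hrp : ∀ (k : ℕ) (y : T), ((((F.restrict hst) ^ k) y : T) : W.H X) = (F ^ k) y := by
    intro k y
    have h2 := restrict_ev hst (Polynomial.X ^ k) y
    rw [map_pow, map_pow, aeval_X, aeval_X] at h2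
    exact h2
  let M : Submodule W.K (Module.End W.K T) :=
    { carrier := {u | ∃ φ ∈ KOp W X X ((i : ℤ) - X.dim),
        ∀ y : T, (u y : W.H X) = lp W D (X.dim - i) (φ y)}
      add_mem' := by
        rintro u u' ⟨φ, hφ, h2⟩ ⟨φ', hφ', h3⟩
        refine ⟨φ + φ', Submodule.add_mem _ hφ hφ', fun y => ?_⟩
        rw [LinearMap.add_apply, Submodule.coe_add, h2, h3, LinearMap.add_apply, map_add]
      zero_mem' := ⟨0, Submodule.zero_mem _, fun y => by
        rw [LinearMap.zero_apply, LinearMap.zero_apply, map_zero, Submodule.coe_zero]⟩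
      smul_mem' := by
        rintro t u ⟨φ, hφ, h2⟩
        refine ⟨t • φ, Submodule.smul_mem _ _ hφ, fun y => ?_⟩
        rw [LinearMap.smul_apply, Submodule.coe_smul, h2, LinearMap.smul_apply, map_smul] }
  have hM : ∀ u, u ∈ M ↔ ∃ φ ∈ KOp W X X ((i : ℤ) - X.dim),
        ∀ y : T, (u y : W.H X) = lp W D (X.dim - i) (φ y) := fun _ => Iff.rfl
  have hone : (1 : Module.End W.K T) ∈ M := by
    apply one_mem hsq M ?_ a l P₀ r s hbez hP0 ?_ ?_ ?_
    · rintro u ⟨φ, hφ, h2⟩
      refine ⟨φ ∘ₗ F, KOp.cast (KOp.comp hφ (kop_of_rop hropF)) (by ring), fun y => ?_⟩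
      rw [Module.End.mul_apply, h2]
      rfl
    · apply LinearMap.ext
      intro y
      apply Subtype.ext
      rw [hre, hkill y (hTgr y.2)]
      rfl
    · intro k
      refine trace_sub hq hRH (A := F ^ k * ev F e) (rop_mul0 (hFk k) (rop_ev hropF e)) hTgr ?_ _ ?_
      · intro y hy
        exact kop_trPart (kop_of_rop (hFk k)) hi (hmem y hy)
      · intro y
        rw [Module.End.mul_apply, hrp, hre, Module.End.mul_apply]
    · intro Q hQ hy
      obtain ⟨y, hy0, hy⟩ := hy
      obtain ⟨z, hz, x, hx, hx0⟩ := h Q hQ ⟨y, ⟨y.2, by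
        have h2 := hre Q y
        rw [hy] at h2
        exact h2.symm⟩, fun h2 => hy0 (Subtype.ext h2)⟩
      set U := lcorr W D i z with hU
      have hropU : ROp W X 0 U := rop_lcorr hD hi hz
      have hUT : ∀ y ∈ T, U y ∈ T := fun y hy => kop_trPart (kop_of_rop hropU) hi hy
      refine ⟨U.restrict hUT, ⟨W.corr (W.cl _ z), KOp.gen (by ring) hz, fun y => rfl⟩, ?_, ?_,
        ⟨x, hx.1⟩, ?_, ?_⟩
      · apply LinearMap.ext
        intro y
        apply Subtype.ext
        exact lcorr_comm hD hHL h1 hF (by omega) hi hz (y : W.H X)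
      · intro k
        refine trace_sub hq hRH (A := U * (F ^ k * ev F e))
          (rop_mul0 hropU (rop_mul0 (hFk k) (rop_ev hropF e))) hTgr ?_ _ ?_
        · intro y hy
          exact hUT _ (kop_trPart (kop_of_rop (hFk k)) hi (hmem y hy))
        · intro y
          have h5 : (((F.restrict hst) ^ k * ev (F.restrict hst) e) y : W.H X) =
              (F ^ k * ev F e) y := by
            rw [Module.End.mul_apply, hrp, hre, Module.End.mul_apply]
          exact congrArg U h5
      · apply Subtype.ext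
        rw [hre]
        exact hx.2
      · intro h2
        apply hx0
        have h3 : (LinearMap.mulLeft W.K (W.cl X D) ^ (X.dim - i)) (W.corr (W.cl _ z) x) = 0 := by
          rw [← lp_eq]
          exact congrArg Subtype.val h2
        have h4 : W.corr (W.cl _ z) x ∈ W.gr X i := by
          have h6 : W.corr (W.cl _ z) ∈ KOp W X X ((i : ℤ) - X.dim) := KOp.gen (by ring) hz
          have h5 := KOp.isHom h6 (2 * X.dim - i : ℕ) x (by rw [grZ_natCast]; exact hTgr hx.1)
          rwa [show ((2 * X.dim - i : ℕ) : ℤ) + 2 * ((i : ℤ) - X.dim) = i by omega,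
            grZ_natCast] at h5
        exact (hHL i hi).1 _ h4 h3
  obtain ⟨φ, hφ, h2⟩ := (hM 1).1 hone
  exact exact_of_trPart hD hHL hi hφ (fun y hy => (h2 ⟨y, hy⟩).symm)

end Pool.Agent.U227.Fr
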