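import Pool.Agent.U227.GapTop

/-!
# The gap theorem: the conjectures D and B
-/

set_option autoImplicit false
set_option linter.unusedSectionVars false

open CategoryTheory AlgebraicGeometry Finset Polynomial

universe u v

namespace Pool.Agent.U227.Gap

open Pool.Agent.H914 Pool.Agent.H447 VarClass Obj WeilCohomology Pool.Agent.U227.Grp
  Pool.Agent.U227.Fr

variable {k : Type u} [Field k] {𝒱 : VarClass k} {ops : CycleOps 𝒱}
  {W : WeilCohomology.{u, v} ops} {X : 𝒱.Obj} {D : X.Cycles} {f : X ⟶ X} {q : ℕ}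

lemma rop_lp (hD : X.IsCyc 1 D) (m : ℕ) : ROp W X (m : ℤ) (lp W D m) := by
  rw [lp_eq]
  obtain ⟨Y, hY, hY'⟩ := rop_mulLeft (W := W) hD
  refine ⟨_, (hY.pow m).cast (by ring), ?_⟩
  rw [hY']

lemma rop_cast {d e : ℤ} {y : Module.End W.K (W.H X)} (h : ROp W X d y) (hde : d = e) :
    ROp W X e y := hde ▸ h

/-- The parity commutes with the power of the Lefschetz operator. -/
lemma par_lp (hD : X.IsCyc 1 D) (m : ℕ) :
    par (W.isInternal X) * lp W D m = lp W D m * par (W.isInternal X) := by
  have h1 : IsHom (W.gr X) (2 * (m : ℤ)) (lp W D m) := rop_opAlg.hom (rop_lp hD m)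
  exact h1.par_comm (W.isInternal X)

section D

/-- **D below the middle from D in the middle.** If numerically trivial correspondences of degree zero
vanish, then also those of negative degree. -/
theorem d_below (hD : X.IsCyc 1 D) (hHL : HardLefschetz W X D)
    (h : HomEqNumIn W (X.prod X) X.dim) {p : ℕ} (hp : p ≤ X.dim) :
    HomEqNumIn W (X.prod X) p := by
  intro z hz hnum
  rw [dim_prod] at hnum
  set c := X.dim - p with hc
  set Z : Module.End W.K (W.H X) := W.corr (W.cl _ z) with hZ
  have hZr : ROp W X (-(c : ℤ)) Z :=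
    ⟨fun W => W.corr (W.cl _ z), Or.inl ⟨p, by omega, z, hz, fun _ => rfl⟩, rfl⟩
  -- vanishing of operators of degree zero
  have hzero : ∀ A : Module.End W.K (W.H X), ROp W X 0 A →
      (∀ w, (X.prod X).IsCyc X.dim w →
        LinearMap.trace W.K (W.H X) (par (W.isInternal X) * (A * W.corr (W.cl _ w))) = 0) →
      A = 0 := by
    intro A hA htr
    obtain ⟨y, hy, rfl⟩ := cyc_of_rop hA
    rw [h y hy (fun w hw => ?_), corr_zero]
    rw [dim_prod, show X.dim + X.dim - X.dim = X.dim by omega] at hw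
    have h2 := htr (ops.pull (swap X X) w) (ops.pull_mem _ hw)
    rw [str_eq_deg (by omega) hy (ops.pull_mem _ hw)] at h2
    have h3 : (X.prod X).V.degCycle (ops.mul y (ops.pull (swap X X) (ops.pull (swap X X) w))) =
        (X.prod X).V.degCycle (ops.mul y w) := by
      have h4 := tr_mul_cl (W := W) hy (ops.pull_mem (swap X X) (ops.pull_mem (swap X X) hw))
        (by rw [dim_prod])
      rw [W.cl_pull, W.cl_pull, map_swap_swap, tr_mul_cl hy hw (by rw [dim_prod])] at h4
      exact_mod_cast h4.symm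
    rw [h3] at h2
    exact_mod_cast h2
  have hnum' : ∀ B : Module.End W.K (W.H X), ROp W X (c : ℤ) B →
      LinearMap.trace W.K (W.H X) (par (W.isInternal X) * (Z * B)) = 0 := by
    rintro B ⟨Y, ⟨r, hr, w, hw, hY⟩ | ⟨hd, -⟩, rfl⟩
    · rw [hY, str_eq_deg (by omega) hz hw, hnum _ ?_, Rat.cast_zero]
      rw [show X.dim + X.dim - p = r by omega]
      exact ops.pull_mem _ hw
    · omega
  have hleft : lp W D c * Z = 0 := by
    refine hzero _ (rop_cast (rop_opAlg.mul (rop_lp hD c) hZr) (by ring)) fun w hw => ?_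
    have h2 := hnum' (W.corr (W.cl _ w) * lp W D c)
      (rop_cast (rop_opAlg.mul (rop_of_cyc hw) (rop_lp hD c)) (by ring))
    rw [mul_assoc, ← mul_assoc (par (W.isInternal X)), par_lp hD, mul_assoc,
      LinearMap.trace_mul_comm, mul_assoc, mul_assoc]
    exact h2
  have hright : Z * lp W D c = 0 := by
    refine hzero _ (rop_cast (rop_opAlg.mul hZr (rop_lp hD c)) (by ring)) fun w hw => ?_
    have h2 := hnum' (lp W D c * W.corr (W.cl _ w))
      (rop_cast (rop_opAlg.mul (rop_lp hD c) (rop_of_cyc hw)) (by ring))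
    rw [mul_assoc]
    exact h2
  have hZ0 : Z = 0 := by
    apply gr_ext (W.isInternal X)
    intro a y hy
    rw [LinearMap.zero_apply]
    by_cases ha : a ≤ X.dim + c
    · -- the power of the Lefschetz operator is injective on the target
      have h2 : lp W D c (Z y) = 0 := congrArg (fun A => A y) hleft
      have h3 := rop_opAlg.hom hZr a y (by rw [grZ_natCast]; exact hy)
      by_cases ha2 : 2 * c ≤ a
      · rw [show (a : ℤ) + 2 * (-(c : ℤ)) = ((a - 2 * c : ℕ) : ℤ) by omega, grZ_natCast] at h3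
        apply (hHL (a - 2 * c) (by omega)).1 _ h3
        rw [show X.dim - (a - 2 * c) = (X.dim - (a - 2 * c) - c) + c by omega, pow_add,
          Module.End.mul_apply, ← lp_eq, ← lp_eq, h2, map_zero]
      · rw [grZ_of_neg (by omega), Submodule.mem_bot] at h3
        exact h3
    · -- the power of the Lefschetz operator is surjective onto the source
      by_cases ha3 : a ≤ 2 * X.dim
      · obtain ⟨x, hx, hxy⟩ := (hHL (2 * X.dim - a) (by omega)).2 y (by
          rwa [show 2 * X.dim - (2 * X.dim - a) = a by omega])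
        have h4 : y = lp W D c (lp W D (X.dim - (2 * X.dim - a) - c) x) := by
          rw [← hxy, lp_eq, lp_eq, ← Module.End.mul_apply, ← pow_add]
          congr 2
          omega
        rw [h4]
        exact congrArg (fun A => A (lp W D (X.dim - (2 * X.dim - a) - c) x)) hright
      · rw [W.gr_eq_bot X a (by omega), Submodule.mem_bot] at hy
        rw [hy, map_zero]
  exact corr_inj hZ0

/-- **D for `X` from D in the middle codimension of `X × X`.** -/
theorem d_factor (hD : X.IsCyc 1 D) (hHL : HardLefschetz W X D) (h1 : (1 : W.H X) ≠ 0)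
    (h : HomEqNumIn W (X.prod X) X.dim) {j : ℕ} (hj : j ≤ X.dim) : HomEqNumIn W X j := by
  intro z hz hnum
  have hw₀ := divPow_mem (ops := ops) hD (X.dim - j) X.V.fundCycle_mem
  rw [zero_add] at hw₀
  set w₀ := divPow ops D (X.dim - j) X.V.fundCycle with hw₀def
  have hcl : W.cl X w₀ ≠ 0 := by
    intro h0
    rw [hw₀def, cl_divPow, W.cl_fund] at h0
    apply h1
    apply (hHL 0 (Nat.zero_le _)).1 1 (W.one_mem X)
    have h5 : X.dim - 0 = j + (X.dim - j) := by omega
    rw [h5, pow_add, Module.End.mul_apply, h0, map_zero]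
  set y : (X.prod X).Cycles := ops.mul (ops.pull (fst X X) z) (ops.pull (snd X X) w₀) with hy
  have hyc : (X.prod X).IsCyc X.dim y := by
    have h2 := ops.mul_mem (ops.pull_mem (fst X X) hz) (ops.pull_mem (snd X X) hw₀)
    rwa [show j + (X.dim - j) = X.dim by omega] at h2
  have hcorr : W.corr (W.cl _ y) =
      LinearMap.smulRight (W.tr X ∘ₗ LinearMap.mulLeft W.K (W.cl X z)) (W.cl X w₀) := by
    ext x
    rw [corr_apply, hy, W.cl_mul, W.cl_pull, W.cl_pull, mul_assoc,
      W.even_comm (W.map_mem (snd X X) (W.cl_mem hw₀)), ← mul_assoc, ← map_mul, push_snd]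
    rfl
  have hy0 : W.cl _ y = 0 := by
    apply h y hyc
    intro w hw
    rw [dim_prod, show X.dim + X.dim - X.dim = X.dim by omega] at hw
    have h2 := str_eq_deg (W := W) (by omega) hyc (ops.pull_mem (swap X X) hw)
    have h3 : (X.prod X).V.degCycle (ops.mul y (ops.pull (swap X X) (ops.pull (swap X X) w))) =
        (X.prod X).V.degCycle (ops.mul y w) := by
      have h4 := tr_mul_cl (W := W) hyc (ops.pull_mem (swap X X) (ops.pull_mem (swap X X) hw))
        (by rw [dim_prod])
      rw [W.cl_pull, W.cl_pull, map_swap_swap, tr_mul_cl hyc hw (by rw [dim_prod])] at h4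
      exact_mod_cast h4.symm
    rw [h3] at h2
    set A : Module.End W.K (W.H X) := W.corr (W.cl _ (ops.pull (swap X X) w)) with hA
    have hAr : ROp W X 0 A := rop_of_cyc (ops.pull_mem _ hw)
    have h5 : par (W.isInternal X) * (W.corr (W.cl _ y) * A) =
        LinearMap.smulRight ((W.tr X ∘ₗ LinearMap.mulLeft W.K (W.cl X z)) ∘ₗ A)
          (par (W.isInternal X) (W.cl X w₀)) := by
      rw [hcorr]
      ext x
      rw [Module.End.mul_apply, Module.End.mul_apply, LinearMap.smulRight_apply, map_smul]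
      rfl
    rw [h5, LinearMap.trace_smulRight, LinearMap.comp_apply, LinearMap.comp_apply,
      LinearMap.mulLeft_apply, par, scal_apply (W.isInternal X) _ (W.cl_mem hw₀), map_smul,
      mul_smul_comm, map_smul] at h2
    -- the image of an algebraic class is algebraic
    have h6 : A (W.cl X w₀) ∈ algSpan W X (2 * (X.dim - j)) :=
      kop_algSpan (kop_of_rop hAr) (by ring) (Submodule.subset_span ⟨_, rfl, w₀, hw₀, rfl⟩)
    have h7 : ∀ s ∈ algSpan W X (2 * (X.dim - j)), W.tr X (W.cl X z * s) = 0 := by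
      intro s hs
      induction hs using Submodule.span_induction with
      | mem s hs =>
        obtain ⟨p, hp, v, hv, rfl⟩ := hs
        obtain rfl : p = X.dim - j := by omega
        rw [tr_mul_cl hz hv (by omega), hnum v hv, Rat.cast_zero]
      | zero => rw [mul_zero, map_zero]
      | add a b _ _ ha hb => rw [mul_add, map_add, ha, hb, add_zero]
      | smul t a _ ha => rw [mul_smul_comm, map_smul, ha, smul_zero]
    rw [h7 _ h6, smul_zero] at h2
    exact_mod_cast h2.symm
  rw [hy0, corr_zero] at hcorr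
  apply W.nondeg
  intro x
  have h2 := congrArg (fun A => A x) hcorr
  have h3 : (0 : W.H X) = W.tr X (W.cl X z * x) • W.cl X w₀ := h2
  exact (smul_eq_zero.1 h3.symm).resolve_right hcl

end D

section B

variable [IsAlgClosed W.K] (hD : X.IsCyc 1 D) (hHL : HardLefschetz W X D)
    (h1 : (1 : W.H X) ≠ 0) (hF : IsFrobenius W X f q) (hq : 1 < q)
    (hRH : RiemannHypothesis W X f q) (hL : LargeRanks W X f)

omit [IsAlgClosed W.K] in
/-- The operators on a primary part which are combinations of correspondences are combinations of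
restrictions of rational correspondences. -/
lemma span_rat (hD : X.IsCyc 1 D) (hHL : HardLefschetz W X D) (h1 : (1 : W.H X) ≠ 0)
    (hF : IsFrobenius W X f q) (hq : 1 < q) {i : ℕ} {Q : ℚ[X]}
    {φ : W.H X →ₗ[W.K] W.H X} (hφ : φ ∈ KOp W X X 0) (T : Module.End W.K (primPart W X f i Q))
    (hT : ∀ y, (T y : W.H X) = φ y) :
    T ∈ Submodule.span W.K {b | ∃ A : Module.End W.K (W.H X), ROp W X 0 A ∧
      ∀ y : primPart W X f i Q, (b y : W.H X) = A y} := by
  have hst : ∀ {A : Module.End W.K (W.H X)}, A ∈ KOp W X X 0 →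
      ∀ y ∈ primPart W X f i Q, A y ∈ primPart W X f i Q := by
    intro A hA y hy
    exact stable_primPart (kop_comm hD hHL h1 hF (by omega) hA)
      (fun y hy => kop_gr hA hy) hy
  induction hφ using Submodule.span_induction generalizing T with
  | mem φ hφ =>
    obtain ⟨p, hp, w, hw, rfl⟩ := hφ
    obtain rfl : p = X.dim := by omega
    exact Submodule.subset_span ⟨_, rop_of_cyc hw, hT⟩
  | zero =>
    have h2 : T = 0 := by
      apply LinearMap.ext
      intro y
      apply Subtype.ext
      rw [hT]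
      rfl
    rw [h2]
    exact Submodule.zero_mem _
  | add φ ψ hφ hψ h2 h3 =>
    let Tφ : Module.End W.K (primPart W X f i Q) :=
      (show Module.End W.K (W.H X) from φ).restrict (hst hφ)
    have h4 : T = Tφ + (T - Tφ) := by abel
    rw [h4]
    refine Submodule.add_mem _ (h2 Tφ fun y => rfl) (h3 (T - Tφ) fun y => ?_)
    rw [LinearMap.sub_apply, Submodule.coe_sub, hT, LinearMap.add_apply]
    change φ y + ψ y - φ y = ψ y
    abel
  | smul t φ hφ h2 =>
    let Tφ : Module.End W.K (primPart W X f i Q) :=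
      (show Module.End W.K (W.H X) from φ).restrict (hst hφ)
    have h4 : T = t • Tφ := by
      apply LinearMap.ext
      intro y
      apply Subtype.ext
      rw [hT, LinearMap.smul_apply]
      rfl
    rw [h4]
    exact Submodule.smul_mem _ _ (h2 Tφ fun y => rfl)

include hD hHL h1 hF hq hRH hL

/-- **The inverse from one nonzero class for every factor.** -/
theorem inverse_of_hit {i : ℕ} (hi : i ≤ X.dim)
    (hhit : ∀ Q : ℚ[X], Irreducible Q → primPart W X f (2 * X.dim - i) Q ≠ ⊥ →
      ∃ φ ∈ cycOps W X i, ∃ y ∈ primPart W X f (2 * X.dim - i) Q, φ y ≠ 0) :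
    ∃ φ ∈ KOp W X X ((i : ℤ) - X.dim),
      ∀ y ∈ W.gr X (2 * X.dim - i), lp W D (X.dim - i) (φ y) = y := by
  classical
  set m := X.dim - i with hm
  set d := 2 * X.dim - i with hd
  refine patch_all hRH (lp W D m) LinearMap.id fun Q hQ => ?_
  by_cases hbot : primPart W X f d Q = ⊥
  · refine ⟨0, Submodule.zero_mem _, fun y hy => ?_⟩
    rw [hbot, Submodule.mem_bot] at hy
    rw [hy, map_zero, map_zero, map_zero]
  have : Fact (Irreducible Q) := ⟨hQ⟩
  obtain ⟨hfull, h0⟩ := full_primPart hD hHL h1 hF hq hRH d hQ (hL d Q hQ hbot)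
  obtain ⟨e, l, he1, he2, -⟩ := exists_proj (W := W) hRH d hQ
  obtain ⟨b₀, -, hb₀⟩ := exists_top (W := W) hD hHL h1
  have hqK : (q : W.K) ≠ 0 := by
    have h2 : q ≠ 0 := by omega
    exact_mod_cast h2
  have hst : ∀ {A : Module.End W.K (W.H X)}, A ∈ KOp W X X 0 →
      ∀ y ∈ primPart W X f d Q, A y ∈ primPart W X f d Q := by
    intro A hA y hy
    exact stable_primPart (kop_comm hD hHL h1 hF (by omega) hA)
      (fun y hy => kop_gr hA hy) hy
  have hlpgr : ∀ v ∈ W.gr X i, lp W D m v ∈ W.gr X d := by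
    intro v hv
    have h2 := lp_mem hD m hv
    rwa [show i + 2 * m = d by omega] at h2
  have hlpinj : ∀ v ∈ W.gr X i, lp W D m v = 0 → v = 0 := by
    intro v hv h2
    rw [lp_eq] at h2
    exact (hHL i hi).1 v hv h2
  have hkgr : ∀ {φ : W.H X →ₗ[W.K] W.H X}, φ ∈ KOp W X X ((i : ℤ) - X.dim) →
      ∀ y ∈ W.gr X d, φ y ∈ W.gr X i := by
    intro φ hφ y hy
    have h2 := KOp.isHom hφ d y (by rw [grZ_natCast]; exact hy)
    rwa [show (d : ℤ) + 2 * ((i : ℤ) - X.dim) = i by omega, grZ_natCast] at h2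
  have hlpk : lp W D m ∈ KOp W X X ((X.dim : ℤ) - i) :=
    KOp.cast (lp_kop hD m) (by rw [hm]; push_cast [hi]; ring)
  -- the inverse of the power of the Lefschetz operator
  obtain ⟨linv, hlinv⟩ : ∃ g : W.H X →ₗ[W.K] W.H X, ∀ v ∈ W.gr X i, g (lp W D m v) = v := by
    have hinj : LinearMap.ker ((lp W D m).domRestrict (W.gr X i)) = ⊥ := by
      rw [LinearMap.ker_eq_bot']
      intro v hv
      exact Subtype.ext (hlpinj v v.2 hv)
    obtain ⟨g, hg⟩ := LinearMap.exists_leftInverse_of_injective _ hinj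
    refine ⟨(W.gr X i).subtype ∘ₗ g, fun v hv => ?_⟩
    have h2 := congrArg (fun A => ((A ⟨v, hv⟩ : W.gr X i) : W.H X)) hg
    exact h2
  -- the submodule
  let M : Submodule W.K (Module.End W.K (primPart W X f d Q)) :=
    { carrier := {u | ∃ φ ∈ KOp W X X ((i : ℤ) - X.dim),
        ∀ y : primPart W X f d Q, (u y : W.H X) = lp W D m (φ y)}
      add_mem' := by
        rintro u u' ⟨φ, hφ, h2⟩ ⟨φ', hφ', h3⟩
        refine ⟨φ + φ', Submodule.add_mem _ hφ hφ', fun y => ?_⟩
        rw [LinearMap.add_apply, Submodule.coe_add, h2, h3, LinearMap.add_apply, map_add]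
      zero_mem' := ⟨0, Submodule.zero_mem _, fun y => by
        rw [LinearMap.zero_apply, LinearMap.zero_apply, map_zero, Submodule.coe_zero]⟩
      smul_mem' := by
        rintro t u ⟨φ, hφ, h2⟩
        refine ⟨t • φ, Submodule.smul_mem _ _ hφ, fun y => ?_⟩
        rw [LinearMap.smul_apply, Submodule.coe_smul, h2, LinearMap.smul_apply, map_smul] }
  have hM : ∀ u, u ∈ M ↔ ∃ φ ∈ KOp W X X ((i : ℤ) - X.dim),
        ∀ y : primPart W X f d Q, (u y : W.H X) = lp W D m (φ y) := fun _ => Iff.rfl
  have hone : (1 : Module.End W.K (primPart W X f d Q)) ∈ M := by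
    obtain ⟨_, ⟨_, ⟨z, hz, rfl⟩, rfl⟩, x, hx, hx0⟩ := hhit Q hQ hbot
    have hUr : ROp W X 0 (lcorr W D i z) := rop_lcorr hD hi hz
    let u : Module.End W.K (primPart W X f d Q) := (lcorr W D i z).restrict (hst (kop_of_rop hUr))
    have hu : ∀ y, ((u y : primPart W X f d Q) : W.H X) = lcorr W D i z y := fun _ => rfl
    have hzk : W.corr (W.cl _ z) ∈ KOp W X X ((i : ℤ) - X.dim) := KOp.gen (by ring) hz
    refine one_mem_ideal (F := frP W X f d Q) (Q := Q) (u := u) h0 M ?_ ?_
      {b | ∃ A : Module.End W.K (W.H X), ROp W X 0 A ∧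
        ∀ y : primPart W X f d Q, (b y : W.H X) = A y} ?_ ?_ ?_ ?_ ?_ ?_
    · -- stability under multiplication from the left
      rintro T hT v ⟨φ, hφ, h2⟩
      -- the extension of `T`
      let T₁ : W.H X →ₗ[W.K] W.H X := (primPart W X f d Q).subtype ∘ₗ T ∘ₗ
        (LinearMap.codRestrict (primPart W X f d Q)
          (ev (W.map f).toLinearMap e ∘ₗ proj (W.isInternal X) d)
          (fun x => he1 _ (proj_mem (W.isInternal X) d x)))
      have hT₁ : ∀ y (hy : y ∈ W.gr X d), T₁ y =
          T ⟨ev (W.map f).toLinearMap e y, he1 y hy⟩ := by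
        intro y hy
        change ((T ⟨ev (W.map f).toLinearMap e (proj (W.isInternal X) d y), _⟩ :
          primPart W X f d Q) : W.H X) = _
        congr 3
        rw [proj_same _ hy]
      have hT₁m : ∀ y, T₁ y ∈ primPart W X f d Q := fun y => Subtype.mem _
      have hT₁F : ∀ y ∈ W.gr X d, T₁ ((W.map f).toLinearMap y) =
          (W.map f).toLinearMap (T₁ y) := by
        intro y hy
        rw [hT₁ _ (map_gr hy), hT₁ y hy]
        have h3 := congrArg (fun A => ((A ⟨ev (W.map f).toLinearMap e y, he1 y hy⟩ :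
          primPart W X f d Q) : W.H X)) hT
        rw [Module.End.mul_apply, Module.End.mul_apply, coe_frP] at h3
        rw [h3]
        congr 2
        apply Subtype.ext
        rw [coe_frP]
        exact (Fr.ev_comm (F := (W.map f).toLinearMap) (u := (W.map f).toLinearMap) rfl e y).symm
      have hT₁p : ∀ y (hy : y ∈ primPart W X f d Q), T₁ y = T ⟨y, hy⟩ := by
        intro y hy
        rw [hT₁ y (mem_primPart.1 hy).1]
        congr 3
        exact he2 y hy
      -- the operator in degree `i`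
      let A : W.H X →ₗ[W.K] W.H X := linv ∘ₗ T₁ ∘ₗ lp W D m
      have hA : ∀ v ∈ W.gr X i, A v ∈ W.gr X i ∧ lp W D m (A v) = T₁ (lp W D m v) := by
        intro v hv
        obtain ⟨x, hx, hxy⟩ := (hHL i hi).2 (T₁ (lp W D m v)) (mem_primPart.1 (hT₁m _)).1
        rw [← lp_eq] at hxy
        have h3 : A v = x := by
          change linv (T₁ (lp W D m v)) = x
          rw [← hxy, hlinv x hx]
        rw [h3]
        exact ⟨hx, hxy⟩
      have hAF : ∀ v ∈ W.gr X i, A ((W.map f).toLinearMap v) = (W.map f).toLinearMap (A v) := by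
        intro v hv
        rw [← sub_eq_zero]
        apply hlpinj
        · exact Submodule.sub_mem _ (hA _ (map_gr hv)).1 (map_gr (hA v hv).1)
        · have e1 : ∀ w : W.H X, (W.map f).toLinearMap (lp W D m w) =
              (q : W.K) ^ m • lp W D m ((W.map f).toLinearMap w) := fun w =>
            frob_lp hD hF ⟨b₀, hb₀⟩ m w
          rw [map_sub, (hA _ (map_gr hv)).2, sub_eq_zero]
          apply smul_right_injective _ (pow_ne_zero m hqK)
          beta_reduce
          rw [← e1, (hA v hv).2, ← hT₁F _ (hlpgr v hv), e1, map_smul]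
      obtain ⟨ψ, hψ, hψA⟩ := all_commuting hD hHL h1 hF hq hRH hL i A (fun v hv => (hA v hv).1) hAF
      refine ⟨ψ ∘ₗ φ, KOp.cast (KOp.comp hψ hφ) (by ring), fun y => ?_⟩
      have h3 : φ y ∈ W.gr X i := hkgr hφ y (mem_primPart.1 y.2).1
      rw [LinearMap.comp_apply, hψA _ h3, (hA _ h3).2, ← h2, hT₁p _ (v y).2]
      rfl
    · rintro T hT v ⟨φ, hφ, h2⟩
      obtain ⟨ψ, hψ, h3⟩ := hfull T hT
      refine ⟨φ ∘ₗ ψ, KOp.cast (KOp.comp hφ hψ) (by ring), fun y => ?_⟩
      rw [Module.End.mul_apply, h2, h3]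
      rfl
    · intro T hT
      obtain ⟨ψ, hψ, h3⟩ := hfull T hT
      exact span_rat hD hHL h1 hF hq hψ T h3
    · rintro b ⟨A, hA, hb⟩
      apply LinearMap.ext
      intro y
      apply Subtype.ext
      rw [Module.End.mul_apply, Module.End.mul_apply, coe_frP, hb, hb, coe_frP,
        kop_comm hD hHL h1 hF (by omega) (kop_of_rop hA)]
    · exact ⟨W.corr (W.cl _ z), hzk, fun y => rfl⟩
    · apply LinearMap.ext
      intro y
      apply Subtype.ext
      rw [Module.End.mul_apply, Module.End.mul_apply, coe_frP, hu, hu, coe_frP,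
        kop_comm hD hHL h1 hF (by omega) (kop_of_rop hUr)]
    · rintro b ⟨A, hA, hb⟩ p
      have h2 : ROp W X 0 (lcorr W D i z * A * ev (W.map f).toLinearMap p) :=
        rop_mul0 (rop_mul0 hUr hA) (rop_ev (rop_map f) p)
      refine trace_primPart hq hRH hQ h2 (hst (kop_of_rop h2)) _ fun y => ?_
      rw [Module.End.mul_apply, Module.End.mul_apply, hu, hb, coe_ev_frP, Module.End.mul_apply,
        Module.End.mul_apply]
    · intro h2
      apply hx0
      have h3 := congrArg (fun A => ((A ⟨x, hx⟩ : primPart W X f d Q) : W.H X)) h2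
      exact hlpinj _ (hkgr hzk x (mem_primPart.1 hx).1) h3
  obtain ⟨φ, hφ, h2⟩ := (hM 1).1 hone
  exact ⟨φ, hφ, fun y hy => (h2 ⟨y, hy⟩).symm⟩

/-- **The conjecture B from one nonzero class for every factor.** -/
theorem b_iff : LefschetzB W X D ↔ FactorsHit W X f := by
  constructor
  · intro h i hi Q hQ hbot
    obtain ⟨y, hy, hy0⟩ := Submodule.exists_mem_ne_zero_of_ne_bot hbot
    have h2 := ((lefschetzB_tfae hD hHL).out 0 2).1 h
    obtain ⟨γ, hγ, hinj⟩ := h2 (X.dim - i) (by omega)
    have hk : W.corr γ ∈ KOp W X X ((i : ℤ) - X.dim) := mem_KOp_iff.2 ⟨γ, by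
      rwa [show (X.dim : ℤ) - ((X.dim - i : ℕ) : ℤ) = X.dim + ((i : ℤ) - X.dim) by
        push_cast [hi.le]; ring] at hγ, rfl⟩
    obtain ⟨z, hz, hzy⟩ := exists_of_span hk (y := y) (fun h3 => hy0 (hinj y (by
      have h4 := (mem_primPart.1 hy).1
      rwa [show X.dim + (X.dim - i) = 2 * X.dim - i by omega]) h3))
    exact ⟨_, ⟨_, ⟨z, hz, rfl⟩, rfl⟩, y, hy, hzy⟩
  · intro h
    apply lefschetzB_of_inj hD hHL
    intro c hc
    by_cases hc0 : c = 0
    · subst hc0
      exact ⟨1, by
        have h1 := kop_of_rop (rop_opAlg (W := W) (X := X)).one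
        exact KOp.cast h1 (by simp), fun a _ h => h⟩
    · obtain ⟨φ, hφ, h2⟩ := inverse_of_hit hD hHL h1 hF hq hRH hL (i := X.dim - c) (by omega)
        (h (X.dim - c) (by omega))
      refine ⟨φ, KOp.cast hφ (by push_cast [hc]; ring), fun y hy h3 => ?_⟩
      rw [← h2 y (by rwa [show 2 * X.dim - (X.dim - c) = X.dim + c by omega]), h3, map_zero]

end B

end Pool.Agent.U227.Gap
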