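import Pool.Agent.H914R2.PDefs
import Pool.Agent.H914R2.KDefs2

/-!
# The Lefschetz standard conjecture and the Frobenius endomorphism: definitions
-/

set_option autoImplicit false

open CategoryTheory AlgebraicGeometry Polynomial

universe u v

namespace Pool.Agent.U227.Fr

section Alg

variable {K : Type*} [Field K] {V : Type*} [AddCommGroup V] [Module K V]

/-- The operator `F` multiplies the elements of `C j` by `q ^ j`, for all `j`. -/
def Scales (F : Module.End K V) (C : ℕ → Set V) (q : ℕ) : Prop :=
  ∀ j, ∀ c ∈ C j, F c = (q : K) ^ j • c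

/-- A `K`-linear combination of operators in `S` is a left inverse of `L ^ m` on the subspace `G`. -/
def Inverts (S : Set (V →ₗ[K] V)) (L : Module.End K V) (m : ℕ) (G : Submodule K V) : Prop :=
  ∃ φ ∈ Submodule.span K S, ∀ x ∈ G, φ ((L ^ m) x) = x

/-- No nonzero vector of the subspace `U` is killed by all operators in `S`. -/
def DetectsVectors (S : Set (V →ₗ[K] V)) (U : Submodule K V) : Prop :=
  ∀ y ∈ U, y ≠ 0 → ∃ s ∈ S, s y ≠ 0

/-- The vectors `y` of `U` with `Q(F) y = 0`. -/
def rootPart [Algebra ℚ K] (F : Module.End K V) (U : Submodule K V) (Q : ℚ[X]) : Set V :=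
  {y | y ∈ U ∧ aeval F (Q.map (algebraMap ℚ K)) y = 0}

/-- For every irreducible polynomial `Q` with rational coefficients such that `Q(F)` is not
injective on `U` there are ONE operator `s` in `S` and ONE vector `y` of `U` with `Q(F) y = 0` such
that `s y` is not zero. -/
def DetectsFactors [Algebra ℚ K] (S : Set (V →ₗ[K] V)) (F : Module.End K V)
    (U : Submodule K V) : Prop :=
  ∀ Q : ℚ[X], Irreducible Q → (∃ y ∈ rootPart F U Q, y ≠ 0) →
    ∃ s ∈ S, ∃ y ∈ rootPart F U Q, s y ≠ 0

end Alg

open Pool.Agent.H914 VarClass Obj WeilCohomology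

variable {k : Type u} [Field k] {𝒱 : VarClass k} {ops : CycleOps 𝒱}

/-- The endomorphism `f × f` of `X × X` multiplies the class of every cycle of codimension `j` by
`q ^ j`. (True for the Frobenius endomorphism `f` of `X`, relative to the field with `q` elements, if
finitely many cycles whose classes span the algebraic classes over the coefficient field `K` are
defined over that field.) -/
def IsFrobenius (W : WeilCohomology.{u, v} ops) (X : 𝒱.Obj) (f : X ⟶ X) (q : ℕ) : Prop :=
  Scales (W.map (squareMap f)).toLinearMap (algClasses W (X.prod X)) q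

/-- The transcendental part of the cohomology of degree `2 n - i`, `n = dim X`: the classes which are
orthogonal to all algebraic classes. -/
def trPart (W : WeilCohomology.{u, v} ops) (X : 𝒱.Obj) (i : ℕ) : Submodule W.K (W.H X) :=
  W.gr X (2 * X.dim - i) ⊓ transcendental W X

/-- The operators on `H(X)` induced by the cycles of codimension `i` on `X × X`; they map
`H^(2 n - i)(X)` to `H^i(X)`. -/
def cycOps (W : WeilCohomology.{u, v} ops) (X : 𝒱.Obj) (i : ℕ) : Set (W.H X →ₗ[W.K] W.H X) :=
  W.corr '' algClasses W (X.prod X) i

/-- The inverse of `ξ ^ (n - i) : H^i(X) → H^(2n - i)(X)`, `ξ` the class of `D` and `n = dim X`, is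
induced by a `K`-linear combination of classes of cycles of codimension `i` on `X × X`. -/
def InverseAlgebraic (W : WeilCohomology.{u, v} ops) (X : 𝒱.Obj) (D : X.Cycles) (i : ℕ) : Prop :=
  Inverts (cycOps W X i) (LinearMap.mulLeft W.K (W.cl X D)) (X.dim - i) (W.gr X i)

/-- No nonzero class in the transcendental part of `H^(2n - i)(X)` is killed by all correspondences
of codimension `i`. -/
def ClassesDetected (W : WeilCohomology.{u, v} ops) (X : 𝒱.Obj) (i : ℕ) : Prop :=
  DetectsVectors (cycOps W X i) (trPart W X i)

/-- For every irreducible polynomial `Q` with rational coefficients such that `Q(f^*)` is not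
injective on the transcendental part of `H^(2n - i)(X)` there are ONE cycle `z` of codimension `i` on
`X × X` and ONE class `y` in this kernel such that the correspondence `z` does not kill `y`. -/
def FactorsDetected (W : WeilCohomology.{u, v} ops) (X : 𝒱.Obj) (f : X ⟶ X) (i : ℕ) : Prop :=
  DetectsFactors (cycOps W X i) (W.map f).toLinearMap (trPart W X i)

end Pool.Agent.U227.Fr
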