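import Pool.Agent.U227.FrMod
import Pool.Agent.U227.FrDefs
import Pool.Agent.H914R2.GFrob
import Pool.Agent.H914R2.GConv3

/-!
# Lemmas on transcendental classes and Frobenius endomorphisms
-/

set_option autoImplicit false

open CategoryTheory AlgebraicGeometry Finset

universe u v

namespace Pool.Agent.U227.Fr

open Pool.Agent.H914 VarClass Obj WeilCohomology Pool.Agent.U227.Grp

variable {k : Type u} [Field k] {𝒱 : VarClass k} {ops : CycleOps 𝒱}
  {W : WeilCohomology.{u, v} ops} {X : 𝒱.Obj} {D : X.Cycles}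

lemma mem_tr_iff {y : W.H X} :
    y ∈ transcendental W X ↔ ∀ j, ∀ c ∈ algClasses W X j, W.tr X (y * c) = 0 := by
  rw [transcendental, orthCompl]
  simp only [Submodule.mem_iInf, LinearMap.mem_ker, LinearMap.comp_apply,
    LinearMap.mulRight_apply, Set.mem_iUnion]
  constructor
  · intro h j c hc
    exact h c ⟨j, hc⟩
  · rintro h c ⟨j, hc⟩
    exact h j c hc

lemma algClasses_algSpan {j i : ℕ} (hij : 2 * j = i) {c : W.H X} (hc : c ∈ algClasses W X j) :
    c ∈ algSpan W X i := by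
  obtain ⟨z, hz, rfl⟩ := hc
  exact Submodule.subset_span ⟨j, hij, z, hz, rfl⟩

lemma algSpan_le {i : ℕ} : algSpan W X i ≤ W.gr X i := by
  rw [algSpan, Submodule.span_le]
  rintro _ ⟨p, rfl, z, hz, rfl⟩
  exact W.cl_mem hz

lemma tr_algSpan {y : W.H X} (hy : y ∈ transcendental W X) {i : ℕ} {c : W.H X}
    (hc : c ∈ algSpan W X i) : W.tr X (y * c) = 0 := by
  induction hc using Submodule.span_induction with
  | mem c hc =>
    obtain ⟨p, -, z, hz, rfl⟩ := hc
    exact mem_tr_iff.1 hy p _ ⟨z, hz, rfl⟩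
  | zero => rw [mul_zero, map_zero]
  | add a b _ _ ha hb => rw [mul_add, map_add, ha, hb, add_zero]
  | smul r a _ ha => rw [mul_smul_comm, map_smul, ha, smul_zero]

/-- A class of degree `2 n - i` is transcendental if it is orthogonal to the algebraic classes of
degree `i`. -/
lemma mem_trPart {i : ℕ} (hi : i ≤ X.dim) {y : W.H X} (hy : y ∈ W.gr X (2 * X.dim - i))
    (h : ∀ c ∈ algSpan W X i, W.tr X (y * c) = 0) : y ∈ trPart W X i := by
  refine ⟨hy, mem_tr_iff.2 ?_⟩
  rintro j c hc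
  by_cases hj : 2 * j = i
  · exact h c (algClasses_algSpan hj hc)
  · obtain ⟨z, hz, rfl⟩ := hc
    exact W.tr_eq_zero (W.mul_mem hy (W.cl_mem hz)) (by omega)

/-- Double orthogonality. -/
lemma mem_algSpan_of_orth (hD : X.IsCyc 1 D) (hHL : HardLefschetz W X D) {i : ℕ}
    (hi : i ≤ X.dim) {w : W.H X} (hw : w ∈ W.gr X i)
    (h : ∀ y ∈ trPart W X i, W.tr X (y * w) = 0) : w ∈ algSpan W X i := by
  by_contra hcon
  obtain ⟨f, hf, hfS⟩ := Submodule.exists_dual_map_eq_bot_of_notMem hcon inferInstance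
  obtain ⟨m, y, u, hy, hu, hdual⟩ := exists_dual (W := W) hHL hi
  rw [← lp_eq] at hdual
  set M := lp W D (X.dim - i) with hM
  have h1 : ∀ v ∈ W.gr X i, f v = W.tr X (M (∑ j, f (y j) • u j) * v) := by
    intro v hv
    conv_lhs => rw [hdual v hv]
    rw [hM, tr_lp hD, Finset.sum_mul, map_sum, map_sum]
    apply Finset.sum_congr rfl
    intro j _
    rw [map_smul, smul_mul_assoc, map_smul, smul_eq_mul, smul_eq_mul, mul_comm]
  have h2 : M (∑ j, f (y j) • u j) ∈ trPart W X i := by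
    apply mem_trPart hi
    · have h3 : ∑ j, f (y j) • u j ∈ W.gr X i :=
        Submodule.sum_mem _ fun j _ => Submodule.smul_mem _ _ (hu j)
      have h4 := lp_mem hD (X.dim - i) h3
      rwa [show i + 2 * (X.dim - i) = 2 * X.dim - i by omega] at h4
    · intro c hc
      rw [← h1 c (algSpan_le hc)]
      have h5 : f c ∈ (algSpan W X i).map f := ⟨c, hc, rfl⟩
      rw [hfS] at h5
      exact (Submodule.mem_bot _).1 h5
  apply hf
  rw [h1 w hw]
  exact h _ h2

/-- From transcendental classes to the whole cohomology. -/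
theorem exact_of_trPart (hD : X.IsCyc 1 D) (hHL : HardLefschetz W X D) {i : ℕ} (hi : i ≤ X.dim)
    {φ : W.H X →ₗ[W.K] W.H X} (hφ : φ ∈ KOp W X X ((i : ℤ) - X.dim))
    (h : ∀ y ∈ trPart W X i, lp W D (X.dim - i) (φ y) = y) :
    ∃ φ' ∈ KOp W X X ((i : ℤ) - X.dim), ∀ v ∈ W.gr X i, φ' (lp W D (X.dim - i) v) = v := by
  obtain ⟨ψ, hψ, hadj⟩ := KOp.exists_adjoint hφ
  have hψ' : ψ ∈ KOp W X X ((i : ℤ) - X.dim) := KOp.cast hψ (by ring)
  apply exact_of_mod hD hHL hi hψ'
  intro v hv
  have hMk : lp W D (X.dim - i) ∈ KOp W X X ((X.dim : ℤ) - i) :=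
    KOp.cast (lp_kop hD _) (by push_cast [hi]; ring)
  apply mem_algSpan_of_orth hD hHL hi
  · apply Submodule.sub_mem _ _ hv
    have h3 := KOp.isHom (KOp.comp hψ' hMk) i v (by rw [grZ_natCast]; exact hv)
    rw [show (i : ℤ) + 2 * ((X.dim : ℤ) - i + ((i : ℤ) - X.dim)) = i by ring,
      grZ_natCast] at h3
    exact h3
  · intro y hy
    rw [mul_sub, map_sub, ← hadj, ← tr_lp hD, h y hy, sub_self]

/-- Correspondences preserve the span of algebraic classes. -/
lemma kop_algSpan {d : ℤ} {φ : W.H X →ₗ[W.K] W.H X} (hφ : φ ∈ KOp W X X d) {i j : ℕ}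
    (hij : (j : ℤ) = i + 2 * d) {c : W.H X} (hc : c ∈ algSpan W X i) : φ c ∈ algSpan W X j := by
  induction hφ using Submodule.span_induction with
  | mem x hx =>
    obtain ⟨p, hp, z, hz, rfl⟩ := hx
    induction hc using Submodule.span_induction with
    | mem c hc =>
      obtain ⟨l, hl, w, hw, rfl⟩ := hc
      rw [corr_apply, ← W.cl_pull, ← W.cl_mul, ← W.cl_push]
      refine Submodule.subset_span ⟨j / 2, by omega, _, ?_, rfl⟩
      apply ops.push_mem _ (ops.mul_mem hz (ops.pull_mem _ hw))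
      rw [dim_prod]
      omega
    | zero => rw [map_zero]; exact Submodule.zero_mem _
    | add a b _ _ ha hb => rw [map_add]; exact Submodule.add_mem _ ha hb
    | smul r a _ ha => rw [map_smul]; exact Submodule.smul_mem _ _ ha
  | zero => exact Submodule.zero_mem _
  | add x y _ _ hx hy => exact Submodule.add_mem _ hx hy
  | smul r x _ hx => exact Submodule.smul_mem _ _ hx

end Pool.Agent.U227.Fr
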