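import Pool.Agent.H914R2.TBase
import Pool.Agent.H914R2.PolyPow

/-!
# Linear algebra for operators with squarefree characteristic polynomial
-/

set_option autoImplicit false
set_option linter.unusedSectionVars false

open Polynomial

namespace Pool.Agent.U227.Fr

open Pool.Agent.H914

section

variable {K : Type*} [Field K] {V : Type*} [AddCommGroup V] [Module K V] [Module.Finite K V]

/-- The characteristic polynomial for a decomposition. -/
lemma charpoly_isCompl (F : Module.End K V) {p q : Submodule K V} (h : IsCompl p q)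
    (hp : ∀ x ∈ p, F x ∈ p) (hq : ∀ x ∈ q, F x ∈ q) :
    F.charpoly = (F.restrict hp).charpoly * (F.restrict hq).charpoly := by
  rw [← LinearMap.charpoly_prodMap]
  have h1 : (Submodule.prodEquivOfIsCompl p q h).conj
      ((F.restrict hp).prodMap (F.restrict hq)) = F := by
    apply LinearMap.ext
    intro x
    obtain ⟨y, rfl⟩ := (Submodule.prodEquivOfIsCompl p q h).surjective x
    rw [LinearEquiv.conj_apply_apply, LinearEquiv.symm_apply_apply]
    simp [LinearMap.prodMap_apply]
  conv_lhs => rw [← h1]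
  rw [LinearEquiv.charpoly_conj]

end

/-- Irreducible factors over the rational numbers. -/
lemma exists_rat_factor {K : Type*} [Field K] [Algebra ℚ K] {π : K[X]} (hπ : Prime π)
    (P : ℚ[X]) (hP : P ≠ 0) (h : π ∣ P.map (algebraMap ℚ K)) :
    ∃ Q : ℚ[X], Irreducible Q ∧ Q ∣ P ∧ π ∣ Q.map (algebraMap ℚ K) := by
  induction P using UniqueFactorizationMonoid.induction_on_prime with
  | h₁ => exact absurd rfl hP
  | h₂ x hx =>
    exfalso
    apply hπ.not_isUnit
    exact isUnit_of_dvd_unit h (hx.map (Polynomial.mapRingHom (algebraMap ℚ K)))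
  | h₃ a p ha hp ih =>
    rw [Polynomial.map_mul] at h
    rcases hπ.dvd_or_dvd h with h1 | h1
    · exact ⟨p, hp.irreducible, dvd_mul_right _ _, h1⟩
    · obtain ⟨Q, hQ, hQa, hQπ⟩ := ih ha h1
      exact ⟨Q, hQ, hQa.mul_left p, hQπ⟩

section Main

variable {K : Type*} [Field K] [CharZero K] {V : Type*} [AddCommGroup V] [Module K V]
  [Module.Finite K V]

lemma ev_mul_apply (F : Module.End K V) (a b : ℚ[X]) (x : V) :
    ev F (a * b) x = ev F a (ev F b x) := by
  rw [map_mul, Module.End.mul_apply]

lemma commute_aeval {F u : Module.End K V} (h : Commute u F) (p : K[X]) :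
    Commute u (aeval F p) := by
  induction p using Polynomial.induction_on' with
  | add p q hp hq => rw [map_add]; exact hp.add_right hq
  | monomial n a =>
    rw [aeval_monomial]
    exact (Algebra.commute_algebraMap_right a u).mul_right (h.pow_right n)

lemma ev_comm {F u : Module.End K V} (h : u * F = F * u) (a : ℚ[X]) (x : V) :
    u (ev F a x) = ev F a (u x) := by
  have h1 : Commute u (ev F a) := commute_aeval h _
  exact congrArg (fun A => A x) h1.eq

lemma restrict_ev {F : Module.End K V} {p : Submodule K V} (hp : ∀ x ∈ p, F x ∈ p) (a : K[X])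
    (x : p) : ((aeval (F.restrict hp) a) x : V) = aeval F a x := by
  induction a using Polynomial.induction_on' with
  | add b c hb hc => rw [map_add, map_add, LinearMap.add_apply, LinearMap.add_apply,
      Submodule.coe_add, hb, hc]
  | monomial n b =>
    rw [aeval_monomial, aeval_monomial, Module.End.mul_apply, Module.End.mul_apply,
      Module.algebraMap_end_apply, Module.algebraMap_end_apply, Submodule.coe_smul]
    congr 1
    induction n with
    | zero => rfl
    | succ n ih =>
      rw [pow_succ', pow_succ', Module.End.mul_apply, Module.End.mul_apply, ← ih]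
      rfl

/-- If the characteristic polynomial is squarefree, then its factors have eigenvectors. -/
lemma exists_root_vec {F : Module.End K V} (hsq : Squarefree F.charpoly) {π : K[X]}
    (hπ : Prime π) (h : π ∣ F.charpoly) : ∃ y, y ≠ 0 ∧ aeval F π y = 0 := by
  by_contra hcon
  push Not at hcon
  obtain ⟨r, hr⟩ := h
  have h0 : aeval F r = 0 := by
    apply LinearMap.ext
    intro x
    rw [LinearMap.zero_apply]
    by_contra hx
    apply hcon _ hx
    have h1 := LinearMap.aeval_self_charpoly F
    rw [hr, map_mul] at h1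
    exact congrArg (fun A => A x) h1
  have h2 := charpoly_dvd_of_squarefree hsq h0
  have h3 : F.charpoly ≠ 0 := (LinearMap.charpoly_monic F).ne_zero
  have hr0 : r ≠ 0 := by
    rintro rfl
    rw [mul_zero] at hr
    exact h3 hr
  rw [hr] at h2
  have h4 : π * r ∣ 1 * r := by rwa [one_mul]
  exact hπ.not_isUnit (isUnit_of_dvd_one ((mul_dvd_mul_iff_right hr0).1 h4))

/-- The trace on the image of a projector. -/
lemma trace_restrict_proj {A E : Module.End K V} {p : Submodule K V} (hE : ∀ x, E x ∈ p)
    (hE' : ∀ x ∈ p, E x = x) (hA : ∀ x ∈ p, A x ∈ p) :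
    LinearMap.trace K p (A.restrict hA) = LinearMap.trace K V (A * E) := by
  rw [← LinearMap.trace_restrict_eq_of_forall_mem p (A * E) (fun x => hA _ (hE x))]
  congr 1
  apply LinearMap.ext
  intro x
  apply Subtype.ext
  change A x = A (E x)
  rw [hE' _ x.2]

/-- **Operators commuting with an operator with squarefree characteristic polynomial.** -/
theorem one_mem {F : Module.End K V} (hsq : Squarefree F.charpoly) (M : Submodule K (Module.End K V))
    (hM : ∀ u ∈ M, u * F ∈ M) (a : ℚ) (l : ℕ) (P₀ r s : ℚ[X])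
    (hbez : r * (X - C a) ^ l + s * P₀ = 1) (hP0 : P₀ ≠ 0)
    (hkill : ev F ((X - C a) ^ l * P₀) = 0)
    (htr : ∀ k : ℕ, ∃ t : ℚ, LinearMap.trace K V (F ^ k * ev F (r * (X - C a) ^ l)) = t)
    (h : ∀ Q : ℚ[X], Irreducible Q → (∃ y, y ≠ 0 ∧ ev F Q y = 0) → ∃ u ∈ M, u * F = F * u ∧
      (∀ k : ℕ, ∃ t : ℚ, LinearMap.trace K V (u * (F ^ k * ev F (r * (X - C a) ^ l))) = t) ∧
      ∃ y, ev F Q y = 0 ∧ u y ≠ 0) : (1 : Module.End K V) ∈ M := by
  classical
  set c : ℚ[X] := (X - C a) ^ l with hc
  set e : ℚ[X] := r * c with he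
  have hMp : ∀ u ∈ M, ∀ p : K[X], u * aeval F p ∈ M := by
    intro u hu p
    induction p using Polynomial.induction_on' with
    | add b d hb hd => rw [map_add, mul_add]; exact M.add_mem hb hd
    | monomial n b =>
      rw [aeval_monomial, Algebra.algebraMap_eq_smul_one, smul_mul_assoc, one_mul,
        mul_smul_comm]
      apply M.smul_mem
      induction n with
      | zero => rwa [pow_zero, mul_one]
      | succ n ih => rw [pow_succ, ← mul_assoc]; exact hM _ ih
  -- the ideal
  let J : Ideal K[X] :=
    { carrier := {x | aeval F x ∈ M}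
      add_mem' := fun {x y} hx hy => by
        rw [Set.mem_ofPred_eq, map_add]
        exact M.add_mem hx hy
      zero_mem' := by
        rw [Set.mem_ofPred_eq, map_zero]
        exact M.zero_mem
      smul_mem' := fun b x hx => by
        rw [Set.mem_ofPred_eq] at hx ⊢
        rw [smul_eq_mul, mul_comm, map_mul]
        exact hMp _ hx b }
  have hJ : ∀ x, x ∈ J ↔ aeval F x ∈ M := fun _ => Iff.rfl
  by_contra hcon
  have hJtop : J ≠ ⊤ := by
    intro h1
    apply hcon
    have h2 : (1 : K[X]) ∈ J := by rw [h1]; trivial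
    rw [hJ, map_one] at h2
    exact h2
  obtain ⟨m, hmax, hJm⟩ := Ideal.exists_le_maximal J hJtop
  obtain ⟨π, hπm⟩ := (IsPrincipalIdealRing.principal m).principal
  rw [← Ideal.span] at hπm
  have hdvd : ∀ x ∈ J, π ∣ x := by
    intro x hx
    have h1 := hJm hx
    rw [hπm] at h1
    exact Ideal.mem_span_singleton.1 h1
  have hchar : F.charpoly ∈ J := by
    rw [hJ, LinearMap.aeval_self_charpoly]
    exact M.zero_mem
  have hπ0 : π ≠ 0 := by
    rintro rfl
    exact (LinearMap.charpoly_monic F).ne_zero (zero_dvd_iff.1 (hdvd _ hchar))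
  have hπ : Prime π := by
    have h1 := hmax.isPrime
    rw [hπm] at h1
    exact (Ideal.span_singleton_prime hπ0).1 h1
  obtain ⟨y₀, hy₀, hπy₀⟩ := exists_root_vec hsq hπ (hdvd _ hchar)
  have hP : c * P₀ ≠ 0 := mul_ne_zero (pow_ne_zero _ (X_sub_C_ne_zero a)) hP0
  obtain ⟨Q, hQ, hQP, hπQ⟩ := exists_rat_factor hπ (c * P₀) hP (hdvd _ (by
    rw [hJ, ← ev_apply, hkill]
    exact M.zero_mem))
  obtain ⟨u, hu, huF, hutr, y, hQy, huy⟩ := h Q hQ ⟨y₀, hy₀, by
    obtain ⟨x, hx⟩ := hπQ
    rw [ev_apply, hx, mul_comm, map_mul, Module.End.mul_apply, hπy₀, map_zero]⟩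
  -- coprimality
  have hcop : ∀ b d : ℚ[X], (∃ x z, x * b + z * d = 1) → π ∣ b.map (algebraMap ℚ K) →
      π ∣ d.map (algebraMap ℚ K) → False := by
    rintro b d ⟨x, z, hxz⟩ hb hd
    apply hπ.not_isUnit
    apply isUnit_of_dvd_one
    have h1 := congrArg (Polynomial.map (algebraMap ℚ K)) hxz
    rw [Polynomial.map_add, Polynomial.map_mul, Polynomial.map_mul, Polynomial.map_one] at h1
    rw [← h1]
    exact dvd_add (hb.mul_left _) (hd.mul_left _)
  have hmapdvd : ∀ {b d : ℚ[X]}, b ∣ d → b.map (algebraMap ℚ K) ∣ d.map (algebraMap ℚ K) :=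
    fun h => Polynomial.map_dvd _ h
  -- the two parts
  have hsum : ∀ x, ev F e x + ev F (s * P₀) x = x := by
    intro x
    rw [← LinearMap.add_apply, ← map_add, hbez, map_one, Module.End.one_apply]
  have hp : ∀ x ∈ LinearMap.ker (ev F P₀), F x ∈ LinearMap.ker (ev F P₀) := by
    intro x hx
    rw [LinearMap.mem_ker] at hx ⊢
    rw [← ev_comm rfl, hx, map_zero]
  have hq : ∀ x ∈ LinearMap.ker (ev F c), F x ∈ LinearMap.ker (ev F c) := by
    intro x hx
    rw [LinearMap.mem_ker] at hx ⊢
    rw [← ev_comm rfl, hx, map_zero]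
  have hcompl : IsCompl (LinearMap.ker (ev F P₀)) (LinearMap.ker (ev F c)) := by
    constructor
    · rw [Submodule.disjoint_def]
      intro x hx hx'
      rw [LinearMap.mem_ker] at hx hx'
      rw [← hsum x, he, ev_mul_apply, ev_mul_apply, hx, hx', map_zero, map_zero, add_zero]
    · rw [codisjoint_iff_le_sup]
      intro x _
      rw [← hsum x]
      apply Submodule.add_mem_sup
      · rw [LinearMap.mem_ker, ← ev_mul_apply, he, show P₀ * (r * c) = r * (c * P₀) by ring,
          ev_mul_apply, hkill, LinearMap.zero_apply, map_zero]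
      · rw [LinearMap.mem_ker, ← ev_mul_apply, show c * (s * P₀) = s * (c * P₀) by ring,
          ev_mul_apply, hkill, LinearMap.zero_apply, map_zero]
  have hchar2 := charpoly_isCompl F hcompl hp hq
  by_cases hcase : Q ∣ P₀
  · -- rational part
    have hEmem : ∀ x, ev F e x ∈ LinearMap.ker (ev F P₀) := by
      intro x
      rw [LinearMap.mem_ker, ← ev_mul_apply, he, show P₀ * (r * c) = r * (c * P₀) by ring,
        ev_mul_apply, hkill, LinearMap.zero_apply, map_zero]
    have hEid : ∀ x ∈ LinearMap.ker (ev F P₀), ev F e x = x := by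
      intro x hx
      have h1 := hsum x
      rw [LinearMap.mem_ker] at hx
      rwa [ev_mul_apply F s P₀, hx, map_zero, add_zero] at h1
    have hu0 : ∀ x ∈ LinearMap.ker (ev F P₀), u x ∈ LinearMap.ker (ev F P₀) := by
      intro x hx
      rw [LinearMap.mem_ker] at hx ⊢
      rw [← ev_comm huF, hx, map_zero]
    have hpk : ∀ (k : ℕ), ∀ x ∈ LinearMap.ker (ev F P₀), (F ^ k) x ∈ LinearMap.ker (ev F P₀) := by
      intro k
      induction k with
      | zero => intro x hx; simpa using hx
      | succ k ih => intro x hx; rw [pow_succ', Module.End.mul_apply]; exact hp _ (ih x hx)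
    have hpow : ∀ k : ℕ, (F.restrict hp) ^ k = (F ^ k).restrict (hpk k) := by
      intro k
      apply LinearMap.ext
      intro x
      apply Subtype.ext
      have h1 := restrict_ev hp (X ^ k) x
      rw [map_pow, map_pow, aeval_X, aeval_X] at h1
      exact h1
    have hG : HasSimple (F.restrict hp) := by
      have h1 : Squarefree (F.restrict hp).charpoly :=
        hsq.squarefree_of_dvd (hchar2 ▸ dvd_mul_right _ _)
      exact ⟨_, h1, LinearMap.charpoly_natDegree _, fun R hR => charpoly_dvd_of_squarefree h1 hR⟩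
    obtain ⟨g, hg⟩ := exists_rat_of_traces (G := F.restrict hp) (U := u.restrict hu0) (ε := 1) hG
      (by
        apply LinearMap.ext
        intro x
        apply Subtype.ext
        exact congrArg (fun A => A (x : V)) huF)
      (by rw [one_mul, mul_one]) (one_mul 1)
      (by
        intro k
        obtain ⟨t, ht⟩ := htr k
        refine ⟨t, ?_⟩
        rw [one_mul, hpow, trace_restrict_proj hEmem hEid, ht])
      (by
        intro k
        obtain ⟨t, ht⟩ := hutr k
        refine ⟨t, ?_⟩
        have h1 : (u.restrict hu0) * (F.restrict hp) ^ k =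
            (u * F ^ k).restrict (fun x hx => hu0 _ (hpk k x hx)) := by
          rw [hpow]
          rfl
        rw [one_mul, h1, trace_restrict_proj hEmem hEid, mul_assoc, ht])
    have hug : ∀ x ∈ LinearMap.ker (ev F P₀), u x = ev F g x := by
      intro x hx
      have h1 : u x = ((ev (F.restrict hp) g ⟨x, hx⟩ : LinearMap.ker (ev F P₀)) : V) :=
        congrArg (fun A => ((A ⟨x, hx⟩ : LinearMap.ker (ev F P₀)) : V)) hg
      exact h1.trans (restrict_ev hp (g.map (algebraMap ℚ K)) ⟨x, hx⟩)
    have hx : (g * e).map (algebraMap ℚ K) ∈ J := by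
      rw [hJ, ← ev_apply]
      have h1 : ev F (g * e) = u * ev F e := by
        apply LinearMap.ext
        intro x
        rw [ev_mul_apply, Module.End.mul_apply, hug _ (hEmem x)]
      rw [h1, ev_apply]
      exact hMp u hu _
    rw [Polynomial.map_mul] at hx
    rcases hπ.dvd_or_dvd (hdvd _ hx) with h1 | h1
    · by_cases hQg : Q ∣ g
      · apply huy
        obtain ⟨x, hx⟩ := hQg
        have hy : y ∈ LinearMap.ker (ev F P₀) := by
          obtain ⟨z, hz⟩ := hcase
          rw [LinearMap.mem_ker, hz, mul_comm, ev_mul_apply, hQy, map_zero]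
        rw [hug y hy, hx, mul_comm, ev_mul_apply, hQy, map_zero]
      · obtain ⟨x, z, hxz⟩ := (hQ.coprime_iff_not_dvd).2 hQg
        exact hcop Q g ⟨x, z, hxz⟩ hπQ h1
    · refine hcop e P₀ ⟨1, s, ?_⟩ h1 (hπQ.trans (hmapdvd hcase))
      rw [one_mul]
      exact hbez
  · -- the eigenvalue `a`
    have hQc : Q ∣ c := (hQ.prime.dvd_or_dvd hQP).resolve_right hcase
    have hQa : Q ∣ X - C a := hQ.prime.dvd_of_dvd_pow hQc
    have hya : F y = (a : K) • y := by
      obtain ⟨z, hz⟩ := hQa
      have h1 : ev F (X - C a) y = 0 := by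
        rw [hz, mul_comm, ev_mul_apply, hQy, map_zero]
      rw [map_sub, ev_X, ev_C, LinearMap.sub_apply, LinearMap.smul_apply,
        Module.End.one_apply] at h1
      exact sub_eq_zero.1 h1
    have hyc : y ∈ LinearMap.ker (ev F c) := by
      obtain ⟨z, hz⟩ := hQc
      rw [LinearMap.mem_ker, hz, mul_comm, ev_mul_apply, hQy, map_zero]
    have hy0 : y ≠ 0 := by
      rintro rfl
      exact huy (map_zero u)
    have hl : l ≠ 0 := by
      rintro rfl
      rw [hc, pow_zero] at hQc
      exact hQ.not_isUnit (isUnit_of_dvd_one hQc)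
    have hdim : Module.finrank K (LinearMap.ker (ev F c)) ≤ 1 := by
      have h1 : Squarefree (F.restrict hq).charpoly :=
        hsq.squarefree_of_dvd (hchar2 ▸ dvd_mul_left _ _)
      have h2 : aeval (F.restrict hq) (c.map (algebraMap ℚ K)) = 0 := by
        apply LinearMap.ext
        intro x
        apply Subtype.ext
        rw [restrict_ev, ← ev_apply]
        exact LinearMap.mem_ker.1 x.2
      have h3 := charpoly_dvd_of_squarefree h1 h2
      have hcm : c.map (algebraMap ℚ K) = ((X - C a : ℚ[X]).map (algebraMap ℚ K)) ^ l := by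
        rw [hc, Polynomial.map_pow]
      replace h3 := h3.trans (dvd_of_eq hcm)
      rw [h1.dvd_pow_iff_dvd hl] at h3
      have h4 : (X - C a : ℚ[X]).map (algebraMap ℚ K) ≠ 0 := by
        rw [Ne, Polynomial.map_eq_zero]
        exact X_sub_C_ne_zero a
      have h5 := Polynomial.natDegree_le_of_dvd h3 h4
      rw [LinearMap.charpoly_natDegree] at h5
      refine h5.trans ((Polynomial.natDegree_map_le).trans ?_)
      rw [natDegree_X_sub_C]
    have hline : ∀ x ∈ LinearMap.ker (ev F c), ∃ t : K, t • y = x := by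
      intro x hx
      obtain ⟨t, ht⟩ := (finrank_le_one_iff.1 hdim)
      obtain ⟨α, hα⟩ := ht ⟨y, hyc⟩
      obtain ⟨β, hβ⟩ := ht ⟨x, hx⟩
      have hα0 : α ≠ 0 := by
        rintro rfl
        rw [zero_smul] at hα
        exact hy0 (congrArg Subtype.val hα.symm)
      refine ⟨β * α⁻¹, ?_⟩
      have h1 : α • (t : V) = y := congrArg Subtype.val hα
      have h2 : β • (t : V) = x := congrArg Subtype.val hβ
      rw [← h1, ← h2, smul_smul, mul_assoc, inv_mul_cancel₀ hα0, mul_one]
    obtain ⟨κ, hκ⟩ := hline (u y) (by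
      rw [LinearMap.mem_ker] at hyc ⊢
      rw [← ev_comm huF, hyc, map_zero])
    have hκ0 : κ ≠ 0 := by
      rintro rfl
      rw [zero_smul] at hκ
      exact huy hκ.symm
    have hmem : ∀ x, ev F (s * P₀) x ∈ LinearMap.ker (ev F c) := by
      intro x
      rw [LinearMap.mem_ker, ← ev_mul_apply, show c * (s * P₀) = s * (c * P₀) by ring,
        ev_mul_apply, hkill, LinearMap.zero_apply, map_zero]
    have hx : C κ * (s * P₀).map (algebraMap ℚ K) ∈ J := by
      rw [hJ, map_mul, aeval_C, Algebra.algebraMap_eq_smul_one, smul_mul_assoc, one_mul,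
        ← ev_apply]
      have h1 : κ • ev F (s * P₀) = u * ev F (s * P₀) := by
        apply LinearMap.ext
        intro x
        obtain ⟨t, ht⟩ := hline _ (hmem x)
        rw [LinearMap.smul_apply, Module.End.mul_apply, ← ht, map_smul, ← hκ, smul_comm]
      rw [h1, ev_apply]
      exact hMp u hu _
    rcases hπ.dvd_or_dvd (hdvd _ hx) with h1 | h1
    · exact hπ.not_isUnit (isUnit_of_dvd_unit h1 (isUnit_C.2 hκ0.isUnit))
    · refine hcop (s * P₀) c ⟨1, r, ?_⟩ h1 (hπQ.trans (hmapdvd hQc))
      rw [one_mul, add_comm]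
      exact hbez

end Main

end Pool.Agent.U227.Fr
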