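import Pool.Agent.U227.GrpB2

/-!
# The Lefschetz standard conjecture modulo algebraic classes
-/

set_option autoImplicit false

open CategoryTheory AlgebraicGeometry Finset

universe u v

namespace Pool.Agent.U227.Fr

open Pool.Agent.H914 VarClass Obj WeilCohomology Pool.Agent.U227.Grp

variable {k : Type u} [Field k] {𝒱 : VarClass k} {ops : CycleOps 𝒱}
  {W : WeilCohomology.{u, v} ops} {X : 𝒱.Obj} {D : X.Cycles}

/-- The product with the power of the class of the divisor. -/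
noncomputable def lp (W : WeilCohomology.{u, v} ops) {X : 𝒱.Obj} (D : X.Cycles) (m : ℕ) :
    W.H X →ₗ[W.K] W.H X :=
  LinearMap.mulLeft W.K (W.cl X D ^ m)

lemma lp_apply (m : ℕ) (x : W.H X) : lp W D m x = W.cl X D ^ m * x := rfl

lemma lp_eq (m : ℕ) : lp W D m = LinearMap.mulLeft W.K (W.cl X D) ^ m := by
  rw [lp, LinearMap.pow_mulLeft]

lemma cl_pow_mem (hD : X.IsCyc 1 D) (m : ℕ) : W.cl X D ^ m ∈ W.gr X (2 * m) := by
  induction m with
  | zero => rw [pow_zero]; exact W.one_mem X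
  | succ m ih =>
    rw [pow_succ]
    have h1 := W.mul_mem ih (W.cl_mem hD)
    rwa [show 2 * m + 2 * 1 = 2 * (m + 1) by ring] at h1

lemma lp_kop (hD : X.IsCyc 1 D) (m : ℕ) : lp W D m ∈ KOp W X X m := by
  rw [lp_eq]
  have h1 := rop_opAlg.pow (rop_mulLeft (W := W) hD) m
  have h2 := mem_KS_iff.1 (Submodule.subset_span h1)
  exact KOp.cast h2 (by ring)

lemma lp_mem (hD : X.IsCyc 1 D) {i : ℕ} (m : ℕ) {x : W.H X} (hx : x ∈ W.gr X i) :
    lp W D m x ∈ W.gr X (i + 2 * m) := by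
  rw [lp_apply, add_comm]
  exact W.mul_mem (cl_pow_mem hD m) hx

lemma tr_lp (hD : X.IsCyc 1 D) (m : ℕ) (a b : W.H X) :
    W.tr X (lp W D m a * b) = W.tr X (a * lp W D m b) := by
  rw [lp_apply, lp_apply, ← mul_assoc, W.even_comm (cl_pow_mem hD m)]

/-- **Algebraicity modulo algebraic classes is enough.** If a combination of correspondences induces
the inverse of the power of the Lefschetz operator modulo the span of the classes of algebraic cycles,
then some combination of correspondences induces the inverse. -/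
theorem exact_of_mod (hD : X.IsCyc 1 D) (hHL : HardLefschetz W X D) {i : ℕ} (hi : i ≤ X.dim)
    {φ : W.H X →ₗ[W.K] W.H X} (hφ : φ ∈ KOp W X X ((i : ℤ) - X.dim))
    (h : ∀ v ∈ W.gr X i, φ (lp W D (X.dim - i) v) - v ∈ algSpan W X i) :
    ∃ φ' ∈ KOp W X X ((i : ℤ) - X.dim), ∀ v ∈ W.gr X i, φ' (lp W D (X.dim - i) v) = v := by
  set M := lp W D (X.dim - i) with hM
  obtain ⟨ψ, hψ, hadj⟩ := KOp.exists_adjoint hφ
  have hψ' : ψ ∈ KOp W X X ((i : ℤ) - X.dim) := KOp.cast hψ (by ring)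
  have hMk : M ∈ KOp W X X ((X.dim : ℤ) - i) := KOp.cast (lp_kop hD _) (by push_cast [hi]; ring)
  -- adjoints for the form `tr (x * M y)`
  have h1 : ∀ x y, W.tr X ((φ (M x) - x) * M y) = W.tr X (x * M (ψ (M y) - y)) := by
    intro x y
    rw [sub_mul, map_sub, hadj, hM, tr_lp hD, ← hM, map_sub M, mul_sub, map_sub]
  obtain ⟨m, y, u, hy, hu, hdual⟩ := exists_dual (W := W) hHL hi
  rw [← lp_eq, ← hM] at hdual
  -- the products of the errors
  have h2 : ∀ z ∈ W.gr X i, (φ (M (ψ (M z) - z)) - (ψ (M z) - z)) =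
      (∑ j, LinearMap.smulRight (W.tr X ∘ₗ LinearMap.mulLeft W.K (φ (M (u j)) - u j))
        (φ (M (y j)) - y j)) (M z) := by
    intro z hz
    have hz' : ψ (M z) - z ∈ W.gr X i := by
      apply Submodule.sub_mem _ _ hz
      have h3 := KOp.isHom (KOp.comp hψ' hMk) i z (by rw [grZ_natCast]; exact hz)
      rw [show (i : ℤ) + 2 * ((X.dim : ℤ) - i + ((i : ℤ) - X.dim)) = i by ring,
        grZ_natCast] at h3
      exact h3
    have h3 := hdual _ hz'
    have h4 : φ (M (ψ (M z) - z)) - (ψ (M z) - z) =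
        ∑ j, W.tr X (u j * M (ψ (M z) - z)) • (φ (M (y j)) - y j) := by
      conv_lhs => rw [h3]
      simp only [map_sum, map_smul, smul_sub, Finset.sum_sub_distrib]
    rw [h4, LinearMap.sum_apply]
    apply Finset.sum_congr rfl
    intro j _
    rw [LinearMap.smulRight_apply, LinearMap.comp_apply, LinearMap.mulLeft_apply, h1]
  refine ⟨(∑ j, LinearMap.smulRight (W.tr X ∘ₗ LinearMap.mulLeft W.K (φ (M (u j)) - u j))
        (φ (M (y j)) - y j)) + φ + ψ - φ ∘ₗ (M ∘ₗ ψ), ?_, ?_⟩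
  · refine Submodule.sub_mem _ (Submodule.add_mem _ (Submodule.add_mem _ ?_ hφ) hψ') ?_
    · exact Submodule.sum_mem _ fun j _ => kop_pair (h _ (hu j)) (h _ (hy j))
    · exact KOp.cast (KOp.comp hφ (KOp.comp hMk hψ')) (by ring)
  · intro z hz
    rw [LinearMap.sub_apply, LinearMap.add_apply, LinearMap.add_apply, ← h2 z hz,
      LinearMap.comp_apply, LinearMap.comp_apply, map_sub M, map_sub φ]
    abel

end Pool.Agent.U227.Fr
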