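import Pool.Agent.U227.FrLem
import Pool.Agent.U227.FrLin

/-!
# The inverse of the power of the Lefschetz operator over a finite field
-/

set_option autoImplicit false
set_option linter.unusedSectionVars false

open CategoryTheory AlgebraicGeometry Finset Polynomial

universe u v

namespace Pool.Agent.U227.Fr

open Pool.Agent.H914 VarClass Obj WeilCohomology Pool.Agent.U227.Grp

variable {k : Type u} [Field k] {𝒱 : VarClass k} {ops : CycleOps 𝒱}
  {W : WeilCohomology.{u, v} ops} {X : 𝒱.Obj} {D : X.Cycles}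

section Frob

variable {f : X ⟶ X} {q : ℕ}

lemma frob_cl (hF : IsFrobenius W X f q) (hb : ∃ b : W.H X, W.tr X b ≠ 0) {j : ℕ}
    {z : X.Cycles} (hz : X.IsCyc j z) : W.map f (W.cl X z) = (q : W.K) ^ j • W.cl X z := by
  apply map_eq_of_fst _ hb
  have h1 := hF j _ ⟨_, ops.pull_mem (fst X X) hz, rfl⟩
  rw [W.cl_pull] at h1
  exact h1

lemma frob_tr (hD : X.IsCyc 1 D) (hHL : HardLefschetz W X D) (h1 : (1 : W.H X) ≠ 0)
    (hF : IsFrobenius W X f q) (a : W.H X) :
    W.tr X (W.map f a) = (q : W.K) ^ X.dim * W.tr X a := by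
  obtain ⟨b, ⟨z, hz, hzb⟩, hb0⟩ := exists_top (W := W) hD hHL h1
  refine tr_map_of_top (b := b) ?_ hb0 ?_ a
  · rw [← hzb]; exact W.cl_mem hz
  · rw [← hzb]; exact frob_cl hF ⟨b, hb0⟩ hz

lemma frob_corr (hD : X.IsCyc 1 D) (hHL : HardLefschetz W X D) (h1 : (1 : W.H X) ≠ 0)
    (hF : IsFrobenius W X f q) (hq : 0 < q) {i : ℕ} (hi : i ≤ X.dim) {z : (X.prod X).Cycles}
    (hz : (X.prod X).IsCyc i z) (a : W.H X) :
    W.corr (W.cl _ z) (W.map f a) =
      (q : W.K) ^ (X.dim - i) • W.map f (W.corr (W.cl _ z) a) := by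
  have h2 := corr_squareMap (frob_tr hD hHL h1 hF) (W.cl _ z) a
  have h3 : W.map (squareMap f) (W.cl _ z) = (q : W.K) ^ i • W.cl _ z := hF i _ ⟨z, hz, rfl⟩
  rw [h3, corr_smul, LinearMap.smul_apply] at h2
  have hqK : (q : W.K) ≠ 0 := by exact_mod_cast hq.ne'
  apply smul_right_injective _ (pow_ne_zero i hqK)
  beta_reduce
  rw [h2, smul_smul, ← pow_add]
  congr 2
  omega

lemma frob_lp (hD : X.IsCyc 1 D) (hF : IsFrobenius W X f q) (hb : ∃ b : W.H X, W.tr X b ≠ 0)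
    (m : ℕ) (a : W.H X) :
    W.map f (lp W D m a) = (q : W.K) ^ m • lp W D m (W.map f a) := by
  rw [lp_apply, lp_apply, map_mul, map_pow, frob_cl hF hb hD, pow_one, _root_.smul_pow,
    smul_mul_assoc]

/-- The composite of a correspondence with the power of the Lefschetz operator. -/
noncomputable def lcorr (W : WeilCohomology.{u, v} ops) (D : X.Cycles) (i : ℕ)
    (z : (X.prod X).Cycles) : Module.End W.K (W.H X) :=
  lp W D (X.dim - i) ∘ₗ W.corr (W.cl _ z)

lemma lcorr_apply (i : ℕ) (z : (X.prod X).Cycles) (a : W.H X) :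
    lcorr W D i z a = lp W D (X.dim - i) (W.corr (W.cl _ z) a) := rfl

lemma lcorr_comm (hD : X.IsCyc 1 D) (hHL : HardLefschetz W X D) (h1 : (1 : W.H X) ≠ 0)
    (hF : IsFrobenius W X f q) (hq : 0 < q) {i : ℕ} (hi : i ≤ X.dim) {z : (X.prod X).Cycles}
    (hz : (X.prod X).IsCyc i z) (a : W.H X) :
    lcorr W D i z (W.map f a) = W.map f (lcorr W D i z a) := by
  obtain ⟨b, -, hb0⟩ := exists_top (W := W) hD hHL h1
  rw [lcorr_apply, lcorr_apply, frob_corr hD hHL h1 hF hq hi hz, map_smul,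
    frob_lp hD hF ⟨b, hb0⟩]

lemma rop_lcorr (hD : X.IsCyc 1 D) {i : ℕ} (hi : i ≤ X.dim) {z : (X.prod X).Cycles}
    (hz : (X.prod X).IsCyc i z) : ROp W X 0 (lcorr W D i z) := by
  have h1 : ROp W X ((X.dim - i : ℕ) : ℤ) (lp W D (X.dim - i)) := by
    rw [lp_eq]
    obtain ⟨Y, hY, hY'⟩ := rop_mulLeft (W := W) hD
    refine ⟨_, (hY.pow (X.dim - i)).cast (by ring), ?_⟩
    rw [hY']
  have h2 : ROp W X ((i : ℤ) - X.dim) (W.corr (W.cl _ z)) :=
    ⟨fun W => W.corr (W.cl _ z), Or.inl ⟨i, by ring, z, hz, fun _ => rfl⟩, rfl⟩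
  have h3 := rop_opAlg.mul h1 h2
  rw [show ((X.dim - i : ℕ) : ℤ) + ((i : ℤ) - X.dim) = 0 by push_cast [hi]; ring] at h3
  exact h3

lemma kop_of_rop {d : ℤ} {y : Module.End W.K (W.H X)} (hy : ROp W X d y) : y ∈ KOp W X X d :=
  mem_KS_iff.1 (Submodule.subset_span hy)

lemma kop_gr {φ : W.H X →ₗ[W.K] W.H X} (hφ : φ ∈ KOp W X X 0) {i : ℕ} {y : W.H X}
    (hy : y ∈ W.gr X i) : φ y ∈ W.gr X i := by
  have h3 := KOp.isHom hφ i y (by rw [grZ_natCast]; exact hy)
  rwa [mul_zero, add_zero, grZ_natCast] at h3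

lemma kop_trPart {φ : W.H X →ₗ[W.K] W.H X} (hφ : φ ∈ KOp W X X 0) {i : ℕ} (hi : i ≤ X.dim)
    {y : W.H X} (hy : y ∈ trPart W X i) : φ y ∈ trPart W X i := by
  apply mem_trPart hi (kop_gr hφ hy.1)
  intro c hc
  obtain ⟨ψ, hψ, hadj⟩ := KOp.exists_adjoint hφ
  have hψ' : ψ ∈ KOp W X X 0 := KOp.cast hψ (by ring)
  rw [hadj]
  exact tr_algSpan hy.2 (kop_algSpan (j := i) hψ' (by ring) hc)

/-- The polynomial in the Frobenius which maps to the transcendental part. -/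
lemma tr_ev {F : Module.End W.K (W.H X)} {c : W.H X} {a : ℚ}
    (h : ∀ y, W.tr X (F y * c) = (a : W.K) * W.tr X (y * c)) (g : ℚ[X]) (y : W.H X) :
    W.tr X (ev F g y * c) = ((g.eval a : ℚ) : W.K) * W.tr X (y * c) := by
  induction g using Polynomial.induction_on' generalizing y with
  | add p q hp hq =>
    rw [map_add, LinearMap.add_apply, add_mul, map_add, hp, hq, eval_add]
    push_cast
    ring
  | monomial m b =>
    rw [← C_mul_X_pow_eq_monomial]
    induction m generalizing y with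
    | zero =>
      rw [pow_zero, mul_one, ev_C, LinearMap.smul_apply, Module.End.one_apply, smul_mul_assoc,
        map_smul, smul_eq_mul, eval_C]
    | succ m ih =>
      rw [pow_succ, ← mul_assoc, ev_mul_apply, ev_X, ih, h, eval_mul (p := C b * Polynomial.X ^ m),
        eval_X]
      push_cast
      ring

lemma frob_adj (hD : X.IsCyc 1 D) (hHL : HardLefschetz W X D) (h1 : (1 : W.H X) ≠ 0)
    (hF : IsFrobenius W X f q) (hq : 0 < q) {j : ℕ} (hj : j ≤ X.dim) {z : X.Cycles}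
    (hz : X.IsCyc j z) (y : W.H X) :
    W.tr X ((W.map f).toLinearMap y * W.cl X z) =
      (((q : ℚ) ^ (X.dim - j) : ℚ) : W.K) * W.tr X (y * W.cl X z) := by
  obtain ⟨b, -, hb0⟩ := exists_top (W := W) hD hHL h1
  have h2 := frob_tr hD hHL h1 hF (y * W.cl X z)
  rw [map_mul, frob_cl hF ⟨b, hb0⟩ hz, mul_smul_comm, map_smul, smul_eq_mul] at h2
  have hqK : (q : W.K) ≠ 0 := by exact_mod_cast hq.ne'
  apply mul_left_cancel₀ (pow_ne_zero j hqK)
  change (q : W.K) ^ j * W.tr X (W.map f y * W.cl X z) = _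
  rw [h2, ← mul_assoc]
  push_cast
  rw [← pow_add]
  congr 2
  omega

end Frob

end Pool.Agent.U227.Fr
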