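import Pool.Agent.U227.FrM

/-!
# The Lefschetz standard conjecture over finite fields: the main theorem
-/

set_option autoImplicit false
set_option linter.unusedSectionVars false

open CategoryTheory AlgebraicGeometry Finset Polynomial

universe u v

namespace Pool.Agent.U227.Fr

open Pool.Agent.H914 VarClass Obj WeilCohomology Pool.Agent.U227.Grp

variable {k : Type u} [Field k] {𝒱 : VarClass k} {ops : CycleOps 𝒱}
  {W : WeilCohomology.{u, v} ops} {X : 𝒱.Obj} {D : X.Cycles} {f : X ⟶ X} {q : ℕ}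

/-- A combination of correspondences which does not kill `y`. -/
lemma exists_of_span {i : ℕ} {φ : W.H X →ₗ[W.K] W.H X}
    (hφ : φ ∈ KOp W X X ((i : ℤ) - X.dim)) {y : W.H X} (hy : φ y ≠ 0) :
    ∃ z, (X.prod X).IsCyc i z ∧ W.corr (W.cl (X.prod X) z) y ≠ 0 := by
  by_contra hcon
  push Not at hcon
  apply hy
  induction hφ using Submodule.span_induction with
  | mem φ hφ =>
    obtain ⟨p, hp, z, hz, rfl⟩ := hφ
    obtain rfl : p = i := by omega
    exact hcon z hz
  | zero => rfl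
  | add a b _ _ ha hb =>
    rw [LinearMap.add_apply]
    by_cases h1 : a y = 0
    · by_cases h2 : b y = 0
      · rw [h1, h2, add_zero]
      · rw [hb h2] at h2; exact absurd rfl h2
    · rw [ha h1] at h1; exact absurd rfl h1
  | smul t a _ ha =>
    rw [LinearMap.smul_apply]
    by_cases h1 : a y = 0
    · rw [h1, smul_zero]
    · rw [ha h1] at h1; exact absurd rfl h1

lemma kop_iff_span {i : ℕ} {φ : W.H X →ₗ[W.K] W.H X} :
    φ ∈ Submodule.span W.K (cycOps W X i) ↔ φ ∈ KOp W X X ((i : ℤ) - X.dim) := by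
  have h1 : cycOps W X i = {φ | ∃ p : ℕ, (p : ℤ) = X.dim + ((i : ℤ) - X.dim) ∧
      ∃ z, (X.prod X).IsCyc p z ∧ W.corr (W.cl _ z) = φ} := by
    ext φ
    constructor
    · rintro ⟨_, ⟨z, hz, rfl⟩, rfl⟩
      exact ⟨i, by ring, z, hz, rfl⟩
    · rintro ⟨p, hp, z, hz, rfl⟩
      obtain rfl : p = i := by omega
      exact ⟨_, ⟨z, hz, rfl⟩, rfl⟩
  rw [KOp, h1]

lemma inverse_of_kop {i : ℕ} (h : ∃ φ' ∈ KOp W X X ((i : ℤ) - X.dim),
      ∀ v ∈ W.gr X i, φ' (lp W D (X.dim - i) v) = v) : InverseAlgebraic W X D i := by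
  obtain ⟨φ, hφ, h2⟩ := h
  refine ⟨φ, kop_iff_span.2 hφ, fun x hx => ?_⟩
  rw [← lp_eq]
  exact h2 x hx

lemma detected_of_kop {i : ℕ} {φ : W.H X →ₗ[W.K] W.H X}
    (hφ : φ ∈ KOp W X X ((i : ℤ) - X.dim))
    (hinj : ∀ y ∈ W.gr X (2 * X.dim - i), φ y = 0 → y = 0) : ClassesDetected W X i := by
  intro y hy hy0
  obtain ⟨z, hz, hzy⟩ := exists_of_span hφ (fun h => hy0 (hinj y hy.1 h))
  exact ⟨_, ⟨_, ⟨z, hz, rfl⟩, rfl⟩, hzy⟩

lemma factors_of_detects {i : ℕ} (h : FactorsDetected W X f i) : ∀ Q : ℚ[X], Irreducible Q →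
      (∃ y ∈ rootPart (W.map f).toLinearMap (trPart W X i) Q, y ≠ 0) →
      ∃ z, (X.prod X).IsCyc i z ∧
        ∃ y ∈ rootPart (W.map f).toLinearMap (trPart W X i) Q, W.corr (W.cl _ z) y ≠ 0 := by
  intro Q hQ hy
  obtain ⟨_, ⟨_, ⟨z, hz, rfl⟩, rfl⟩, y, hy, hzy⟩ := h Q hQ hy
  exact ⟨z, hz, y, hy, hzy⟩

/-- **The criterion in one degree.** -/
theorem main_degree (hD : X.IsCyc 1 D) (hHL : HardLefschetz W X D)
    (hF : IsFrobenius W X f q) (hq : 1 < q) (hRH : RiemannHypothesis W X f q) {i : ℕ}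
    (hi : i ≤ X.dim) (hsq : SquarefreeOn (W.map f).toLinearMap (trPart W X i)) :
    List.TFAE [InverseAlgebraic W X D i, ClassesDetected W X i, FactorsDetected W X f i] := by
  tfae_have 1 → 2 := by
    rintro ⟨φ, hφ, h⟩
    refine detected_of_kop (kop_iff_span.1 hφ) ?_
    intro y hy h0
    obtain ⟨v, hv, rfl⟩ := (hHL i hi).2 y hy
    have h1 := h v hv
    rw [h0] at h1
    rw [← h1, map_zero]
  tfae_have 2 → 3 := by
    rintro h Q - ⟨y, hy, hy0⟩
    obtain ⟨s, hs, hsy⟩ := h y hy.1 hy0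
    exact ⟨s, hs, y, hy, hsy⟩
  tfae_have 3 → 1 := fun h => inverse_of_kop
    (exact_of_factors hD hHL hF hq hRH hi hsq (factors_of_detects h))
  tfae_finish

/-- **The criterion for the conjecture `B(X)`.** -/
theorem main_B (hD : X.IsCyc 1 D) (hHL : HardLefschetz W X D)
    (hF : IsFrobenius W X f q) (hq : 1 < q) (hRH : RiemannHypothesis W X f q)
    (hsq : ∀ i < X.dim, SquarefreeOn (W.map f).toLinearMap (trPart W X i)) :
    List.TFAE [LefschetzB W X D, ∀ i < X.dim, InverseAlgebraic W X D i,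
      ∀ i < X.dim, ClassesDetected W X i, ∀ i < X.dim, FactorsDetected W X f i] := by
  tfae_have 1 → 3 := by
    intro h i hi
    have h2 := ((lefschetzB_tfae hD hHL).out 0 2).1 h
    obtain ⟨γ, hγ, hinj⟩ := h2 (X.dim - i) (by omega)
    refine detected_of_kop (φ := W.corr γ) (mem_KOp_iff.2 ⟨γ, ?_, rfl⟩) ?_
    · rwa [show (X.dim : ℤ) - ((X.dim - i : ℕ) : ℤ) = X.dim + ((i : ℤ) - X.dim) by
        push_cast [hi.le]; ring] at hγ
    · intro y hy
      exact hinj y (by rwa [show X.dim + (X.dim - i) = 2 * X.dim - i by omega])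
  tfae_have 3 → 4 := fun h i hi =>
    ((main_degree hD hHL hF hq hRH hi.le (hsq i hi)).out 1 2).1 (h i hi)
  tfae_have 4 → 2 := fun h i hi =>
    ((main_degree hD hHL hF hq hRH hi.le (hsq i hi)).out 2 0).1 (h i hi)
  tfae_have 2 → 1 := by
    intro h
    apply lefschetzB_of_inj hD hHL
    intro c hc
    by_cases hc0 : c = 0
    · subst hc0
      exact ⟨1, by
        have h1 := kop_of_rop (rop_opAlg (W := W) (X := X)).one
        exact KOp.cast h1 (by simp), fun a _ h => h⟩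
    · obtain ⟨φ, hφ, h2⟩ := h (X.dim - c) (by omega)
      refine ⟨φ, KOp.cast (kop_iff_span.1 hφ) (by push_cast [hc]; ring), ?_⟩
      intro y hy h0
      obtain ⟨v, hv, rfl⟩ := (hHL (X.dim - c) (by omega)).2 y (by
        rwa [show 2 * X.dim - (X.dim - c) = X.dim + c by omega])
      have h1 := h2 v hv
      rw [h0] at h1
      rw [← h1, map_zero]
  tfae_finish

end Pool.Agent.U227.Fr
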