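import Pool.Agent.U227.LinFix
import Mathlib.Algebra.Category.ModuleCat.Basic
import Mathlib.Algebra.Category.Ring.Basic
import Mathlib.FieldTheory.Galois.Basic

/-!
# Functors with Galois descent on fields
-/

set_option autoImplicit false
set_option linter.unusedSectionVars false

open CategoryTheory

universe w

namespace Pool.Agent.U227.GalFix

open Pool.Agent.X252.GA Pool.Agent.X252.SCT Pool.Agent.U227.Grp Pool.Agent.U227.Lin

variable (A : CommRingCat.{0} ⥤ ModuleCat.{w} ℚ)

/-- The space `A(L)` of the field `L`. -/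
abbrev Sp (L : Type) [Field L] : Type w := A.obj (CommRingCat.of L)

/-- The map of the spaces given by a homomorphism of fields. -/
noncomputable def push {E L : Type} [Field E] [Field L] (f : E →+* L) : Sp A E →ₗ[ℚ] Sp A L :=
  (A.map (CommRingCat.ofHom f)).hom

/-- Galois descent: for a finite Galois extension `L/E` the map `A(E) → A(L)` is injective, and its image
contains all elements fixed by the Galois group. -/
def GaloisDescent : Prop :=
  ∀ (E L : Type) [Field E] [Field L] [Algebra E L] [FiniteDimensional E L] [IsGalois E L],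
    Function.Injective (push A (algebraMap E L)) ∧
    ∀ x : Sp A L, (∀ g : L ≃ₐ[E] L, push A (g : L →+* L) x = x) →
      ∃ y : Sp A E, push A (algebraMap E L) y = x

/-- The space `A(L)` is zero. -/
def Vanishes (L : Type) [Field L] : Prop := ∀ x : Sp A L, x = 0

lemma push_comp {E F L : Type} [Field E] [Field F] [Field L] (f : E →+* F) (g : F →+* L)
    (x : Sp A E) : push A (g.comp f) x = push A g (push A f x) := by
  simp [push, CommRingCat.ofHom_comp]

lemma push_id {E : Type} [Field E] (x : Sp A E) : push A (RingHom.id E) x = x := by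
  simp [push, CommRingCat.ofHom_id]

/-- The action of the Galois group. -/
noncomputable def act (k L : Type) [Field k] [Field L] [Algebra k L] :
    (L ≃ₐ[k] L) →* Module.End ℚ (Sp A L) where
  toFun g := push A (g : L →+* L)
  map_one' := LinearMap.ext fun x => push_id A x
  map_mul' g h := LinearMap.ext fun x => push_comp A (h : L →+* L) (g : L →+* L) x

lemma act_apply {k L : Type} [Field k] [Field L] [Algebra k L] (g : L ≃ₐ[k] L) (x : Sp A L) :
    act A k L g x = push A (g : L →+* L) x := rfl

/-- The representation `ρ` of the Galois group occurs in `A(L)`: some equivariant linear map to `A(L)`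
is not zero. -/
def Occurs (k L : Type) [Field k] [Field L] [Algebra k L] {V : Type} [AddCommGroup V] [Module ℚ V]
    (ρ : (L ≃ₐ[k] L) →* Module.End ℚ V) : Prop :=
  ∃ f : V →ₗ[ℚ] Sp A L, (∀ g v, f (ρ g v) = push A (g : L →+* L) (f v)) ∧ f ≠ 0

variable {A} {k L : Type} [Field k] [Field L] [Algebra k L]

lemma occurs_iff {V : Type} [AddCommGroup V] [Module ℚ V]
    (ρ : (L ≃ₐ[k] L) →* Module.End ℚ V) : OccMod (act A k L) ⊥ ρ ↔ Occurs A k L ρ := by
  constructor
  · rintro ⟨f, hadd, heq, v, hv⟩
    simp only [Submodule.mem_bot, sub_eq_zero] at hadd heq hv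
    refine ⟨(AddMonoidHom.mk' f hadd).toRatLinearMap, fun g v => heq g v, fun h => hv ?_⟩
    exact congrArg (fun u : V →ₗ[ℚ] Sp A L => u v) h
  · rintro ⟨f, heq, hf⟩
    refine ⟨f, fun v w => ?_, fun g v => ?_, ?_⟩
    · rw [map_add, sub_self]
      exact Submodule.zero_mem _
    · rw [heq, act_apply, sub_self]
      exact Submodule.zero_mem _
    · by_contra hcon
      push Not at hcon
      exact hf (LinearMap.ext fun v => (Submodule.mem_bot ℚ).1 (hcon v))

lemma vanishes_iff (hA : GaloisDescent A) [FiniteDimensional k L] [IsGalois k L]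
    (E : IntermediateField k L) : Vanishes A E ↔ FixIn (act A k L) ⊥ E.fixingSubgroup := by
  have h0 := hA E L
  constructor
  · intro h x hx
    obtain ⟨y, hy⟩ := h0.2 x fun g => by
      have h1 := hx ((IntermediateField.fixingSubgroupEquiv E).symm g) (Subtype.property _)
      rw [act_apply] at h1
      exact h1
    rw [Submodule.mem_bot, ← hy, h y, map_zero]
  · intro h y
    apply h0.1
    rw [map_zero]
    refine (Submodule.mem_bot ℚ).1 (h _ fun g hg => ?_)
    rw [act_apply, ← push_comp]
    congr 2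
    ext z
    exact (IntermediateField.mem_fixingSubgroup_iff E g).1 hg z z.2

/-- **Functors with Galois descent.** -/
theorem galois (hA : GaloisDescent A) [FiniteDimensional k L] [IsGalois k L] :
    (∀ E : IntermediateField k L, Vanishes A E ↔
      ∀ (V : Type) [AddCommGroup V] [Module ℚ V] (ρ : (L ≃ₐ[k] L) →* Module.End ℚ V), Irred ρ →
        Occurs A k L ρ → ¬ HasFixed ρ E.fixingSubgroup) ∧
    QuotientLaws (Vanishes A L)
      (fun H : Subgroup (L ≃ₐ[k] L) => Vanishes A (IntermediateField.fixedField H)) ∧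
    (¬ Vanishes A L →
      AtPrimes (fun H : Subgroup (L ≃ₐ[k] L) => Vanishes A (IntermediateField.fixedField H)) →
      (∃ (V : Type) (_ : AddCommGroup V) (_ : Module ℚ V) (ρ : (L ≃ₐ[k] L) →* Module.End ℚ V),
        IsFree ρ ∧ Occurs A k L ρ) ∧ CyclicSubgroups (L ≃ₐ[k] L)) := by
  classical
  have : Fintype (L ≃ₐ[k] L) := Fintype.ofFinite _
  have hS : ∀ g, ∀ s ∈ (⊥ : Submodule ℚ (Sp A L)), act A k L g s ∈ (⊥ : Submodule ℚ (Sp A L)) := by
    intro g s hs
    rw [(Submodule.mem_bot ℚ).1 hs, map_zero]
    exact Submodule.zero_mem _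
  have hP : (fun H : Subgroup (L ≃ₐ[k] L) => Vanishes A (IntermediateField.fixedField H)) =
      FixIn (act A k L) ⊥ := by
    funext H
    rw [vanishes_iff hA, IntermediateField.fixingSubgroup_fixedField]
  have h0 : Vanishes A L ↔ (⊥ : Submodule ℚ (Sp A L)) = ⊤ := by
    rw [eq_comm, Submodule.eq_bot_iff]
    exact ⟨fun h x _ => h x, fun h x => h x trivial⟩
  obtain ⟨h1, h2⟩ := lin_laws (act A k L) hS
  rw [hP]
  refine ⟨fun E => ?_, ?_, fun hne hp => ?_⟩
  · rw [vanishes_iff hA, fixIn_iff _ hS]
    refine forall₅_congr fun V _ _ ρ _ => ?_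
    rw [occurs_iff]
  · have h3 : Vanishes A L = ((⊥ : Submodule ℚ (Sp A L)) = ⊤) := propext h0
    rw [h3]
    exact h1
  · obtain ⟨⟨V, i1, i2, ρ, hfree, hocc⟩, hcyc⟩ := h2 (fun h => hne (h0.2 h)) hp
    exact ⟨⟨V, i1, i2, ρ, hfree, (occurs_iff ρ).1 hocc⟩, hcyc⟩

end Pool.Agent.U227.GalFix
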