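import Mathlib

/-!
# Burnside's theorem and the rank of the trace form
-/

set_option autoImplicit false
set_option linter.unusedSectionVars false

open scoped Matrix

namespace Pool.Agent.U227.Gap

variable {K : Type*} [Field K] {V : Type*} [AddCommGroup V] [Module K V] [Module.Finite K V]

/-- **Burnside's theorem**: an algebra of operators over an algebraically closed field without
invariant subspaces contains all operators. -/
theorem burnside [IsAlgClosed K] [Nontrivial V] (S : Subalgebra K (Module.End K V))
    (h : ∀ U : Submodule K V, (∀ s ∈ S, ∀ x ∈ U, s x ∈ U) → U = ⊥ ∨ U = ⊤)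
    (f : Module.End K V) : f ∈ S := by
  classical
  have hsimple : IsSimpleModule S V := by
    rw [isSimpleModule_iff]
    refine { exists_pair_ne := ⟨⊥, ⊤, bot_ne_top⟩, eq_bot_or_eq_top := fun N => ?_ }
    rcases h (N.restrictScalars K) (fun s hs x hx => N.smul_mem (⟨s, hs⟩ : S) hx) with h1 | h1
    · left
      rw [Submodule.eq_bot_iff]
      intro x hx
      have h2 : x ∈ N.restrictScalars K := hx
      rw [h1] at h2
      exact (Submodule.mem_bot K).1 h2
    · right
      rw [eq_top_iff]
      intro x _
      have h2 : x ∈ N.restrictScalars K := by rw [h1]; trivial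
      exact h2
  have hbij := IsSimpleModule.algebraMap_end_bijective_of_isAlgClosed (A := S) (V := V) K
  let g : Module.End (Module.End S V) V :=
    { toFun := f
      map_add' := map_add f
      map_smul' := by
        intro c x
        obtain ⟨t, rfl⟩ := hbij.2 c
        exact map_smul f t x }
  obtain ⟨s, hs⟩ := Module.Finite.fg_top (R := K) (M := V)
  obtain ⟨r, hr⟩ := jacobson_density (R := S) g s
  have h2 : f = r.1 := by
    apply LinearMap.ext
    intro x
    have hx : x ∈ Submodule.span K (s : Set V) := by rw [hs]; trivial
    induction hx using Submodule.span_induction with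
    | mem x hx => exact hr x hx
    | zero => rw [map_zero, map_zero]
    | add x y _ _ h1 h2 => rw [map_add, map_add, h1, h2]
    | smul t x _ h1 => rw [map_smul, map_smul, h1]
  rw [h2]
  exact r.2

/-- The numerical inequality. -/
lemma sq_ineq {a b : ℕ} (ha : 1 ≤ a) (hb : 1 ≤ b) : a * a + b * b ≤ (a + b - 1) ^ 2 + 1 := by
  obtain ⟨a, rfl⟩ := Nat.exists_eq_add_of_le ha
  obtain ⟨b, rfl⟩ := Nat.exists_eq_add_of_le hb
  rw [show 1 + a + (1 + b) - 1 = 1 + a + b by omega]
  nlinarith [Nat.zero_le (a * b)]

/-- **The rank of the trace form.** An algebra of operators on a space of dimension `m` over an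
algebraically closed field contains all operators if it contains a family for which the rank of the
trace form is larger than `(m - 1) ^ 2 + 1`. -/
theorem full_of_rank [IsAlgClosed K] [Nontrivial V] (S : Subalgebra K (Module.End K V))
    {r : ℕ} (u : Fin r → Module.End K V) (hu : ∀ a, u a ∈ S)
    (hr : (Module.finrank K V - 1) ^ 2 + 1 <
      (Matrix.of fun a b => LinearMap.trace K V (u a * u b)).rank)
    (f : Module.End K V) : f ∈ S := by
  classical
  apply burnside S
  intro U hU
  by_contra hcon
  push Not at hcon
  obtain ⟨hbot, htop⟩ := hcon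
  set G : Matrix (Fin r) (Fin r) K := Matrix.of fun a b => LinearMap.trace K V (u a * u b) with hG
  let P := Module.End K U × Module.End K (V ⧸ U)
  let w : Fin r → P := fun a => ((u a).restrict (hU _ (hu a)), U.mapQ U (u a) (hU _ (hu a)))
  let φ : (Fin r → K) →ₗ[K] P := Fintype.linearCombination K w
  have hker : LinearMap.ker φ ≤ LinearMap.ker (Gᵀ).mulVecLin := by
    intro c hc
    rw [LinearMap.mem_ker] at hc ⊢
    have hc' : ∑ a, c a • w a = 0 := by
      rw [← hc]
      rfl
    set v : Module.End K V := ∑ a, c a • u a with hv
    have h1 : ∀ x ∈ U, v x = 0 := by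
      intro x hx
      have h3 := congrArg (U.subtype ∘ₗ LinearMap.applyₗ (⟨x, hx⟩ : U) ∘ₗ
        LinearMap.fst K (Module.End K U) (Module.End K (V ⧸ U))) hc'
      rw [map_sum, map_zero] at h3
      rw [hv, LinearMap.sum_apply, ← h3]
      apply Finset.sum_congr rfl
      intro a _
      rw [map_smul]
      rfl
    have h2 : ∀ x, v x ∈ U := by
      intro x
      have h3 := congrArg (LinearMap.applyₗ (Submodule.Quotient.mk x : V ⧸ U) ∘ₗ
        LinearMap.snd K (Module.End K U) (Module.End K (V ⧸ U))) hc'
      rw [map_sum, map_zero] at h3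
      rw [← Submodule.Quotient.mk_eq_zero, ← h3, hv, LinearMap.sum_apply]
      have h4 : (Submodule.Quotient.mk (∑ a, (c a • u a) x) : V ⧸ U) =
          ∑ a, Submodule.Quotient.mk ((c a • u a) x) := map_sum U.mkQ _ _
      rw [h4]
      apply Finset.sum_congr rfl
      intro a _
      rw [map_smul]
      rfl
    funext b
    have h3 : (Gᵀ).mulVecLin c b = LinearMap.trace K V (v * u b) := by
      rw [Matrix.mulVecLin_apply, Matrix.mulVec, dotProduct, hv, Finset.sum_mul, map_sum]
      apply Finset.sum_congr rfl
      intro a _
      rw [Matrix.transpose_apply, hG, Matrix.of_apply, smul_mul_assoc, map_smul, smul_eq_mul,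
        mul_comm]
    rw [h3, Pi.zero_apply]
    have h4 : (v * u b) ^ 2 = 0 := by
      apply LinearMap.ext
      intro x
      rw [pow_two, Module.End.mul_apply, Module.End.mul_apply, LinearMap.zero_apply]
      exact h1 _ (hU _ (hu b) _ (h2 _))
    exact (LinearMap.isNilpotent_trace_of_isNilpotent ⟨2, h4⟩).eq_zero
  have hrank : G.rank ≤ Module.finrank K P := by
    rw [← Matrix.rank_transpose]
    have h1 := LinearMap.finrank_range_add_finrank_ker φ
    have h2 := LinearMap.finrank_range_add_finrank_ker (Gᵀ).mulVecLin
    have h3 := Submodule.finrank_mono hker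
    have h4 : Module.finrank K (LinearMap.range φ) ≤ Module.finrank K P :=
      Submodule.finrank_le _
    have h5 : (Gᵀ).rank = Module.finrank K (LinearMap.range (Gᵀ).mulVecLin) := rfl
    omega
  have hP : Module.finrank K P = Module.finrank K U * Module.finrank K U +
      Module.finrank K (V ⧸ U) * Module.finrank K (V ⧸ U) := by
    rw [Module.finrank_prod, Module.finrank_linearMap, Module.finrank_linearMap]
  have h1 : 1 ≤ Module.finrank K U := by
    rw [Nat.one_le_iff_ne_zero, Ne, Submodule.finrank_eq_zero]
    exact hbot
  have h2 := Submodule.finrank_quotient_add_finrank U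
  have h3 : 1 ≤ Module.finrank K (V ⧸ U) := by
    have h4 := Submodule.finrank_lt htop
    omega
  have h4 := sq_ineq h1 h3
  rw [show Module.finrank K U + Module.finrank K (V ⧸ U) = Module.finrank K V by omega] at h4
  omega

/-- In dimension one. -/
theorem full_of_one (S : Subalgebra K (Module.End K V)) (h1 : Module.finrank K V = 1)
    (f : Module.End K V) : f ∈ S := by
  have h2 : Module.finrank K (Module.End K V) = 1 := by
    rw [Module.finrank_linearMap, h1]
  have : Nontrivial V := Module.nontrivial_of_finrank_pos (R := K) (by omega)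
  obtain ⟨c, hc⟩ := (finrank_eq_one_iff_of_nonzero' (1 : Module.End K V) one_ne_zero).1 h2 f
  rw [← hc]
  exact S.smul_mem S.one_mem c

end Pool.Agent.U227.Gap
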