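import Pool.Agent.U227.FrDefs
import Pool.Agent.H447R3.DegDefs

/-!
# The gap theorem for algebraic correspondences over finite fields: definitions
-/

set_option autoImplicit false

open CategoryTheory AlgebraicGeometry Polynomial

universe u v

namespace Pool.Agent.U227.Gap

section Alg

variable {K : Type*} [Field K] {V : Type*} [AddCommGroup V] [Module K V]

/-- The `Q`-primary part of the subspace `U` for the operator `F`: the vectors of `U` which are killed
by a power of `Q(F)`. -/
noncomputable def primary [Algebra ℚ K] (F : Module.End K V) (U : Submodule K V) (Q : ℚ[X]) : Submodule K V :=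
  U ⊓ (aeval F (Q.map (algebraMap ℚ K))).maxGenEigenspace 0

/-- The subspace `U` is stable under the operator `A`, and `t` is the trace of `A` on `U`. -/
def IsTraceOn (A : Module.End K V) (U : Submodule K V) (t : K) : Prop :=
  ∃ h : ∀ x ∈ U, A x ∈ U, LinearMap.trace K U (A.restrict h) = t

/-- The rank of the trace form `(u, v) ↦ tr(u v)` on `U`, for finitely many operators in `S`, is
larger than `s`. -/
def RankGt (S : Set (V →ₗ[K] V)) (U : Submodule K V) (s : ℕ) : Prop :=
  ∃ (r : ℕ) (u : Fin r → (V →ₗ[K] V)) (G : Matrix (Fin r) (Fin r) K), (∀ a, u a ∈ S) ∧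
    (∀ a b, IsTraceOn (u a ∘ₗ u b) U (G a b)) ∧ s < G.rank

/-- The dimension of the subspace `U` is `m δ`, and `m = 1` or the rank of the trace form of `S` on `U`
is larger than `((m - 1) ^ 2 + 1) δ`. -/
def NearlyFull (S : Set (V →ₗ[K] V)) (U : Submodule K V) (δ : ℕ) : Prop :=
  ∃ m, Module.finrank K U = m * δ ∧ (m = 1 ∨ RankGt S U (δ * ((m - 1) ^ 2 + 1)))

/-- Every operator on `U` which commutes with `F` is a `K`-linear combination of operators in `S`. -/
def AllCommuting (S : Set (V →ₗ[K] V)) (F : Module.End K V) (U : Submodule K V) : Prop :=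
  ∀ T : V →ₗ[K] V, (∀ y ∈ U, T y ∈ U) → (∀ y ∈ U, T (F y) = F (T y)) →
    ∃ φ ∈ Submodule.span K S, ∀ y ∈ U, φ y = T y

/-- Some operator in `S` does not act as zero on `U`. -/
def Hits (S : Set (V →ₗ[K] V)) (U : Submodule K V) : Prop :=
  ∃ φ ∈ S, ∃ y ∈ U, φ y ≠ 0

/-- Every operator on `U` which commutes with `F` is a `K`-linear combination of operators in `S`; on
`U` the operator `Q(F)` is zero and the operators in `N` are zero. -/
def GapConclusion [Algebra ℚ K] (S N : Set (V →ₗ[K] V)) (F : Module.End K V) (U : Submodule K V)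
    (Q : ℚ[X]) : Prop :=
  AllCommuting S F U ∧ (∀ y ∈ U, aeval F (Q.map (algebraMap ℚ K)) y = 0) ∧
    ∀ s ∈ N, ∀ y ∈ U, s y = 0

end Alg

open Pool.Agent.H914 VarClass Obj WeilCohomology Pool.Agent.U227.Fr

variable {k : Type u} [Field k] {𝒱 : VarClass k} {ops : CycleOps 𝒱}

/-- The `Q`-primary part of `H^i(X)` for the operator `f^*`. -/
noncomputable def primPart (W : WeilCohomology.{u, v} ops) (X : 𝒱.Obj) (f : X ⟶ X) (i : ℕ) (Q : ℚ[X]) :
    Submodule W.K (W.H X) :=
  primary (W.map f).toLinearMap (W.gr X i) Q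

/-- Large ranks: for every `i` and every irreducible polynomial `Q` with rational coefficients such
that the `Q`-primary part of `H^i(X)` is not zero, its dimension is `m deg Q`, and `m = 1` or the rank of
the trace form of the correspondences of degree zero on it is larger than
`((m - 1) ^ 2 + 1) deg Q`. -/
def LargeRanks (W : WeilCohomology.{u, v} ops) (X : 𝒱.Obj) (f : X ⟶ X) : Prop :=
  ∀ i, ∀ Q : ℚ[X], Irreducible Q → primPart W X f i Q ≠ ⊥ →
    NearlyFull (cycOps W X X.dim) (primPart W X f i Q) Q.natDegree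

/-- The operators on `H(X)` induced by the numerically trivial cycles of codimension `n = dim X` on
`X × X`. -/
def numTrivOps (W : WeilCohomology.{u, v} ops) (X : 𝒱.Obj) : Set (W.H X →ₗ[W.K] W.H X) :=
  (fun z => W.corr (W.cl (X.prod X) z)) '' {z | (X.prod X).IsCyc X.dim z ∧
    ∀ w, (X.prod X).IsCyc X.dim w → (X.prod X).V.degCycle (ops.mul z w) = 0}

/-- For every `i < n = dim X` and every irreducible polynomial `Q` with rational coefficients such
that the `Q`-primary part of `H^(2n - i)(X)` is not zero, some cycle of codimension `i` on `X × X` does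
not act as zero on this part. -/
def FactorsHit (W : WeilCohomology.{u, v} ops) (X : 𝒱.Obj) (f : X ⟶ X) : Prop :=
  ∀ i < X.dim, ∀ Q : ℚ[X], Irreducible Q → primPart W X f (2 * X.dim - i) Q ≠ ⊥ →
    Hits (cycOps W X i) (primPart W X f (2 * X.dim - i) Q)

end Pool.Agent.U227.Gap
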