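import Mathlib

/-!
# Ranks of matrices: homomorphisms of fields and sums
-/

set_option autoImplicit false
set_option linter.unusedSectionVars false

open scoped Matrix

namespace Pool.Agent.U227.Gap

/-- The rank of a block matrix. -/
lemma rank_block {L : Type*} [Field L] (r s : ℕ) :
    (Matrix.fromBlocks (1 : Matrix (Fin r) (Fin r) L) 0 0 (0 : Matrix (Fin s) (Fin s) L)).rank =
      r := by
  classical
  have h1 : Matrix.fromBlocks (1 : Matrix (Fin r) (Fin r) L) 0 0 (0 : Matrix (Fin s) (Fin s) L) =
      Matrix.diagonal (Sum.elim (fun _ => (1 : L)) (fun _ => 0)) := by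
    rw [← Matrix.diagonal_one, ← Matrix.diagonal_zero, Matrix.fromBlocks_diagonal]
  rw [h1, Matrix.rank_diagonal]
  have h2 : Fintype.card {i : Fin r ⊕ Fin s //
      (Sum.elim (fun _ => (1 : L)) (fun _ => 0) : Fin r ⊕ Fin s → L) i ≠ 0} =
      Fintype.card (Fin r) := by
    refine Fintype.card_congr ⟨fun i => ?_, fun i => ⟨Sum.inl i, by simp⟩, ?_, ?_⟩
    · rcases i with ⟨i | i, hi⟩
      · exact i
      · exact absurd rfl hi
    · rintro ⟨i | i, hi⟩
      · rfl
      · exact absurd rfl hi
    · intro i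
      rfl
  rw [h2, Fintype.card_fin]

/-- **Homomorphisms of fields preserve the rank.** -/
theorem rank_map {L K : Type*} [Field L] [Field K] (σ : L →+* K) {r : ℕ}
    (h : Matrix (Fin r) (Fin r) L) : (h.map σ).rank = h.rank := by
  classical
  obtain ⟨V, U, e, hV, hU, hn⟩ := Matrix.exists_rank_normal_form h
  have hV' : IsUnit (V.map σ).det := by
    have h1 : (V.map σ).det = σ V.det := (RingHom.map_det σ V).symm
    rw [h1]
    exact ((Matrix.isUnit_iff_isUnit_det V).1 hV).map σ
  have hU' : IsUnit (U.map σ).det := by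
    have h1 : (U.map σ).det = σ U.det := (RingHom.map_det σ U).symm
    rw [h1]
    exact ((Matrix.isUnit_iff_isUnit_det U).1 hU).map σ
  have h2 : V.map σ * h.map σ * U.map σ =
      (Matrix.fromBlocks 1 0 0 0 : Matrix (Fin h.rank ⊕ Fin (Fintype.card (Fin r) - h.rank))
        (Fin h.rank ⊕ Fin (Fintype.card (Fin r) - h.rank)) K).submatrix e e := by
    rw [← Matrix.map_mul, ← Matrix.map_mul, hn]
    rw [← Matrix.submatrix_map]
    congr 1
    rw [Matrix.fromBlocks_map]
    congr 1
    · exact Matrix.map_one _ (map_zero σ) (map_one σ)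
    · exact Matrix.map_zero _ (map_zero σ)
    · exact Matrix.map_zero _ (map_zero σ)
    · exact Matrix.map_zero _ (map_zero σ)
  have h3 := congrArg Matrix.rank h2
  rw [Matrix.rank_mul_eq_left_of_isUnit_det _ _ hU', Matrix.rank_mul_eq_right_of_isUnit_det _ _ hV',
    Matrix.rank_submatrix, rank_block] at h3
  exact h3

/-- The rank of a sum. -/
theorem rank_add_le {K : Type*} [Field K] {r : ℕ} (A B : Matrix (Fin r) (Fin r) K) :
    (A + B).rank ≤ A.rank + B.rank := by
  rw [Matrix.rank, Matrix.rank, Matrix.rank, Matrix.mulVecLin_add]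
  have h1 : LinearMap.range (A.mulVecLin + B.mulVecLin) ≤
      LinearMap.range A.mulVecLin ⊔ LinearMap.range B.mulVecLin := by
    rintro _ ⟨x, rfl⟩
    exact Submodule.add_mem_sup ⟨x, rfl⟩ ⟨x, rfl⟩
  exact (Submodule.finrank_mono h1).trans (Submodule.finrank_add_le_finrank_add_finrank _ _)

theorem rank_sum_le {K : Type*} [Field K] {r : ℕ} {ι : Type*} (s : Finset ι)
    (A : ι → Matrix (Fin r) (Fin r) K) : (∑ i ∈ s, A i).rank ≤ ∑ i ∈ s, (A i).rank := by
  classical
  induction s using Finset.induction_on with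
  | empty => rw [Finset.sum_empty, Finset.sum_empty, Matrix.rank_zero]
  | insert i s hi ih =>
    rw [Finset.sum_insert hi, Finset.sum_insert hi]
    exact (rank_add_le _ _).trans (Nat.add_le_add_left ih _)

end Pool.Agent.U227.Gap
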