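import Pool.Agent.H914R2.Core1
import Pool.Agent.U227.GapBurn
import Pool.Agent.U227.GapRank

/-!
# Traces on the generalized eigenspaces of an operator with an irreducible rational polynomial
-/

set_option autoImplicit false
set_option linter.unusedSectionVars false

open Polynomial
open scoped Matrix

namespace Pool.Agent.U227.Gap

open Pool.Agent.H914

section Res

variable {K : Type*} [Field K] {V : Type*} [AddCommGroup V] [Module K V] [Module.Finite K V]

/-- The operators commuting with `F`. -/
abbrev Cen (F : Module.End K V) : Subalgebra K (Module.End K V) := Subalgebra.centralizer K {F}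

lemma mem_cen {F u : Module.End K V} : u ∈ Cen F ↔ F * u = u * F := by
  rw [Subalgebra.mem_centralizer_iff]
  simp

/-- The operator `F` commutes with itself. -/
def selfC (F : Module.End K V) : Cen F := ⟨F, mem_cen.2 rfl⟩

/-- Polynomials in `F`. -/
noncomputable def polC (F : Module.End K V) (p : K[X]) : Cen F := aeval (selfC F) p

lemma coe_polC (F : Module.End K V) (p : K[X]) : (polC F p : Module.End K V) = aeval F p := by
  have h1 : (Cen F).val (aeval (selfC F) p) = aeval ((Cen F).val (selfC F)) p :=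
    (Polynomial.aeval_algHom_apply (Cen F).val (selfC F) p).symm
  exact h1

lemma polC_comm (F : Module.End K V) (p : K[X]) (u : Cen F) : u * polC F p = polC F p * u := by
  apply Subtype.ext
  change (u : Module.End K V) * (polC F p : Module.End K V) = (polC F p : Module.End K V) * u
  rw [coe_polC]
  have h1 : Commute (u : Module.End K V) (aeval F p) := by
    have h2 : Commute (u : Module.End K V) F := (mem_cen.1 u.2).symm
    induction p using Polynomial.induction_on' with
    | add p q hp hq => rw [map_add]; exact hp.add_right hq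
    | monomial n a =>
      rw [aeval_monomial]
      exact (Algebra.commute_algebraMap_right a _).mul_right (h2.pow_right n)
  exact h1.eq

/-- Restriction to a generalized eigenspace. -/
noncomputable def res (F : Module.End K V) (μ : K) :
    Cen F →ₐ[K] Module.End K (F.maxGenEigenspace μ) where
  toFun u := (u : Module.End K V).restrict
    (F.mapsTo_maxGenEigenspace_of_comm (mem_cen.1 u.2) μ)
  map_one' := rfl
  map_mul' _ _ := rfl
  map_zero' := rfl
  map_add' _ _ := rfl
  commutes' _ := rfl

lemma res_apply (F : Module.End K V) (μ : K) (u : Cen F) (x : F.maxGenEigenspace μ) :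
    ((res F μ u x : F.maxGenEigenspace μ) : V) = (u : Module.End K V) x := rfl

/-- The trace on the generalized eigenspace. -/
noncomputable def tG (F : Module.End K V) (μ : K) : Cen F →ₗ[K] K :=
  LinearMap.trace K (F.maxGenEigenspace μ) ∘ₗ (res F μ).toLinearMap

lemma tG_apply (F : Module.End K V) (μ : K) (u : Cen F) :
    tG F μ u = LinearMap.trace K (F.maxGenEigenspace μ) (res F μ u) := rfl

lemma tG_self (F : Module.End K V) (μ : K) (u : Cen F) : tG F μ (u * selfC F) = μ * tG F μ u := by
  have h1 : IsNilpotent (res F μ (selfC F - algebraMap K _ μ)) :=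
    Module.End.isNilpotent_restrict_maxGenEigenspace_sub_algebraMap F μ
  have hc : Commute (res F μ u) (res F μ (selfC F - algebraMap K _ μ)) := by
    have h2 : Commute u (selfC F - algebraMap K _ μ) := by
      apply Commute.sub_right
      · apply Subtype.ext
        exact (mem_cen.1 u.2).symm
      · exact Algebra.commute_algebraMap_right μ u
    exact h2.map (res F μ)
  have h3 : IsNilpotent (res F μ u * res F μ (selfC F - algebraMap K _ μ)) :=
    hc.isNilpotent_mul_left h1
  have h4 := (LinearMap.isNilpotent_trace_of_isNilpotent h3).eq_zero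
  rw [← map_mul, ← tG_apply, mul_sub, map_sub, sub_eq_zero] at h4
  rw [h4, Algebra.algebraMap_eq_smul_one, mul_smul_comm, mul_one, map_smul, smul_eq_mul]

lemma tG_pol (F : Module.End K V) (μ : K) (u : Cen F) (p : K[X]) :
    tG F μ (u * polC F p) = p.eval μ * tG F μ u := by
  induction p using Polynomial.induction_on' with
  | add p q hp hq =>
    have h1 : polC F (p + q) = polC F p + polC F q := map_add _ _ _
    rw [h1, mul_add, map_add, hp, hq, eval_add, add_mul]
  | monomial n a =>
    have h1 : polC F (monomial n a) = a • (selfC F) ^ n := by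
      rw [polC, aeval_monomial, Algebra.algebraMap_eq_smul_one, smul_mul_assoc, one_mul]
    rw [h1, mul_smul_comm, map_smul, eval_monomial, smul_eq_mul, mul_assoc]
    congr 1
    induction n with
    | zero => rw [pow_zero, mul_one, pow_zero, one_mul]
    | succ n ih => rw [pow_succ, ← mul_assoc, tG_self, ih (by
        rw [polC, aeval_monomial, Algebra.algebraMap_eq_smul_one, smul_mul_assoc, one_mul]),
        pow_succ]; ring

end Res

section Main

variable {K : Type*} [Field K] [CharZero K] [IsAlgClosed K] {V : Type*} [AddCommGroup V]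
  [Module K V] [Module.Finite K V] (F : Module.End K V) (Q : ℚ[X]) [hQi : Fact (Irreducible Q)]

instance : Module.Finite ℚ (AdjoinRoot Q) :=
  (AdjoinRoot.powerBasis hQi.out.ne_zero).finite

/-- The image of the root. -/
noncomputable def rt (σ : AdjoinRoot Q →ₐ[ℚ] K) : K := σ (AdjoinRoot.root Q)

lemma sigma_mk (σ : AdjoinRoot Q →ₐ[ℚ] K) (p : ℚ[X]) :
    σ (AdjoinRoot.mk Q p) = (p.map (algebraMap ℚ K)).eval (rt Q σ) := by
  rw [Polynomial.eval_map_algebraMap, rt, ← AdjoinRoot.aeval_eq, ← Polynomial.aeval_algHom_apply]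

lemma rt_injective : Function.Injective (rt Q : (AdjoinRoot Q →ₐ[ℚ] K) → K) := by
  intro σ τ h
  apply AlgHom.ext
  intro x
  obtain ⟨p, rfl⟩ := AdjoinRoot.mk_surjective x
  rw [sigma_mk, sigma_mk, h]

variable {F Q}

/-- The generalized eigenspaces of the roots span the space. -/
lemma internal [DecidableEq (AdjoinRoot Q →ₐ[ℚ] K)] {N : ℕ} (hN : ev F Q ^ N = 0) :
    DirectSum.IsInternal (fun σ : AdjoinRoot Q →ₐ[ℚ] K => F.maxGenEigenspace (rt Q σ)) := by
  apply DirectSum.isInternal_submodule_of_iSupIndep_of_iSup_eq_top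
  · exact F.independent_maxGenEigenspace.comp (rt_injective Q)
  · rw [eq_top_iff, ← Module.End.iSup_maxGenEigenspace_eq_top F]
    apply iSup_le
    intro μ
    by_cases hμ : (Q.map (algebraMap ℚ K)).eval μ = 0
    · have h1 : Q.eval₂ ((Algebra.ofId ℚ K : ℚ →ₐ[ℚ] K) : ℚ →+* K) μ = 0 := by
        rw [Polynomial.eval_map] at hμ
        exact hμ
      let σ : AdjoinRoot Q →ₐ[ℚ] K := AdjoinRoot.liftAlgHom Q (Algebra.ofId ℚ K) μ h1
      have h2 : rt Q σ = μ := AdjoinRoot.liftAlgHom_root _ _ _ _
      rw [← h2]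
      exact le_iSup (fun σ : AdjoinRoot Q →ₐ[ℚ] K => F.maxGenEigenspace (rt Q σ)) σ
    · intro x hx
      have h3 : x = 0 := by
        rw [Module.End.mem_maxGenEigenspace] at hx
        obtain ⟨k, hk⟩ := hx
        have hcop : IsCoprime ((Q.map (algebraMap ℚ K)) ^ N) ((X - C μ) ^ k) := by
          apply IsCoprime.pow
          apply IsCoprime.symm
          exact (irreducible_X_sub_C μ).coprime_iff_not_dvd.2 fun h => hμ (dvd_iff_isRoot.1 h)
        obtain ⟨a, b, hab⟩ := hcop
        have h4 : x = aeval F (a * (Q.map (algebraMap ℚ K)) ^ N + b * (X - C μ) ^ k) x := by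
          rw [hab, map_one, Module.End.one_apply]
        have h5 : aeval F ((Q.map (algebraMap ℚ K)) ^ N) = 0 := by
          rw [map_pow]
          exact hN
        have h6 : aeval F ((X - C μ) ^ k) x = 0 := by
          rw [map_pow, map_sub, aeval_X, aeval_C, Algebra.algebraMap_eq_smul_one]
          exact hk
        rw [h4, map_add, LinearMap.add_apply, map_mul, map_mul, h5, mul_zero, LinearMap.zero_apply,
          zero_add, Module.End.mul_apply, h6, map_zero]
      rw [h3]
      exact Submodule.zero_mem _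

/-- The trace is the sum of the traces on the generalized eigenspaces. -/
lemma trace_sum {N : ℕ} (hN : ev F Q ^ N = 0) (u : Cen F) :
    LinearMap.trace K V u = ∑ σ : AdjoinRoot Q →ₐ[ℚ] K, tG F (rt Q σ) u := by
  classical
  rw [LinearMap.trace_eq_sum_trace_restrict (internal hN) (f := (u : Module.End K V))
    (fun σ => F.mapsTo_maxGenEigenspace_of_comm (mem_cen.1 u.2) _)]
  rfl

lemma trace_sum_pol {N : ℕ} (hN : ev F Q ^ N = 0) (u : Cen F) (p : ℚ[X]) :
    LinearMap.trace K V ((u : Module.End K V) * ev F p) =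
      ∑ σ : AdjoinRoot Q →ₐ[ℚ] K, σ (AdjoinRoot.mk Q p) * tG F (rt Q σ) u := by
  have h1 : (u : Module.End K V) * ev F p =
      ((u * polC F (p.map (algebraMap ℚ K)) : Cen F) : Module.End K V) := by
    rw [MulMemClass.coe_mul, coe_polC, ev_apply]
  rw [h1, trace_sum hN]
  apply Finset.sum_congr rfl
  intro σ _
  rw [tG_pol, sigma_mk]

/-- **The traces on the generalized eigenspaces are conjugate.** -/
theorem exists_elem {N : ℕ} (hN : ev F Q ^ N = 0) (u : Cen F)
    (hu : ∀ p : ℚ[X], ∃ t : ℚ, LinearMap.trace K V ((u : Module.End K V) * ev F p) = t) :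
    ∃ h : AdjoinRoot Q, ∀ σ : AdjoinRoot Q →ₐ[ℚ] K, tG F (rt Q σ) u = σ h := by
  classical
  let g : AdjoinRoot Q →ₗ[ℚ] K :=
    ∑ σ : AdjoinRoot Q →ₐ[ℚ] K, (LinearMap.mulRight ℚ (tG F (rt Q σ) u)) ∘ₗ σ.toLinearMap
  have hg : ∀ y, g y = ∑ σ : AdjoinRoot Q →ₐ[ℚ] K, σ y * tG F (rt Q σ) u := by
    intro y
    rw [LinearMap.sum_apply]
    rfl
  have hrat : ∀ y, g y ∈ LinearMap.range (Algebra.linearMap ℚ K) := by
    intro y
    obtain ⟨p, rfl⟩ := AdjoinRoot.mk_surjective y
    obtain ⟨t, ht⟩ := hu p
    refine ⟨t, ?_⟩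
    rw [hg, ← trace_sum_pol hN, ht]
    rfl
  let ℓ : AdjoinRoot Q →ₗ[ℚ] ℚ := (LinearEquiv.ofInjective (Algebra.linearMap ℚ K)
    (algebraMap ℚ K).injective).symm.toLinearMap ∘ₗ g.codRestrict _ hrat
  have hℓ : ∀ y, algebraMap ℚ K (ℓ y) = g y := by
    intro y
    have h1 := LinearEquiv.apply_symm_apply (LinearEquiv.ofInjective (Algebra.linearMap ℚ K)
      (algebraMap ℚ K).injective) (g.codRestrict _ hrat y)
    exact congrArg Subtype.val h1
  have hnd := traceForm_nondegenerate ℚ (AdjoinRoot Q)
  let h := (LinearMap.BilinForm.toDual (Algebra.traceForm ℚ (AdjoinRoot Q)) hnd).symm ℓ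
  have hh : ∀ y, Algebra.trace ℚ (AdjoinRoot Q) (h * y) = ℓ y := by
    intro y
    exact LinearMap.BilinForm.apply_toDual_symm_apply (hB := hnd) ℓ y
  refine ⟨h, ?_⟩
  have hind := linearIndependent_toLinearMap ℚ (AdjoinRoot Q) K
  rw [Fintype.linearIndependent_iff] at hind
  have h1 := hind (fun σ => σ h - tG F (rt Q σ) u) (by
    apply LinearMap.ext
    intro y
    rw [LinearMap.sum_apply, LinearMap.zero_apply]
    have h2 : ∑ σ : AdjoinRoot Q →ₐ[ℚ] K, σ (h * y) = g y := by
      rw [← trace_eq_sum_embeddings K, hh, hℓ]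
    rw [hg] at h2
    rw [← sub_eq_zero, ← Finset.sum_sub_distrib] at h2
    rw [← h2]
    apply Finset.sum_congr rfl
    intro σ _
    rw [LinearMap.smul_apply, smul_eq_mul, map_mul, AlgHom.toLinearMap_apply]
    ring)
  intro σ
  exact (sub_eq_zero.1 (h1 σ)).symm

/-- The multiplicities of the roots are equal. -/
theorem finrank_eq {N : ℕ} (hN : ev F Q ^ N = 0)
    (h1 : ∀ p : ℚ[X], ∃ t : ℚ, LinearMap.trace K V (ev F p) = t) {m : ℕ}
    (hm : Module.finrank K V = m * Q.natDegree) (σ : AdjoinRoot Q →ₐ[ℚ] K) :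
    Module.finrank K (F.maxGenEigenspace (rt Q σ)) = m := by
  classical
  obtain ⟨h, hh⟩ := exists_elem hN (1 : Cen F) (fun p => by
    obtain ⟨t, ht⟩ := h1 p
    exact ⟨t, by rw [OneMemClass.coe_one, one_mul, ht]⟩)
  have h2 : ∀ τ : AdjoinRoot Q →ₐ[ℚ] K, tG F (rt Q τ) 1 =
      (Module.finrank K (F.maxGenEigenspace (rt Q τ)) : K) := by
    intro τ
    rw [tG_apply, map_one, LinearMap.trace_one]
  have h3 : h = (Module.finrank K (F.maxGenEigenspace (rt Q σ)) : AdjoinRoot Q) := by
    apply σ.toRingHom.injective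
    have h4 := hh σ
    rw [h2] at h4
    change σ h = σ _
    rw [← h4, map_natCast]
  have h4 : ∀ τ : AdjoinRoot Q →ₐ[ℚ] K, Module.finrank K (F.maxGenEigenspace (rt Q τ)) =
      Module.finrank K (F.maxGenEigenspace (rt Q σ)) := by
    intro τ
    have h5 := hh τ
    rw [h2, h3, map_natCast] at h5
    exact_mod_cast h5
  have h5 : Module.finrank K V =
      ∑ τ : AdjoinRoot Q →ₐ[ℚ] K, Module.finrank K (F.maxGenEigenspace (rt Q τ)) := by
    have h6 := trace_sum hN (1 : Cen F)
    rw [OneMemClass.coe_one, LinearMap.trace_one] at h6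
    have h7 : ∑ τ : AdjoinRoot Q →ₐ[ℚ] K, tG F (rt Q τ) 1 =
        ((∑ τ : AdjoinRoot Q →ₐ[ℚ] K, Module.finrank K (F.maxGenEigenspace (rt Q τ)) : ℕ) : K) := by
      rw [Nat.cast_sum]
      exact Finset.sum_congr rfl fun τ _ => h2 τ
    rw [h7] at h6
    exact_mod_cast h6
  rw [Finset.sum_congr rfl (fun τ _ => h4 τ), Finset.sum_const, Finset.card_univ, AlgHom.card,
    (AdjoinRoot.powerBasis hQi.out.ne_zero).finrank, AdjoinRoot.powerBasis_dim, smul_eq_mul, hm] at h5
  have h6 : 0 < Q.natDegree := hQi.out.natDegree_pos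
  rw [mul_comm] at h5
  exact (Nat.eq_of_mul_eq_mul_left h6 h5).symm

end Main

end Pool.Agent.U227.Gap
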