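import Pool.Agent.U227.GapThm
import Pool.Agent.U227.GapDefs
import Pool.Agent.U227.FrTop
import Pool.Agent.H447R3.DegB

/-!
# The gap theorem for algebraic correspondences over finite fields: one primary part
-/

set_option autoImplicit false
set_option linter.unusedSectionVars false

open CategoryTheory AlgebraicGeometry Finset Polynomial

universe u v

namespace Pool.Agent.U227.Gap

open Pool.Agent.H914 Pool.Agent.H447 VarClass Obj WeilCohomology Pool.Agent.U227.Grp
  Pool.Agent.U227.Fr

variable {k : Type u} [Field k] {𝒱 : VarClass k} {ops : CycleOps 𝒱}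
  {W : WeilCohomology.{u, v} ops} {X : 𝒱.Obj} {D : X.Cycles} {f : X ⟶ X} {q : ℕ}

lemma mem_primPart {i : ℕ} {Q : ℚ[X]} {y : W.H X} :
    y ∈ primPart W X f i Q ↔ y ∈ W.gr X i ∧
      ∃ k : ℕ, (ev (W.map f).toLinearMap Q ^ k) y = 0 := by
  rw [primPart, primary, Submodule.mem_inf, Module.End.mem_maxGenEigenspace]
  simp only [zero_smul, sub_zero]
  rfl

/-- Correspondences of degree zero commute with the Frobenius. -/
lemma kop_comm (hD : X.IsCyc 1 D) (hHL : HardLefschetz W X D) (h1 : (1 : W.H X) ≠ 0)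
    (hF : IsFrobenius W X f q) (hq : 0 < q) {φ : W.H X →ₗ[W.K] W.H X}
    (hφ : φ ∈ KOp W X X 0) (y : W.H X) :
    φ ((W.map f).toLinearMap y) = (W.map f).toLinearMap (φ y) := by
  induction hφ using Submodule.span_induction with
  | mem φ hφ =>
    obtain ⟨p, hp, z, hz, rfl⟩ := hφ
    obtain rfl : p = X.dim := by omega
    have h2 := frob_corr hD hHL h1 hF hq le_rfl hz y
    rw [Nat.sub_self, pow_zero, one_smul] at h2
    exact h2
  | zero => rw [LinearMap.zero_apply, LinearMap.zero_apply, map_zero]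
  | add a b _ _ ha hb => rw [LinearMap.add_apply, LinearMap.add_apply, ha, hb, map_add]
  | smul t a _ ha => rw [LinearMap.smul_apply, LinearMap.smul_apply, ha, map_smul]

lemma comm_ev {F A : Module.End W.K (W.H X)} (h : ∀ y, A (F y) = F (A y)) (p : ℚ[X]) (y : W.H X) :
    A (ev F p y) = ev F p (A y) :=
  Fr.ev_comm (by
    apply LinearMap.ext
    intro y
    exact h y) p y

/-- Operators commuting with the Frobenius preserve the primary parts. -/
lemma stable_primPart {A : Module.End W.K (W.H X)}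
    (h : ∀ y, A ((W.map f).toLinearMap y) = (W.map f).toLinearMap (A y)) {i : ℕ}
    (hA : ∀ y ∈ W.gr X i, A y ∈ W.gr X i) {Q : ℚ[X]} {y : W.H X}
    (hy : y ∈ primPart W X f i Q) : A y ∈ primPart W X f i Q := by
  rw [mem_primPart] at hy ⊢
  obtain ⟨hy1, k, hk⟩ := hy
  refine ⟨hA y hy1, k, ?_⟩
  rw [← map_pow] at hk ⊢
  rw [← comm_ev h, hk, map_zero]

lemma map_gr {i : ℕ} {y : W.H X} (hy : y ∈ W.gr X i) :
    (W.map f).toLinearMap y ∈ W.gr X i := W.map_mem f hy

lemma ev_gr {i : ℕ} (p : ℚ[X]) {y : W.H X} (hy : y ∈ W.gr X i) :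
    ev (W.map f).toLinearMap p y ∈ W.gr X i := kop_gr (kop_of_rop (rop_ev (rop_map f) p)) hy

/-- The projection to a primary part. -/
lemma exists_proj (hRH : RiemannHypothesis W X f q) (i : ℕ) {Q : ℚ[X]} (hQ : Irreducible Q) :
    ∃ (e : ℚ[X]) (l : ℕ),
      (∀ y ∈ W.gr X i, ev (W.map f).toLinearMap e y ∈ primPart W X f i Q) ∧
      (∀ y ∈ primPart W X f i Q, ev (W.map f).toLinearMap e y = y) ∧
      ∀ y ∈ primPart W X f i Q, (ev (W.map f).toLinearMap Q ^ l) y = 0 := by
  obtain ⟨P, hP0, hPa, -⟩ := hRH i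
  obtain ⟨P₀, hP, hnd⟩ :=
    (FiniteMultiplicity.of_prime_left hQ.prime hP0).exists_eq_pow_mul_and_not_dvd
  set l := multiplicity Q P with hl
  have hcop : IsCoprime Q P₀ := hQ.coprime_iff_not_dvd.2 hnd
  obtain ⟨r, s, hrs⟩ : IsCoprime (Q ^ l) P₀ := hcop.pow_left
  have hkill : ∀ y ∈ W.gr X i, ev (W.map f).toLinearMap (Q ^ l * P₀) y = 0 := by
    intro y hy
    rw [← hP, ev_eq]
    exact hPa y hy
  have hl0 : ∀ y ∈ primPart W X f i Q, (ev (W.map f).toLinearMap Q ^ l) y = 0 := by
    intro y hy
    rw [mem_primPart] at hy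
    obtain ⟨hy1, k, hk⟩ := hy
    obtain ⟨a, b, hab⟩ : IsCoprime (Q ^ k) P₀ := hcop.pow_left
    rw [← map_pow] at hk ⊢
    have h2 : ev (W.map f).toLinearMap (Q ^ l) y =
        ev (W.map f).toLinearMap ((Q ^ l * a) * Q ^ k + b * (Q ^ l * P₀)) y := by
      congr 2
      calc Q ^ l = Q ^ l * (a * Q ^ k + b * P₀) := by rw [hab, mul_one]
        _ = _ := by ring
    rw [h2, map_add, LinearMap.add_apply, Fr.ev_mul_apply, hk, map_zero, Fr.ev_mul_apply,
      hkill y hy1, map_zero, add_zero]
  refine ⟨s * P₀, l, ?_, ?_, hl0⟩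
  · intro y hy
    rw [mem_primPart]
    refine ⟨ev_gr _ hy, l, ?_⟩
    rw [← map_pow, ← Fr.ev_mul_apply, show Q ^ l * (s * P₀) = s * (Q ^ l * P₀) by ring,
      Fr.ev_mul_apply, hkill y hy, map_zero]
  · intro y hy
    have h2 := hl0 y hy
    rw [← map_pow] at h2
    have h3 : ev (W.map f).toLinearMap (r * Q ^ l + s * P₀) y = y := by
      rw [hrs, map_one, Module.End.one_apply]
    rw [map_add, LinearMap.add_apply, Fr.ev_mul_apply, h2, map_zero, zero_add] at h3
    exact h3

/-- Traces of rational operators on a primary part are rational. -/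
lemma trace_primPart (hq : 1 < q) (hRH : RiemannHypothesis W X f q) {i : ℕ} {Q : ℚ[X]}
    (hQ : Irreducible Q) {A : Module.End W.K (W.H X)} (hA : ROp W X 0 A)
    (hst : ∀ y ∈ primPart W X f i Q, A y ∈ primPart W X f i Q)
    (B : Module.End W.K (primPart W X f i Q)) (hB : ∀ y, (B y : W.H X) = A y) :
    ∃ t : ℚ, LinearMap.trace W.K _ B = t := by
  obtain ⟨e, l, he1, he2, -⟩ := exists_proj (W := W) hRH i hQ
  refine trace_sub hq hRH (A := A * ev (W.map f).toLinearMap e)
    (rop_mul0 hA (rop_ev (rop_map f) e)) (fun y hy => (mem_primPart.1 hy).1)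
    (fun y hy => hst _ (he1 y hy)) B ?_
  intro y
  rw [hB, Module.End.mul_apply, he2 _ y.2]

/-- Traces with numerically trivial correspondences vanish on the primary parts. -/
lemma trace_num (hq : 1 < q) (hRH : RiemannHypothesis W X f q) {i : ℕ} {Q : ℚ[X]}
    (hQ : Irreducible Q) {z : (X.prod X).Cycles} (hz : (X.prod X).IsCyc X.dim z)
    (hnum : ∀ w, (X.prod X).IsCyc X.dim w → (X.prod X).V.degCycle (ops.mul z w) = 0)
    {A : Module.End W.K (W.H X)} (hA : ROp W X 0 A)
    (hst : ∀ y ∈ primPart W X f i Q, W.corr (W.cl _ z) (A y) ∈ primPart W X f i Q)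
    (B : Module.End W.K (primPart W X f i Q))
    (hB : ∀ y, (B y : W.H X) = W.corr (W.cl _ z) (A y)) :
    LinearMap.trace W.K _ B = 0 := by
  obtain ⟨e, l, he1, he2, -⟩ := exists_proj (W := W) hRH i hQ
  have hK := kunneth_of_rh hq hRH
  set T : Module.End W.K (W.H X) := W.corr (W.cl _ z) with hT
  set C : Module.End W.K (W.H X) :=
    A * ev (W.map f).toLinearMap e * proj (W.isInternal X) i with hC
  have hCr : ROp W X 0 C := rop_mul0 (rop_mul0 hA (rop_ev (rop_map f) e)) (rop_proj hK i)
  have hmem : ∀ x, (T * C) x ∈ primPart W X f i Q := by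
    intro x
    exact hst _ (he1 _ (proj_mem (W.isInternal X) i x))
  have h1 : LinearMap.trace W.K _ B = LinearMap.trace W.K (W.H X) (T * C) := by
    rw [← LinearMap.trace_restrict_eq_of_forall_mem _ (T * C) hmem]
    congr 1
    apply LinearMap.ext
    intro y
    apply Subtype.ext
    rw [hB]
    change T (A y) = T (A (ev (W.map f).toLinearMap e (proj (W.isInternal X) i y)))
    rw [proj_same _ (mem_primPart.1 y.2).1, he2 _ y.2]
  obtain ⟨w, hw, hwC⟩ := cyc_of_rop hCr
  have h2 := str_eq_deg (W := W) (by omega) hz hw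
  rw [hnum _ (ops.pull_mem _ hw), Rat.cast_zero, hwC] at h2
  have h3 : par (W.isInternal X) * (T * C) = (-1 : W.K) ^ i • (T * C) := by
    apply LinearMap.ext
    intro x
    rw [Module.End.mul_apply, par, scal_apply (W.isInternal X) _ (mem_primPart.1 (hmem x)).1,
      LinearMap.smul_apply]
  rw [h3, map_smul, smul_eq_mul] at h2
  rw [h1]
  rcases mul_eq_zero.1 h2 with h4 | h4
  · exfalso
    exact pow_ne_zero i (by norm_num) h4
  · exact h4

variable (W X f) in
/-- The algebra of operators on a primary part which are combinations of correspondences. -/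
noncomputable def algP (i : ℕ) (Q : ℚ[X]) : Subalgebra W.K (Module.End W.K (primPart W X f i Q)) where
  carrier := {u | ∃ φ ∈ KOp W X X 0, ∀ y, (u y : W.H X) = φ y}
  mul_mem' := by
    rintro u v ⟨φ, hφ, h1⟩ ⟨ψ, hψ, h2⟩
    refine ⟨φ ∘ₗ ψ, KOp.cast (KOp.comp hφ hψ) (by ring), fun y => ?_⟩
    rw [Module.End.mul_apply, h1, h2]
    rfl
  add_mem' := by
    rintro u v ⟨φ, hφ, h1⟩ ⟨ψ, hψ, h2⟩
    exact ⟨φ + ψ, Submodule.add_mem _ hφ hψ, fun y => by
      rw [LinearMap.add_apply, Submodule.coe_add, h1, h2, LinearMap.add_apply]⟩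
  algebraMap_mem' := by
    intro c
    refine ⟨c • 1, Submodule.smul_mem _ _ (kop_of_rop (rop_opAlg (W := W) (X := X)).one),
      fun y => ?_⟩
    rfl

lemma mem_algP {i : ℕ} {Q : ℚ[X]} {u : Module.End W.K (primPart W X f i Q)} :
    u ∈ algP W X f i Q ↔ ∃ φ ∈ KOp W X X 0, ∀ y, (u y : W.H X) = φ y := Iff.rfl

variable (W X f) in
/-- The Frobenius on a primary part. -/
noncomputable def frP (i : ℕ) (Q : ℚ[X]) : Module.End W.K (primPart W X f i Q) :=
  (W.map f).toLinearMap.restrict fun _ hy =>
    stable_primPart (fun _ => rfl) (fun _ hx => map_gr hx) hy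

lemma coe_frP {i : ℕ} {Q : ℚ[X]} (y : primPart W X f i Q) :
    (frP W X f i Q y : W.H X) = (W.map f).toLinearMap y := rfl

lemma coe_ev_frP {i : ℕ} {Q : ℚ[X]} (p : ℚ[X]) (y : primPart W X f i Q) :
    ((ev (frP W X f i Q) p y : primPart W X f i Q) : W.H X) =
      ev (W.map f).toLinearMap p y :=
  restrict_ev _ (p.map (algebraMap ℚ W.K)) y

/-- **The gap theorem for one primary part.** -/
theorem full_primPart [IsAlgClosed W.K] (hD : X.IsCyc 1 D) (hHL : HardLefschetz W X D)
    (h1 : (1 : W.H X) ≠ 0) (hF : IsFrobenius W X f q) (hq : 1 < q)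
    (hRH : RiemannHypothesis W X f q) (i : ℕ) {Q : ℚ[X]} (hQ : Irreducible Q)
    (h : NearlyFull (cycOps W X X.dim) (primPart W X f i Q) Q.natDegree) :
    (∀ T : Module.End W.K (primPart W X f i Q), frP W X f i Q * T = T * frP W X f i Q →
      T ∈ algP W X f i Q) ∧ ev (frP W X f i Q) Q = 0 := by
  have : Fact (Irreducible Q) := ⟨hQ⟩
  obtain ⟨e, l, he1, he2, hl⟩ := exists_proj (W := W) hRH i hQ
  obtain ⟨m, hm, hr⟩ := h
  have hN : ev (frP W X f i Q) Q ^ l = 0 := by
    apply LinearMap.ext
    intro y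
    apply Subtype.ext
    rw [← map_pow, coe_ev_frP, map_pow, hl y y.2]
    rfl
  have hst : ∀ {A : Module.End W.K (W.H X)}, ROp W X 0 A →
      ∀ y ∈ primPart W X f i Q, A y ∈ primPart W X f i Q := by
    intro A hA y hy
    exact stable_primPart (kop_comm hD hHL h1 hF (by omega) (kop_of_rop hA))
      (fun y hy => kop_gr (kop_of_rop hA) hy) hy
  refine full hN (algP W X f i Q) ?_ ?_ ?_ hm ?_
  · rintro u ⟨φ, hφ, h2⟩
    apply LinearMap.ext
    intro y
    apply Subtype.ext
    rw [Module.End.mul_apply, Module.End.mul_apply, coe_frP, h2, h2, coe_frP,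
      kop_comm hD hHL h1 hF (by omega) hφ]
  · exact ⟨_, kop_of_rop (rop_map f), fun y => rfl⟩
  · intro p
    exact trace_primPart hq hRH hQ (rop_ev (rop_map f) p) (hst (rop_ev (rop_map f) p)) _
      (fun y => coe_ev_frP p y)
  · rcases hr with hr | ⟨r, u, G, hu, hG, hrk⟩
    · exact Or.inl hr
    · right
      have hur : ∀ a, ROp W X 0 (u a) := by
        intro a
        obtain ⟨_, ⟨z, hz, rfl⟩, h2⟩ := hu a
        rw [← h2]
        exact rop_of_cyc hz
      let u' : Fin r → Module.End W.K (primPart W X f i Q) := fun a =>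
        (show Module.End W.K (W.H X) from u a).restrict (hst (hur a))
      have hu' : ∀ a y, ((u' a y : primPart W X f i Q) : W.H X) = u a y := fun _ _ => rfl
      refine ⟨r, u', fun a => ⟨u a, kop_of_rop (hur a), fun y => rfl⟩, ?_, ?_⟩
      · intro a b p
        have h2 : ROp W X 0 ((u a : Module.End W.K (W.H X)) * u b *
            ev (W.map f).toLinearMap p) :=
          rop_mul0 (rop_mul0 (hur a) (hur b)) (rop_ev (rop_map f) p)
        refine trace_primPart hq hRH hQ h2 (hst h2) _ (fun y => ?_)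
        rw [Module.End.mul_apply, Module.End.mul_apply, Module.End.mul_apply,
          Module.End.mul_apply, hu', hu', coe_ev_frP]
      · have h2 : (Matrix.of fun a b => LinearMap.trace W.K (primPart W X f i Q)
            (u' a * u' b)) = G := by
          ext a b
          obtain ⟨h3, h4⟩ := hG a b
          rw [Matrix.of_apply, ← h4]
          rfl
        rw [h2]
        exact hrk

/-- Numerically trivial correspondences vanish on the primary part. -/
theorem num_primPart [IsAlgClosed W.K] (hD : X.IsCyc 1 D) (hHL : HardLefschetz W X D)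
    (h1 : (1 : W.H X) ≠ 0) (hF : IsFrobenius W X f q) (hq : 1 < q)
    (hRH : RiemannHypothesis W X f q) (i : ℕ) {Q : ℚ[X]} (hQ : Irreducible Q)
    (h : NearlyFull (cycOps W X X.dim) (primPart W X f i Q) Q.natDegree)
    {z : (X.prod X).Cycles} (hz : (X.prod X).IsCyc X.dim z)
    (hnum : ∀ w, (X.prod X).IsCyc X.dim w → (X.prod X).V.degCycle (ops.mul z w) = 0)
    {y : W.H X} (hy : y ∈ primPart W X f i Q) : W.corr (W.cl _ z) y = 0 := by
  have : Fact (Irreducible Q) := ⟨hQ⟩
  obtain ⟨hfull, h0⟩ := full_primPart hD hHL h1 hF hq hRH i hQ h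
  have hst : ∀ {A : Module.End W.K (W.H X)}, A ∈ KOp W X X 0 →
      ∀ y ∈ primPart W X f i Q, A y ∈ primPart W X f i Q := by
    intro A hA y hy
    exact stable_primPart (kop_comm hD hHL h1 hF (by omega) hA)
      (fun y hy => kop_gr hA hy) hy
  have hzK : (W.corr (W.cl _ z) : Module.End W.K (W.H X)) ∈ KOp W X X 0 :=
    kop_of_rop (rop_of_cyc hz)
  let u : Module.End W.K (primPart W X f i Q) :=
    (W.corr (W.cl _ z) : Module.End W.K (W.H X)).restrict (hst hzK)
  have hu : ∀ y, ((u y : primPart W X f i Q) : W.H X) = W.corr (W.cl _ z) y := fun _ => rfl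
  have hkey : u = 0 := by
    refine zero_of_trace h0 ?_ ?_
    · apply LinearMap.ext
      intro y
      apply Subtype.ext
      rw [Module.End.mul_apply, Module.End.mul_apply, coe_frP, hu, hu, coe_frP,
        kop_comm hD hHL h1 hF (by omega) hzK]
    · intro T hT
      obtain ⟨φ, hφ, hφT⟩ := hfull T hT
      -- linearity in the correspondence
      have hlin : ∀ φ ∈ KOp W X X 0, ∀ T : Module.End W.K (primPart W X f i Q),
          (∀ y, (T y : W.H X) = φ y) → LinearMap.trace W.K _ (u * T) = 0 := by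
        intro φ hφ
        induction hφ using Submodule.span_induction with
        | mem φ hφ =>
          obtain ⟨p, hp, w, hw, rfl⟩ := hφ
          obtain rfl : p = X.dim := by omega
          intro T hT
          refine trace_num hq hRH hQ hz hnum (rop_of_cyc hw) ?_ _ (fun y => ?_)
          · intro y hy
            exact hst hzK _ (hst (kop_of_rop (rop_of_cyc hw)) y hy)
          · rw [Module.End.mul_apply, hu, hT]
        | zero =>
          intro T hT
          have h2 : T = 0 := by
            apply LinearMap.ext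
            intro y
            apply Subtype.ext
            rw [hT]
            rfl
          rw [h2, mul_zero, map_zero]
        | add φ ψ hφ hψ h2 h3 =>
          intro T hT
          let Tφ : Module.End W.K (primPart W X f i Q) :=
            (show Module.End W.K (W.H X) from φ).restrict (hst hφ)
          have h4 : T = Tφ + (T - Tφ) := by abel
          rw [h4, mul_add, map_add, h2 Tφ (fun y => rfl), h3 (T - Tφ) (fun y => ?_), add_zero]
          rw [LinearMap.sub_apply, Submodule.coe_sub, hT, LinearMap.add_apply]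
          change φ y + ψ y - φ y = ψ y
          abel
        | smul t φ hφ h2 =>
          intro T hT
          let Tφ : Module.End W.K (primPart W X f i Q) :=
            (show Module.End W.K (W.H X) from φ).restrict (hst hφ)
          have h4 : T = t • Tφ := by
            apply LinearMap.ext
            intro y
            apply Subtype.ext
            rw [hT, LinearMap.smul_apply]
            rfl
          rw [h4, mul_smul_comm, map_smul, h2 Tφ (fun y => rfl), smul_zero]
      exact hlin φ hφ T hφT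
  have h2 := congrArg (fun A => ((A ⟨y, hy⟩ : primPart W X f i Q) : W.H X)) hkey
  exact h2

end Pool.Agent.U227.Gap
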