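import Pool.Agent.U227.GapThm

/-!
# Two-sided ideals of the commutant
-/

set_option autoImplicit false
set_option linter.unusedSectionVars false

open Polynomial
open scoped Matrix

namespace Pool.Agent.U227.Gap

open Pool.Agent.H914

variable {K : Type*} [Field K] [CharZero K] [IsAlgClosed K] {V : Type*} [AddCommGroup V]
  [Module K V] [Module.Finite K V] {F : Module.End K V} {Q : ℚ[X]} [hQi : Fact (Irreducible Q)]

lemma scal_of_zero (h0 : ev F Q = 0) (σ : AdjoinRoot Q →ₐ[ℚ] K) {x : V}
    (hx : x ∈ F.maxGenEigenspace (rt Q σ)) : F x = rt Q σ • x := by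
  rw [Module.End.mem_maxGenEigenspace] at hx
  obtain ⟨k, hk⟩ := hx
  have hsep : (Q.map (algebraMap ℚ K)).Separable := hQi.out.separable.map
  have hroot : (Q.map (algebraMap ℚ K)).eval (rt Q σ) = 0 := by
    rw [← sigma_mk, AdjoinRoot.mk_self, map_zero]
  obtain ⟨R, hR⟩ := dvd_iff_isRoot.2 hroot
  have hcop : IsCoprime (X - C (rt Q σ)) R := by
    rw [hR] at hsep
    exact hsep.isCoprime
  have hcop2 : IsCoprime ((X - C (rt Q σ)) ^ k) R := hcop.pow_left
  obtain ⟨b, c, hbc⟩ := hcop2
  have h2 : aeval F ((X - C (rt Q σ)) ^ k) x = 0 := by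
    rw [map_pow, map_sub, aeval_X, aeval_C, Algebra.algebraMap_eq_smul_one]
    exact hk
  have h3 : aeval F (X - C (rt Q σ)) x = 0 := by
    have h4 : X - C (rt Q σ) = ((X - C (rt Q σ)) * b) * (X - C (rt Q σ)) ^ k +
        c * ((X - C (rt Q σ)) * R) := by
      have h5 : X - C (rt Q σ) = (X - C (rt Q σ)) * (b * (X - C (rt Q σ)) ^ k + c * R) := by
        rw [hbc, mul_one]
      conv_lhs => rw [h5]
      ring
    rw [h4, ← hR, map_add, LinearMap.add_apply, map_mul, Module.End.mul_apply, h2, map_zero,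
      map_mul, ← ev_apply F Q, h0, mul_zero, LinearMap.zero_apply, zero_add]
  rw [map_sub, aeval_X, aeval_C, LinearMap.sub_apply, Module.algebraMap_end_apply] at h3
  exact sub_eq_zero.1 h3

lemma pol_apply (h0 : ev F Q = 0) (σ : AdjoinRoot Q →ₐ[ℚ] K) {x : V}
    (hx : x ∈ F.maxGenEigenspace (rt Q σ)) (p : K[X]) : aeval F p x = p.eval (rt Q σ) • x := by
  induction p using Polynomial.induction_on' with
  | add p q hp hq => rw [map_add, LinearMap.add_apply, hp, hq, eval_add, add_smul]
  | monomial n a =>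
    rw [aeval_monomial, eval_monomial, Module.End.mul_apply, Module.algebraMap_end_apply,
      mul_smul]
    congr 1
    induction n with
    | zero => rw [pow_zero, pow_zero, one_smul, Module.End.one_apply]
    | succ n ih => rw [pow_succ, Module.End.mul_apply, scal_of_zero h0 σ hx, map_smul, ih,
        smul_smul, pow_succ, mul_comm]

lemma ext_sigma (h0 : ev F Q = 0) {A B : Module.End K V}
    (hAB : ∀ (σ : AdjoinRoot Q →ₐ[ℚ] K), ∀ x ∈ F.maxGenEigenspace (rt Q σ), A x = B x) :
    A = B := by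
  classical
  have hN : ev F Q ^ 1 = 0 := by rw [pow_one, h0]
  have hspan : ∀ x : V, x ∈ ⨆ σ : AdjoinRoot Q →ₐ[ℚ] K, F.maxGenEigenspace (rt Q σ) := by
    intro x
    rw [(internal hN).submodule_iSup_eq_top]
    trivial
  apply LinearMap.ext
  intro x
  induction hspan x using Submodule.iSup_induction' with
  | mem σ x hx => exact hAB σ x hx
  | zero => rw [map_zero, map_zero]
  | add x y _ _ hx hy => rw [map_add, map_add, hx, hy]

open Classical in
/-- The projection to an eigenspace. -/
noncomputable def epr (F : Module.End K V) (Q : ℚ[X]) [hQi : Fact (Irreducible Q)]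
    (σ : AdjoinRoot Q →ₐ[ℚ] K) : Module.End K V :=
  aeval F (Lagrange.basis Finset.univ (rt Q) σ)

lemma epr_self (h0 : ev F Q = 0) (σ : AdjoinRoot Q →ₐ[ℚ] K) {x : V}
    (hx : x ∈ F.maxGenEigenspace (rt Q σ)) : epr F Q σ x = x := by
  classical
  rw [epr, pol_apply h0 σ hx, Lagrange.eval_basis_self ((rt_injective Q).injOn)
    (Finset.mem_univ σ), one_smul]

lemma epr_ne (h0 : ev F Q = 0) {σ τ : AdjoinRoot Q →ₐ[ℚ] K} (hστ : σ ≠ τ) {x : V}
    (hx : x ∈ F.maxGenEigenspace (rt Q τ)) : epr F Q σ x = 0 := by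
  classical
  rw [epr, pol_apply h0 τ hx, Lagrange.eval_basis_of_ne hστ (Finset.mem_univ τ), zero_smul]

lemma sum_epr (h0 : ev F Q = 0) : ∑ σ : AdjoinRoot Q →ₐ[ℚ] K, epr F Q σ = 1 := by
  classical
  apply ext_sigma h0
  intro τ x hx
  rw [LinearMap.sum_apply, Finset.sum_eq_single τ, epr_self h0 τ hx, Module.End.one_apply]
  · intro σ _ hσ
    exact epr_ne h0 hσ hx
  · intro h
    exact absurd (Finset.mem_univ τ) h

lemma F_epr (h0 : ev F Q = 0) (σ : AdjoinRoot Q →ₐ[ℚ] K) (y : V) :
    F (epr F Q σ y) = rt Q σ • epr F Q σ y := by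
  have h1 : F * epr F Q σ = rt Q σ • epr F Q σ := by
    apply ext_sigma h0
    intro τ x hx
    rw [Module.End.mul_apply, LinearMap.smul_apply]
    by_cases hτ : σ = τ
    · subst hτ
      rw [epr_self h0 σ hx, scal_of_zero h0 σ hx]
    · rw [epr_ne h0 hτ hx, map_zero, smul_zero]
  exact congrArg (fun A => A y) h1

lemma epr_F (h0 : ev F Q = 0) (σ : AdjoinRoot Q →ₐ[ℚ] K) (y : V) :
    epr F Q σ (F y) = rt Q σ • epr F Q σ y := by
  have h1 : epr F Q σ * F = rt Q σ • epr F Q σ := by
    apply ext_sigma h0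
    intro τ x hx
    rw [Module.End.mul_apply, LinearMap.smul_apply, scal_of_zero h0 τ hx, map_smul]
    by_cases hτ : σ = τ
    · subst hτ; rfl
    · rw [epr_ne h0 hτ hx, smul_zero, smul_zero]
  exact congrArg (fun A => A y) h1

lemma epr_epr (h0 : ev F Q = 0) (σ : AdjoinRoot Q →ₐ[ℚ] K) (y : V) :
    epr F Q σ (epr F Q σ y) = epr F Q σ y := by
  have h1 : epr F Q σ * epr F Q σ = epr F Q σ := by
    apply ext_sigma h0
    intro τ x hx
    rw [Module.End.mul_apply]
    by_cases hτ : σ = τ
    · subst hτ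
      rw [epr_self h0 σ hx, epr_self h0 σ hx]
    · rw [epr_ne h0 hτ hx, map_zero]
  exact congrArg (fun A => A y) h1

/-- **Two-sided ideals of the commutant with a rational element.** -/
theorem one_mem_ideal (h0 : ev F Q = 0) (M : Submodule K (Module.End K V))
    (hMl : ∀ T, F * T = T * F → ∀ u ∈ M, T * u ∈ M) (hMr : ∀ T, F * T = T * F → ∀ u ∈ M, u * T ∈ M)
    (B : Set (Module.End K V)) (hB : ∀ T, F * T = T * F → T ∈ Submodule.span K B)
    (hBF : ∀ b ∈ B, F * b = b * F) {u : Module.End K V} (hu : u ∈ M) (huF : F * u = u * F)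
    (hrat : ∀ b ∈ B, ∀ p : ℚ[X], ∃ t : ℚ, LinearMap.trace K V (u * b * ev F p) = t)
    (hu0 : u ≠ 0) : (1 : Module.End K V) ∈ M := by
  classical
  have hN : ev F Q ^ 1 = 0 := by rw [pow_one, h0]
  -- the element `u` is not zero on any eigenspace
  have hne : ∀ σ : AdjoinRoot Q →ₐ[ℚ] K, ∃ x ∈ F.maxGenEigenspace (rt Q σ), u x ≠ 0 := by
    intro σ
    by_contra hcon
    push Not at hcon
    apply hu0
    refine zero_of_trace h0 huF fun T hT => ?_
    have hb : ∀ b ∈ B, LinearMap.trace K V (u * b) = 0 := by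
      intro b hb
      let ub : Cen F := ⟨u * b, mem_cen.2 (by
        rw [← mul_assoc, huF, mul_assoc, hBF b hb, ← mul_assoc])⟩
      obtain ⟨h, hh⟩ := exists_elem hN ub (fun p => hrat b hb p)
      have h2 : tG F (rt Q σ) ub = 0 := by
        have h3 : res F (rt Q σ) ub = 0 := by
          apply LinearMap.ext
          intro x
          apply Subtype.ext
          exact hcon _ (F.mapsTo_maxGenEigenspace_of_comm (hBF b hb) _ x.2)
        rw [tG_apply, h3, map_zero]
      have h4 : h = 0 := by
        apply σ.toRingHom.injective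
        rw [map_zero]
        have h5 := hh σ
        rw [h2] at h5
        exact h5.symm
      have h6 := trace_sum hN ub
      rw [Finset.sum_eq_zero (fun τ _ => by rw [hh τ, h4, map_zero])] at h6
      exact h6
    have hspan := hB T hT
    clear hT
    induction hspan using Submodule.span_induction with
    | mem b hb' => exact hb b hb'
    | zero => rw [mul_zero, map_zero]
    | add a b _ _ ha hb => rw [mul_add, map_add, ha, hb, add_zero]
    | smul t a _ ha => rw [mul_smul_comm, map_smul, ha, smul_zero]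
  -- the operators of rank one
  have hone : ∀ (σ : AdjoinRoot Q →ₐ[ℚ] K) (g : Module.Dual K V),
      ∀ v ∈ F.maxGenEigenspace (rt Q σ), (g ∘ₗ epr F Q σ).smulRight v ∈ M := by
    intro σ g v hv
    obtain ⟨x, hx, hux⟩ := hne σ
    have h1 : ∃ f : Module.Dual K V, f (u x) ≠ 0 := by
      by_contra h
      push Not at h
      exact hux ((Module.forall_dual_apply_eq_zero_iff K (u x)).1 h)
    obtain ⟨f, hf⟩ := h1
    have hcomm : ∀ (g : Module.Dual K V), ∀ v ∈ F.maxGenEigenspace (rt Q σ),
        F * (g ∘ₗ epr F Q σ).smulRight v = (g ∘ₗ epr F Q σ).smulRight v * F := by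
      intro g v hv
      apply LinearMap.ext
      intro y
      rw [Module.End.mul_apply, Module.End.mul_apply, LinearMap.smulRight_apply,
        LinearMap.smulRight_apply, map_smul, scal_of_zero h0 σ hv, LinearMap.comp_apply,
        LinearMap.comp_apply, epr_F h0, map_smul, smul_smul, smul_eq_mul, mul_comm]
    have h2 : (g ∘ₗ epr F Q σ).smulRight v =
        ((f (u x))⁻¹ • (f ∘ₗ epr F Q σ).smulRight v) * (u * (g ∘ₗ epr F Q σ).smulRight x) := by
      apply LinearMap.ext
      intro y
      rw [Module.End.mul_apply, Module.End.mul_apply, LinearMap.smulRight_apply,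
        LinearMap.smulRight_apply, map_smul, LinearMap.smul_apply, LinearMap.smulRight_apply,
        map_smul]
      have h3 : (f ∘ₗ epr F Q σ) (u x) = f (u x) := by
        rw [LinearMap.comp_apply, epr_self h0 σ (F.mapsTo_maxGenEigenspace_of_comm huF _ hx)]
      rw [h3, smul_eq_mul, smul_smul, mul_comm (f (u x))⁻¹, mul_assoc, mul_inv_cancel₀ hf, mul_one]
    rw [h2]
    refine hMl _ ?_ _ (hMr _ (hcomm g x hx) u hu)
    rw [mul_smul_comm, smul_mul_assoc, hcomm f v hv]
  have he : ∀ σ : AdjoinRoot Q →ₐ[ℚ] K, epr F Q σ ∈ M := by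
    intro σ
    let b := Module.finBasis K V
    have hmem : ∀ y, epr F Q σ y ∈ F.maxGenEigenspace (rt Q σ) := by
      intro y
      rw [Module.End.mem_maxGenEigenspace]
      refine ⟨1, ?_⟩
      rw [pow_one, LinearMap.sub_apply, F_epr h0, LinearMap.smul_apply, Module.End.one_apply,
        sub_self]
    have h1 : epr F Q σ = ∑ j, (b.coord j ∘ₗ epr F Q σ).smulRight (epr F Q σ (b j)) := by
      apply LinearMap.ext
      intro y
      rw [LinearMap.sum_apply]
      have h2 := b.sum_repr (epr F Q σ y)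
      calc epr F Q σ y = epr F Q σ (epr F Q σ y) := (epr_epr h0 σ y).symm
        _ = epr F Q σ (∑ j, b.repr (epr F Q σ y) j • b j) := by rw [h2]
        _ = _ := by
          rw [map_sum]
          apply Finset.sum_congr rfl
          intro j _
          rw [map_smul]
          rfl
    rw [h1]
    exact M.sum_mem fun j _ => hone σ _ _ (hmem _)
  rw [← sum_epr h0]
  exact M.sum_mem fun σ _ => he σ

end Pool.Agent.U227.Gap
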