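import Pool.Agent.U227.GapB

/-!
# The gap theorem: the main theorems
-/

set_option autoImplicit false
set_option linter.unusedSectionVars false

open CategoryTheory AlgebraicGeometry Finset Polynomial

universe u v

namespace Pool.Agent.U227.Gap

open Pool.Agent.H914 Pool.Agent.H447 VarClass Obj WeilCohomology Pool.Agent.U227.Grp
  Pool.Agent.U227.Fr

variable {k : Type u} [Field k] {𝒱 : VarClass k} {ops : CycleOps 𝒱}
  {W : WeilCohomology.{u, v} ops} {X : 𝒱.Obj} {D : X.Cycles} {f : X ⟶ X} {q : ℕ}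

lemma kop_span {φ : W.H X →ₗ[W.K] W.H X} (hφ : φ ∈ KOp W X X 0) :
    φ ∈ Submodule.span W.K (cycOps W X X.dim) :=
  kop_iff_span.2 (KOp.cast hφ (by ring))

/-- **The gap theorem for one primary part.** -/
theorem main_part [IsAlgClosed W.K] (hD : X.IsCyc 1 D) (hHL : HardLefschetz W X D)
    (hF : IsFrobenius W X f q) (hq : 1 < q) (hRH : RiemannHypothesis W X f q) (i : ℕ) {Q : ℚ[X]}
    (hQ : Irreducible Q)
    (h : NearlyFull (cycOps W X X.dim) (primPart W X f i Q) Q.natDegree) :
    GapConclusion (cycOps W X X.dim) (numTrivOps W X) (W.map f).toLinearMap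
      (primPart W X f i Q) Q := by
  by_cases h1 : (1 : W.H X) = 0
  · have hz : ∀ y : W.H X, y = 0 := fun y => by rw [← one_mul y, h1, zero_mul]
    exact ⟨fun T _ _ => ⟨0, Submodule.zero_mem _, fun y _ => by rw [hz (T y)]; rfl⟩,
      fun y _ => hz _, fun _ _ _ _ => hz _⟩
  obtain ⟨hfull, h0⟩ := full_primPart hD hHL h1 hF hq hRH i hQ h
  refine ⟨?_, ?_, ?_⟩
  · intro T hT hTF
    obtain ⟨φ, hφ, h2⟩ := hfull ((show Module.End W.K (W.H X) from T).restrict hT) (by
      apply LinearMap.ext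
      intro y
      apply Subtype.ext
      exact (hTF y y.2).symm)
    exact ⟨φ, kop_span hφ, fun y hy => (h2 ⟨y, hy⟩).symm⟩
  · intro y hy
    have h3 := coe_ev_frP (W := W) (f := f) Q (⟨y, hy⟩ : primPart W X f i Q)
    rw [h0] at h3
    exact h3.symm
  · rintro _ ⟨z, ⟨hz, hnum⟩, rfl⟩ y hy
    exact num_primPart hD hHL h1 hF hq hRH i hQ h hz hnum hy

/-- **The gap theorem for all primary parts.** -/
theorem main_all [IsAlgClosed W.K] (hD : X.IsCyc 1 D) (hHL : HardLefschetz W X D)
    (hF : IsFrobenius W X f q) (hq : 1 < q) (hRH : RiemannHypothesis W X f q)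
    (hL : LargeRanks W X f) :
    (∀ i, AllCommuting (cycOps W X X.dim) (W.map f).toLinearMap (W.gr X i)) ∧
    Module.End.IsSemisimple (R := W.K) (M := W.H X) (W.map f).toLinearMap ∧
    (∀ p ≤ X.dim, HomEqNumIn W (X.prod X) p) ∧ HomEqNum W X ∧
    List.TFAE [HomEqNum W (X.prod X), LefschetzB W X D, FactorsHit W X f] := by
  by_cases h1 : (1 : W.H X) = 0
  · have hz : ∀ y : W.H X, y = 0 := fun y => by rw [← one_mul y, h1, zero_mul]
    have hz2 : ∀ y : W.H (X.prod X), y = 0 := fun y => by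
      have h2 : (1 : W.H (X.prod X)) = 0 := by
        rw [← map_one (W.map (fst X X)), h1, map_zero]
      rw [← one_mul y, h2, zero_mul]
    refine ⟨fun i T _ _ => ⟨0, Submodule.zero_mem _, fun y _ => by rw [hz (T y)]; rfl⟩, ?_,
      fun p _ z _ _ => hz2 _, fun p _ z _ _ => hz _, ?_⟩
    · have h2 : (W.map f).toLinearMap = (0 : Module.End W.K (W.H X)) := by
        apply LinearMap.ext
        intro y
        rw [hz ((W.map f).toLinearMap y)]
        rfl
      rw [h2]
      exact Module.End.isSemisimple_zero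
    · tfae_have 1 → 2 := fun _ => lefschetzB_of_inj hD hHL fun c _ =>
        ⟨0, Submodule.zero_mem _, fun a _ _ => hz a⟩
      tfae_have 2 → 3 := fun _ i _ Q _ hbot => absurd (by
        rw [Submodule.eq_bot_iff]
        exact fun y _ => hz y) hbot
      tfae_have 3 → 1 := fun _ p _ z _ _ => hz2 _
      tfae_finish
  have hmid := d_middle hD hHL h1 hF hq hRH hL
  refine ⟨?_, frob_semisimple hD hHL h1 hF hq hRH hL, fun p hp => d_below hD hHL hmid hp,
    fun j hj => d_factor hD hHL h1 hmid hj, ?_⟩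
  · intro i T hT hTF
    obtain ⟨φ, hφ, h2⟩ := all_commuting hD hHL h1 hF hq hRH hL i T hT hTF
    exact ⟨φ, kop_span hφ, h2⟩
  · have h2 := d_tfae (W := W) hD hHL
    have h3 : HomEqNum W (X.prod X) ↔ HomEqNumIn W (X.prod X) X.dim ∧ LefschetzB W X D :=
      h2.out 0 2
    tfae_have 1 → 2 := fun h => (h3.1 h).2
    tfae_have 2 → 1 := fun h => h3.2 ⟨hmid, h⟩
    tfae_have 2 ↔ 3 := b_iff hD hHL h1 hF hq hRH hL
    tfae_finish

end Pool.Agent.U227.Gap
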