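import Pool.Agent.U227.GapField

/-!
# The gap theorem for algebras of operators commuting with an operator
-/

set_option autoImplicit false
set_option linter.unusedSectionVars false

open Polynomial
open scoped Matrix

namespace Pool.Agent.U227.Gap

open Pool.Agent.H914

variable {K : Type*} [Field K] [CharZero K] [IsAlgClosed K] {V : Type*} [AddCommGroup V]
  [Module K V] [Module.Finite K V] {F : Module.End K V} {Q : ℚ[X]} [hQi : Fact (Irreducible Q)]

/-- The ranks at the single roots. -/
theorem rank_each {N : ℕ} (hN : ev F Q ^ N = 0) {r : ℕ} (u : Fin r → Cen F)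
    (hu : ∀ a b (p : ℚ[X]), ∃ t : ℚ,
      LinearMap.trace K V (((u a * u b : Cen F) : Module.End K V) * ev F p) = t) {s : ℕ}
    (hr : Q.natDegree * s <
      (Matrix.of fun a b => LinearMap.trace K V ((u a * u b : Cen F) : Module.End K V)).rank)
    (σ : AdjoinRoot Q →ₐ[ℚ] K) :
    s < (Matrix.of fun a b => tG F (rt Q σ) (u a * u b)).rank := by
  classical
  choose h hh using fun a b => exists_elem hN (u a * u b) (hu a b)
  have h1 : ∀ τ : AdjoinRoot Q →ₐ[ℚ] K, (Matrix.of fun a b => tG F (rt Q τ) (u a * u b)) =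
      (Matrix.of h).map τ.toRingHom := by
    intro τ
    ext a b
    exact hh a b τ
  have h2 : (Matrix.of fun a b => LinearMap.trace K V ((u a * u b : Cen F) : Module.End K V)) =
      ∑ τ : AdjoinRoot Q →ₐ[ℚ] K, (Matrix.of h).map τ.toRingHom := by
    ext a b
    rw [Matrix.of_apply, trace_sum hN, Matrix.sum_apply]
    exact Finset.sum_congr rfl fun τ _ => hh a b τ
  rw [h1, rank_map]
  by_contra hcon
  push Not at hcon
  have h3 : (∑ τ : AdjoinRoot Q →ₐ[ℚ] K, (Matrix.of h).map τ.toRingHom).rank ≤
      Q.natDegree * s := by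
    refine (rank_sum_le _ _).trans ?_
    calc ∑ τ : AdjoinRoot Q →ₐ[ℚ] K, ((Matrix.of h).map τ.toRingHom).rank
        ≤ ∑ τ : AdjoinRoot Q →ₐ[ℚ] K, s := Finset.sum_le_sum fun τ _ => by
          rw [rank_map]
          exact hcon
      _ = Q.natDegree * s := by
          rw [Finset.sum_const, Finset.card_univ, AlgHom.card,
            (AdjoinRoot.powerBasis hQi.out.ne_zero).finrank, AdjoinRoot.powerBasis_dim,
            smul_eq_mul]
  rw [h2] at hr
  omega

/-- Central nilpotent operators vanish. -/
lemma nilp_central {n : Module.End K V} (hn : IsNilpotent n)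
    (hc : ∀ T : Module.End K V, T * n = n * T) : n = 0 := by
  apply LinearMap.ext
  intro x
  rw [LinearMap.zero_apply]
  by_contra hx
  have h1 : ∃ f : Module.Dual K V, f (n x) ≠ 0 := by
    by_contra h
    push Not at h
    exact hx ((Module.forall_dual_apply_eq_zero_iff K (n x)).1 h)
  obtain ⟨f, hf⟩ := h1
  set T : Module.End K V := f.smulRight ((f (n x))⁻¹ • x) with hT
  have h2 : (T * n) x = x := by
    rw [Module.End.mul_apply, hT, LinearMap.smulRight_apply, smul_smul, mul_inv_cancel₀ hf,
      one_smul]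
  obtain ⟨k, hk⟩ : IsNilpotent (T * n) :=
    Commute.isNilpotent_mul_left (show Commute T n from hc T) hn
  have h3 : ∀ k : ℕ, ((T * n) ^ k) x = x := by
    intro k
    induction k with
    | zero => rfl
    | succ k ih => rw [pow_succ, Module.End.mul_apply, h2, ih]
  have h4 := h3 k
  rw [hk, LinearMap.zero_apply] at h4
  apply hx
  rw [← h4, map_zero]

/-- **The gap theorem.** -/
theorem full {N : ℕ} (hN : ev F Q ^ N = 0) (S : Subalgebra K (Module.End K V))
    (hS : ∀ u ∈ S, F * u = u * F) (hF : F ∈ S)
    (h1 : ∀ p : ℚ[X], ∃ t : ℚ, LinearMap.trace K V (ev F p) = t) {m : ℕ}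
    (hm : Module.finrank K V = m * Q.natDegree)
    (h : m = 1 ∨ ∃ (r : ℕ) (u : Fin r → Module.End K V), (∀ a, u a ∈ S) ∧
      (∀ a b (p : ℚ[X]), ∃ t : ℚ, LinearMap.trace K V (u a * u b * ev F p) = t) ∧
      Q.natDegree * ((m - 1) ^ 2 + 1) <
        (Matrix.of fun a b => LinearMap.trace K V (u a * u b)).rank) :
    (∀ T : Module.End K V, F * T = T * F → T ∈ S) ∧ ev F Q = 0 := by
  classical
  have hfull : ∀ (σ : AdjoinRoot Q →ₐ[ℚ] K) (g : Module.End K (F.maxGenEigenspace (rt Q σ))),
      ∃ (u : Module.End K V) (hu : u ∈ S), res F (rt Q σ) ⟨u, mem_cen.2 (hS u hu)⟩ = g := by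
    intro σ g
    have hfr := finrank_eq hN h1 hm σ
    let S' : Subalgebra K (Module.End K (F.maxGenEigenspace (rt Q σ))) :=
      (S.comap (Cen F).val).map (res F (rt Q σ))
    have hmem : g ∈ S' → ∃ (u : Module.End K V) (hu : u ∈ S),
        res F (rt Q σ) ⟨u, mem_cen.2 (hS u hu)⟩ = g := by
      rintro ⟨u, hu, rfl⟩
      exact ⟨u.1, hu, rfl⟩
    apply hmem
    rcases h with rfl | ⟨r, u, hu, hrat, hr⟩
    · exact full_of_one S' hfr g
    · have hm0 : m ≠ 0 := by
        rintro rfl
        rw [zero_mul] at hm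
        have h2 : Subsingleton V := Module.finrank_zero_iff.1 hm
        have h3 : (Matrix.of fun a b => LinearMap.trace K V (u a * u b)) =
            (0 : Matrix (Fin r) (Fin r) K) := by
          ext a b
          have h4 : u a * u b = 0 := Subsingleton.elim _ _
          rw [Matrix.of_apply, h4, map_zero, Matrix.zero_apply]
        rw [h3, Matrix.rank_zero] at hr
        omega
      have : Nontrivial (F.maxGenEigenspace (rt Q σ)) :=
        Module.nontrivial_of_finrank_pos (R := K) (by omega)
      let u' : Fin r → Cen F := fun a => ⟨u a, mem_cen.2 (hS _ (hu a))⟩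
      refine full_of_rank S' (fun a => res F (rt Q σ) (u' a)) (fun a => ⟨u' a, hu a, rfl⟩) ?_ g
      rw [hfr]
      have h2 := rank_each hN u' (fun a b p => hrat a b p) hr σ
      have h3 : (Matrix.of fun a b => LinearMap.trace K (F.maxGenEigenspace (rt Q σ))
          (res F (rt Q σ) (u' a) * res F (rt Q σ) (u' b))) =
          Matrix.of fun a b => tG F (rt Q σ) (u' a * u' b) := by
        ext a b
        rw [Matrix.of_apply, Matrix.of_apply, tG_apply, ← map_mul (res F (rt Q σ))]
      rw [h3]
      exact h2
  -- the eigenvalues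
  have hscal : ∀ (σ : AdjoinRoot Q →ₐ[ℚ] K), ∀ x ∈ F.maxGenEigenspace (rt Q σ),
      F x = rt Q σ • x := by
    intro σ x hx
    have h2 : res F (rt Q σ) (selfC F - algebraMap K _ (rt Q σ)) = 0 := by
      apply nilp_central
      · exact Module.End.isNilpotent_restrict_maxGenEigenspace_sub_algebraMap F _
      · intro T
        obtain ⟨u, hu, rfl⟩ := hfull σ T
        rw [← map_mul, ← map_mul]
        congr 1
        rw [mul_sub, sub_mul]
        congr 1
        · apply Subtype.ext
          exact (hS u hu).symm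
        · exact (Algebra.commutes _ _).symm
    have h3 := congrArg (fun A => ((A ⟨x, hx⟩ : F.maxGenEigenspace (rt Q σ)) : V)) h2
    have h4 : F x - rt Q σ • x = 0 := h3
    exact sub_eq_zero.1 h4
  have hpol : ∀ (σ : AdjoinRoot Q →ₐ[ℚ] K), ∀ x ∈ F.maxGenEigenspace (rt Q σ), ∀ p : K[X],
      aeval F p x = p.eval (rt Q σ) • x := by
    intro σ x hx p
    induction p using Polynomial.induction_on' with
    | add p q hp hq => rw [map_add, LinearMap.add_apply, hp, hq, eval_add, add_smul]
    | monomial n a =>
      rw [aeval_monomial, eval_monomial, Module.End.mul_apply, Module.algebraMap_end_apply,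
        mul_smul]
      congr 1
      induction n with
      | zero => rw [pow_zero, pow_zero, one_smul, Module.End.one_apply]
      | succ n ih => rw [pow_succ, Module.End.mul_apply, hscal σ x hx, map_smul, ih, smul_smul,
          pow_succ, mul_comm]
  have hspan : ∀ x : V, x ∈ ⨆ σ : AdjoinRoot Q →ₐ[ℚ] K, F.maxGenEigenspace (rt Q σ) := by
    intro x
    rw [(internal hN).submodule_iSup_eq_top]
    trivial
  have hext : ∀ A B : Module.End K V, (∀ (σ : AdjoinRoot Q →ₐ[ℚ] K),
      ∀ x ∈ F.maxGenEigenspace (rt Q σ), A x = B x) → A = B := by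
    intro A B hAB
    apply LinearMap.ext
    intro x
    induction hspan x using Submodule.iSup_induction' with
    | mem σ x hx => exact hAB σ x hx
    | zero => rw [map_zero, map_zero]
    | add x y _ _ hx hy => rw [map_add, map_add, hx, hy]
  refine ⟨fun T hT => ?_, ?_⟩
  · choose a ha ha' using fun σ => hfull σ (res F (rt Q σ) ⟨T, mem_cen.2 hT⟩)
    let p : (AdjoinRoot Q →ₐ[ℚ] K) → K[X] := fun σ => Lagrange.basis Finset.univ (rt Q) σ
    have h2 : T = ∑ σ : AdjoinRoot Q →ₐ[ℚ] K, a σ * aeval F (p σ) := by
      apply hext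
      intro τ x hx
      rw [LinearMap.sum_apply, Finset.sum_eq_single τ]
      · rw [Module.End.mul_apply, hpol τ x hx,
          Lagrange.eval_basis_self ((rt_injective Q).injOn) (Finset.mem_univ τ), one_smul]
        have h3 := congrArg (fun A => ((A ⟨x, hx⟩ : F.maxGenEigenspace (rt Q τ)) : V)) (ha' τ)
        exact h3.symm
      · intro σ _ hσ
        rw [Module.End.mul_apply, hpol τ x hx, Lagrange.eval_basis_of_ne hσ (Finset.mem_univ τ),
          zero_smul, map_zero]
      · intro h3
        exact absurd (Finset.mem_univ τ) h3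
    rw [h2]
    refine S.sum_mem fun σ _ => S.mul_mem (ha σ) ?_
    have h3 := Algebra.adjoin_le_iff.2 (Set.singleton_subset_iff.2 hF)
    exact h3 (Polynomial.aeval_mem_adjoin_singleton K F)
  · apply hext
    intro σ x hx
    rw [ev_apply, hpol σ x hx, LinearMap.zero_apply]
    have h2 := sigma_mk Q σ Q
    rw [AdjoinRoot.mk_self, map_zero] at h2
    rw [← h2, zero_smul]

/-- Operators commuting with `F` which are orthogonal to the commutant. -/
theorem zero_of_trace (h0 : ev F Q = 0) {u : Module.End K V} (hu : F * u = u * F)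
    (h : ∀ T : Module.End K V, F * T = T * F → LinearMap.trace K V (u * T) = 0) : u = 0 := by
  classical
  have hN : ev F Q ^ 1 = 0 := by rw [pow_one, h0]
  have hker : ∀ (σ : AdjoinRoot Q →ₐ[ℚ] K), ∀ x ∈ F.maxGenEigenspace (rt Q σ),
      F x = rt Q σ • x := by
    intro σ x hx
    rw [Module.End.mem_maxGenEigenspace] at hx
    obtain ⟨k, hk⟩ := hx
    -- `Q` has no multiple roots
    have hsep : (Q.map (algebraMap ℚ K)).Separable := hQi.out.separable.map
    have hroot : (Q.map (algebraMap ℚ K)).eval (rt Q σ) = 0 := by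
      rw [← sigma_mk, AdjoinRoot.mk_self, map_zero]
    obtain ⟨R, hR⟩ := dvd_iff_isRoot.2 hroot
    have hcop : IsCoprime (X - C (rt Q σ)) R := by
      rw [hR] at hsep
      exact hsep.isCoprime
    have hcop2 : IsCoprime ((X - C (rt Q σ)) ^ k) R := hcop.pow_left
    obtain ⟨b, c, hbc⟩ := hcop2
    have h2 : aeval F ((X - C (rt Q σ)) ^ k) x = 0 := by
      rw [map_pow, map_sub, aeval_X, aeval_C, Algebra.algebraMap_eq_smul_one]
      exact hk
    have h3 : aeval F (X - C (rt Q σ)) x = 0 := by
      have h4 : X - C (rt Q σ) = ((X - C (rt Q σ)) * b) * (X - C (rt Q σ)) ^ k +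
          c * ((X - C (rt Q σ)) * R) := by
        have h5 : X - C (rt Q σ) = (X - C (rt Q σ)) * (b * (X - C (rt Q σ)) ^ k + c * R) := by
          rw [hbc, mul_one]
        conv_lhs => rw [h5]
        ring
      rw [h4, ← hR, map_add, LinearMap.add_apply, map_mul, Module.End.mul_apply, h2, map_zero,
        map_mul, ← ev_apply F Q, h0, mul_zero, LinearMap.zero_apply, zero_add]
    rw [map_sub, aeval_X, aeval_C, LinearMap.sub_apply, Module.algebraMap_end_apply] at h3
    exact sub_eq_zero.1 h3
  have hpol : ∀ (σ : AdjoinRoot Q →ₐ[ℚ] K), ∀ x ∈ F.maxGenEigenspace (rt Q σ), ∀ p : K[X],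
      aeval F p x = p.eval (rt Q σ) • x := by
    intro σ x hx p
    induction p using Polynomial.induction_on' with
    | add p q hp hq => rw [map_add, LinearMap.add_apply, hp, hq, eval_add, add_smul]
    | monomial n a =>
      rw [aeval_monomial, eval_monomial, Module.End.mul_apply, Module.algebraMap_end_apply,
        mul_smul]
      congr 1
      induction n with
      | zero => rw [pow_zero, pow_zero, one_smul, Module.End.one_apply]
      | succ n ih => rw [pow_succ, Module.End.mul_apply, hker σ x hx, map_smul, ih, smul_smul,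
          pow_succ, mul_comm]
  have hspan : ∀ x : V, x ∈ ⨆ σ : AdjoinRoot Q →ₐ[ℚ] K, F.maxGenEigenspace (rt Q σ) := by
    intro x
    rw [(internal hN).submodule_iSup_eq_top]
    trivial
  have hext : ∀ A B : Module.End K V, (∀ (σ : AdjoinRoot Q →ₐ[ℚ] K),
      ∀ x ∈ F.maxGenEigenspace (rt Q σ), A x = B x) → A = B := by
    intro A B hAB
    apply LinearMap.ext
    intro x
    induction hspan x using Submodule.iSup_induction' with
    | mem σ x hx => exact hAB σ x hx
    | zero => rw [map_zero, map_zero]
    | add x y _ _ hx hy => rw [map_add, map_add, hx, hy]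
  apply hext
  intro σ x hx
  rw [LinearMap.zero_apply]
  by_contra hux
  have h1 : ∃ f : Module.Dual K V, f (u x) ≠ 0 := by
    by_contra h
    push Not at h
    exact hux ((Module.forall_dual_apply_eq_zero_iff K (u x)).1 h)
  obtain ⟨f, hf⟩ := h1
  set e : Module.End K V := aeval F (Lagrange.basis Finset.univ (rt Q) σ) with he
  have heσ : ∀ y ∈ F.maxGenEigenspace (rt Q σ), e y = y := by
    intro y hy
    rw [he, hpol σ y hy, Lagrange.eval_basis_self ((rt_injective Q).injOn) (Finset.mem_univ σ),
      one_smul]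
  have heF : ∀ y, e (F y) = rt Q σ • e y := by
    have h2 : e * F = rt Q σ • e := by
      apply hext
      intro τ y hy
      rw [Module.End.mul_apply, hker τ y hy, map_smul, LinearMap.smul_apply]
      by_cases hτ : τ = σ
      · rw [hτ]
      · rw [he, hpol τ y hy, Lagrange.eval_basis_of_ne (Ne.symm hτ) (Finset.mem_univ τ), zero_smul,
          smul_zero, smul_zero]
    intro y
    exact congrArg (fun A => A y) h2
  have hT := h ((f ∘ₗ e).smulRight x) (by
    apply LinearMap.ext
    intro y
    rw [Module.End.mul_apply, Module.End.mul_apply, LinearMap.smulRight_apply,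
      LinearMap.smulRight_apply, map_smul, hker σ x hx, LinearMap.comp_apply, LinearMap.comp_apply,
      heF, map_smul, smul_smul, smul_eq_mul, mul_comm])
  have h2 : u * ((f ∘ₗ e).smulRight x) = (f ∘ₗ e).smulRight (u x) := by
    apply LinearMap.ext
    intro y
    rw [Module.End.mul_apply, LinearMap.smulRight_apply, map_smul, LinearMap.smulRight_apply]
  rw [h2, LinearMap.trace_smulRight, LinearMap.comp_apply, heσ _
    (F.mapsTo_maxGenEigenspace_of_comm hu _ hx)] at hT
  exact hf hT

end Pool.Agent.U227.Gap
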