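import Pool.Agent.U227.GapGeo
import Pool.Agent.U227.GapIdeal

/-!
# The gap theorem for algebraic correspondences over finite fields: all primary parts
-/

set_option autoImplicit false
set_option linter.unusedSectionVars false

open CategoryTheory AlgebraicGeometry Finset Polynomial

universe u v

namespace Pool.Agent.U227.Gap

open Pool.Agent.H914 Pool.Agent.H447 VarClass Obj WeilCohomology Pool.Agent.U227.Grp
  Pool.Agent.U227.Fr

variable {k : Type u} [Field k] {𝒱 : VarClass k} {ops : CycleOps 𝒱}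
  {W : WeilCohomology.{u, v} ops} {X : 𝒱.Obj} {D : X.Cycles} {f : X ⟶ X} {q : ℕ}

lemma coprime_ind {C : ℚ[X] → Prop} (h1 : ∀ x, IsUnit x → C x)
    (hpr : ∀ (Q : ℚ[X]) (k : ℕ), Irreducible Q → C (Q ^ k))
    (hcp : ∀ a b, IsCoprime a b → C a → C b → C (a * b)) {P : ℚ[X]} (hP : P ≠ 0) : C P := by
  have h := UniqueFactorizationMonoid.induction_on_coprime (P := fun x => x = 0 ∨ C x) P
    (Or.inl rfl) (fun hx => Or.inr (h1 _ hx)) (fun i hp => Or.inr (hpr _ i hp.irreducible))
    (fun {x y} hxy hx hy => by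
      rcases hx with hx | hx
      · left; rw [hx, zero_mul]
      · rcases hy with hy | hy
        · left; rw [hy, mul_zero]
        · right; exact hcp x y hxy.isCoprime hx hy)
  exact h.resolve_left hP

/-- Patching of operators on the primary parts. -/
lemma patch {d : ℤ} {i : ℕ} (L T : W.H X →ₗ[W.K] W.H X)
    (h : ∀ Q : ℚ[X], Irreducible Q →
      ∃ φ ∈ KOp W X X d, ∀ y ∈ primPart W X f i Q, L (φ y) = T y)
    {P : ℚ[X]} (hP : P ≠ 0) :
    ∃ φ ∈ KOp W X X d, ∀ y ∈ W.gr X i, ev (W.map f).toLinearMap P y = 0 → L (φ y) = T y := by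
  refine coprime_ind (C := fun P => ∃ φ ∈ KOp W X X d, ∀ y ∈ W.gr X i,
    ev (W.map f).toLinearMap P y = 0 → L (φ y) = T y) ?_ ?_ ?_ hP
  · rintro P ⟨P, rfl⟩
    refine ⟨0, Submodule.zero_mem _, fun y _ h0 => ?_⟩
    have h2 : y = 0 := by
      have h3 : ev (W.map f).toLinearMap ((↑P⁻¹ : ℚ[X]) * P) y = 0 := by
        rw [Fr.ev_mul_apply, h0, map_zero]
      rwa [Units.inv_mul, map_one, Module.End.one_apply] at h3
    rw [h2, map_zero, map_zero, map_zero]
  · intro Q k hQ
    obtain ⟨φ, hφ, h2⟩ := h Q hQ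
    refine ⟨φ, hφ, fun y hy h0 => h2 y ?_⟩
    rw [mem_primPart]
    exact ⟨hy, k, by rw [← map_pow]; exact h0⟩
  · rintro a b ⟨r, s, hrs⟩ ⟨φa, hφa, ha⟩ ⟨φb, hφb, hb⟩
    refine ⟨φb ∘ₗ ev (W.map f).toLinearMap (r * a) + φa ∘ₗ ev (W.map f).toLinearMap (s * b),
      Submodule.add_mem _
        (KOp.cast (KOp.comp hφb (kop_of_rop (rop_ev (rop_map f) _))) (by ring))
        (KOp.cast (KOp.comp hφa (kop_of_rop (rop_ev (rop_map f) _))) (by ring)), ?_⟩
    intro y hy h0
    rw [LinearMap.add_apply, map_add, LinearMap.comp_apply, LinearMap.comp_apply,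
      hb _ (ev_gr _ hy) (by
        rw [← Fr.ev_mul_apply, show b * (r * a) = r * (a * b) by ring, Fr.ev_mul_apply, h0,
          map_zero]),
      ha _ (ev_gr _ hy) (by
        rw [← Fr.ev_mul_apply, show a * (s * b) = s * (a * b) by ring, Fr.ev_mul_apply, h0,
          map_zero]), ← map_add, ← LinearMap.add_apply, ← map_add, hrs, map_one,
      Module.End.one_apply]

lemma patch_all (hRH : RiemannHypothesis W X f q) {d : ℤ} {i : ℕ} (L T : W.H X →ₗ[W.K] W.H X)
    (h : ∀ Q : ℚ[X], Irreducible Q →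
      ∃ φ ∈ KOp W X X d, ∀ y ∈ primPart W X f i Q, L (φ y) = T y) :
    ∃ φ ∈ KOp W X X d, ∀ y ∈ W.gr X i, L (φ y) = T y := by
  obtain ⟨P, hP0, hPa, -⟩ := hRH i
  obtain ⟨φ, hφ, h2⟩ := patch L T h hP0
  exact ⟨φ, hφ, fun y hy => h2 y hy (by rw [ev_eq]; exact hPa y hy)⟩

/-- Vectors killed on the primary parts. -/
lemma zero_all (hRH : RiemannHypothesis W X f q) {i : ℕ} (T : W.H X →ₗ[W.K] W.H X)
    (h : ∀ Q : ℚ[X], Irreducible Q → ∀ y ∈ primPart W X f i Q, T y = 0) :
    ∀ y ∈ W.gr X i, T y = 0 := by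
  obtain ⟨φ, -, h2⟩ := patch_all hRH (d := 0) 0 T (fun Q hQ =>
    ⟨0, Submodule.zero_mem _, fun y hy => by rw [LinearMap.zero_apply, h Q hQ y hy]⟩)
  intro y hy
  have h3 := h2 y hy
  rw [LinearMap.zero_apply] at h3
  exact h3.symm

section Main

variable [IsAlgClosed W.K] (hD : X.IsCyc 1 D) (hHL : HardLefschetz W X D)
    (h1 : (1 : W.H X) ≠ 0) (hF : IsFrobenius W X f q) (hq : 1 < q)
    (hRH : RiemannHypothesis W X f q) (hL : LargeRanks W X f)

include hD hHL h1 hF hq hRH hL

/-- **The commutant of Frobenius is algebraic.** -/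
theorem all_commuting (i : ℕ) (T : W.H X →ₗ[W.K] W.H X) (hT : ∀ y ∈ W.gr X i, T y ∈ W.gr X i)
    (hTF : ∀ y ∈ W.gr X i, T ((W.map f).toLinearMap y) = (W.map f).toLinearMap (T y)) :
    ∃ φ ∈ KOp W X X 0, ∀ y ∈ W.gr X i, φ y = T y := by
  have hTe : ∀ (p : ℚ[X]), ∀ y ∈ W.gr X i,
      T (ev (W.map f).toLinearMap p y) = ev (W.map f).toLinearMap p (T y) := by
    intro p y hy
    induction p using Polynomial.induction_on' with
    | add p q hp hq => rw [map_add, LinearMap.add_apply, map_add, hp, hq, LinearMap.add_apply]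
    | monomial n a =>
      rw [← C_mul_X_pow_eq_monomial, Fr.ev_mul_apply, Fr.ev_mul_apply, ev_C,
        LinearMap.smul_apply, LinearMap.smul_apply, map_smul, Module.End.one_apply,
        Module.End.one_apply]
      congr 1
      induction n with
      | zero => rw [pow_zero, map_one, Module.End.one_apply, Module.End.one_apply]
      | succ n ih =>
        rw [pow_succ', Fr.ev_mul_apply, Fr.ev_mul_apply, ev_X, hTF _ (ev_gr _ hy), ih]
  refine patch_all hRH (d := 0) LinearMap.id T fun Q hQ => ?_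
  by_cases hbot : primPart W X f i Q = ⊥
  · refine ⟨0, Submodule.zero_mem _, fun y hy => ?_⟩
    rw [hbot, Submodule.mem_bot] at hy
    rw [hy, map_zero, map_zero, map_zero]
  obtain ⟨hfull, -⟩ := full_primPart hD hHL h1 hF hq hRH i hQ (hL i Q hQ hbot)
  have hst : ∀ y ∈ primPart W X f i Q, T y ∈ primPart W X f i Q := by
    intro y hy
    rw [mem_primPart] at hy ⊢
    obtain ⟨hy1, k, hk⟩ := hy
    refine ⟨hT y hy1, k, ?_⟩
    rw [← map_pow] at hk ⊢
    rw [← hTe _ y hy1, hk, map_zero]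
  let T' : Module.End W.K (primPart W X f i Q) :=
    (show Module.End W.K (W.H X) from T).restrict hst
  obtain ⟨φ, hφ, h2⟩ := hfull T' (by
    apply LinearMap.ext
    intro y
    apply Subtype.ext
    rw [Module.End.mul_apply, Module.End.mul_apply, coe_frP]
    exact (hTF y (mem_primPart.1 y.2).1).symm)
  exact ⟨φ, hφ, fun y hy => (h2 ⟨y, hy⟩).symm⟩

/-- **Numerically trivial correspondences of degree zero vanish.** -/
theorem num_zero {z : (X.prod X).Cycles} (hz : (X.prod X).IsCyc X.dim z)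
    (hnum : ∀ w, (X.prod X).IsCyc X.dim w → (X.prod X).V.degCycle (ops.mul z w) = 0) :
    W.corr (W.cl _ z) = 0 := by
  apply gr_ext (W.isInternal X)
  intro i y hy
  rw [LinearMap.zero_apply]
  refine zero_all hRH (W.corr (W.cl _ z)) (fun Q hQ y hy => ?_) y hy
  by_cases hbot : primPart W X f i Q = ⊥
  · rw [hbot, Submodule.mem_bot] at hy
    rw [hy, map_zero]
  exact num_primPart hD hHL h1 hF hq hRH i hQ (hL i Q hQ hbot) hz hnum hy

/-- The conjecture D in the middle codimension of `X × X`. -/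
theorem d_middle : HomEqNumIn W (X.prod X) X.dim := by
  intro z hz hnum
  rw [dim_prod, show X.dim + X.dim - X.dim = X.dim by omega] at hnum
  exact corr_inj (num_zero hD hHL h1 hF hq hRH hL hz hnum)

/-- The Frobenius is semisimple. -/
theorem frob_semisimple : Module.End.IsSemisimple (R := W.K) (M := W.H X) (W.map f).toLinearMap := by
  classical
  choose P hP0 hPa hPz using hRH
  set R : ℚ[X] := ∏ i ∈ range (2 * X.dim + 1), P i with hR
  have hR0 : R ≠ 0 := Finset.prod_ne_zero_iff.2 fun i _ => hP0 i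
  set p : ℚ[X] := UniqueFactorizationMonoid.radical R with hp
  have hsq : Squarefree p := UniqueFactorizationMonoid.squarefree_radical
  have hRH' : RiemannHypothesis W X f q := fun i => ⟨P i, hP0 i, hPa i, hPz i⟩
  have hRa : ∀ i, ∀ y ∈ W.gr X i, ev (W.map f).toLinearMap R y = 0 := by
    intro i y hy
    by_cases hi : i < 2 * X.dim + 1
    · rw [hR, ← Finset.prod_erase_mul _ _ (Finset.mem_range.2 hi), Fr.ev_mul_apply,
        ev_eq _ (P i), hPa i y hy, map_zero]
    · rw [W.gr_eq_bot X i (by omega), Submodule.mem_bot] at hy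
      rw [hy, map_zero]
  have hzero : ev (W.map f).toLinearMap p = 0 := by
    apply gr_ext (W.isInternal X)
    intro i y hy
    rw [LinearMap.zero_apply]
    refine zero_all hRH' (ev (W.map f).toLinearMap p) (fun Q hQ y hy => ?_) y hy
    by_cases hbot : primPart W X f i Q = ⊥
    · rw [hbot, Submodule.mem_bot] at hy
      rw [hy, map_zero]
    obtain ⟨-, h0⟩ := full_primPart hD hHL h1 hF hq hRH' i hQ (hL i Q hQ hbot)
    have h2 : ev (W.map f).toLinearMap Q y = 0 := by
      have h3 := coe_ev_frP (W := W) (f := f) Q (⟨y, hy⟩ : primPart W X f i Q)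
      rw [h0] at h3
      exact h3.symm
    by_cases hdvd : Q ∣ R
    · obtain ⟨s, hs⟩ := (UniqueFactorizationMonoid.dvd_radical_iff hQ.prime.isRadical hR0).2 hdvd
      rw [hp, hs, mul_comm, Fr.ev_mul_apply, h2, map_zero]
    · obtain ⟨r, s, hrs⟩ : IsCoprime Q R := hQ.coprime_iff_not_dvd.2 hdvd
      have h3 : y = 0 := by
        have h4 : ev (W.map f).toLinearMap (r * Q + s * R) y = y := by
          rw [hrs, map_one, Module.End.one_apply]
        rw [← h4, map_add, LinearMap.add_apply, Fr.ev_mul_apply, h2, map_zero, Fr.ev_mul_apply,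
          hRa i y (mem_primPart.1 hy).1, map_zero, add_zero]
      rw [h3, map_zero]
  have hsq2 : Squarefree (p.map (algebraMap ℚ W.K)) :=
    ((PerfectField.separable_iff_squarefree.2 hsq).map).squarefree
  exact Module.End.isSemisimple_of_squarefree_aeval_eq_zero hsq2 hzero

end Main

end Pool.Agent.U227.Gap
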