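import Pool.Agent.U227.GrpDefs

/-!
# Properties of the quotients by subgroups which are controlled by representations

`P H` is a property of the subgroups `H` of a finite group `G` (think of a conjecture for `X / H`), `Q` a
class of rational representations of `G`. We assume that `P H` follows if `P (D j)` is true for a family
of subgroups such that all irreducible representations in `Q` with a nonzero vector fixed by `H` have a
nonzero vector fixed by some `D j`.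
-/

set_option autoImplicit false

namespace Pool.Agent.U227.Grp

open Pool.Agent.X252.GA Pool.Agent.X252.SCT Pool.Agent.X310.Mu Pool.Agent.X328.PB

section
variable {G : Type} [Group G]
  (Q : ∀ (V : Type) [AddCommGroup V] [Module ℚ V], (G →* Module.End ℚ V) → Prop)

/-- The irreducible representations in the class `Q` with a nonzero vector fixed by `H` have, for some
`j`, a nonzero vector fixed by `D j`. -/
def DomIn {ι : Type} (H : Subgroup G) (D : ι → Subgroup G) : Prop :=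
  ∀ (V : Type) [AddCommGroup V] [Module ℚ V] (ρ : G →* Module.End ℚ V), Irred ρ → Q V ρ →
    HasFixed ρ H → ∃ i, HasFixed ρ (D i)

variable {Q}

lemma DomIn.of {ι : Type} {H : Subgroup G} {D : ι → Subgroup G} (h : Dominated H D) :
    DomIn Q H D :=
  fun V _ _ ρ hρ _ hv => h V ρ hρ hv

lemma fixed_bot {V : Type} [AddCommGroup V] [Module ℚ V] {ρ : G →* Module.End ℚ V}
    {v : V} (hv : v ≠ 0) : HasFixed ρ (⊥ : Subgroup G) :=
  ⟨v, hv, fun h hh => by rw [Subgroup.mem_bot.1 hh, map_one]; rfl⟩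

omit Q in
/-- Irreducible representations of commutative groups are trivial on a subgroup with cyclic
quotient. -/
lemma dominated_cocyclic [Finite G] (hab : ∀ x y : G, x * y = y * x) (H : Subgroup G) :
    Dominated H (fun K : {K : Subgroup G // Cocyclic K} => K.1) := by
  intro V _ _ ρ hρ hv
  obtain ⟨v, hv0, -⟩ := hv
  have hker : ∀ g ∈ ρ.ker, ρ g v = v := by
    intro g hg
    rw [MonoidHom.mem_ker.1 hg]
    rfl
  refine ⟨⟨ρ.ker, ?_⟩, v, hv0, hker⟩
  have : Fintype (G ⧸ ρ.ker) := Fintype.ofFinite _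
  let ρ' : G ⧸ ρ.ker →* Module.End ℚ V := QuotientGroup.lift ρ.ker ρ (fun g hg => hg)
  have hρ' : ∀ g : G, ρ' (g : G ⧸ ρ.ker) = ρ g := fun g => rfl
  have hfree : ∀ g : G ⧸ ρ.ker, g ≠ 1 → ∀ w : V, ρ' g w = w → w = 0 := by
    intro g hg w hw
    obtain ⟨g, rfl⟩ := QuotientGroup.mk_surjective g
    rw [hρ'] at hw
    let U : Submodule ℚ V := LinearMap.eqLocus (ρ g) LinearMap.id
    have hU : ∀ x, x ∈ U ↔ ρ g x = x := fun _ => Iff.rfl
    rcases hρ U (fun h u hu => by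
      rw [hU] at hu ⊢
      rw [← Module.End.mul_apply, ← map_mul, hab g h, map_mul, Module.End.mul_apply, hu]) with h | h
    · have h1 : w ∈ U := hw
      rw [h, Submodule.mem_bot] at h1
      exact h1
    · exfalso
      apply hg
      rw [QuotientGroup.eq_one_iff, MonoidHom.mem_ker]
      ext x
      have h1 : x ∈ U := by rw [h]; trivial
      exact h1
  have h1 : ∀ R : Subgroup (G ⧸ ρ.ker), (Nat.card R).Prime → nrm ρ' R v = 0 := by
    intro R hR
    have hne : Nontrivial R := by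
      rw [← Finite.one_lt_card_iff_nontrivial]
      exact hR.one_lt
    obtain ⟨⟨g, hg⟩, hg1⟩ := exists_ne (1 : R)
    exact hfree g (fun h => hg1 (Subtype.ext h)) _ (fixed_nrm ρ' R v hg)
  have h2 := (structure_of_group ρ' hv0 h1).2.2.1 ⊤ (by
    intro x _ y _
    obtain ⟨x, rfl⟩ := QuotientGroup.mk_surjective x
    obtain ⟨y, rfl⟩ := QuotientGroup.mk_surjective y
    rw [← QuotientGroup.mk_mul, ← QuotientGroup.mk_mul, hab])
  obtain ⟨⟨g, hgt⟩, hg⟩ := h2.exists_generator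
  obtain ⟨g, rfl⟩ := QuotientGroup.mk_surjective g
  refine ⟨g, fun x => ?_⟩
  obtain ⟨m, hm⟩ := hg ⟨(x : G ⧸ ρ.ker), trivial⟩
  have h3 : ((g : G ⧸ ρ.ker)) ^ m = (x : G ⧸ ρ.ker) := congrArg Subtype.val hm
  refine ⟨-m, ?_⟩
  rw [← QuotientGroup.eq_one_iff, QuotientGroup.mk_mul, QuotientGroup.mk_zpow, ← h3, zpow_neg,
    mul_inv_cancel]

/-- **Consequences of domination.** -/
theorem parts [Finite G] (P : Subgroup G → Prop)
    (hdom : ∀ (H : Subgroup G) (ι : Type) (D : ι → Subgroup G), DomIn Q H D → (∀ j, P (D j)) →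
      P H) :
    (P ⊥ ↔ ∀ (V : Type) [AddCommGroup V] [Module ℚ V] (ρ : G →* Module.End ℚ V), Irred ρ →
      Q V ρ → (∃ v : V, v ≠ 0) → ∃ D : Subgroup G, HasFixed ρ D ∧ P D) ∧
    (∀ c : G, c * c = 1 → (P ⊥ ↔ P (Subgroup.zpowers c) ∧ P (comms c))) ∧
    (∀ c : G, InSimple c → c ≠ 1 → c * c = 1 → (P ⊥ ↔ P (Subgroup.zpowers c))) ∧
    (∀ (ι : Type) (D : ι → Subgroup G) (K : Subgroup G), Partitions K D → (P ⊥ ↔ ∀ j, P (D j))) ∧
    ((∀ x y : G, x * y = y * x) → (P ⊥ ↔ ∀ K : Subgroup G, Cocyclic K → P K)) ∧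
    (¬ P ⊥ → (∀ R : Subgroup G, (Nat.card R).Prime → P R) →
      (∃ (V : Type) (_ : AddCommGroup V) (_ : Module ℚ V) (ρ : G →* Module.End ℚ V), IsFree ρ ∧
        Q V ρ) ∧ CyclicSubgroups G) := by
  have : Fintype G := Fintype.ofFinite G
  have hup : ∀ H : Subgroup G, P ⊥ → P H := by
    intro H h
    refine hdom H Unit (fun _ => ⊥) ?_ fun _ => h
    intro V _ _ ρ _ _ hv
    obtain ⟨v, hv0, -⟩ := hv
    exact ⟨(), fixed_bot hv0⟩
  have hdown : ∀ (ι : Type) (D : ι → Subgroup G), Dominated (⊥ : Subgroup G) D →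
      (∀ j, P (D j)) → P ⊥ := fun ι D hD h => hdom ⊥ ι D (DomIn.of hD) h
  refine ⟨⟨?_, ?_⟩, ?_, ?_, ?_, ?_, ?_⟩
  · intro h V _ _ ρ _ _ hv
    obtain ⟨v, hv0⟩ := hv
    exact ⟨⊥, fixed_bot hv0, h⟩
  · intro h
    refine hdom ⊥ {D : Subgroup G // P D} (fun D => D.1) ?_ fun D => D.2
    intro V _ _ ρ hρ hQ hv
    obtain ⟨v, hv0, -⟩ := hv
    obtain ⟨D, hD, hPD⟩ := h V ρ hρ hQ ⟨v, hv0⟩
    exact ⟨⟨D, hPD⟩, hD⟩
  · intro c hc
    refine ⟨fun h => ⟨hup _ h, hup _ h⟩, fun h => hdown _ _ (dominated_two hc ⊥) ?_⟩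
    intro b
    cases b
    · exact h.2
    · exact h.1
  · rintro c ⟨S, hS, hn, hcS⟩ hc1 hc
    exact ⟨hup _, fun h => hdown _ _ (dominated_comms hc (comms_of_simple S hn hcS hc1) ⊥)
      fun _ => h⟩
  · rintro ι D K ⟨hf, hι, hle, hpart⟩
    exact ⟨fun h j => hup _ h, hdown _ _ (dominated_partition D K hι hle hpart ⊥)⟩
  · intro hab
    exact ⟨fun h K _ => hup _ h, fun h => hdown _ _ (dominated_cocyclic hab ⊥) fun K => h K.1 K.2⟩
  · intro h0 hP
    have hex : ∃ (V : Type) (_ : AddCommGroup V) (_ : Module ℚ V) (ρ : G →* Module.End ℚ V),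
        IsFree ρ ∧ Q V ρ := by
      by_contra hcon
      apply h0
      refine hdom ⊥ {R : Subgroup G // (Nat.card R).Prime} (fun R => R.1) ?_ fun R => hP R.1 R.2
      intro V _ _ ρ hρ hQ hv
      obtain ⟨v, hv0, -⟩ := hv
      by_contra hno
      push Not at hno
      apply hcon
      refine ⟨V, _, _, ρ, ⟨hρ, ⟨v, hv0⟩, fun g hg w hw => ?_⟩, hQ⟩
      obtain ⟨R, hRp, hRg⟩ := card_zpowers_prime hg
      by_contra hw0
      exact hno ⟨R, hRp⟩ ⟨w, hw0, fun d hd => fixed_zpow ρ hw d (hRg hd)⟩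
    refine ⟨hex, ?_⟩
    obtain ⟨V, _, _, ρ, ⟨-, ⟨v, hv0⟩, hfree⟩, -⟩ := hex
    have h1 : ∀ R : Subgroup G, (Nat.card R).Prime → nrm ρ R v = 0 := by
      intro R hR
      have hne : Nontrivial R := by
        rw [← Finite.one_lt_card_iff_nontrivial]
        exact hR.one_lt
      obtain ⟨⟨g, hg⟩, hg1⟩ := exists_ne (1 : R)
      exact hfree g (fun h => hg1 (Subtype.ext h)) _ (fixed_nrm ρ R v hg)
    exact (structure_of_group ρ hv0 h1).2

/-- A class of representations given by a two-sided ideal. -/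
theorem dom_of_ideal [Fintype G] (I : Ideal (MonoidAlgebra ℚ G)) (hI : ∀ x ∈ I, ∀ y, x * y ∈ I)
    (hQ : ∀ (S : Submodule (MonoidAlgebra ℚ G) (MonoidAlgebra ℚ G ⧸ I)),
      IsSimpleModule (MonoidAlgebra ℚ G) S → Q S (repOf S))
    (H : Subgroup G) (ι : Type) (D : ι → Subgroup G) (hD : DomIn Q H D)
    (h : ∀ j, nA (D j) ∈ I) : nA H ∈ I :=
  mem_of_dominatedOn Q (fun V _ _ ρ hρ hQ' hv => hD V ρ hρ hQ' hv) I hI h hQ

end

end Pool.Agent.U227.Grp
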