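import Pool.Agent.U227.GrpDefs

/-!
# Group actions and the Lefschetz standard conjecture: definitions
-/

set_option autoImplicit false

open CategoryTheory AlgebraicGeometry

universe u v

namespace Pool.Agent.U227.Grp

open Pool.Agent.H914 VarClass Obj WeilCohomology Pool.Agent.X252.GA Pool.Agent.X252.SCT

variable {k : Type u} [Field k] {𝒱 : VarClass k} {ops : CycleOps 𝒱}

/-- The product with the power `ξ ^ m` of the class of the divisor `D`. -/
noncomputable def lefPow (W : WeilCohomology.{u, v} ops) {X : 𝒱.Obj} (D : X.Cycles) (m : ℕ)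
    (x : W.H X) : W.H X :=
  W.cl X D ^ m * x

/-- The inverse of `ξ ^ (n - i) : H^i(X)^H → H^(2n - i)(X)^H`, the cohomology of the quotient `X/H`,
is given by a `K`-linear combination of classes of algebraic cycles of codimension `i` on `X × X`, where
`ξ` is the class of the divisor `D` and `n = dim X`. -/
def InverseOn (W : WeilCohomology.{u, v} ops) {X : 𝒱.Obj} {G : Type} [Group G] (a : G →* Aut X)
    (D : X.Cycles) (i : ℕ) (H : Subgroup G) : Prop :=
  ∃ γ ∈ spanCycles W (X.prod X) i, ∀ x ∈ W.gr X i, FixedBy W a H x →
    W.corr γ (lefPow W D (X.dim - i) x) = x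

/-- The same in all degrees `i < n`: the Lefschetz standard conjecture for the quotient `X/H`. -/
def QuotientB (W : WeilCohomology.{u, v} ops) {X : 𝒱.Obj} {G : Type} [Group G] (a : G →* Aut X)
    (D : X.Cycles) (H : Subgroup G) : Prop :=
  ∀ i < X.dim, InverseOn W a D i H

/-- The representation `ρ` occurs in `H^i(X)` modulo the span of the classes of algebraic cycles. -/
def OccursTr (W : WeilCohomology.{u, v} ops) {X : 𝒱.Obj} {G : Type} [Group G] (a : G →* Aut X)
    (i : ℕ) {V : Type} [AddCommGroup V] [Module ℚ V] (ρ : G →* Module.End ℚ V) : Prop :=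
  OccursMod W a (W.gr X i) (algSpan W X i) ρ

/-- Every irreducible rational representation which occurs in the transcendental part of `H^i(X)`
for some `i < dim X`, and which has a nonzero vector fixed by `H`, has for some `j` a nonzero vector
fixed by `C j`. -/
def DominatesTr (W : WeilCohomology.{u, v} ops) {X : 𝒱.Obj} {G : Type} [Group G]
    (a : G →* Aut X) {ι : Type} (H : Subgroup G) (C : ι → Subgroup G) : Prop :=
  ∀ i < X.dim, ∀ (V : Type) [AddCommGroup V] [Module ℚ V] (ρ : G →* Module.End ℚ V), Irred ρ →
    OccursTr W a i ρ → HasFixed ρ H → ∃ j, HasFixed ρ (C j)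

/-- For all `i < dim X`, every irreducible rational representation which occurs in the transcendental
part of `H^i(X)` has a nonzero vector fixed by some subgroup `C` such that the statement `InverseOn` is
true for `X/C` in degree `i`. -/
def CoveredTr (W : WeilCohomology.{u, v} ops) {X : 𝒱.Obj} {G : Type} [Group G]
    (a : G →* Aut X) (D : X.Cycles) : Prop :=
  ∀ i < X.dim, ∀ (V : Type) [AddCommGroup V] [Module ℚ V] (ρ : G →* Module.End ℚ V), Irred ρ →
    OccursTr W a i ρ → ∃ C : Subgroup G, HasFixed ρ C ∧ InverseOn W a D i C

/-- Some irreducible rational representation in which the elements different from one fix only `0`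
occurs in the transcendental part of `H^i(X)` for some `i < dim X`. -/
def FreeOccursTr (W : WeilCohomology.{u, v} ops) {X : 𝒱.Obj} {G : Type} [Group G]
    (a : G →* Aut X) : Prop :=
  ∃ i < X.dim, ∃ (V : Type) (_ : AddCommGroup V) (_ : Module ℚ V) (ρ : G →* Module.End ℚ V),
    IsFree ρ ∧ OccursTr W a i ρ

end Pool.Agent.U227.Grp
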