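import Pool.Agent.U227.GrpOcc
import Pool.Agent.U227.GrpBDefs
import Pool.Agent.H914R2.KLef
import Pool.Agent.H914R2.Blocks

/-!
# Group actions and the Lefschetz standard conjecture
-/

set_option autoImplicit false

open CategoryTheory AlgebraicGeometry Finset

universe u v

namespace Pool.Agent.U227.Grp

open Pool.Agent.H914 VarClass Obj WeilCohomology Pool.Agent.X252.GA Pool.Agent.X252.SCT
  Pool.Agent.X252.SCK Pool.Agent.X310.Mu

variable {k : Type u} [Field k] {𝒱 : VarClass k} {ops : CycleOps 𝒱}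
  {W : WeilCohomology.{u, v} ops} {X : 𝒱.Obj} {G : Type} [Group G] {a : G →* Aut X}
  {D : X.Cycles}

lemma lefPow_eq (m : ℕ) (x : W.H X) :
    lefPow W D m x = (LinearMap.mulLeft W.K (W.cl X D) ^ m) x := by
  rw [LinearMap.pow_mulLeft, LinearMap.mulLeft_apply]
  rfl

lemma gPull_mul (g : G) (x y : W.H X) : gPull W a g (x * y) = gPull W a g x * gPull W a g y :=
  map_mul (W.map (a g).hom) x y

lemma gPull_mem (g : G) {i : ℕ} {x : W.H X} (hx : x ∈ W.gr X i) : gPull W a g x ∈ W.gr X i :=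
  W.map_mem _ hx

lemma gPull_eq (g : G) (x : W.H X) :
    gPull W a g x = theta W a (MonoidAlgebra.single g⁻¹ 1) x := by
  rw [theta_single_one, inv_inv]

lemma gPull_inv (g : G) (x : W.H X) : gPull W a g (gPull W a g⁻¹ x) = x := by
  rw [gPull_eq, gPull_eq, inv_inv, ← Module.End.mul_apply, ← map_mul,
    MonoidAlgebra.single_mul_single, inv_mul_cancel, one_mul, ← MonoidAlgebra.one_def, map_one,
    Module.End.one_apply]

/-- The trace is invariant under the group. -/
def TrInv (W : WeilCohomology.{u, v} ops) {X : 𝒱.Obj} {G : Type} [Group G] (a : G →* Aut X) :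
    Prop :=
  ∀ (g : G) (x : W.H X), W.tr X (gPull W a g x) = W.tr X x

lemma tr_theta (htr : TrInv W a) (x : MonoidAlgebra ℚ G) (b b' : W.H X) :
    W.tr X (theta W a x b * b') = W.tr X (b * theta W a (sig x) b') := by
  induction x using MonoidAlgebra.induction_linear with
  | zero => rw [sig_zero, map_zero, LinearMap.zero_apply, LinearMap.zero_apply, zero_mul, mul_zero]
  | add f g hf hg =>
    rw [map_add, LinearMap.add_apply, add_mul, map_add, hf, hg, sig_add, map_add,
      LinearMap.add_apply, mul_add, map_add]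
  | single g r =>
    rw [sig_single, theta_single, theta_single, inv_inv, LinearMap.smul_apply,
      LinearMap.smul_apply, smul_mul_assoc, mul_smul_comm, map_smul, map_smul]
    congr 1
    change W.tr X (gPull W a g⁻¹ b * b') = W.tr X (b * gPull W a g b')
    rw [← htr g, gPull_mul, gPull_inv]

/-- A group preserving a divisor class with the hard Lefschetz property preserves the trace. -/
lemma trInv_of_hard (hHL : HardLefschetz W X D)
    (hinv : ∀ g : G, gPull W a g (W.cl X D) = W.cl X D) : TrInv W a := by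
  intro g x
  refine gr_induction (W.isInternal X) (p := fun x => W.tr X (gPull W a g x) = W.tr X x) ?_ ?_ x
  · intro i x hx
    by_cases hi : i = 2 * X.dim
    · subst hi
      obtain ⟨c, hc, rfl⟩ := (hHL 0 (Nat.zero_le _)).2 x (by simpa using hx)
      rw [W.gr_zero] at hc
      obtain ⟨r, rfl⟩ := Submodule.mem_span_singleton.1 hc
      have h1 : ∀ m : ℕ, (LinearMap.mulLeft W.K (W.cl X D) ^ m) (r • (1 : W.H X)) =
          r • W.cl X D ^ m := by
        intro m
        rw [map_smul, LinearMap.pow_mulLeft, LinearMap.mulLeft_apply, mul_one]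
      rw [h1]
      have h2 : gPull W a g (r • W.cl X D ^ (X.dim - 0)) = r • W.cl X D ^ (X.dim - 0) := by
        have h3 : gPull W a g (W.cl X D ^ (X.dim - 0)) = gPull W a g (W.cl X D) ^ (X.dim - 0) :=
          map_pow (W.map (a g).hom) _ _
        have h4 : gPull W a g (r • W.cl X D ^ (X.dim - 0)) =
          r • gPull W a g (W.cl X D ^ (X.dim - 0)) := map_smul (W.map (a g).hom) _ _
        rw [h4, h3, hinv]
      rw [h2]
    · rw [W.tr_eq_zero hx hi, W.tr_eq_zero (gPull_mem g hx) hi]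
  · intro x y hx hy
    have h1 : gPull W a g (x + y) = gPull W a g x + gPull W a g y := map_add (W.map (a g).hom) _ _
    rw [h1, map_add, map_add, hx, hy]

/-- The group ring commutes with the Lefschetz operator. -/
lemma theta_lef (hinv : ∀ g : G, gPull W a g (W.cl X D) = W.cl X D) (x : MonoidAlgebra ℚ G)
    (m : ℕ) (y : W.H X) :
    theta W a x ((LinearMap.mulLeft W.K (W.cl X D) ^ m) y) =
      (LinearMap.mulLeft W.K (W.cl X D) ^ m) (theta W a x y) := by
  induction x using MonoidAlgebra.induction_linear with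
  | zero => rw [map_zero, LinearMap.zero_apply, LinearMap.zero_apply, map_zero]
  | add f g hf hg => rw [map_add, LinearMap.add_apply, hf, hg, LinearMap.add_apply, map_add]
  | single g r =>
    rw [theta_single, LinearMap.smul_apply, LinearMap.smul_apply, map_smul,
      LinearMap.pow_mulLeft, LinearMap.mulLeft_apply, LinearMap.mulLeft_apply]
    congr 1
    change gPull W a g⁻¹ (W.cl X D ^ m * y) = W.cl X D ^ m * gPull W a g⁻¹ y
    have h3 : gPull W a g⁻¹ (W.cl X D ^ m) = gPull W a g⁻¹ (W.cl X D) ^ m :=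
      map_pow (W.map (a g⁻¹).hom) _ _
    rw [gPull_mul, h3, hinv]

variable [Fintype G]

lemma kop_theta (x : MonoidAlgebra ℚ G) : theta W a x ∈ KOp W X X 0 := by
  obtain ⟨z, hz, h⟩ := isAlg_theta (W := W) a x
  rw [← h]
  exact KOp.gen (p := X.dim) (by simp) hz

/-- The norm of fixed classes. -/
lemma theta_nA_fixed {H : Subgroup G} {x : W.H X} (hx : FixedBy W a H x) :
    theta W a (nA H) x = (Nat.card H : W.K) • x := by
  classical
  have h1 : ∑ᶠ h : H, W.map (a h.1).hom x = ∑ᶠ _ : H, x := finsum_congr fun h => hx h.1 h.2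
  rw [theta_nA, h1, finsum_eq_sum_of_fintype, Finset.sum_const, Finset.card_univ, Nat.card_eq_fintype_card,
    ← Nat.cast_smul_eq_nsmul W.K]

lemma fixed_theta_nA (H : Subgroup G) (x : W.H X) : FixedBy W a H (theta W a (nA H) x) := by
  intro h hh
  rw [gPull_eq, ← Module.End.mul_apply, ← map_mul, single_mul_nA (H.inv_mem hh)]

lemma card_ne (H : Subgroup G) : (Nat.card H : W.K) ≠ 0 := by
  have : Nat.card H ≠ 0 := Nat.card_pos.ne'
  exact_mod_cast this

variable (W a D) in
/-- The elements of the group ring whose product with the inverse of the Lefschetz operator is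
algebraic. -/
noncomputable def idB (hinv : ∀ g : G, gPull W a g (W.cl X D) = W.cl X D) (i : ℕ) :
    Ideal (MonoidAlgebra ℚ G) where
  carrier := {x | ∃ φ ∈ KOp W X X ((i : ℤ) - X.dim), ∀ y ∈ W.gr X i,
    φ ((LinearMap.mulLeft W.K (W.cl X D) ^ (X.dim - i)) y) = theta W a x y}
  add_mem' := by
    rintro x y ⟨φ, hφ, h⟩ ⟨ψ, hψ, h'⟩
    refine ⟨φ + ψ, Submodule.add_mem _ hφ hψ, fun z hz => ?_⟩
    rw [LinearMap.add_apply, h z hz, h' z hz, map_add, LinearMap.add_apply]
  zero_mem' := ⟨0, Submodule.zero_mem _, fun z _ => by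
    rw [map_zero, LinearMap.zero_apply, LinearMap.zero_apply]⟩
  smul_mem' := by
    rintro c x ⟨φ, hφ, h⟩
    refine ⟨theta W a c ∘ₗ φ, KOp.cast (KOp.comp (kop_theta c) hφ) (by ring), fun z hz => ?_⟩
    rw [LinearMap.comp_apply, h z hz, smul_eq_mul, map_mul, Module.End.mul_apply]

variable (hinv : ∀ g : G, gPull W a g (W.cl X D) = W.cl X D) {i : ℕ}

lemma mem_idB {x : MonoidAlgebra ℚ G} : x ∈ idB W a D hinv i ↔
    ∃ φ ∈ KOp W X X ((i : ℤ) - X.dim), ∀ y ∈ W.gr X i,
    φ ((LinearMap.mulLeft W.K (W.cl X D) ^ (X.dim - i)) y) = theta W a x y := Iff.rfl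

lemma idB_right (x : MonoidAlgebra ℚ G) (hx : x ∈ idB W a D hinv i) (c : MonoidAlgebra ℚ G) :
    x * c ∈ idB W a D hinv i := by
  obtain ⟨φ, hφ, h⟩ := (mem_idB hinv).1 hx
  refine (mem_idB hinv).2 ⟨φ ∘ₗ theta W a c, KOp.cast (KOp.comp hφ (kop_theta c)) (by ring),
    fun y hy => ?_⟩
  rw [LinearMap.comp_apply, theta_lef hinv, h _ (theta_mem a c hy), map_mul,
    Module.End.mul_apply]

lemma nA_mem_idB {H : Subgroup G} : nA H ∈ idB W a D hinv i ↔ InverseOn W a D i H := by
  rw [mem_idB]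
  constructor
  · rintro ⟨φ, hφ, h⟩
    obtain ⟨γ, hγ, hγ'⟩ := mem_KOp_iff.1 (Submodule.smul_mem _ (Nat.card H : W.K)⁻¹ hφ)
    rw [show (X.dim : ℤ) + ((i : ℤ) - X.dim) = i by ring] at hγ
    refine ⟨γ, hγ, fun x hx hxH => ?_⟩
    rw [lefPow_eq, hγ', LinearMap.smul_apply, h x hx, theta_nA_fixed hxH, smul_smul,
      inv_mul_cancel₀ (card_ne H), one_smul]
  · rintro ⟨γ, hγ, h⟩
    have h1 : W.corr γ ∈ KOp W X X ((i : ℤ) - X.dim) := mem_KOp_iff.2 ⟨γ, by
      rwa [show (X.dim : ℤ) + ((i : ℤ) - X.dim) = i by ring], rfl⟩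
    refine ⟨W.corr γ ∘ₗ theta W a (nA H), KOp.cast (KOp.comp h1 (kop_theta _)) (by ring),
      fun y hy => ?_⟩
    rw [LinearMap.comp_apply, theta_lef hinv, ← lefPow_eq]
    exact h _ (theta_mem a _ hy) (fixed_theta_nA H y)

omit [Fintype G] in
lemma fixed_bot' (x : W.H X) : FixedBy W a ⊥ x := by
  intro h hh
  rw [Subgroup.mem_bot.1 hh, gPull_eq, inv_one, ← MonoidAlgebra.one_def, map_one,
    Module.End.one_apply]

omit [Fintype G] in
/-- The conjecture B in terms of the inverses. -/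
lemma lefschetzB_iff_bot (hD : X.IsCyc 1 D) (hHL : HardLefschetz W X D) :
    LefschetzB W X D ↔ QuotientB W a D ⊥ := by
  have hLh : IsHom (W.gr X) 2 (LinearMap.mulLeft W.K (W.cl X D)) := by
    simpa using rop_opAlg.hom (rop_mulLeft (W := W) hD)
  constructor
  · intro hB i hi
    obtain ⟨Φ, hΦ, hLam⟩ := lefschetzB_iff_rop.1 hB
    have h1 : Φ ^ (X.dim - i) ∈ KOp W X X (-((X.dim - i : ℕ) : ℤ)) := by
      have h2 := mem_KS_iff.1 (Submodule.subset_span hΦ)
      rw [← mem_KS_iff] at h2 ⊢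
      exact rop_opAlg.kspan.cast (rop_opAlg.kspan.pow h2 (X.dim - i)) (by ring)
    obtain ⟨γ, hγ, hγ'⟩ := mem_KOp_iff.1 h1
    rw [show (X.dim : ℤ) + -((X.dim - i : ℕ) : ℤ) = i by omega] at hγ
    refine ⟨γ, hγ, fun x hx _ => ?_⟩
    rw [hγ', lefPow_eq]
    exact lam_pow_L_pow hLh W_hbd hHL hLam (by omega)
      (by rwa [show X.dim - (X.dim - i) = i by omega])
  · intro h
    apply lefschetzB_of_inj hD hHL
    intro c hc
    by_cases h0 : c = 0
    · subst h0
      exact ⟨LinearMap.id, KOp.cast (KOp.id X) (by simp), fun x _ hx => hx⟩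
    obtain ⟨γ, hγ, h1⟩ := h (X.dim - c) (by omega)
    refine ⟨W.corr γ, mem_KOp_iff.2 ⟨γ, ?_, rfl⟩, ?_⟩
    · rwa [show (X.dim : ℤ) + -(c : ℤ) = ((X.dim - c : ℕ) : ℤ) by omega]
    · intro y hy hy0
      obtain ⟨b, hb, hb'⟩ := (hHL (X.dim - c) (by omega)).2 y
        (by rwa [show 2 * X.dim - (X.dim - c) = X.dim + c by omega])
      have h2 := h1 b hb (fixed_bot' b)
      rw [lefPow_eq, hb', hy0] at h2
      rw [← hb', ← h2, map_zero]

end Pool.Agent.U227.Grp
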