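import Pool.Agent.U227.GrpB

/-!
# Group actions and the Lefschetz standard conjecture: the transcendental part
-/

set_option autoImplicit false

open CategoryTheory AlgebraicGeometry Finset

universe u v

namespace Pool.Agent.U227.Grp

open Pool.Agent.H914 VarClass Obj WeilCohomology Pool.Agent.X252.GA Pool.Agent.X252.SCT
  Pool.Agent.X252.SCK Pool.Agent.X310.Mu

variable {k : Type u} [Field k] {𝒱 : VarClass k} {ops : CycleOps 𝒱}
  {W : WeilCohomology.{u, v} ops} {X : 𝒱.Obj} {G : Type} [Group G] {a : G →* Aut X}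
  {D : X.Cycles}

/-- The operators of rank one given by two algebraic classes. -/
lemma kop_pair {i : ℕ} {u s : W.H X} (hu : u ∈ algSpan W X i) (hs : s ∈ algSpan W X i) :
    LinearMap.smulRight (W.tr X ∘ₗ LinearMap.mulLeft W.K u) s ∈
      KOp W X X ((i : ℤ) - X.dim) := by
  induction hu using Submodule.span_induction with
  | mem u hu =>
    obtain ⟨p, hp, z, hz, rfl⟩ := hu
    induction hs using Submodule.span_induction with
    | mem s hs =>
      obtain ⟨q, hq, w, hw, rfl⟩ := hs
      have h1 : LinearMap.smulRight (W.tr X ∘ₗ LinearMap.mulLeft W.K (W.cl X z)) (W.cl X w) =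
          W.corr (W.cl _ (ops.mul (ops.pull (fst X X) z) (ops.pull (snd X X) w))) := by
        ext x
        rw [corr_apply, W.cl_mul, W.cl_pull, W.cl_pull, mul_assoc,
          W.even_comm (W.map_mem (snd X X) (W.cl_mem hw)), ← mul_assoc, ← map_mul, push_snd]
        rfl
      rw [h1]
      exact KOp.gen (p := p + q) (by omega)
        (ops.mul_mem (ops.pull_mem _ hz) (ops.pull_mem _ hw))
    | zero =>
      have h1 : LinearMap.smulRight (W.tr X ∘ₗ LinearMap.mulLeft W.K (W.cl X z)) (0 : W.H X) =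
          0 := by
        ext x
        rw [LinearMap.smulRight_apply, smul_zero, LinearMap.zero_apply]
      rw [h1]
      exact Submodule.zero_mem _
    | add s t _ _ hs ht =>
      have h1 : LinearMap.smulRight (W.tr X ∘ₗ LinearMap.mulLeft W.K (W.cl X z)) (s + t) =
          LinearMap.smulRight (W.tr X ∘ₗ LinearMap.mulLeft W.K (W.cl X z)) s +
          LinearMap.smulRight (W.tr X ∘ₗ LinearMap.mulLeft W.K (W.cl X z)) t := by
        ext x
        rw [LinearMap.smulRight_apply, smul_add]
        rfl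
      rw [h1]
      exact Submodule.add_mem _ hs ht
    | smul r s _ hs =>
      have h1 : LinearMap.smulRight (W.tr X ∘ₗ LinearMap.mulLeft W.K (W.cl X z)) (r • s) =
          r • LinearMap.smulRight (W.tr X ∘ₗ LinearMap.mulLeft W.K (W.cl X z)) s := by
        ext x
        rw [LinearMap.smulRight_apply, smul_comm]
        rfl
      rw [h1]
      exact Submodule.smul_mem _ _ hs
  | zero =>
    have h1 : LinearMap.smulRight (W.tr X ∘ₗ LinearMap.mulLeft W.K (0 : W.H X)) s = 0 := by
      ext x
      simp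
    rw [h1]
    exact Submodule.zero_mem _
  | add u u' _ _ hu hu' =>
    have h1 : LinearMap.smulRight (W.tr X ∘ₗ LinearMap.mulLeft W.K (u + u')) s =
        LinearMap.smulRight (W.tr X ∘ₗ LinearMap.mulLeft W.K u) s +
        LinearMap.smulRight (W.tr X ∘ₗ LinearMap.mulLeft W.K u') s := by
      ext x
      simp [add_mul, add_smul]
    rw [h1]
    exact Submodule.add_mem _ hu hu'
  | smul r u _ hu =>
    have h1 : LinearMap.smulRight (W.tr X ∘ₗ LinearMap.mulLeft W.K (r • u)) s =
        r • LinearMap.smulRight (W.tr X ∘ₗ LinearMap.mulLeft W.K u) s := by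
      ext x
      simp [smul_smul]
    rw [h1]
    exact Submodule.smul_mem _ _ hu

/-- Dual bases. -/
lemma exists_dual (hHL : HardLefschetz W X D) {i : ℕ} (hi : i ≤ X.dim) :
    ∃ (m : ℕ) (y u : Fin m → W.H X), (∀ j, y j ∈ W.gr X i) ∧ (∀ j, u j ∈ W.gr X i) ∧
      ∀ x ∈ W.gr X i, x =
        ∑ j, W.tr X (u j * (LinearMap.mulLeft W.K (W.cl X D) ^ (X.dim - i)) x) • y j := by
  set M := LinearMap.mulLeft W.K (W.cl X D) ^ (X.dim - i) with hM
  let B : W.gr X i →ₗ[W.K] (W.gr X i →ₗ[W.K] W.K) :=
    ((LinearMap.mul W.K (W.H X)).compr₂ (W.tr X)).compl₁₂ (W.gr X i).subtype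
      (M ∘ₗ (W.gr X i).subtype)
  have hB : ∀ u y : W.gr X i, B u y = W.tr X (u.1 * M y.1) := fun _ _ => rfl
  have hinj : Function.Injective B := by
    rw [← LinearMap.ker_eq_bot, LinearMap.ker_eq_bot']
    intro u hu
    apply Subtype.ext
    apply W.nondeg
    intro b
    refine gr_induction (W.isInternal X) (p := fun b => W.tr X (u.1 * b) = 0) ?_ ?_ b
    · intro j b hb
      by_cases hj : i + j = 2 * X.dim
      · obtain rfl : j = 2 * X.dim - i := by omega
        obtain ⟨c, hc, rfl⟩ := (hHL i hi).2 b hb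
        have h1 := LinearMap.congr_fun hu ⟨c, hc⟩
        rw [hB] at h1
        exact h1
      · exact W.tr_eq_zero (W.mul_mem u.2 hb) hj
    · intro b b' h h'
      rw [mul_add, map_add, h, h', add_zero]
  have hsurj : Function.Surjective B :=
    (LinearMap.injective_iff_surjective_of_finrank_eq_finrank
      (Subspace.dual_finrank_eq (K := W.K) (V := W.gr X i)).symm).1 hinj
  let b := Module.finBasis W.K (W.gr X i)
  choose u hu using fun j => hsurj (b.coord j)
  refine ⟨Module.finrank W.K (W.gr X i), fun j => (b j).1, fun j => (u j).1, fun j => (b j).2,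
    fun j => (u j).2, fun x hx => ?_⟩
  have h1 : ∀ j, W.tr X ((u j).1 * M x) = b.repr ⟨x, hx⟩ j := by
    intro j
    rw [← hB (u j) ⟨x, hx⟩, hu j, Module.Basis.coord_apply]
  have h2 := b.sum_repr ⟨x, hx⟩
  have h3 := congrArg Subtype.val h2
  rw [Submodule.coe_sum] at h3
  refine h3.symm.trans (Finset.sum_congr rfl fun j _ => ?_)
  rw [h1 j]
  rfl

lemma algSpan_stable {i : ℕ} (g : G) {s : W.H X} (hs : s ∈ algSpan W X i) :
    gPull W a g s ∈ algSpan W X i := by
  induction hs using Submodule.span_induction with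
  | mem s hs =>
    obtain ⟨p, hp, z, hz, rfl⟩ := hs
    exact Submodule.subset_span ⟨p, hp, ops.pull _ z, ops.pull_mem _ hz, W.cl_pull _ z⟩
  | zero =>
    have : gPull W a g (0 : W.H X) = 0 := map_zero (W.map (a g).hom)
    rw [this]
    exact Submodule.zero_mem _
  | add s t _ _ hs ht =>
    have : gPull W a g (s + t) = gPull W a g s + gPull W a g t := map_add (W.map (a g).hom) _ _
    rw [this]
    exact Submodule.add_mem _ hs ht
  | smul r s _ hs =>
    have : gPull W a g (r • s) = r • gPull W a g s := map_smul (W.map (a g).hom) _ _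
    rw [this]
    exact Submodule.smul_mem _ _ hs

variable [Fintype G]

variable (W a) in
/-- The elements of the group ring which map the cohomology of degree `i` to the span of algebraic
classes. -/
noncomputable def idJ (i : ℕ) : Ideal (MonoidAlgebra ℚ G) where
  carrier := {x | ∀ y ∈ W.gr X i, theta W a x y ∈ algSpan W X i}
  add_mem' := by
    intro x y hx hy z hz
    rw [map_add, LinearMap.add_apply]
    exact Submodule.add_mem _ (hx z hz) (hy z hz)
  zero_mem' := by
    intro z _
    rw [map_zero, LinearMap.zero_apply]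
    exact Submodule.zero_mem _
  smul_mem' := by
    intro c x hx z hz
    rw [smul_eq_mul, map_mul, Module.End.mul_apply]
    exact theta_stableK a (fun g s hs => algSpan_stable g hs) c (hx z hz)

lemma mem_idJ {i : ℕ} {x : MonoidAlgebra ℚ G} :
    x ∈ idJ W a i ↔ ∀ y ∈ W.gr X i, theta W a x y ∈ algSpan W X i := Iff.rfl

lemma idJ_right {i : ℕ} (x : MonoidAlgebra ℚ G) (hx : x ∈ idJ W a i) (c : MonoidAlgebra ℚ G) :
    x * c ∈ idJ W a i := by
  intro y hy
  rw [map_mul, Module.End.mul_apply]
  exact hx _ (theta_mem a c hy)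

/-- **Elements with algebraic image.** -/
theorem idJ_le (hHL : HardLefschetz W X D) (hinv : ∀ g : G, gPull W a g (W.cl X D) = W.cl X D)
    {i : ℕ} (hi : i ≤ X.dim) {x : MonoidAlgebra ℚ G} (hx : x ∈ idJ W a i) :
    x ∈ idB W a D hinv i := by
  obtain ⟨e, he, f, hef, hf⟩ := exists_one (idJ W a i)
  have hse := sig_mem (idJ W a i) idJ_right he
  obtain ⟨m, y, u, hy, hu, hdual⟩ := exists_dual (W := W) hHL hi
  have hxe : x = x * e := by
    conv_lhs => rw [← mul_one x, ← hef, mul_add, hf x hx, add_zero]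
  refine (mem_idB hinv).2 ⟨∑ j, LinearMap.smulRight
    (W.tr X ∘ₗ LinearMap.mulLeft W.K (theta W a (sig e) (u j))) (theta W a x (y j)),
    Submodule.sum_mem _ fun j _ => kop_pair (hse _ (hu j)) (hx _ (hy j)), fun z hz => ?_⟩
  rw [LinearMap.sum_apply]
  have h1 : ∀ j, LinearMap.smulRight
      (W.tr X ∘ₗ LinearMap.mulLeft W.K (theta W a (sig e) (u j))) (theta W a x (y j))
      ((LinearMap.mulLeft W.K (W.cl X D) ^ (X.dim - i)) z) =
      theta W a x (W.tr X (u j * (LinearMap.mulLeft W.K (W.cl X D) ^ (X.dim - i))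
        (theta W a e z)) • y j) := by
    intro j
    rw [LinearMap.smulRight_apply, map_smul, ← theta_lef hinv]
    congr 1
    change W.tr X (theta W a (sig e) (u j) * _) = _
    rw [tr_theta (trInv_of_hard hHL hinv), sig_sig]
  rw [Finset.sum_congr rfl fun j _ => h1 j, ← map_sum,
    ← hdual _ (theta_mem a e hz), ← Module.End.mul_apply, ← map_mul, ← hxe]

/-- **Domination for the inverses of the Lefschetz operator.** -/
theorem inverseOn_of_dom (hHL : HardLefschetz W X D)
    (hinv : ∀ g : G, gPull W a g (W.cl X D) = W.cl X D) {i : ℕ} (hi : i ≤ X.dim)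
    (H : Subgroup G) (ι : Type) (C : ι → Subgroup G)
    (hC : DomIn (fun V _ _ ρ => OccursTr W a i ρ) H C) (h : ∀ j, InverseOn W a D i (C j)) :
    InverseOn W a D i H := by
  rw [← nA_mem_idB hinv]
  refine dom_of_ideal (idB W a D hinv i) (idB_right hinv) ?_ H ι C hC
    fun j => (nA_mem_idB hinv).2 (h j)
  intro S hS
  refine occursMod_of_ann a _ (idB_right hinv) _ _ (fun x m hm => theta_mem a x hm)
    (fun x m hm => theta_stableK a (fun g s hs => algSpan_stable g hs) x hm) ?_ S hS
  intro x hx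
  exact idJ_le hHL hinv hi hx

/-- The conjecture B for a variety with a group action. -/
theorem main_B (hD : X.IsCyc 1 D) (hHL : HardLefschetz W X D)
    (hinv : ∀ g : G, gPull W a g (W.cl X D) = W.cl X D) :
    (LefschetzB W X D ↔ CoveredTr W a D) ∧
    (∀ (H : Subgroup G) (ι : Type) (C : ι → Subgroup G), DominatesTr W a H C →
      (∀ j, QuotientB W a D (C j)) → QuotientB W a D H) ∧
    QuotientLaws (LefschetzB W X D) (QuotientB W a D) ∧
    (¬ LefschetzB W X D → AtPrimes (QuotientB W a D) → FreeOccursTr W a ∧ CyclicSubgroups G) := by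
  rw [lefschetzB_iff_bot (a := a) hD hHL]
  have hdom : ∀ (H : Subgroup G) (ι : Type) (C : ι → Subgroup G), DominatesTr W a H C →
      (∀ j, QuotientB W a D (C j)) → QuotientB W a D H :=
    fun H ι C hC h i hi => inverseOn_of_dom hHL hinv hi.le H ι C (hC i hi) fun j => h j i hi
  obtain ⟨-, p2, p3, p4, p6, p5⟩ := parts (G := G)
    (Q := fun V _ _ ρ => ∃ i < X.dim, OccursTr W a i ρ) (QuotientB W a D) (by
      intro H ι C hC h
      exact hdom H ι C (fun i hi V _ _ ρ hρ hQ hv => hC V ρ hρ ⟨i, hi, hQ⟩ hv) h)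
  refine ⟨?_, hdom, ⟨p2, p3, p4, p6⟩, ?_⟩
  · have h1 : ∀ i < X.dim, (InverseOn W a D i ⊥ ↔ ∀ (V : Type) [AddCommGroup V] [Module ℚ V]
        (ρ : G →* Module.End ℚ V), Irred ρ → OccursTr W a i ρ → (∃ v : V, v ≠ 0) →
        ∃ C : Subgroup G, HasFixed ρ C ∧ InverseOn W a D i C) := fun i hi => (parts (G := G)
      (Q := fun V _ _ ρ => OccursTr W a i ρ) (InverseOn W a D i)
      (fun H ι C hC h => inverseOn_of_dom hHL hinv hi.le H ι C hC h)).1
    constructor
    · intro h i hi V _ _ ρ hρ hQ
      refine (h1 i hi).1 (h i hi) V ρ hρ hQ ?_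
      obtain ⟨f, -, hadd, -, v, hv⟩ := hQ
      refine ⟨v, fun h0 => hv ?_⟩
      have h2 := hadd 0 0
      rw [add_zero, sub_add_cancel_left, Submodule.neg_mem_iff] at h2
      rwa [h0]
    · intro h i hi
      exact (h1 i hi).2 fun V _ _ ρ hρ hQ _ => h i hi V ρ hρ hQ
  · intro h0 hP
    obtain ⟨⟨V, _, _, ρ, hfree, i, hi, hocc⟩, hcyc⟩ := p5 h0 hP
    exact ⟨⟨i, hi, V, _, _, ρ, hfree, hocc⟩, hcyc⟩

end Pool.Agent.U227.Grp
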