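import Pool.Agent.X252.SCT
import Pool.Agent.H914R2.KDefs2

/-!
# Group actions and standard conjectures: definitions
-/

set_option autoImplicit false

open CategoryTheory AlgebraicGeometry

universe u v

namespace Pool.Agent.U227.Grp

open Pool.Agent.H914 VarClass Obj WeilCohomology Pool.Agent.X252.GA Pool.Agent.X252.SCT
  Pool.Agent.X310.Mu

variable {k : Type u} [Field k] {𝒱 : VarClass k} {ops : CycleOps 𝒱}

/-- Some nonzero vector is fixed by the subgroup. -/
def HasFixed {G V : Type} [Group G] [AddCommGroup V] [Module ℚ V] (ρ : G →* Module.End ℚ V)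
    (H : Subgroup G) : Prop :=
  ∃ v : V, v ≠ 0 ∧ ∀ h ∈ H, ρ h v = v

/-- A nonzero irreducible representation in which the elements different from one fix only `0`. -/
def IsFree {G V : Type} [Group G] [AddCommGroup V] [Module ℚ V] (ρ : G →* Module.End ℚ V) : Prop :=
  Irred ρ ∧ (∃ v : V, v ≠ 0) ∧ ∀ g : G, g ≠ 1 → ∀ v : V, ρ g v = v → v = 0

/-- The group `G/K` is cyclic: every element of `G` is modulo `K` a power of one element. -/
def Cocyclic {G : Type} [Group G] (K : Subgroup G) : Prop :=
  ∃ g : G, ∀ x : G, ∃ m : ℤ, x * g ^ m ∈ K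

/-- Let `P₀` be a property of `X` and `P C` the property of the quotients `X/C`. Then `P₀` is
equivalent to the property of
* `X/c` and `X/[G,c]`, for every element `c` with `c ^ 2 = 1`;
* `X/c`, if moreover `c ≠ 1` is contained in a nonabelian simple subgroup;
* all `X/C_j`, for every partition `(C_j)` of a subgroup;
* all `X/K`, where `G/K` is cyclic, if `G` is commutative. -/
def QuotientLaws {G : Type} [Group G] (P₀ : Prop) (P : Subgroup G → Prop) : Prop :=
  (∀ c : G, c * c = 1 → (P₀ ↔ P (Subgroup.zpowers c) ∧ P (comms c))) ∧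
  (∀ c : G, InSimple c → c ≠ 1 → c * c = 1 → (P₀ ↔ P (Subgroup.zpowers c))) ∧
  (∀ (ι : Type) (C : ι → Subgroup G) (K : Subgroup G), Partitions K C → (P₀ ↔ ∀ j, P (C j))) ∧
  ((∀ x y : G, x * y = y * x) → (P₀ ↔ ∀ K : Subgroup G, Cocyclic K → P K))

/-- The property `P C` is true for all subgroups `C` of prime order. -/
def AtPrimes {G : Type} [Group G] (P : Subgroup G → Prop) : Prop :=
  ∀ C : Subgroup G, (Nat.card C).Prime → P C

/-- The cohomology class is fixed by the subgroup. -/
def FixedBy (W : WeilCohomology.{u, v} ops) {X : 𝒱.Obj} {G : Type} [Group G]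
    (a : G →* Aut X) (H : Subgroup G) (x : W.H X) : Prop :=
  ∀ h ∈ H, gPull W a h x = x

/-- The `K`-span of the classes of algebraic cycles in `H^i(X)`. -/
def algSpan (W : WeilCohomology.{u, v} ops) (X : 𝒱.Obj) (i : ℕ) : Submodule W.K (W.H X) :=
  Submodule.span W.K {c | ∃ p, 2 * p = i ∧ ∃ z, X.IsCyc p z ∧ W.cl X z = c}

/-- The representation `ρ` of `G` occurs in `U` modulo `S`: some map with values in `U` is modulo
`S` additive, equivariant, and not zero; `g` acts on the cohomology as the pull-back by `g⁻¹`. -/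
def OccursMod (W : WeilCohomology.{u, v} ops) {X : 𝒱.Obj} {G : Type} [Group G]
    (a : G →* Aut X) (U : Set (W.H X)) (S : Submodule W.K (W.H X)) {V : Type} [AddCommGroup V]
    [Module ℚ V] (ρ : G →* Module.End ℚ V) : Prop :=
  ∃ f : V → W.H X, (∀ v, f v ∈ U) ∧ (∀ v w, f (v + w) - (f v + f w) ∈ S) ∧
    (∀ g v, f (ρ g v) - gPull W a g⁻¹ (f v) ∈ S) ∧ ∃ v, f v ∉ S

end Pool.Agent.U227.Grp
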