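import Pool.Agent.U227.Sig

/-!
# Simple modules which occur in the cohomology modulo a stable subspace
-/

set_option autoImplicit false

open CategoryTheory AlgebraicGeometry Finset

universe u v

namespace Pool.Agent.U227.Grp

open Pool.Agent.H914 VarClass Obj WeilCohomology Pool.Agent.X252.GA Pool.Agent.X252.SCT
  Pool.Agent.X252.SCK

variable {k : Type u} [Field k] {𝒱 : VarClass k} {ops : CycleOps 𝒱}
  {W : WeilCohomology.{u, v} ops} {X : 𝒱.Obj} {G : Type} [Group G] (a : G →* Aut X)

lemma theta_single_one (g : G) (x : W.H X) :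
    theta W a (MonoidAlgebra.single g 1) x = gPull W a g⁻¹ x := by
  rw [theta_single, Rat.cast_one, one_smul]
  rfl

/-- Sets of classes which are stable under sums, rational multiples and the group. -/
lemma theta_stable {U : Set (W.H X)} (h0 : 0 ∈ U) (hadd : ∀ x ∈ U, ∀ y ∈ U, x + y ∈ U)
    (hsm : ∀ r : ℚ, ∀ x ∈ U, (r : W.K) • x ∈ U) (hg : ∀ g : G, ∀ s ∈ U, gPull W a g s ∈ U)
    (x : MonoidAlgebra ℚ G) {s : W.H X} (hs : s ∈ U) : theta W a x s ∈ U := by
  induction x using MonoidAlgebra.induction_linear with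
  | zero => rw [map_zero]; exact h0
  | add f g hf hg => rw [map_add]; exact hadd _ hf _ hg
  | single g r =>
    rw [theta_single, LinearMap.smul_apply]
    exact hsm r _ (hg g⁻¹ s hs)

lemma theta_stableK {S : Submodule W.K (W.H X)} (hS : ∀ g : G, ∀ s ∈ S, gPull W a g s ∈ S)
    (x : MonoidAlgebra ℚ G) {s : W.H X} (hs : s ∈ S) : theta W a x s ∈ S := by
  induction x using MonoidAlgebra.induction_linear with
  | zero => rw [map_zero]; exact S.zero_mem
  | add f g hf hg => rw [map_add]; exact S.add_mem hf hg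
  | single g r =>
    rw [theta_single, LinearMap.smul_apply]
    exact S.smul_mem _ (hS g⁻¹ s hs)

variable [Fintype G]

/-- **Occurrence of simple modules.** -/
theorem occursMod_of_ann (I : Ideal (MonoidAlgebra ℚ G)) (hI : ∀ x ∈ I, ∀ y, x * y ∈ I)
    (U : Set (W.H X)) (S : Submodule W.K (W.H X)) (hU : ∀ x, ∀ m ∈ U, theta W a x m ∈ U)
    (hS : ∀ x, ∀ m ∈ S, theta W a x m ∈ S)
    (hann : ∀ x, (∀ m ∈ U, theta W a x m ∈ S) → x ∈ I)
    (S' : Submodule (MonoidAlgebra ℚ G) (MonoidAlgebra ℚ G ⧸ I))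
    (hS' : IsSimpleModule (MonoidAlgebra ℚ G) S') :
    OccursMod W a U S (repOf (G := G) S') := by
  classical
  let _ : Module (MonoidAlgebra ℚ G) (W.H X) := Module.compHom (W.H X) (theta W a)
  have hsm : ∀ (x : MonoidAlgebra ℚ G) (n : W.H X), x • n = theta W a x n := fun _ _ => rfl
  let S₀ : Submodule (MonoidAlgebra ℚ G) (W.H X) :=
    { carrier := S
      add_mem' := fun ha hb => S.add_mem ha hb
      zero_mem' := S.zero_mem
      smul_mem' := fun x m hm => hS x m hm }
  have hmem : ∀ m, m ∈ S₀ ↔ m ∈ S := fun _ => Iff.rfl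
  obtain ⟨n, ⟨m, hm, rfl⟩, f, hf, s, hs⟩ := exists_hom I hI S' (N := W.H X ⧸ S₀)
    (U := {n | ∃ m ∈ U, Submodule.Quotient.mk m = n}) (fun x hx => hann x fun m hm => by
      have h1 := hx _ ⟨m, hm, rfl⟩
      rw [← Submodule.Quotient.mk_smul, Submodule.Quotient.mk_eq_zero] at h1
      exact h1)
  choose c hc using hf
  have hmk : ∀ s, (Submodule.Quotient.mk (theta W a (c s) m) : W.H X ⧸ S₀) = f s := by
    intro s
    rw [hc s, ← Submodule.Quotient.mk_smul]
    rfl
  refine ⟨fun s => theta W a (c s) m, fun s => hU _ m hm, ?_, ?_, s, ?_⟩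
  · intro v w
    rw [← hmem, ← Submodule.Quotient.mk_eq_zero, Submodule.Quotient.mk_sub,
      Submodule.Quotient.mk_add, hmk, hmk, hmk, map_add, sub_self]
  · intro g v
    rw [← hmem, ← Submodule.Quotient.mk_eq_zero, Submodule.Quotient.mk_sub, hmk, repOf_apply,
      map_smul, ← hmk, ← Submodule.Quotient.mk_smul, hsm, theta_single_one, sub_self]
  · intro h
    apply hs
    rw [← hmk, Submodule.Quotient.mk_eq_zero]
    exact h

end Pool.Agent.U227.Grp
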