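import Pool.Agent.U227.FrDefs
import Pool.Agent.U227.GrpDefs

/-!
# Algebraic classes on the powers of a variety: definitions
-/

set_option autoImplicit false

open CategoryTheory AlgebraicGeometry

universe u v

namespace Pool.Agent.U227.Hl

section Alg

variable {K : Type*} [Field K] {A : Type*} [Ring A] [Algebra K A] {B : Type*} [Ring B]
  [Algebra K B] {C : Type*} [Ring C] [Algebra K C]

/-- The generalized eigenspace of `F` for the eigenvalue `c` on the subspace `U`. -/
def genPart (F : Module.End K A) (U : Submodule K A) (c : K) : Submodule K A :=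
  U ⊓ F.maxGenEigenspace c

/-- The span of the products `p(a) q(b)`, `a` in `U` and `b` in `V`. -/
def prodSpan (p : A →ₐ[K] C) (q : B →ₐ[K] C) (U : Submodule K A) (V : Submodule K B) :
    Submodule K C :=
  Submodule.span K {y | ∃ a ∈ U, ∃ b ∈ V, p a * q b = y}

/-- An element `a` of `S` is zero if `tr(a b c) = 0` for all `b` in `S`. -/
def NondegOn (tr : A →ₗ[K] K) (S : Set A) (c : A) : Prop :=
  ∀ a ∈ S, (∀ b ∈ S, tr (a * (b * c)) = 0) → a = 0

/-- The dimension of a subspace. -/
noncomputable def dimOf (U : Submodule K A) : ℕ := Module.finrank K U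

end Alg

open Pool.Agent.H914 VarClass Obj WeilCohomology Pool.Agent.U227.Fr Pool.Agent.U227.Grp

variable {k : Type u} [Field k] {𝒱 : VarClass k}

/-- The powers of a variety: `power Y k` is `Y ^ (k + 1)`. -/
noncomputable def power (Y : 𝒱.Obj) : ℕ → 𝒱.Obj
  | 0 => Y
  | k + 1 => (power Y k).prod Y

variable {ops : CycleOps 𝒱} (W : WeilCohomology.{u, v} ops) (Y : 𝒱.Obj) (f : Y ⟶ Y) (q : ℕ)

/-- The generalized eigenspace of `f^*` for the eigenvalue `q ^ j` on `H^(2j)(Y)`. -/
noncomputable def tateSpace (j : ℕ) : Submodule W.K (W.H Y) :=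
  genPart (W.map f).toLinearMap (W.gr Y (2 * j)) ((q : W.K) ^ j)

/-- The subspace `V ^ (⊗ (k + 1))` of `H^(2j(k + 1))(Y ^ (k + 1))`, where `V` is the generalized eigenspace of `f^*`
for the eigenvalue `q ^ j` on `H^(2j)(Y)`: the span of the products of the pull-backs of `k + 1` elements of
`V` by the `k + 1` projections. -/
noncomputable def tensorSpace (j : ℕ) : (k : ℕ) → Submodule W.K (W.H (power Y k))
  | 0 => tateSpace W Y f q j
  | k + 1 => prodSpan (W.map (fst (power Y k) Y)) (W.map (snd (power Y k) Y)) (tensorSpace j k)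
      (tateSpace W Y f q j)

/-- The classes in `V ^ (⊗ (k + 1))` which are `K`-linear combinations of classes of cycles. -/
noncomputable def algTensors (j k : ℕ) : Submodule W.K (W.H (power Y k)) :=
  algSpan W (power Y k) (2 * (j * (k + 1))) ⊓ tensorSpace W Y f q j k

/-- The dimension of `V` for `j = 1`. -/
noncomputable def tateDim : ℕ := dimOf (tateSpace W Y f q 1)

/-- The dimension of the span of the divisor classes. -/
noncomputable def divDim : ℕ := dimOf (algSpan W Y 2)

/-- The dimension of the space of algebraic classes in `V ^ (⊗ (k + 1))` for `j = 1`. -/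
noncomputable def tensorDim (k : ℕ) : ℕ := dimOf (algTensors W Y f q 1 k)

/-- A divisor `z` on `Y` is homologically trivial if `deg(z · w · D ^ (n - 2)) = 0` for all divisors `w` on
`Y`, `n = dim Y` (known: Matsusaka, Hodge index theorem). -/
def DivisorForm (D : Y.Cycles) : Prop :=
  NondegOn (W.tr Y) (algClasses W Y 1) (W.cl Y D ^ (Y.dim - 2))

end Pool.Agent.U227.Hl
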