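import Pool.Agent.U227.JbLin

/-!
# An inequality for dimensions of spaces of algebraic tensors
-/

set_option autoImplicit false
set_option linter.unusedSectionVars false

open Module Finset

namespace Pool.Agent.U227.Hl

open Pool.Agent.U227.Jb

variable {K : Type*} [Field K] {H₁ H₂ H₃ : Type*} [AddCommGroup H₁] [Module K H₁]
  [FiniteDimensional K H₁] [AddCommGroup H₂] [Module K H₂] [FiniteDimensional K H₂]
  [AddCommGroup H₃] [Module K H₃] [FiniteDimensional K H₃]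

/-- **Algebraic tensors and contractions.** -/
theorem contraction_ineq {A₁ V₁ : Submodule K H₁} {A₂ V₂ : Submodule K H₂} {A₃ V₃ : Submodule K H₃}
    (h1 : A₁ ≤ V₁) (h2 : A₂ ≤ V₂) (h3 : A₃ ≤ V₃)
    (c : H₃ →ₗ[K] H₁ →ₗ[K] H₂) (c' : H₃ →ₗ[K] H₂ →ₗ[K] H₁)
    (hc : ∀ x ∈ A₃, ∀ u ∈ A₁, c x u ∈ A₂) (hc' : ∀ x ∈ A₃, ∀ v ∈ A₂, c' x v ∈ A₁)
    (hcV : ∀ x ∈ V₃, ∀ u ∈ V₁, c x u ∈ V₂)
    (Q₁ : H₁ →ₗ[K] H₁ →ₗ[K] K) (Q₂ : H₂ →ₗ[K] H₂ →ₗ[K] K)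
    (hadj : ∀ x ∈ V₃, ∀ u ∈ V₁, ∀ v ∈ V₂, Q₂ (c x u) v = Q₁ (c' x v) u)
    (hnd : ∀ v ∈ A₂, (∀ w ∈ A₂, Q₂ v w = 0) → v = 0)
    (hinj : ∀ x ∈ V₃, (∀ u ∈ V₁, c x u = 0) → x = 0) :
    finrank K A₃ ≤ finrank K A₂ * finrank K A₁ +
      (finrank K V₁ - finrank K A₁) * (finrank K V₂ - finrank K A₂) := by
  obtain ⟨C₁, π₁, hC₁, -, hπ₁, hf₁⟩ := exists_compr h1
  obtain ⟨C₂, π₂, hC₂, hπ₂0, hπ₂, hf₂⟩ := exists_compr h2
  let bN := Module.finBasis K A₂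
  let bC := Module.finBasis K C₁
  let g₁ : (j : Fin (finrank K A₂)) → (A₃ →ₗ[K] A₁) := fun j =>
    LinearMap.codRestrict A₁ ((c'.flip (bN j : H₂)) ∘ₗ A₃.subtype) (by
      intro x
      exact hc' x x.2 _ (bN j).2)
  let g₂ : (l : Fin (finrank K C₁)) → (A₃ →ₗ[K] C₂) := fun l =>
    π₂ ∘ₗ (c.flip (bC l : H₁)) ∘ₗ A₃.subtype
  let Φ : A₃ →ₗ[K] (Fin (finrank K A₂) → A₁) × (Fin (finrank K C₁) → C₂) :=
    (LinearMap.pi g₁).prod (LinearMap.pi g₂)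
  have hΦ : Function.Injective Φ := by
    rw [← LinearMap.ker_eq_bot, eq_bot_iff]
    intro x hx
    rw [LinearMap.mem_ker] at hx
    have hx1 : ∀ j, c' (x : H₃) (bN j : H₂) = 0 := by
      intro j
      have h4 := congrFun (congrArg Prod.fst hx) j
      have h5 := congrArg Subtype.val h4
      exact h5
    have hx2 : ∀ l, π₂ (c (x : H₃) (bC l : H₁)) = 0 := by
      intro l
      exact congrFun (congrArg Prod.snd hx) l
    have hN : ∀ v ∈ A₂, c' (x : H₃) v = 0 := by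
      intro v hv
      have h4 : (c' (x : H₃)) ∘ₗ A₂.subtype = 0 := bN.ext fun j => hx1 j
      exact LinearMap.congr_fun h4 ⟨v, hv⟩
    have hCz : ∀ u ∈ C₁, π₂ (c (x : H₃) u) = 0 := by
      intro u hu
      have h4 : π₂ ∘ₗ (c (x : H₃)) ∘ₗ C₁.subtype = 0 := bC.ext fun j => hx2 j
      exact LinearMap.congr_fun h4 ⟨u, hu⟩
    have hmem : ∀ u ∈ V₁, c (x : H₃) u ∈ A₂ := by
      intro u hu
      have h4 : u = (u - (π₁ u : H₁)) + (π₁ u : H₁) := by abel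
      rw [h4, map_add]
      apply Submodule.add_mem
      · exact hc _ x.2 _ (hπ₁ u hu)
      · have h5 := hπ₂ _ (hcV _ (h3 x.2) _ (hC₁ (π₁ u).2))
        rw [hCz _ (π₁ u).2] at h5
        simpa using h5
    rw [Submodule.mem_bot]
    apply Subtype.ext
    apply hinj _ (h3 x.2)
    intro u hu
    apply hnd _ (hmem u hu)
    intro w hw
    rw [hadj _ (h3 x.2) u hu w (h2 hw), hN w hw, map_zero, LinearMap.zero_apply]
  have h4 := LinearMap.finrank_le_finrank_of_injective hΦ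
  rw [Module.finrank_prod, Module.finrank_pi_fintype, Module.finrank_pi_fintype,
    Finset.sum_const, Finset.sum_const, Finset.card_univ, Finset.card_univ, Fintype.card_fin,
    Fintype.card_fin, smul_eq_mul, smul_eq_mul, hf₁, hf₂] at h4
  exact h4

section Num

/-- Consequences of the recursive inequality. -/
lemma excess_le {m ρ : ℕ} (hρ : ρ ≤ m) {b : ℕ → ℕ}
    (hle : ∀ k, b k ≤ m ^ (k + 1))
    (hrec : ∀ k, b (k + 1) ≤ ρ * b k + (m ^ (k + 1) - b k) * (m - ρ)) (k : ℕ) :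
    (2 * b (k + 1) : ℤ) - m ^ (k + 2) ≤ (2 * ρ - m) * (2 * b k - m ^ (k + 1)) := by
  have h1 := hrec k
  have h2 := hle k
  have h3 : (b (k + 1) : ℤ) ≤ ρ * b k + (m ^ (k + 1) - b k) * (m - ρ) := by
    have h4 : ((ρ * b k + (m ^ (k + 1) - b k) * (m - ρ) : ℕ) : ℤ) =
        ρ * b k + (m ^ (k + 1) - b k) * (m - ρ) := by
      push_cast [Nat.cast_sub h2, Nat.cast_sub hρ]
      ring
    rw [← h4]
    exact_mod_cast h1
  have h4 : (m : ℤ) ^ (k + 2) = m * m ^ (k + 1) := by ring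
  rw [h4]
  nlinarith

/-- The bound if `m ≤ 2 ρ`. -/
lemma half_bound {m ρ : ℕ} (hρ : ρ ≤ m) {b : ℕ → ℕ} (h0 : b 0 = ρ)
    (hle : ∀ k, b k ≤ m ^ (k + 1))
    (hrec : ∀ k, b (k + 1) ≤ ρ * b k + (m ^ (k + 1) - b k) * (m - ρ)) (hm : m ≤ 2 * ρ) (k : ℕ) :
    2 * b k ≤ m ^ (k + 1) + (2 * ρ - m) ^ (k + 1) := by
  have key : ∀ k, (2 * b k : ℤ) - m ^ (k + 1) ≤ (2 * ρ - m) ^ (k + 1) := by
    intro k
    induction k with
    | zero => rw [h0]; simp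
    | succ k ih =>
      have h1 := excess_le hρ hle hrec k
      have h2 : (0 : ℤ) ≤ 2 * ρ - m := by omega
      calc (2 * b (k + 1) : ℤ) - m ^ (k + 1 + 1) ≤ (2 * ρ - m) * (2 * b k - m ^ (k + 1)) := h1
        _ ≤ (2 * ρ - m) * (2 * ρ - m) ^ (k + 1) := mul_le_mul_of_nonneg_left ih h2
        _ = _ := by ring
  have h1 := key k
  have h2 : ((m ^ (k + 1) + (2 * ρ - m) ^ (k + 1) : ℕ) : ℤ) =
      m ^ (k + 1) + (2 * ρ - m) ^ (k + 1) := by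
    push_cast [Nat.cast_sub hm]
    ring
  have h3 : (2 * b k : ℤ) ≤ ((m ^ (k + 1) + (2 * ρ - m) ^ (k + 1) : ℕ) : ℤ) := by
    rw [h2]; linarith
  exact_mod_cast h3

/-- **All or half.** -/
lemma eq_of_half {m ρ : ℕ} (hρ : ρ ≤ m) {b : ℕ → ℕ} (h0 : b 0 = ρ)
    (hle : ∀ k, b k ≤ m ^ (k + 1))
    (hrec : ∀ k, b (k + 1) ≤ ρ * b k + (m ^ (k + 1) - b k) * (m - ρ)) {k : ℕ}
    (h1 : m ^ (k + 1) + (m - 2) ^ (k + 1) < 2 * b k)
    (h2 : m ^ (k + 2) + (m - 2) ^ (k + 2) < 2 * b (k + 1)) : ρ = m := by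
  by_contra hne
  have hlt : ρ < m := lt_of_le_of_ne hρ hne
  by_cases hm : m ≤ 2 * ρ
  · have h3 := half_bound hρ h0 hle hrec hm k
    have h4 : (2 * ρ - m) ^ (k + 1) ≤ (m - 2) ^ (k + 1) := Nat.pow_le_pow_left (by omega) _
    omega
  · have h3 := excess_le hρ hle hrec k
    have h4 : ((2 : ℤ) * ρ - m) < 0 := by omega
    have h5 : (0 : ℤ) < 2 * b k - m ^ (k + 1) := by
      have : m ^ (k + 1) < 2 * b k := by omega
      have h6 : ((m ^ (k + 1) : ℕ) : ℤ) < ((2 * b k : ℕ) : ℤ) := by exact_mod_cast this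
      push_cast at h6
      linarith
    have h6 : (0 : ℤ) < 2 * b (k + 1) - m ^ (k + 2) := by
      have : m ^ (k + 2) < 2 * b (k + 1) := by omega
      have h6 : ((m ^ (k + 2) : ℕ) : ℤ) < ((2 * b (k + 1) : ℕ) : ℤ) := by exact_mod_cast this
      push_cast at h6
      linarith
    nlinarith

end Num

end Pool.Agent.U227.Hl
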