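import Pool.Agent.U227.JbNum

/-!
# The multiplicity of an eigenvalue on a tensor product
-/

set_option autoImplicit false
set_option linter.unusedSectionVars false

open Module Finset TensorProduct

namespace Pool.Agent.U227.Jb

variable {K : Type*} [Field K] {V : Type*} [AddCommGroup V] [Module K V] [FiniteDimensional K V]

/-- The parts of the subspaces `gr i` in the generalized eigenspaces are independent. -/
lemma indep_parts {gr : ℕ → Submodule K V} (hgr : iSupIndep gr) (F : Module.End K V) :
    iSupIndep fun t : ℕ × K => gr t.1 ⊓ F.maxGenEigenspace t.2 := by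
  classical
  rw [iSupIndep_iff_finsetSum_eq_zero_imp_eq_zero]
  intro s v hv h0 t₀ ht₀
  have h1 : ∀ i ∈ s.image Prod.fst, ∑ t ∈ s.filter (fun t => t.1 = i), v t = 0 := by
    apply (iSupIndep_iff_finsetSum_eq_zero_imp_eq_zero gr).1 hgr (s.image Prod.fst)
      (fun i => ∑ t ∈ s.filter (fun t => t.1 = i), v t)
    · intro i _
      apply Submodule.sum_mem
      intro t ht
      obtain ⟨ht1, rfl⟩ := Finset.mem_filter.1 ht
      exact (hv t ht1).1
    · rw [← h0]
      exact Finset.sum_fiberwise_of_maps_to (fun t ht => Finset.mem_image_of_mem _ ht) v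
  have h2 := h1 t₀.1 (Finset.mem_image_of_mem _ ht₀)
  have hinj : Set.InjOn Prod.snd (s.filter (fun t => t.1 = t₀.1) : Set (ℕ × K)) := by
    rintro ⟨a, b⟩ hab ⟨c, d⟩ hcd hbd
    rw [Finset.mem_coe, Finset.mem_filter] at hab hcd
    simp only at hab hcd hbd
    rw [hab.2, hcd.2, hbd]
  have h3 : ∑ β ∈ (s.filter (fun t => t.1 = t₀.1)).image Prod.snd, v (t₀.1, β) = 0 := by
    rw [Finset.sum_image hinj, ← h2]
    apply Finset.sum_congr rfl
    rintro ⟨a, b⟩ hab
    rw [Finset.mem_filter] at hab
    simp only at hab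
    rw [← hab.2]
  have h4 := (iSupIndep_iff_finsetSum_eq_zero_imp_eq_zero F.maxGenEigenspace).1
    (Module.End.independent_maxGenEigenspace F) _ (fun β => v (t₀.1, β)) (by
      intro β hβ
      obtain ⟨t, ht, rfl⟩ := Finset.mem_image.1 hβ
      rw [Finset.mem_filter] at ht
      have h5 := (hv t ht.1).2
      rw [← ht.2]
      exact h5) h3 t₀.2 (Finset.mem_image.2 ⟨t₀, Finset.mem_filter.2 ⟨ht₀, rfl⟩, rfl⟩)
  exact h4

/-- Generalized eigenvectors and a bilinear map. -/
lemma gen_bilin {V' : Type*} [AddCommGroup V'] [Module K V'] {F : Module.End K V}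
    {G : Module.End K V'} (L : V →ₗ[K] V →ₗ[K] V') (hG : ∀ a b, G (L a b) = L (F a) (F b))
    {α β : K} {a b : V} (ha : a ∈ F.maxGenEigenspace α) (hb : b ∈ F.maxGenEigenspace β) :
    L a b ∈ G.maxGenEigenspace (α * β) := by
  rw [Module.End.mem_maxGenEigenspace] at ha hb
  obtain ⟨k, hk⟩ := ha
  obtain ⟨l, hl⟩ := hb
  have key : ∀ s k l : ℕ, k + l ≤ s → ∀ a b : V,
      ((F - α • (1 : Module.End K V)) ^ k) a = 0 → ((F - β • (1 : Module.End K V)) ^ l) b = 0 →
      ((G - (α * β) • (1 : Module.End K V')) ^ s) (L a b) = 0 := by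
    intro s
    induction s with
    | zero =>
      intro k l hkl a b ha _
      obtain rfl : k = 0 := by omega
      rw [pow_zero, Module.End.one_apply] at ha
      rw [ha, map_zero, LinearMap.zero_apply, map_zero]
    | succ s ih =>
      intro k l hkl a b ha hb
      rcases Nat.eq_zero_or_pos k with hk0 | hk0
      · subst hk0
        rw [pow_zero, Module.End.one_apply] at ha
        rw [ha, map_zero, LinearMap.zero_apply, map_zero]
      rcases Nat.eq_zero_or_pos l with hl0 | hl0
      · subst hl0
        rw [pow_zero, Module.End.one_apply] at hb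
        rw [hb, map_zero, map_zero]
      obtain ⟨k, rfl⟩ := Nat.exists_eq_succ_of_ne_zero hk0.ne'
      obtain ⟨l, rfl⟩ := Nat.exists_eq_succ_of_ne_zero hl0.ne'
      have h1 : (G - (α * β) • (1 : Module.End K V')) (L a b) =
          L ((F - α • (1 : Module.End K V)) a) (F b) +
            α • L a ((F - β • (1 : Module.End K V)) b) := by
        rw [LinearMap.sub_apply, LinearMap.smul_apply, Module.End.one_apply, hG,
          LinearMap.sub_apply, LinearMap.smul_apply, Module.End.one_apply,
          LinearMap.sub_apply, LinearMap.smul_apply, Module.End.one_apply, map_sub, map_sub,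
          LinearMap.sub_apply, map_smul, map_smul, LinearMap.smul_apply, smul_sub, smul_smul]
        abel
      rw [pow_succ, Module.End.mul_apply, h1, map_add, map_smul,
        ih k (l + 1) (by omega) _ _ (by
          rw [← Module.End.mul_apply, ← pow_succ]; exact ha) (by
          have h2 : Commute (F - β • (1 : Module.End K V)) F :=
            (Commute.refl F).sub_left ((Commute.one_left F).smul_left β)
          rw [comm_apply h2, hb, map_zero]),
        ih (k + 1) l (by omega) _ _ ha (by
          rw [← Module.End.mul_apply, ← pow_succ]; exact hb), smul_zero, add_zero]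
  rw [Module.End.mem_maxGenEigenspace]
  exact ⟨k + l, key (k + l) k l le_rfl a b hk hl⟩

/-- Orthogonality of generalized eigenspaces. -/
lemma gen_orth {F : Module.End K V} (B : V →ₗ[K] V →ₗ[K] K) {c : K}
    (hB : ∀ x y, B (F x) (F y) = c * B x y) {α β : K} (hne : α * β ≠ c) {a b : V}
    (ha : a ∈ F.maxGenEigenspace α) (hb : b ∈ F.maxGenEigenspace β) : B a b = 0 := by
  have h1 := gen_bilin (G := c • (1 : Module.End K K)) B (fun a b => by
    rw [hB, LinearMap.smul_apply, Module.End.one_apply, smul_eq_mul]) ha hb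
  rw [Module.End.mem_maxGenEigenspace] at h1
  obtain ⟨k, hk⟩ := h1
  have h2 : ∀ k : ℕ, ∀ t : K,
      ((c • (1 : Module.End K K) - (α * β) • (1 : Module.End K K)) ^ k) t =
        (c - α * β) ^ k * t := by
    intro k
    induction k with
    | zero => intro t; rw [pow_zero, pow_zero, Module.End.one_apply, one_mul]
    | succ k ih =>
      intro t
      rw [pow_succ, Module.End.mul_apply, ih, LinearMap.sub_apply, LinearMap.smul_apply,
        LinearMap.smul_apply, Module.End.one_apply, smul_eq_mul, smul_eq_mul, pow_succ]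
      ring
  rw [h2] at hk
  exact (mul_eq_zero.1 hk).resolve_left (pow_ne_zero _ (sub_ne_zero.2 hne.symm))

section Main

variable [IsAlgClosed K] {F : Module.End K V} {gr : ℕ → Submodule K V} {n : ℕ}
    (hF : ∀ i, ∀ x ∈ gr i, F x ∈ gr i) (htop : ⨆ i, gr i = ⊤) (hind : iSupIndep gr)
    (B : V →ₗ[K] V →ₗ[K] K) {c : K}
    (hc : c ≠ 0) (hB : ∀ x y, B (F x) (F y) = c * B x y)
    (hgr : ∀ i j, i + j ≠ 2 * n → ∀ x ∈ gr i, ∀ y ∈ gr j, B x y = 0)
    (hnd : ∀ x, (∀ y, B x y = 0) → x = 0)

include hF htop hc hB hgr hnd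

/-- Duality of multiplicities. -/
lemma algMult_le_dual {i : ℕ} (hi : i ≤ 2 * n) (α : K) :
    algMult F (gr i) α ≤ algMult F (gr (2 * n - i)) (c / α) := by
  rw [algMult, algMult, ← Subspace.dual_finrank_eq
    (V := (gr (2 * n - i) ⊓ F.maxGenEigenspace (c / α) : Submodule K V))]
  let Φ : (gr i ⊓ F.maxGenEigenspace α : Submodule K V) →ₗ[K]
      Module.Dual K (gr (2 * n - i) ⊓ F.maxGenEigenspace (c / α) : Submodule K V) :=
    ((Submodule.dualRestrict _) ∘ₗ B) ∘ₗ Submodule.subtype _
  have hΦ : ∀ x y, Φ x y = B (x : V) (y : V) := fun _ _ => rfl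
  apply LinearMap.finrank_le_finrank_of_injective (f := Φ)
  rw [← LinearMap.ker_eq_bot, eq_bot_iff]
  intro x hx
  rw [LinearMap.mem_ker] at hx
  rw [Submodule.mem_bot]
  apply Subtype.ext
  apply hnd
  have hle : ∀ j, gr j ≤ LinearMap.ker (B (x : V)) := by
    intro j
    have h1 : gr j = ⨆ μ, gr j ⊓ F.maxGenEigenspace μ := by
      rw [← Submodule.inf_iSup_genEigenspace (h := hF j) (k := ⊤),
        show (⨆ μ, F.genEigenspace μ ⊤) = ⊤ from Module.End.iSup_maxGenEigenspace_eq_top F,
        inf_top_eq]
    rw [h1]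
    apply iSup_le
    intro β y hy
    rw [LinearMap.mem_ker]
    by_cases hj : i + j = 2 * n
    · obtain rfl : j = 2 * n - i := by omega
      by_cases hβ : α * β = c
      · have hα : α ≠ 0 := by
          rintro rfl
          rw [zero_mul] at hβ
          exact hc hβ.symm
        obtain rfl : β = c / α := by rw [← hβ, mul_div_cancel_left₀ _ hα]
        rw [← hΦ x ⟨y, hy⟩, hx]
        rfl
      · exact gen_orth B hB hβ x.2.2 hy.2
    · exact hgr i j hj _ x.2.1 _ hy.1
  have h3 : (⊤ : Submodule K V) ≤ LinearMap.ker (B (x : V)) := by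
    rw [← htop]
    exact iSup_le hle
  intro y
  exact h3 (Submodule.mem_top (x := y))

include hind

/-- **The sum of the squares of the multiplicities is at most the multiplicity on the tensor
product.** -/
theorem squareSum_le {V' : Type*} [AddCommGroup V'] [Module K V'] [FiniteDimensional K V']
    {G : Module.End K V'} {gr' : ℕ → Submodule K V'} (L : V →ₗ[K] V →ₗ[K] V')
    (hL : Function.Injective (TensorProduct.lift L))
    (hLgr : ∀ i j, ∀ a ∈ gr i, ∀ b ∈ gr j, L a b ∈ gr' (i + j))
    (hG : ∀ a b, G (L a b) = L (F a) (F b)) :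
    squareSum F gr n ≤ algMult G (gr' (2 * n)) c := by
  classical
  rw [squareSum_eq hF]
  let m : ℕ × K → ℕ := fun t => finrank K (gr t.1 ⊓ F.maxGenEigenspace t.2 : Submodule K V)
  let b : (t : ℕ × K) → Basis (Fin (m t)) K
      (gr t.1 ⊓ F.maxGenEigenspace t.2 : Submodule K V) := fun t => Module.finBasis K _
  let e : (Σ t : ℕ × K, Fin (m t)) → V := fun s => (b s.1 s.2 : V)
  have he : LinearIndependent K e := by
    refine linearIndependent_iUnion_finite (f := fun (t : ℕ × K) (s : Fin (m t)) => (b t s : V))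
      ?_ ?_
    · intro t
      exact (b t).linearIndependent.map' (Submodule.subtype _) (Submodule.ker_subtype _)
    · intro t s _ hts
      have h1 : ∀ t, Submodule.span K (Set.range fun s : Fin (m t) => (b t s : V)) ≤
          gr t.1 ⊓ F.maxGenEigenspace t.2 := by
        intro t
        rw [Submodule.span_le]
        rintro _ ⟨s, rfl⟩
        exact (b t s).2
      exact ((indep_parts hind F).disjoint_biSup hts).mono (h1 t)
        (iSup₂_mono fun t _ => h1 t)
  have h2 := he.tmul_of_isDomain he
  have h3 := h2.map' (TensorProduct.lift L) (LinearMap.ker_eq_bot.2 hL)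
  let T := ↥(range (2 * n + 1) ×ˢ eigs F)
  let dual : ℕ × K → ℕ × K := fun t => (2 * n - t.1, c / t.2)
  let J := Σ t : T, Fin (m t.1) × Fin (m (dual t.1))
  let φ : J → (Σ t : ℕ × K, Fin (m t)) × (Σ t : ℕ × K, Fin (m t)) :=
    fun j => (⟨j.1.1, j.2.1⟩, ⟨dual j.1.1, j.2.2⟩)
  have hφ : Function.Injective φ := by
    rintro ⟨⟨t, ht⟩, a, a'⟩ ⟨⟨s, hs⟩, b, b'⟩ h
    simp only [φ, Prod.mk.injEq, Sigma.mk.injEq] at h
    obtain ⟨⟨rfl, h1⟩, -, h2⟩ := h
    rw [heq_eq_eq] at h1 h2
    rw [h1, h2]
  have h4 := h3.comp φ hφ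
  -- the elements are in the generalized eigenspace
  have hmem : ∀ j : J, ((TensorProduct.lift L) ∘
      (fun i : (Σ t : ℕ × K, Fin (m t)) × (Σ t : ℕ × K, Fin (m t)) =>
        e i.1 ⊗ₜ[K] e i.2)) (φ j) ∈ gr' (2 * n) ⊓ G.maxGenEigenspace c := by
    rintro ⟨⟨⟨i, α⟩, ht⟩, a, a'⟩
    rw [Finset.mem_product, Finset.mem_range] at ht
    simp only at ht
    have hx := (b (i, α) a).2
    have hy := (b (2 * n - i, c / α) a').2
    simp only [φ, dual, e, Function.comp_apply, TensorProduct.lift.tmul]
    refine ⟨?_, ?_⟩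
    · have h5 := hLgr _ _ _ hx.1 _ hy.1
      simp only at h5
      rwa [show i + (2 * n - i) = 2 * n by omega] at h5
    · by_cases hα : α = 0
      · -- zero is not an eigenvalue
        exfalso
        have h6 : F.eigenspace α = ⊥ := by
          rw [eq_bot_iff]
          intro x hx
          rw [Module.End.mem_eigenspace_iff, hα, zero_smul] at hx
          rw [Submodule.mem_bot]
          apply hnd
          intro y
          have h7 := hB x y
          rw [hx, map_zero, LinearMap.zero_apply] at h7
          exact (mul_eq_zero.1 h7.symm).resolve_left hc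
        have h7 := ht.2
        rw [eigs, Set.Finite.mem_toFinset] at h7
        exact h7 h6
      · have h5 := gen_bilin L hG hx.2 hy.2
        simp only at h5
        rwa [mul_div_cancel₀ _ hα] at h5
  let g : J → (gr' (2 * n) ⊓ G.maxGenEigenspace c : Submodule K V') := fun j => ⟨_, hmem j⟩
  have hg : LinearIndependent K g := by
    apply LinearIndependent.of_comp (Submodule.subtype _)
    exact h4
  have hcard := hg.fintype_card_le_finrank
  rw [algMult]
  refine le_trans ?_ hcard
  rw [Fintype.card_sigma, ← Finset.sum_product' (s := range (2 * n + 1)) (t := eigs F)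
    (f := fun i α => algMult F (gr i) α ^ 2), ← Finset.sum_coe_sort (range (2 * n + 1) ×ˢ eigs F)
      (fun t : ℕ × K => algMult F (gr t.1) t.2 ^ 2)]
  apply Finset.sum_le_sum
  rintro ⟨⟨i, α⟩, ht⟩ _
  rw [Finset.mem_product, Finset.mem_range] at ht
  simp only at ht
  have h8 := algMult_le_dual hF htop B hc hB hgr hnd (i := i) (by omega) α
  rw [Fintype.card_prod, Fintype.card_fin, Fintype.card_fin, sq]
  exact Nat.mul_le_mul le_rfl h8

end Main

end Pool.Agent.U227.Jb
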