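import Pool.Agent.U227.HlDefs
import Pool.Agent.U227.HlLin
import Pool.Agent.U227.JbKun
import Pool.Agent.U227.GapGeo

/-!
# Algebraic classes on the powers of a variety: contractions
-/

set_option autoImplicit false
set_option linter.unusedSectionVars false

open CategoryTheory AlgebraicGeometry Finset

universe u v

namespace Pool.Agent.U227.Hl

open Pool.Agent.H914 Pool.Agent.H447 VarClass Obj WeilCohomology Pool.Agent.U227.Grp
  Pool.Agent.U227.Fr Pool.Agent.U227.Gap Pool.Agent.U227.Jb

variable {k : Type u} [Field k] {𝒱 : VarClass k} {ops : CycleOps 𝒱}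
  {W : WeilCohomology.{u, v} ops} {X Y : 𝒱.Obj} {D : Y.Cycles} {f : Y ⟶ Y} {q : ℕ}

section Span

lemma algSpan_mul {i j : ℕ} {a b : W.H X} (ha : a ∈ algSpan W X i) (hb : b ∈ algSpan W X j) :
    a * b ∈ algSpan W X (i + j) := by
  induction ha using Submodule.span_induction with
  | mem a ha =>
    obtain ⟨p, rfl, z, hz, rfl⟩ := ha
    induction hb using Submodule.span_induction with
    | mem b hb =>
      obtain ⟨r, rfl, w, hw, rfl⟩ := hb
      rw [← W.cl_mul]
      exact Submodule.subset_span ⟨p + r, by ring, _, ops.mul_mem hz hw, rfl⟩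
    | zero => rw [mul_zero]; exact Submodule.zero_mem _
    | add a b _ _ ha hb => rw [mul_add]; exact Submodule.add_mem _ ha hb
    | smul t a _ ha => rw [mul_smul_comm]; exact Submodule.smul_mem _ _ ha
  | zero => rw [zero_mul]; exact Submodule.zero_mem _
  | add a b _ _ ha hb => rw [add_mul]; exact Submodule.add_mem _ ha hb
  | smul t a _ ha => rw [smul_mul_assoc]; exact Submodule.smul_mem _ _ ha

lemma algSpan_map (g : X ⟶ Y) {i : ℕ} {a : W.H Y} (ha : a ∈ algSpan W Y i) :
    W.map g a ∈ algSpan W X i := by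
  induction ha using Submodule.span_induction with
  | mem a ha =>
    obtain ⟨p, rfl, z, hz, rfl⟩ := ha
    rw [← W.cl_pull]
    exact Submodule.subset_span ⟨p, rfl, _, ops.pull_mem _ hz, rfl⟩
  | zero => rw [map_zero]; exact Submodule.zero_mem _
  | add a b _ _ ha hb => rw [map_add]; exact Submodule.add_mem _ ha hb
  | smul t a _ ha => rw [map_smul]; exact Submodule.smul_mem _ _ ha

lemma algSpan_push (g : X ⟶ Y) {i j : ℕ} (hij : i + 2 * Y.dim = j + 2 * X.dim) {a : W.H X}
    (ha : a ∈ algSpan W X i) : W.push g a ∈ algSpan W Y j := by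
  induction ha using Submodule.span_induction with
  | mem a ha =>
    obtain ⟨p, rfl, z, hz, rfl⟩ := ha
    rw [← W.cl_push]
    exact Submodule.subset_span ⟨j / 2, by omega, _, ops.push_mem _ hz (by omega), rfl⟩
  | zero => rw [map_zero]; exact Submodule.zero_mem _
  | add a b _ _ ha hb => rw [map_add]; exact Submodule.add_mem _ ha hb
  | smul t a _ ha => rw [map_smul]; exact Submodule.smul_mem _ _ ha

lemma one_algSpan : (1 : W.H X) ∈ algSpan W X 0 := by
  rw [← W.cl_fund]
  exact Submodule.subset_span ⟨0, rfl, _, SmVar.fundCycle_mem _, rfl⟩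

lemma pow_algSpan (hD : Y.IsCyc 1 D) (e : ℕ) : W.cl Y D ^ e ∈ algSpan W Y (2 * e) := by
  induction e with
  | zero => rw [pow_zero]; exact one_algSpan
  | succ e ih =>
    rw [pow_succ, show 2 * (e + 1) = 2 * e + 2 by ring]
    exact algSpan_mul ih (Submodule.subset_span ⟨1, rfl, _, hD, rfl⟩)

lemma algSpan_gr {i : ℕ} : algSpan W X i ≤ W.gr X i := algSpan_le

end Span

section Theta

variable (W D) in
/-- The class `pr_1^* ξ^e ... pr_(k+1)^* ξ^e` on `Y ^ (k + 1)`. -/
noncomputable def theta (e : ℕ) : (k : ℕ) → W.H (power Y k)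
  | 0 => W.cl Y D ^ e
  | k + 1 => W.map (fst (power Y k) Y) (theta e k) * W.map (snd (power Y k) Y) (W.cl Y D ^ e)

lemma theta_alg (hD : Y.IsCyc 1 D) (e k : ℕ) :
    theta W D e k ∈ algSpan W (power Y k) (2 * (e * (k + 1))) := by
  induction k with
  | zero =>
    have h1 := pow_algSpan (W := W) hD e
    rw [show 2 * (e * (0 + 1)) = 2 * e by ring]
    exact h1
  | succ k ih =>
    rw [show 2 * (e * (k + 1 + 1)) = 2 * (e * (k + 1)) + 2 * e by ring]
    exact algSpan_mul (algSpan_map _ ih) (algSpan_map _ (pow_algSpan hD e))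

lemma theta_gr (hD : Y.IsCyc 1 D) (e k : ℕ) :
    theta W D e k ∈ W.gr (power Y k) (2 * (e * (k + 1))) := algSpan_gr (theta_alg hD e k)

end Theta

lemma dim_power (k : ℕ) : (power Y k).dim = Y.dim * (k + 1) := by
  induction k with
  | zero => rw [power]; ring
  | succ k ih =>
    rw [power, dim_prod, ih]
    ring

lemma push_fst_even {p : ℕ} (a : W.H X) {b : W.H Y} (hb : b ∈ W.gr Y (2 * p)) :
    W.push (fst X Y) (W.map (fst X Y) a * W.map (snd X Y) b) = W.tr Y b • a := by
  apply W.tr_ext
  intro c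
  rw [W.tr_push, mul_assoc, W.even_comm (W.map_mem (snd X Y) hb), ← mul_assoc,
    ← map_mul (W.map (fst X Y)), W.tr_prod, smul_mul_assoc, map_smul, smul_eq_mul, mul_comm]

section Contr

variable (W X Y) in
/-- The contraction with a class on the first factor. -/
noncomputable def contr (θ : W.H X) :
    W.H (X.prod Y) →ₗ[W.K] W.H X →ₗ[W.K] W.H Y :=
  LinearMap.mk₂ W.K (fun x u => W.push (snd X Y) (x * W.map (fst X Y) (u * θ)))
    (by intro a b c; rw [add_mul, map_add])
    (by intro t a c; rw [smul_mul_assoc, map_smul])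
    (by intro a b c; rw [add_mul, map_add, mul_add, map_add])
    (by intro t a c; rw [smul_mul_assoc, map_smul, mul_smul_comm, map_smul])

variable (W X Y) in
/-- The contraction with a class on the second factor. -/
noncomputable def contr' (θ : W.H Y) :
    W.H (X.prod Y) →ₗ[W.K] W.H Y →ₗ[W.K] W.H X :=
  LinearMap.mk₂ W.K (fun x v => W.push (fst X Y) (x * W.map (snd X Y) (v * θ)))
    (by intro a b c; rw [add_mul, map_add])
    (by intro t a c; rw [smul_mul_assoc, map_smul])
    (by intro a b c; rw [add_mul, map_add, mul_add, map_add])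
    (by intro t a c; rw [smul_mul_assoc, map_smul, mul_smul_comm, map_smul])

lemma contr_apply (θ : W.H X) (x : W.H (X.prod Y)) (u : W.H X) :
    contr W X Y θ x u = W.push (snd X Y) (x * W.map (fst X Y) (u * θ)) := rfl

lemma contr'_apply (θ : W.H Y) (x : W.H (X.prod Y)) (v : W.H Y) :
    contr' W X Y θ x v = W.push (fst X Y) (x * W.map (snd X Y) (v * θ)) := rfl

lemma contr_prod {θ u : W.H X} {p : ℕ} (h : u * θ ∈ W.gr X (2 * p)) (a : W.H X) (b : W.H Y) :
    contr W X Y θ (W.map (fst X Y) a * W.map (snd X Y) b) u = W.tr X (a * (u * θ)) • b := by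
  rw [contr_apply, mul_assoc, ← W.even_comm (W.map_mem (fst X Y) h), ← mul_assoc,
    ← map_mul (W.map (fst X Y)), push_snd]

lemma contr'_prod {θ v : W.H Y} {p : ℕ} {b : W.H Y} (h : b * (v * θ) ∈ W.gr Y (2 * p))
    (a : W.H X) :
    contr' W X Y θ (W.map (fst X Y) a * W.map (snd X Y) b) v = W.tr Y (b * (v * θ)) • a := by
  rw [contr'_apply, mul_assoc, ← map_mul (W.map (snd X Y)), push_fst_even a h]

lemma contr_alg {a b c d : ℕ} {θ : W.H X} (hθ : θ ∈ algSpan W X c)
    (h : a + (b + c) = d + 2 * X.dim) {x : W.H (X.prod Y)} {u : W.H X}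
    (hx : x ∈ algSpan W (X.prod Y) a) (hu : u ∈ algSpan W X b) :
    contr W X Y θ x u ∈ algSpan W Y d := by
  rw [contr_apply]
  refine algSpan_push _ (i := a + (b + c)) ?_ (algSpan_mul hx (algSpan_map _ (algSpan_mul hu hθ)))
  rw [dim_prod]
  omega

lemma contr'_alg {a b c d : ℕ} {θ : W.H Y} (hθ : θ ∈ algSpan W Y c)
    (h : a + (b + c) = d + 2 * Y.dim) {x : W.H (X.prod Y)} {v : W.H Y}
    (hx : x ∈ algSpan W (X.prod Y) a) (hv : v ∈ algSpan W Y b) :
    contr' W X Y θ x v ∈ algSpan W X d := by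
  rw [contr'_apply]
  refine algSpan_push _ (i := a + (b + c)) ?_ (algSpan_mul hx (algSpan_map _ (algSpan_mul hv hθ)))
  rw [dim_prod]
  omega

end Contr

section Pairing

/-- The form `(a, b) ↦ tr(a b θ)`. -/
noncomputable def form (W : WeilCohomology.{u, v} ops) (X : 𝒱.Obj) (θ : W.H X) :
    W.H X →ₗ[W.K] W.H X →ₗ[W.K] W.K :=
  LinearMap.mk₂ W.K (fun a b => W.tr X (a * (b * θ)))
    (by intro a b c; rw [add_mul, map_add])
    (by intro t a c; rw [smul_mul_assoc, map_smul])
    (by intro a b c; rw [add_mul, mul_add, map_add])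
    (by intro t a c; rw [smul_mul_assoc, mul_smul_comm, map_smul])

lemma form_apply (θ a b : W.H X) : form W X θ a b = W.tr X (a * (b * θ)) := rfl

end Pairing

section Tensor

variable {j e : ℕ}

lemma tateSpace_gr : tateSpace W Y f q j ≤ W.gr Y (2 * j) := inf_le_left

lemma tensor_gr (k : ℕ) : tensorSpace W Y f q j k ≤ W.gr (power Y k) (2 * (j * (k + 1))) := by
  induction k with
  | zero =>
    rw [show 2 * (j * (0 + 1)) = 2 * j by ring]
    exact tateSpace_gr
  | succ k ih =>
    rw [tensorSpace, prodSpan, Submodule.span_le]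
    rintro _ ⟨a, ha, b, hb, rfl⟩
    rw [show 2 * (j * (k + 1 + 1)) = 2 * (j * (k + 1)) + 2 * j by ring]
    exact W.mul_mem (W.map_mem _ (ih ha)) (W.map_mem _ (tateSpace_gr hb))

variable (W Y f q) in
/-- The tensor space on the product. -/
noncomputable def tsucc (j k : ℕ) : Submodule W.K (W.H ((power Y k).prod Y)) :=
  Submodule.span W.K {y | ∃ a ∈ tensorSpace W Y f q j k, ∃ b ∈ tateSpace W Y f q j,
      W.map (fst (power Y k) Y) a * W.map (snd (power Y k) Y) b = y}

lemma tensorSpace_succ (k : ℕ) : tensorSpace W Y f q j (k + 1) = tsucc W Y f q j k := rfl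

variable (W D) in
/-- The class on the product. -/
noncomputable def thsucc (e k : ℕ) : W.H ((power Y k).prod Y) :=
  W.map (fst (power Y k) Y) (theta W D e k) * W.map (snd (power Y k) Y) (W.cl Y D ^ e)

lemma theta_succ (k : ℕ) : theta W D e (k + 1) = thsucc W D e k := rfl

lemma tensor_induction {k : ℕ} {p : W.H ((power Y k).prod Y) → Prop}
    (h : ∀ a ∈ tensorSpace W Y f q j k, ∀ b ∈ tateSpace W Y f q j,
      p (W.map (fst (power Y k) Y) a * W.map (snd (power Y k) Y) b))
    (h0 : p 0) (hadd : ∀ a b, p a → p b → p (a + b)) (hsmul : ∀ (t : W.K) a, p a → p (t • a))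
    {x : W.H ((power Y k).prod Y)} (hx : x ∈ tsucc W Y f q j k) : p x := by
  rw [tsucc] at hx
  induction hx using Submodule.span_induction with
  | mem x hx =>
    obtain ⟨a, ha, b, hb, rfl⟩ := hx
    exact h a ha b hb
  | zero => exact h0
  | add a b _ _ ha hb => exact hadd a b ha hb
  | smul t a _ ha => exact hsmul t a ha

/-- The contraction on the first factors. -/
noncomputable abbrev cc (W : WeilCohomology.{u, v} ops) (D : Y.Cycles) (e k : ℕ) :
    W.H ((power Y k).prod Y) →ₗ[W.K] W.H (power Y k) →ₗ[W.K] W.H Y :=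
  contr W (power Y k) Y (theta W D e k)

/-- The contraction on the last factor. -/
noncomputable abbrev cc' (W : WeilCohomology.{u, v} ops) (D : Y.Cycles) (e k : ℕ) :
    W.H ((power Y k).prod Y) →ₗ[W.K] W.H Y →ₗ[W.K] W.H (power Y k) :=
  contr' W (power Y k) Y (W.cl Y D ^ e)

lemma cc_prod (hD : Y.IsCyc 1 D) {k : ℕ} {a u : W.H (power Y k)} {b : W.H Y}
    (hu : u ∈ tensorSpace W Y f q j k) :
    cc W D e k (W.map (fst (power Y k) Y) a * W.map (snd (power Y k) Y) b) u =
      W.tr _ (a * (u * theta W D e k)) • b := by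
  have h1 := W.mul_mem (tensor_gr k hu) (theta_gr (W := W) hD e k)
  rw [show 2 * (j * (k + 1)) + 2 * (e * (k + 1)) = 2 * ((j + e) * (k + 1)) by ring] at h1
  exact contr_prod h1 a b

lemma cc'_prod (hD : Y.IsCyc 1 D) {k : ℕ} {a : W.H (power Y k)} {b v : W.H Y}
    (hb : b ∈ tateSpace W Y f q j) (hv : v ∈ tateSpace W Y f q j) :
    cc' W D e k (W.map (fst (power Y k) Y) a * W.map (snd (power Y k) Y) b) v =
      W.tr _ (b * (v * W.cl Y D ^ e)) • a := by
  have h1 := W.mul_mem (tateSpace_gr hb) (W.mul_mem (tateSpace_gr hv)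
    (algSpan_gr (pow_algSpan (W := W) hD e)))
  rw [show 2 * j + (2 * j + 2 * e) = 2 * (2 * j + e) by ring] at h1
  exact contr'_prod h1 a

lemma cc_mem (hD : Y.IsCyc 1 D) {k : ℕ} {x : W.H ((power Y k).prod Y)} {u : W.H (power Y k)}
    (hx : x ∈ tsucc W Y f q j k) (hu : u ∈ tensorSpace W Y f q j k) :
    cc W D e k x u ∈ tateSpace W Y f q j := by
  refine tensor_induction (p := fun x => cc W D e k x u ∈ tateSpace W Y f q j) ?_ ?_ ?_ ?_ hx
  · intro a _ b hb
    rw [cc_prod hD hu]
    exact Submodule.smul_mem _ _ hb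
  · rw [map_zero, LinearMap.zero_apply]; exact Submodule.zero_mem _
  · intro a b ha hb
    rw [map_add, LinearMap.add_apply]; exact Submodule.add_mem _ ha hb
  · intro t a ha
    rw [map_smul, LinearMap.smul_apply]; exact Submodule.smul_mem _ _ ha

lemma cc'_mem (hD : Y.IsCyc 1 D) {k : ℕ} {x : W.H ((power Y k).prod Y)} {v : W.H Y}
    (hx : x ∈ tsucc W Y f q j k) (hv : v ∈ tateSpace W Y f q j) :
    cc' W D e k x v ∈ tensorSpace W Y f q j k := by
  refine tensor_induction (p := fun x => cc' W D e k x v ∈ tensorSpace W Y f q j k) ?_ ?_ ?_ ?_ hx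
  · intro a ha b hb
    rw [cc'_prod hD hb hv]
    exact Submodule.smul_mem _ _ ha
  · rw [map_zero, LinearMap.zero_apply]; exact Submodule.zero_mem _
  · intro a b ha hb
    rw [map_add, LinearMap.add_apply]; exact Submodule.add_mem _ ha hb
  · intro t a ha
    rw [map_smul, LinearMap.smul_apply]; exact Submodule.smul_mem _ _ ha

lemma cc_adj (hD : Y.IsCyc 1 D) {k : ℕ} {x : W.H ((power Y k).prod Y)} {u : W.H (power Y k)}
    {v : W.H Y} (hx : x ∈ tsucc W Y f q j k) (hu : u ∈ tensorSpace W Y f q j k)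
    (hv : v ∈ tateSpace W Y f q j) :
    form W Y (W.cl Y D ^ e) (cc W D e k x u) v =
      form W (power Y k) (theta W D e k) (cc' W D e k x v) u := by
  refine tensor_induction (p := fun x => form W Y (W.cl Y D ^ e) (cc W D e k x u) v =
      form W (power Y k) (theta W D e k) (cc' W D e k x v) u) ?_ ?_ ?_ ?_ hx
  · intro a _ b hb
    rw [cc_prod hD hu, cc'_prod hD hb hv, map_smul, map_smul, LinearMap.smul_apply,
      LinearMap.smul_apply, form_apply, form_apply, smul_eq_mul, smul_eq_mul, mul_comm]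
  · rw [map_zero, map_zero, LinearMap.zero_apply, LinearMap.zero_apply, map_zero, map_zero,
      LinearMap.zero_apply, LinearMap.zero_apply]
  · intro a b ha hb
    rw [map_add, LinearMap.add_apply, map_add, LinearMap.add_apply, ha, hb, map_add,
      LinearMap.add_apply, map_add, LinearMap.add_apply]
  · intro t a ha
    rw [map_smul, LinearMap.smul_apply, map_smul, LinearMap.smul_apply, ha, map_smul,
      LinearMap.smul_apply, map_smul, LinearMap.smul_apply]

variable (W Y f q j) in
/-- The form on the generalized eigenspace is nondegenerate. -/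
def Nondeg (D : Y.Cycles) (e : ℕ) : Prop :=
  ∀ a ∈ tateSpace W Y f q j, (∀ b ∈ tateSpace W Y f q j, W.tr Y (a * (b * W.cl Y D ^ e)) = 0) →
    a = 0

variable (W Y f q j) in
/-- The map from families to tensors. -/
noncomputable def psi (k : ℕ) :
    (Fin (Module.finrank W.K (tateSpace W Y f q j)) → tensorSpace W Y f q j k) →ₗ[W.K]
      W.H ((power Y k).prod Y) :=
  LinearMap.lsum W.K _ ℕ fun i =>
    (LinearMap.mulRight W.K (W.map (snd (power Y k) Y)
      ((Module.finBasis W.K (tateSpace W Y f q j) i : tateSpace W Y f q j) : W.H Y))) ∘ₗ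
      (W.map (fst (power Y k) Y)).toLinearMap ∘ₗ Submodule.subtype _

lemma psi_apply (k : ℕ)
    (a : Fin (Module.finrank W.K (tateSpace W Y f q j)) → tensorSpace W Y f q j k) :
    psi W Y f q j k a = ∑ i, W.map (fst (power Y k) Y) (a i : W.H (power Y k)) *
      W.map (snd (power Y k) Y)
        ((Module.finBasis W.K (tateSpace W Y f q j) i : tateSpace W Y f q j) : W.H Y) := by
  rw [psi, LinearMap.lsum_apply, LinearMap.sum_apply]
  rfl

lemma psi_mem (k : ℕ)
    (a : Fin (Module.finrank W.K (tateSpace W Y f q j)) → tensorSpace W Y f q j k) :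
    psi W Y f q j k a ∈ tsucc W Y f q j k := by
  rw [psi_apply]
  exact Submodule.sum_mem _ fun i _ => Submodule.subset_span ⟨_, (a i).2, _, Subtype.mem _, rfl⟩

lemma le_range_psi (k : ℕ) :
    tsucc W Y f q j k ≤ LinearMap.range (psi W Y f q j k) := by
  rw [tsucc, Submodule.span_le]
  rintro _ ⟨a, ha, b, hb, rfl⟩
  refine ⟨fun i => (Module.finBasis W.K (tateSpace W Y f q j)).repr ⟨b, hb⟩ i • ⟨a, ha⟩, ?_⟩
  have h1 : b = ∑ i, (Module.finBasis W.K (tateSpace W Y f q j)).repr ⟨b, hb⟩ i •
      ((Module.finBasis W.K (tateSpace W Y f q j) i : tateSpace W Y f q j) : W.H Y) := by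
    have h2 := (Module.finBasis W.K (tateSpace W Y f q j)).sum_repr ⟨b, hb⟩
    have h3 := congrArg (Submodule.subtype _) h2
    rw [map_sum] at h3
    exact h3.symm
  rw [psi_apply]
  conv_rhs => rw [h1]
  rw [map_sum, Finset.mul_sum]
  apply Finset.sum_congr rfl
  intro i _
  rw [Submodule.coe_smul, map_smul, map_smul, smul_mul_assoc, mul_smul_comm]

lemma psi_cc (hD : Y.IsCyc 1 D) (k : ℕ)
    (a : Fin (Module.finrank W.K (tateSpace W Y f q j)) → tensorSpace W Y f q j k)
    {u : W.H (power Y k)} (hu : u ∈ tensorSpace W Y f q j k)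
    (h0 : cc W D e k (psi W Y f q j k a) u = 0) (i) :
    W.tr _ ((a i : W.H (power Y k)) * (u * theta W D e k)) = 0 := by
  rw [psi_apply, map_sum, LinearMap.sum_apply] at h0
  have h1 : ∑ i, W.tr _ ((a i : W.H (power Y k)) * (u * theta W D e k)) •
      Module.finBasis W.K (tateSpace W Y f q j) i = 0 := by
    apply Subtype.ext
    have h2 : ((∑ i, W.tr _ ((a i : W.H (power Y k)) * (u * theta W D e k)) •
        Module.finBasis W.K (tateSpace W Y f q j) i : tateSpace W Y f q j) : W.H Y) =
        ∑ i, W.tr _ ((a i : W.H (power Y k)) * (u * theta W D e k)) •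
        ((Module.finBasis W.K (tateSpace W Y f q j) i : tateSpace W Y f q j) : W.H Y) :=
      map_sum (Submodule.subtype _) _ _
    rw [h2]
    refine Eq.trans (Finset.sum_congr rfl fun i _ => ?_) h0
    exact (cc_prod hD hu).symm
  exact (linearIndependent_iff'.1 (Module.finBasis W.K (tateSpace W Y f q j)).linearIndependent
    Finset.univ _ h1) i (Finset.mem_univ i)

lemma psi_zero (hD : Y.IsCyc 1 D) {k : ℕ}
    (ih : ∀ a ∈ tensorSpace W Y f q j k,
      (∀ u ∈ tensorSpace W Y f q j k, W.tr _ (a * (u * theta W D e k)) = 0) → a = 0)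
    (a : Fin (Module.finrank W.K (tateSpace W Y f q j)) → tensorSpace W Y f q j k)
    (h : ∀ u ∈ tensorSpace W Y f q j k, cc W D e k (psi W Y f q j k a) u = 0) : a = 0 := by
  funext i
  apply Subtype.ext
  apply ih _ (a i).2
  intro u hu
  exact psi_cc hD k a hu (h u hu) i

lemma nondeg_succ (hD : Y.IsCyc 1 D) (hnd : Nondeg W Y f q j D e) {k : ℕ}
    (ih : ∀ a ∈ tensorSpace W Y f q j k,
      (∀ u ∈ tensorSpace W Y f q j k, W.tr _ (a * (u * theta W D e k)) = 0) → a = 0) :
    ∀ x ∈ tsucc W Y f q j k,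
      (∀ y ∈ tsucc W Y f q j k, W.tr _ (x * (y * thsucc W D e k)) = 0) → x = 0 := by
  intro x hx h0
  have hcc : ∀ u ∈ tensorSpace W Y f q j k, cc W D e k x u = 0 := by
    intro u hu
    apply hnd _ (cc_mem hD hx hu)
    intro v hv
    have h1 := h0 (W.map (fst (power Y k) Y) u * W.map (snd (power Y k) Y) v)
      (Submodule.subset_span ⟨u, hu, v, hv, rfl⟩)
    have hv' := W.map_mem (snd (power Y k) Y) (tateSpace_gr hv)
    have h2 : x * ((W.map (fst (power Y k) Y) u * W.map (snd (power Y k) Y) v) *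
        thsucc W D e k) = (x * W.map (fst (power Y k) Y) (u * theta W D e k)) *
          W.map (snd (power Y k) Y) (v * W.cl Y D ^ e) := by
      rw [thsucc, map_mul (W.map (fst (power Y k) Y)), map_mul (W.map (snd (power Y k) Y))]
      simp only [mul_assoc]
      congr 2
      rw [← mul_assoc (W.map (snd (power Y k) Y) v), W.even_comm hv']
      simp only [mul_assoc]
    have h3 : W.tr Y (cc W D e k x u * (v * W.cl Y D ^ e)) =
        W.tr _ (x * ((W.map (fst (power Y k) Y) u * W.map (snd (power Y k) Y) v) *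
        thsucc W D e k)) := by
      rw [h2]
      exact W.tr_push _ _ _
    rw [h3]
    exact h1
  obtain ⟨a, rfl⟩ := le_range_psi k hx
  rw [psi_zero hD ih a hcc, map_zero]

/-- Nondegeneracy on the tensor spaces. -/
lemma nondeg_tensor (hD : Y.IsCyc 1 D) (hnd : Nondeg W Y f q j D e) (k : ℕ) :
    ∀ a ∈ tensorSpace W Y f q j k,
      (∀ u ∈ tensorSpace W Y f q j k, W.tr _ (a * (u * theta W D e k)) = 0) → a = 0 := by
  induction k with
  | zero => exact hnd
  | succ k ih => exact nondeg_succ hD hnd ih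

lemma eq_zero_of_cc (hD : Y.IsCyc 1 D) (hnd : Nondeg W Y f q j D e) {k : ℕ}
    {x : W.H ((power Y k).prod Y)} (hx : x ∈ tsucc W Y f q j k)
    (h : ∀ u ∈ tensorSpace W Y f q j k, cc W D e k x u = 0) : x = 0 := by
  obtain ⟨a, rfl⟩ := le_range_psi k hx
  rw [psi_zero hD (nondeg_tensor hD hnd k) a h, map_zero]

/-- The dimension of the tensor spaces. -/
lemma finrank_tensor (hD : Y.IsCyc 1 D) (hnd : Nondeg W Y f q j D e) (k : ℕ) :
    Module.finrank W.K (tensorSpace W Y f q j k) =
      Module.finrank W.K (tateSpace W Y f q j) ^ (k + 1) := by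
  induction k with
  | zero => rw [Nat.zero_add, pow_one]; rfl
  | succ k ih =>
    have h1 : tsucc W Y f q j k = LinearMap.range (psi W Y f q j k) := by
      apply le_antisymm (le_range_psi k)
      rintro _ ⟨a, rfl⟩
      exact psi_mem k a
    have h2 : Function.Injective (psi W Y f q j k) := by
      rw [← LinearMap.ker_eq_bot, eq_bot_iff]
      intro a ha
      rw [LinearMap.mem_ker] at ha
      rw [Submodule.mem_bot]
      apply psi_zero hD (nondeg_tensor hD hnd k) a
      intro u _
      rw [ha, map_zero, LinearMap.zero_apply]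
    have h3 : Module.finrank W.K (tsucc W Y f q j k) =
        Module.finrank W.K (tateSpace W Y f q j) ^ (k + 2) := by
      rw [h1, LinearMap.finrank_range_of_inj h2, Module.finrank_pi_fintype, Finset.sum_const,
        Finset.card_univ, Fintype.card_fin, smul_eq_mul, ih]
      ring
    exact h3

end Tensor

end Pool.Agent.U227.Hl
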