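import Pool.Agent.U227.HlGeo

/-!
# Algebraic classes on the powers of a variety: the main theorem
-/

set_option autoImplicit false
set_option linter.unusedSectionVars false

open CategoryTheory AlgebraicGeometry Finset

universe u v

namespace Pool.Agent.U227.Hl

open Pool.Agent.H914 Pool.Agent.H447 VarClass Obj WeilCohomology Pool.Agent.U227.Grp
  Pool.Agent.U227.Fr Pool.Agent.U227.Gap Pool.Agent.U227.Jb

variable {k : Type u} [Field k] {𝒱 : VarClass k} {ops : CycleOps 𝒱}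
  {W : WeilCohomology.{u, v} ops} {Y : 𝒱.Obj} {D : Y.Cycles} {f : Y ⟶ Y} {q j e : ℕ}

lemma frob_form (hD : Y.IsCyc 1 D) (hHL : HardLefschetz W Y D) (h1 : (1 : W.H Y) ≠ 0)
    (hF : IsFrobenius W Y f q) (hq : 0 < q) (hn : Y.dim = 2 * j + e) (x y : W.H Y) :
    form W Y (W.cl Y D ^ e) ((W.map f).toLinearMap x) ((W.map f).toLinearMap y) =
      (q : W.K) ^ (2 * j) * form W Y (W.cl Y D ^ e) x y := by
  obtain ⟨b, -, hb0⟩ := exists_top (W := W) hD hHL h1
  have h2 := frob_tr hD hHL h1 hF (x * (y * W.cl Y D ^ e))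
  rw [map_mul (W.map f), map_mul (W.map f), map_pow (W.map f), frob_cl hF ⟨b, hb0⟩ hD, pow_one,
    _root_.smul_pow, mul_smul_comm, mul_smul_comm, map_smul, smul_eq_mul, hn, pow_add] at h2
  have hqK : ((q : W.K) ^ e) ≠ 0 := pow_ne_zero _ (by exact_mod_cast hq.ne')
  apply mul_left_cancel₀ hqK
  rw [form_apply, form_apply]
  change (q : W.K) ^ e * W.tr Y (W.map f x * (W.map f y * W.cl Y D ^ e)) = _
  rw [h2]
  ring

/-- The form on the generalized eigenspace is nondegenerate. -/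
theorem nondeg_base [IsAlgClosed W.K] (hD : Y.IsCyc 1 D) (hHL : HardLefschetz W Y D)
    (h1 : (1 : W.H Y) ≠ 0) (hF : IsFrobenius W Y f q) (hq : 0 < q) (hn : Y.dim = 2 * j + e) :
    Nondeg W Y f q j D e := by
  intro a ha h
  have hqK : ((q : W.K) ^ j) ≠ 0 := pow_ne_zero _ (by exact_mod_cast hq.ne')
  have hall : ∀ b ∈ W.gr Y (2 * j), form W Y (W.cl Y D ^ e) a b = 0 := by
    have hle : W.gr Y (2 * j) ≤ LinearMap.ker (form W Y (W.cl Y D ^ e) a) := by
      have h2 : W.gr Y (2 * j) = ⨆ μ, W.gr Y (2 * j) ⊓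
          Module.End.maxGenEigenspace ((W.map f).toLinearMap : Module.End W.K (W.H Y)) μ := by
        rw [← Submodule.inf_iSup_genEigenspace (h := fun x hx => map_gr hx) (k := ⊤),
          show (⨆ μ, Module.End.genEigenspace ((W.map f).toLinearMap : Module.End W.K (W.H Y)) μ ⊤) =
            ⊤ from Module.End.iSup_maxGenEigenspace_eq_top _,
          inf_top_eq]
      rw [h2]
      apply iSup_le
      intro μ b hb
      rw [LinearMap.mem_ker]
      by_cases hμ : μ = (q : W.K) ^ j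
      · subst hμ
        exact h b hb
      · refine gen_orth (F := (W.map f).toLinearMap) (form W Y (W.cl Y D ^ e))
          (frob_form hD hHL h1 hF hq hn) ?_ ha.2 hb.2
        intro h3
        apply hμ
        apply mul_left_cancel₀ hqK
        rw [h3, two_mul, pow_add]
    intro b hb
    exact hle hb
  have hag : a ∈ W.gr Y (2 * j) := ha.1
  have hLa : lp W D e a = 0 := by
    apply W.nondeg
    intro c
    have hLg := lp_mem (W := W) hD e hag
    refine gr_induction (W.isInternal Y) (p := fun c => W.tr Y (lp W D e a * c) = 0) ?_ ?_ c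
    · intro i c hc
      by_cases hi : i = 2 * j
      · subst hi
        have h3 := hall c hc
        rw [form_apply] at h3
        rw [lp_apply, W.even_comm (cl_pow_mem hD e), mul_assoc, W.even_comm (cl_pow_mem hD e)]
        exact h3
      · exact W.tr_eq_zero (W.mul_mem hLg hc) (by omega)
    · intro x y hx hy
      rw [mul_add, map_add, hx, hy, add_zero]
  refine (hHL (2 * j) (by omega)).1 a hag ?_
  rw [← lp_eq, show Y.dim - 2 * j = e by omega]
  exact hLa

/-- The algebraic classes are in the generalized eigenspace. -/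
lemma alg_le_tate (hF : IsFrobenius W Y f q) (hb : ∃ b : W.H Y, W.tr Y b ≠ 0) :
    algSpan W Y (2 * j) ≤ tateSpace W Y f q j := by
  refine le_inf algSpan_gr ?_
  rw [algSpan, Submodule.span_le]
  rintro _ ⟨p, hp, z, hz, rfl⟩
  obtain rfl : p = j := by omega
  rw [SetLike.mem_coe, Module.End.mem_maxGenEigenspace]
  refine ⟨1, ?_⟩
  rw [pow_one, LinearMap.sub_apply, LinearMap.smul_apply, Module.End.one_apply, sub_eq_zero]
  exact frob_cl hF hb hz

/-- The inequality between consecutive powers. -/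
theorem step [IsAlgClosed W.K] (hD : Y.IsCyc 1 D) (hHL : HardLefschetz W Y D)
    (h1 : (1 : W.H Y) ≠ 0) (hF : IsFrobenius W Y f q) (hq : 0 < q) (hn : Y.dim = 2 * j + e)
    (hN : ∀ x ∈ algSpan W Y (2 * j), (∀ y ∈ algSpan W Y (2 * j),
      W.tr Y (x * (y * W.cl Y D ^ e)) = 0) → x = 0) (k : ℕ) :
    Module.finrank W.K (algTensors W Y f q j (k + 1)) ≤
      Module.finrank W.K (algSpan W Y (2 * j)) * Module.finrank W.K (algTensors W Y f q j k) +
      (Module.finrank W.K (tateSpace W Y f q j) ^ (k + 1) -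
        Module.finrank W.K (algTensors W Y f q j k)) *
      (Module.finrank W.K (tateSpace W Y f q j) - Module.finrank W.K (algSpan W Y (2 * j))) := by
  obtain ⟨b, -, hb0⟩ := exists_top (W := W) hD hHL h1
  have hnd := nondeg_base hD hHL h1 hF hq hn
  rw [← finrank_tensor hD hnd k]
  have hdim : (power Y k).dim = (2 * j + e) * (k + 1) := by rw [dim_power, hn]
  refine contraction_ineq (K := W.K) (H₁ := W.H (power Y k)) (H₂ := W.H Y)
    (H₃ := W.H ((power Y k).prod Y)) (A₁ := algTensors W Y f q j k)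
    (V₁ := tensorSpace W Y f q j k)
    (A₂ := algSpan W Y (2 * j)) (V₂ := tateSpace W Y f q j)
    (A₃ := algSpan W ((power Y k).prod Y) (2 * (j * (k + 1 + 1))) ⊓ tsucc W Y f q j k)
    (V₃ := tsucc W Y f q j k)
    inf_le_right (alg_le_tate hF ⟨b, hb0⟩) inf_le_right (cc W D e k) (cc' W D e k)
    ?_ ?_ ?_ (form W (power Y k) (theta W D e k)) (form W Y (W.cl Y D ^ e)) ?_ ?_ ?_
  · rintro x ⟨hx, -⟩ u ⟨hu, -⟩
    refine contr_alg (theta_alg hD e k) ?_ hx hu
    rw [hdim]
    ring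
  · rintro x ⟨hx, hx2⟩ v hv
    refine ⟨contr'_alg (pow_algSpan hD e) ?_ hx hv, cc'_mem hD hx2 (alg_le_tate hF ⟨b, hb0⟩ hv)⟩
    rw [hn]
    ring
  · intro x hx u hu
    exact cc_mem hD hx hu
  · intro x hx u hu v hv
    exact cc_adj hD hx hu hv
  · intro v hv h
    exact hN v hv h
  · intro x hx h
    exact eq_zero_of_cc hD hnd hx h

/-- If the generalized eigenspace is algebraic, so are its tensor powers. -/
lemma tensor_alg (h : tateSpace W Y f q j ≤ algSpan W Y (2 * j)) (k : ℕ) :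
    tensorSpace W Y f q j k ≤ algSpan W (power Y k) (2 * (j * (k + 1))) := by
  induction k with
  | zero =>
    rw [show 2 * (j * (0 + 1)) = 2 * j by ring]
    exact h
  | succ k ih =>
    rw [tensorSpace, prodSpan, Submodule.span_le]
    rintro _ ⟨a, ha, b, hb, rfl⟩
    rw [show 2 * (j * (k + 1 + 1)) = 2 * (j * (k + 1)) + 2 * j by ring]
    exact algSpan_mul (algSpan_map _ (ih ha)) (algSpan_map _ (h hb))

/-- Nondegeneracy on divisors with coefficients. -/
lemma divisor_span (hD : Y.IsCyc 1 D) (h2 : 2 ≤ Y.dim) (h : DivisorForm W Y D) :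
    ∀ x ∈ algSpan W Y (2 * 1), (∀ y ∈ algSpan W Y (2 * 1),
      W.tr Y (x * (y * W.cl Y D ^ (Y.dim - 2))) = 0) → x = 0 := by
  intro x hx horth
  have hrep : ∃ (m : ℕ) (c : Fin m → W.K) (z : Fin m → Y.Cycles), (∀ i, Y.IsCyc 1 (z i)) ∧
      x = ∑ i, c i • W.cl Y (z i) := by
    rw [algSpan, Submodule.mem_span_set'] at hx
    obtain ⟨m, c, g, hg⟩ := hx
    choose p' hp' z hz hz' using fun i => (g i).2
    refine ⟨m, c, z, fun i => ?_, ?_⟩
    · have : p' i = 1 := by have := hp' i; omega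
      rw [← this]; exact hz i
    · rw [← hg]
      exact Finset.sum_congr rfl (fun i _ => by rw [hz' i])
  obtain ⟨m, c, z, hz, rfl⟩ := hrep
  obtain ⟨t, ht, htc⟩ : ∃ t, Y.IsCyc (Y.dim - 2) t ∧ W.cl Y t = W.cl Y D ^ (Y.dim - 2) := by
    generalize Y.dim - 2 = e
    induction e with
    | zero => exact ⟨_, SmVar.fundCycle_mem _, by rw [pow_zero]; exact W.cl_fund Y⟩
    | succ e ih =>
      obtain ⟨t, ht, htc⟩ := ih
      exact ⟨ops.mul t D, ops.mul_mem ht hD, by rw [W.cl_mul, htc, pow_succ]⟩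
  refine sum_smul_eq_zero (K := W.K) (V := W.H Y) c (fun i => W.cl Y (z i)) ?_
  intro ret
  set s : Y.Cycles := ∑ i, ret (c i) • z i with hs
  have hscyc : Y.IsCyc 1 s := by
    rw [hs]
    refine Finset.sum_induction _ (fun u => Y.IsCyc 1 u) (fun a b => SmVar.IsCyc.add)
      (SmVar.IsCyc.zero _ _) (fun i _ => (hz i).smul _)
  have hcl : W.cl Y s = ∑ i, ((ret (c i) : ℚ) : W.K) • W.cl Y (z i) := by
    rw [hs, map_sum]
    exact Finset.sum_congr rfl (fun i _ => cl_smul W _ _)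
  rw [← hcl]
  refine h _ ⟨s, hscyc, rfl⟩ ?_
  rintro _ ⟨w, hw, rfl⟩
  have hrat : ∀ i, W.tr Y (W.cl Y (z i) * (W.cl Y w * W.cl Y D ^ (Y.dim - 2))) =
      ((Y.V.degCycle (ops.mul (z i) (ops.mul w t)) : ℚ) : W.K) := by
    intro i
    rw [← htc, ← W.cl_mul, ← W.cl_mul, W.tr_cl]
    have h3 := ops.mul_mem (hz i) (ops.mul_mem hw ht)
    rwa [show 1 + (1 + (Y.dim - 2)) = Y.dim by omega] at h3
  have h4 := horth (W.cl Y w) (Submodule.subset_span ⟨1, rfl, w, hw, rfl⟩)
  rw [Finset.sum_mul, map_sum] at h4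
  rw [hcl, Finset.sum_mul, map_sum]
  have h5 : ∑ i, W.tr Y (((ret (c i) : ℚ) : W.K) • W.cl Y (z i) *
      (W.cl Y w * W.cl Y D ^ (Y.dim - 2))) =
      ((ret (∑ i, W.tr Y (c i • W.cl Y (z i) * (W.cl Y w * W.cl Y D ^ (Y.dim - 2)))) : ℚ) :
        W.K) := by
    rw [map_sum]
    push_cast
    apply Finset.sum_congr rfl
    intro i _
    rw [smul_mul_assoc, smul_mul_assoc, map_smul, map_smul, hrat, smul_eq_mul, smul_eq_mul,
      ret_mul]
    push_cast; rfl
  rw [h5, h4, map_zero, Rat.cast_zero]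

/-- **All or half.** -/
theorem main [IsAlgClosed W.K] (hD : Y.IsCyc 1 D) (hHL : HardLefschetz W Y D)
    (h1 : (1 : W.H Y) ≠ 0) (h2 : 2 ≤ Y.dim) (hF : IsFrobenius W Y f q) (hq : 0 < q)
    (hN : DivisorForm W Y D) {m ρ : ℕ} {b : ℕ → ℕ}
    (hm : m = tateDim W Y f q) (hρ : ρ = divDim W Y) (hb : ∀ k, b k = tensorDim W Y f q k) :
    (∀ k, b (k + 1) ≤ ρ * b k + (m ^ (k + 1) - b k) * (m - ρ)) ∧
    (m ≤ 2 * ρ → ∀ k, 2 * b k ≤ m ^ (k + 1) + (2 * ρ - m) ^ (k + 1)) ∧
    List.TFAE [ρ = m, ∀ k, b k = m ^ (k + 1),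
      ∃ k, m ^ (k + 1) + (m - 2) ^ (k + 1) < 2 * b k ∧
        m ^ (k + 2) + (m - 2) ^ (k + 2) < 2 * b (k + 1)] := by
  replace hm : m = Module.finrank W.K (tateSpace W Y f q 1) := hm
  replace hρ : ρ = Module.finrank W.K (algSpan W Y 2) := hρ
  replace hb : ∀ k, b k = Module.finrank W.K (algTensors W Y f q 1 k) := hb
  obtain ⟨c, hc, hc0⟩ := exists_top (W := W) hD hHL h1
  have hn : Y.dim = 2 * 1 + (Y.dim - 2) := by omega
  have hnd := nondeg_base (j := 1) hD hHL h1 hF hq hn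
  have hle := alg_le_tate (j := 1) hF ⟨c, hc0⟩
  have hρm : ρ ≤ m := by
    rw [hρ, hm]
    exact Submodule.finrank_mono hle
  have hb0 : b 0 = ρ := by
    rw [hb, hρ]
    have h3 : algTensors W Y f q 1 0 = algSpan W Y 2 := by
      have h4 : algTensors W Y f q 1 0 = algSpan W Y (2 * 1) ⊓ tateSpace W Y f q 1 := rfl
      rw [h4]
      exact inf_eq_left.2 hle
    exact congrArg (fun S : Submodule W.K (W.H Y) => Module.finrank W.K S) h3
  have hbm : ∀ k, b k ≤ m ^ (k + 1) := by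
    intro k
    rw [hb, hm, ← finrank_tensor hD hnd k]
    exact Submodule.finrank_mono inf_le_right
  have hrec : ∀ k, b (k + 1) ≤ ρ * b k + (m ^ (k + 1) - b k) * (m - ρ) := by
    intro k
    rw [hb, hb, hm, hρ]
    exact step hD hHL h1 hF hq hn (divisor_span hD h2 hN) k
  have hm1 : 1 ≤ m := by
    rw [hm, Nat.one_le_iff_ne_zero]
    intro h0
    rw [Submodule.finrank_eq_zero] at h0
    have h3 : W.cl Y D ∈ tateSpace W Y f q 1 :=
      hle (Submodule.subset_span ⟨1, rfl, D, hD, rfl⟩)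
    rw [h0, Submodule.mem_bot] at h3
    have h4 := (hHL 0 (by omega)).1 1 (W.one_mem Y) (by
      rw [← lp_eq, lp_apply, h3, Nat.sub_zero, zero_pow (by omega), zero_mul])
    exact h1 h4
  refine ⟨hrec, half_bound hρm hb0 hbm hrec, ?_⟩
  tfae_have 1 → 2 := by
    intro h3 k
    have h4 : algSpan W Y (2 * 1) = tateSpace W Y f q 1 :=
      Submodule.eq_of_le_of_finrank_le hle (by rw [← hm, ← h3, hρ])
    have h5 := tensor_alg h4.ge k
    rw [hb, hm, ← finrank_tensor hD hnd k, algTensors, inf_eq_right.2 h5]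
  tfae_have 2 → 3 := by
    intro h3
    refine ⟨0, ?_, ?_⟩
    · rw [h3 0, zero_add, pow_one, pow_one]
      omega
    · rw [h3 1]
      have h4 : (m - 2) ^ (0 + 2) < m ^ (0 + 2) := Nat.pow_lt_pow_left (by omega) (by omega)
      have h5 : m ^ (1 + 1) = m ^ (0 + 2) := rfl
      omega
  tfae_have 3 → 1 := by
    rintro ⟨k, h3, h4⟩
    exact eq_of_half hρm hb0 hbm hrec h3 h4
  tfae_finish

end Pool.Agent.U227.Hl
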