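import Mathlib

/-!
# Jordan blocks and multiplicities of an operator on a stable subspace: definitions
-/

set_option autoImplicit false

namespace Pool.Agent.U227.Jb

variable {K : Type*} [Field K] {V : Type*} [AddCommGroup V] [Module K V]

/-- The subspace `U ∩ ker (F - α) ∩ im (F - α) ^ j`. -/
noncomputable def layer (F : Module.End K V) (U : Submodule K V) (α : K) (j : ℕ) :
    Submodule K V :=
  U ⊓ F.eigenspace α ⊓ LinearMap.range ((F - α • (1 : Module.End K V)) ^ j)

/-- The number of Jordan blocks of size `j + 1` with eigenvalue `α` of the operator `F` on the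
`F`-stable direct summand `U`: the dimension of `U ∩ ker (F - α) ∩ im (F - α) ^ j` minus the dimension of
`U ∩ ker (F - α) ∩ im (F - α) ^ (j + 1)`. -/
noncomputable def blocks (F : Module.End K V) (U : Submodule K V) (α : K) (j : ℕ) : ℕ :=
  Module.finrank K (layer F U α j) - Module.finrank K (layer F U α (j + 1))

/-- The algebraic multiplicity of the eigenvalue `α` of `F` on `U`. -/
noncomputable def algMult (F : Module.End K V) (U : Submodule K V) (α : K) : ℕ :=
  Module.finrank K (U ⊓ F.maxGenEigenspace α : Submodule K V)

/-- The geometric multiplicity of the eigenvalue `α` of `F` on `U`. -/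
noncomputable def geoMult (F : Module.End K V) (U : Submodule K V) (α : K) : ℕ :=
  Module.finrank K (U ⊓ F.eigenspace α : Submodule K V)

/-- For subspaces `gr 0, ..., gr (2 n)`: the sum over `i`, over all `α` and over all sizes of the squares of
the numbers of Jordan blocks of this size with eigenvalue `α` of `F` on `gr i`. -/
noncomputable def blockSum (F : Module.End K V) (gr : ℕ → Submodule K V) (n : ℕ) : ℕ :=
  ∑ i ∈ Finset.range (2 * n + 1), ∑ᶠ α : K,
    ∑ j ∈ Finset.range (Module.finrank K V), blocks F (gr i) α j ^ 2

/-- The sum over `i ≤ 2 n` and over all `α` of the squares of the algebraic multiplicities. -/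
noncomputable def squareSum (F : Module.End K V) (gr : ℕ → Submodule K V) (n : ℕ) : ℕ :=
  ∑ i ∈ Finset.range (2 * n + 1), ∑ᶠ α : K, algMult F (gr i) α ^ 2

/-- The sum over `i ≤ 2 n` and over all `α` of the differences of the algebraic and the geometric
multiplicities, i.e. the rank of the nilpotent part of `F`. -/
noncomputable def nilRank (F : Module.End K V) (gr : ℕ → Submodule K V) (n : ℕ) : ℕ :=
  ∑ i ∈ Finset.range (2 * n + 1), ∑ᶠ α : K, (algMult F (gr i) α - geoMult F (gr i) α)

end Pool.Agent.U227.Jb
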