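import Pool.Agent.U227.FrDefs
import Pool.Agent.U227.JbDefs0

/-!
# Numerical correspondences and Jordan blocks of Frobenius: definitions
-/

set_option autoImplicit false

open CategoryTheory AlgebraicGeometry

universe u v

namespace Pool.Agent.U227.Jb

open Pool.Agent.H914 VarClass Obj WeilCohomology Pool.Agent.U227.Fr

variable {k : Type u} [Field k] {𝒱 : VarClass k}

/-- The group of the cycles of codimension `p` on `Y` modulo numerical equivalence has rank at least
`r`: there are cycles `z_1, ..., z_r` of codimension `p` and `w_1, ..., w_r` of codimension `dim Y - p`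
such that the determinant of the matrix of the intersection numbers `deg(z_a · w_b)` is not zero. -/
def NumRankAtLeast (ops : CycleOps 𝒱) (Y : 𝒱.Obj) (p r : ℕ) : Prop :=
  ∃ z w : Fin r → Y.Cycles, (∀ a, Y.IsCyc p (z a)) ∧ (∀ b, Y.IsCyc (Y.dim - p) (w b)) ∧
    (Matrix.of fun a b => Y.V.degCycle (ops.mul (z a) (w b))).det ≠ 0

variable {ops : CycleOps 𝒱} (W : WeilCohomology.{u, v} ops) (X : 𝒱.Obj) (f : X ⟶ X)

/-- The sum over `i`, over the eigenvalues `α` of `f^*` on `H^i(X)` and over all `j ≥ 1` of the squares of
the numbers of Jordan blocks of size `j` with eigenvalue `α`. -/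
noncomputable def jordanSum : ℕ :=
  blockSum (W.map f).toLinearMap (W.gr X) X.dim

/-- The rank of the nilpotent part of `f^*`: the sum over `i` and over the eigenvalues of `f^*` on
`H^i(X)` of the differences of the algebraic and the geometric multiplicities. -/
noncomputable def nilpotentRank : ℕ :=
  nilRank (W.map f).toLinearMap (W.gr X) X.dim

/-- The algebraic multiplicity of `q ^ n` as an eigenvalue of `(f × f)^*` on `H^(2n)(X × X)`, where
`n = dim X`. If `f` is the Frobenius endomorphism this is the order of the pole of the zeta function of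
`X × X` at `s = n`. -/
noncomputable def poleOrder (q : ℕ) : ℕ :=
  algMult (W.map (squareMap f)).toLinearMap (W.gr (X.prod X) (2 * X.dim)) ((q : W.K) ^ X.dim)

end Pool.Agent.U227.Jb
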