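import Pool.Agent.U227.JbNum

/-!
# Duality: the rank of the nilpotent part is not one
-/

set_option autoImplicit false
set_option linter.unusedSectionVars false

open Module Finset

namespace Pool.Agent.U227.Jb

variable {K : Type*} [Field K] {V : Type*} [AddCommGroup V] [Module K V] [FiniteDimensional K V]

lemma sum_eq_one {T : Type*} [DecidableEq T] {s : Finset T} {g : T → ℕ} (h : ∑ t ∈ s, g t = 1) :
    ∃ t ∈ s, g t = 1 ∧ ∀ t' ∈ s, t' ≠ t → g t' = 0 := by
  have h1 : ∃ t ∈ s, g t ≠ 0 := by
    by_contra hcon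
    push Not at hcon
    rw [Finset.sum_eq_zero hcon] at h
    omega
  obtain ⟨t, ht, ht0⟩ := h1
  have h2 := Finset.add_sum_erase s g ht
  have h3 : ∑ x ∈ s.erase t, g x = 0 := by omega
  refine ⟨t, ht, by omega, fun t' ht' hne => ?_⟩
  exact (Finset.sum_eq_zero_iff.1 h3) t' (Finset.mem_erase.2 ⟨hne, ht'⟩)

/-- **The rank of the nilpotent part is not one.** -/
theorem nilRank_ne_one [IsAlgClosed K] (h2 : (2 : K) ≠ 0) {F : Module.End K V}
    {gr : ℕ → Submodule K V} {n : ℕ}
    (hF : ∀ i, ∀ x ∈ gr i, F x ∈ gr i) (htop : ⨆ i, gr i = ⊤)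
    (hbot : ∀ i, 2 * n < i → gr i = ⊥) (B : V →ₗ[K] V →ₗ[K] K) {c : K} (hc : c ≠ 0)
    (hB : ∀ x y, B (F x) (F y) = c * B x y)
    (hgr : ∀ i j, i + j ≠ 2 * n → ∀ x ∈ gr i, ∀ y ∈ gr j, B x y = 0)
    (hnd : ∀ x, (∀ y, B x y = 0) → x = 0)
    (hsym : ∀ x ∈ gr n, ∀ y ∈ gr n, B x y = B y x) : nilRank F gr n ≠ 1 := by
  classical
  intro h
  rw [nilRank_eq hF, ← Finset.sum_product'] at h
  obtain ⟨⟨i₀, α⟩, ht, ht1, hother⟩ := sum_eq_one h
  simp only at ht1
  -- a chain of length two
  have hex : ∃ x ∈ gr i₀ ⊓ F.maxGenEigenspace α, F x ≠ α • x := by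
    by_contra hcon
    push Not at hcon
    have h3 : gr i₀ ⊓ F.maxGenEigenspace α ≤ gr i₀ ⊓ F.eigenspace α := fun x hx =>
      ⟨hx.1, Module.End.mem_eigenspace_iff.2 (hcon x hx)⟩
    have h4 := Submodule.finrank_mono h3
    rw [← algMult, ← geoMult] at h4
    omega
  obtain ⟨x, ⟨hx1, hx2⟩, hx3⟩ := hex
  rw [SetLike.mem_coe, Module.End.mem_maxGenEigenspace] at hx2
  obtain ⟨k, hk⟩ := hx2
  obtain ⟨y, hyU, hy1, hy2⟩ := exists_chain (hF i₀) hx1 hk (fun h => hx3 (eq_of_sub h))
  set w := (F - α • (1 : Module.End K V)) y with hw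
  have hwF : F w = α • w := by
    apply eq_of_sub
    rw [hw, ← Module.End.mul_apply, ← sq]
    exact hy2
  have hyF : F y = α • y + w := by
    rw [hw, LinearMap.sub_apply, LinearMap.smul_apply, Module.End.one_apply]
    abel
  have hwU : w ∈ gr i₀ := by
    rw [hw, LinearMap.sub_apply, LinearMap.smul_apply, Module.End.one_apply]
    exact Submodule.sub_mem _ (hF _ _ hyU) (Submodule.smul_mem _ _ hyU)
  -- the generalized eigenspace
  have hspan : ∀ x ∈ gr i₀ ⊓ F.maxGenEigenspace α, ∃ e, F e = α • e ∧ ∃ t : K, x = e + t • y := by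
    have h3 : (gr i₀ ⊓ F.eigenspace α) ⊔ Submodule.span K {y} =
        gr i₀ ⊓ F.maxGenEigenspace α := by
      apply Submodule.eq_of_le_of_finrank_le
      · apply sup_le (inf_le_inf_left _ eig_le_max)
        rw [Submodule.span_singleton_le_iff_mem]
        exact ⟨hyU, Module.End.mem_maxGenEigenspace _ _ _ |>.2 ⟨2, hy2⟩⟩
      · have h4 : gr i₀ ⊓ F.eigenspace α < (gr i₀ ⊓ F.eigenspace α) ⊔ Submodule.span K {y} := by
          refine lt_of_le_of_ne le_sup_left fun h5 => ?_
          have h6 : y ∈ gr i₀ ⊓ F.eigenspace α := by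
            rw [h5]
            exact (le_sup_right : Submodule.span K {y} ≤ _) (Submodule.mem_span_singleton_self y)
          exact hy1 (sub_apply_eq (Module.End.mem_eigenspace_iff.1 h6.2))
        have h5 := Submodule.finrank_lt_finrank_of_lt h4
        rw [← geoMult] at h5
        rw [← algMult]
        omega
    intro x hx
    rw [← h3] at hx
    obtain ⟨e, he, z, hz, rfl⟩ := Submodule.mem_sup.1 hx
    obtain ⟨t, rfl⟩ := Submodule.mem_span_singleton.1 hz
    exact ⟨e, Module.End.mem_eigenspace_iff.1 he.2, t, rfl⟩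
  -- eigenvectors are orthogonal to `w`
  have hort : ∀ (e : V) (β : K), F e = β • e → B w e = 0 := by
    intro e β he
    have h3 := hB y e
    have h4 := hB w e
    rw [hyF, he, map_add, LinearMap.add_apply, map_smul, map_smul, map_smul, LinearMap.smul_apply,
      smul_eq_mul, smul_eq_mul, smul_eq_mul] at h3
    rw [hwF, he, map_smul, map_smul, LinearMap.smul_apply, smul_eq_mul, smul_eq_mul] at h4
    by_cases h5 : α * β = c
    · have hβ : β ≠ 0 := by
        rintro rfl
        rw [mul_zero] at h5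
        exact hc h5.symm
      have h6 : β * B w e = 0 := by
        rw [← h5] at h3
        linear_combination h3
      exact (mul_eq_zero.1 h6).resolve_left hβ
    · have h6 : (α * β - c) * B w e = 0 := by linear_combination h4
      exact (mul_eq_zero.1 h6).resolve_left (sub_ne_zero.2 h5)
  -- `w` is not orthogonal to `y`
  have hwy : B w y ≠ 0 := by
    intro h0
    apply hy1
    apply hnd
    have hle : ∀ i, gr i ≤ LinearMap.ker (B w) := by
      intro i
      have h1 : gr i = ⨆ μ, gr i ⊓ F.maxGenEigenspace μ := by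
        rw [← Submodule.inf_iSup_genEigenspace (h := hF i) (k := ⊤),
          show (⨆ μ, F.genEigenspace μ ⊤) = ⊤ from Module.End.iSup_maxGenEigenspace_eq_top F,
          inf_top_eq]
      rw [h1]
      apply iSup_le
      intro μ x hx
      rw [LinearMap.mem_ker]
      by_cases hi : 2 * n < i
      · have h3 := hx.1
        rw [hbot i hi] at h3
        rw [(Submodule.mem_bot K).1 h3, map_zero]
      by_cases hμ : μ ∈ eigs F
      · by_cases ht' : (i, μ) = (i₀, α)
        · obtain ⟨rfl, rfl⟩ := Prod.mk.inj ht'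
          obtain ⟨e, he, t, rfl⟩ := hspan x hx
          rw [map_add, map_smul, h0, smul_zero, add_zero]
          exact hort e _ he
        · have h3 := hother (i, μ) (Finset.mem_product.2
            ⟨Finset.mem_range.2 (by omega), hμ⟩) ht'
          simp only at h3
          exact hort x μ (eq_of_mult (by omega) hx)
      · have h3 := alg_of_notMem (hF i) hμ
        exact hort x μ (eq_of_mult (by rw [h3]; exact Nat.zero_le _) hx)
    have h3 : (⊤ : Submodule K V) ≤ LinearMap.ker (B w) := by
      rw [← htop]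
      exact iSup_le hle
    intro x
    exact h3 (Submodule.mem_top (x := x))
  have hi₀ : i₀ = n := by
    by_contra hne
    exact hwy (hgr i₀ i₀ (by omega) w hwU y hyU)
  subst hi₀
  have hww : B w w = 0 := hort w α hwF
  have h3 := hB w y
  rw [hwF, hyF, map_add, map_smul, map_smul, LinearMap.smul_apply, LinearMap.smul_apply, hww,
    smul_zero, add_zero, smul_eq_mul, smul_eq_mul] at h3
  have hα : α * α = c := by
    apply mul_right_cancel₀ hwy
    linear_combination h3
  have h4 := hB y y
  rw [hyF, map_add, map_add, map_smul, map_smul, LinearMap.add_apply, LinearMap.add_apply,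
    LinearMap.smul_apply, LinearMap.smul_apply, hww, smul_eq_mul, smul_eq_mul, smul_eq_mul,
    hsym y hyU w hwU, ← hα] at h4
  have h5 : 2 * α * B w y = 0 := by linear_combination h4
  have hα0 : α ≠ 0 := by
    rintro rfl
    rw [mul_zero] at hα
    exact hc hα.symm
  exact hwy ((mul_eq_zero.1 h5).resolve_left (mul_ne_zero h2 hα0))

end Pool.Agent.U227.Jb
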