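import Pool.Agent.U227.JbDefs0

/-!
# Operators commuting with a given operator, and Jordan blocks
-/

set_option autoImplicit false
set_option linter.unusedSectionVars false

open Module Finset

namespace Pool.Agent.U227.Jb

variable {K : Type*} [Field K] {V : Type*} [AddCommGroup V] [Module K V] [FiniteDimensional K V]

/-- A complement of `A` in `B` with a projection. -/
lemma exists_compr {A B : Submodule K V} (hAB : A ≤ B) :
    ∃ (C : Submodule K V) (π : V →ₗ[K] C), C ≤ B ∧ (∀ x ∈ A, π x = 0) ∧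
      (∀ x ∈ B, x - (π x : V) ∈ A) ∧ finrank K C = finrank K B - finrank K A := by
  obtain ⟨W', hW'⟩ := A.exists_isCompl
  have hdis : A ⊓ (B ⊓ W') = ⊥ := by
    rw [eq_bot_iff]
    exact (inf_le_inf_left A inf_le_right).trans hW'.disjoint.le_bot
  have hsup : A ⊔ (B ⊓ W') = B := by
    rw [inf_comm, ← sup_inf_assoc_of_le W' hAB, hW'.sup_eq_top, top_inf_eq]
  let g : (B ⊓ W' : Submodule K V) →ₗ[K] V ⧸ A := A.mkQ ∘ₗ (B ⊓ W').subtype
  have hg : LinearMap.ker g = ⊥ := by
    rw [eq_bot_iff]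
    intro x hx
    rw [LinearMap.mem_ker, LinearMap.comp_apply, Submodule.mkQ_apply,
      Submodule.Quotient.mk_eq_zero] at hx
    rw [Submodule.mem_bot]
    apply Subtype.ext
    have h1 : (x : V) ∈ A ⊓ (B ⊓ W') := ⟨hx, x.2⟩
    rw [hdis] at h1
    exact (Submodule.mem_bot K).1 h1
  obtain ⟨g', hg'⟩ := g.exists_leftInverse_of_injective hg
  have hA : ∀ x ∈ A, (g' ∘ₗ A.mkQ) x = 0 := by
    intro x hx
    rw [LinearMap.comp_apply, Submodule.mkQ_apply, (Submodule.Quotient.mk_eq_zero A).2 hx, map_zero]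
  have hC : ∀ x : (B ⊓ W' : Submodule K V), (g' ∘ₗ A.mkQ) (x : V) = x := by
    intro x
    exact congrArg (fun h => h x) hg'
  refine ⟨B ⊓ W', g' ∘ₗ A.mkQ, inf_le_left, hA, ?_, ?_⟩
  · intro x hx
    rw [← hsup] at hx
    obtain ⟨a, ha, c, hc, rfl⟩ := Submodule.mem_sup.1 hx
    rw [map_add, hA a ha, zero_add, hC ⟨c, hc⟩]
    simpa using ha
  · have h1 := Submodule.finrank_sup_add_finrank_inf_eq A (B ⊓ W')
    rw [hsup, hdis, finrank_bot, add_zero] at h1
    omega

section Layer

variable {F : Module.End K V} {U : Submodule K V} {α : K}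

lemma mem_layer {j : ℕ} {x : V} : x ∈ layer F U α j ↔
    (x ∈ U ∧ F x = α • x) ∧ ∃ y, ((F - α • (1 : Module.End K V)) ^ j) y = x := by
  rw [layer, Submodule.mem_inf, Submodule.mem_inf, Module.End.mem_eigenspace_iff,
    LinearMap.mem_range]

lemma layer_succ_le (j : ℕ) : layer F U α (j + 1) ≤ layer F U α j := by
  intro x hx
  rw [mem_layer] at hx ⊢
  obtain ⟨h, y, hy⟩ := hx
  exact ⟨h, (F - α • (1 : Module.End K V)) y, by
    rw [← Module.End.mul_apply, ← pow_succ]; exact hy⟩

lemma layer_zero : layer F U α 0 = U ⊓ F.eigenspace α := by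
  ext x
  rw [mem_layer, Submodule.mem_inf, Module.End.mem_eigenspace_iff]
  exact ⟨fun h => h.1, fun h => ⟨h, x, rfl⟩⟩

lemma comm_sub {u : Module.End K V} (hu : Commute F u) :
    Commute (F - α • (1 : Module.End K V)) u :=
  hu.sub_left ((Commute.one_left u).smul_left α)

lemma comm_apply {N u : Module.End K V} (h : Commute N u) (n : ℕ) (x : V) :
    (N ^ n) (u x) = u ((N ^ n) x) := by
  rw [← Module.End.mul_apply, ← Module.End.mul_apply, (h.pow_left n).eq]

lemma layer_stable {u : Module.End K V} (hu : Commute F u) (hU : ∀ x ∈ U, u x ∈ U) {j : ℕ} {x : V}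
    (hx : x ∈ layer F U α j) : u x ∈ layer F U α j := by
  rw [mem_layer] at hx ⊢
  obtain ⟨⟨h1, h2⟩, y, hy⟩ := hx
  refine ⟨⟨hU x h1, ?_⟩, u y, ?_⟩
  · have h3 := comm_apply hu 1 x
    rw [pow_one] at h3
    rw [h3, h2, map_smul]
  · rw [comm_apply (comm_sub hu), hy]

lemma sub_apply_eq {x : V} (h : F x = α • x) : (F - α • (1 : Module.End K V)) x = 0 := by
  rw [LinearMap.sub_apply, LinearMap.smul_apply, Module.End.one_apply, h, sub_self]

lemma eq_of_sub {x : V} (h : (F - α • (1 : Module.End K V)) x = 0) : F x = α • x := by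
  rw [LinearMap.sub_apply, LinearMap.smul_apply, Module.End.one_apply, sub_eq_zero] at h
  exact h

lemma ker_stab {N : Module.End K V} {a : ℕ} {x : V} (h : (N ^ a) x = 0) :
    (N ^ finrank K V) x = 0 := by
  have h1 : x ∈ LinearMap.ker (N ^ a) := h
  exact Module.End.ker_pow_le_ker_pow_finrank N a h1

lemma layer_top {j : ℕ} (hj : finrank K V ≤ j) : layer F U α j = ⊥ := by
  rw [eq_bot_iff]
  intro x hx
  rw [mem_layer] at hx
  obtain ⟨⟨-, h2⟩, y, hy⟩ := hx
  have h3 : ((F - α • (1 : Module.End K V)) ^ (j + 1)) y = 0 := by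
    rw [pow_succ', Module.End.mul_apply, hy, sub_apply_eq h2]
  have h4 := ker_stab h3
  rw [Submodule.mem_bot, ← hy]
  obtain ⟨t, rfl⟩ := Nat.exists_eq_add_of_le hj
  rw [add_comm, pow_add, Module.End.mul_apply, h4, map_zero]

end Layer

section Nil

variable [IsAlgClosed K] {F u : Module.End K V} {ι : Type*} {U : ι → Submodule K V}

/-- Operators commuting with `F` which lower all layers are nilpotent. -/
theorem nilp (hF : ∀ i, ∀ x ∈ U i, F x ∈ U i) (htop : ⨆ i, U i = ⊤) (hu : Commute F u)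
    (hU : ∀ i, ∀ x ∈ U i, u x ∈ U i)
    (h : ∀ i α j, ∀ x ∈ layer F (U i) α j, u x ∈ layer F (U i) α (j + 1)) : IsNilpotent u := by
  set d := finrank K V with hd
  have hpow : ∀ i (α : K) (j n : ℕ), ∀ x ∈ layer F (U i) α j, (u ^ n) x ∈ layer F (U i) α (j + n) := by
    intro i α j n
    induction n with
    | zero => intro x hx; exact hx
    | succ n ih =>
      intro x hx
      rw [pow_succ', Module.End.mul_apply]
      exact h i α (j + n) _ (ih x hx)
  have hker : ∀ i (α : K), ∀ x ∈ U i, (F - α • (1 : Module.End K V)) x = 0 → (u ^ d) x = 0 := by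
    intro i α x hx h0
    have h1 := hpow i α 0 d x (by
      rw [layer_zero, Submodule.mem_inf, Module.End.mem_eigenspace_iff]
      exact ⟨hx, eq_of_sub h0⟩)
    rw [layer_top (by omega)] at h1
    exact (Submodule.mem_bot K).1 h1
  have hNU : ∀ i (α : K) (n : ℕ), ∀ x ∈ U i, ((F - α • (1 : Module.End K V)) ^ n) x ∈ U i := by
    intro i α n
    induction n with
    | zero => intro x hx; exact hx
    | succ n ih =>
      intro x hx
      rw [pow_succ', Module.End.mul_apply, LinearMap.sub_apply, LinearMap.smul_apply,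
        Module.End.one_apply]
      exact Submodule.sub_mem _ (hF i _ (ih x hx)) (Submodule.smul_mem _ _ (ih x hx))
  have huU : ∀ i (n : ℕ), ∀ x ∈ U i, (u ^ n) x ∈ U i := by
    intro i n
    induction n with
    | zero => intro x hx; exact hx
    | succ n ih =>
      intro x hx
      rw [pow_succ', Module.End.mul_apply]
      exact hU i _ (ih x hx)
  have hall : ∀ i (α : K) (a : ℕ), ∀ x ∈ U i, ((F - α • (1 : Module.End K V)) ^ a) x = 0 →
      (u ^ (d * a)) x = 0 := by
    intro i α a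
    induction a with
    | zero =>
      intro x _ h0
      rw [pow_zero, Module.End.one_apply] at h0
      rw [h0, map_zero]
    | succ a ih =>
      intro x hx h0
      have h1 : ((F - α • (1 : Module.End K V)) ^ a) ((u ^ d) x) = 0 := by
        rw [comm_apply ((comm_sub hu).pow_right d)]
        apply hker i α _ (hNU i α a x hx)
        rw [← Module.End.mul_apply, ← pow_succ']
        exact h0
      rw [Nat.mul_succ, pow_add, Module.End.mul_apply]
      exact ih _ (huU i d x hx) h1
  refine ⟨d * d, ?_⟩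
  have hle : ∀ i, U i ≤ LinearMap.ker (u ^ (d * d)) := by
    intro i
    have h1 : U i = ⨆ μ, U i ⊓ F.maxGenEigenspace μ := by
      rw [← Submodule.inf_iSup_genEigenspace (h := hF i) (k := ⊤),
        show (⨆ μ, F.genEigenspace μ ⊤) = ⊤ from Module.End.iSup_maxGenEigenspace_eq_top F,
        inf_top_eq]
    rw [h1]
    apply iSup_le
    rintro μ x ⟨hx, hx2⟩
    rw [SetLike.mem_coe, Module.End.mem_maxGenEigenspace] at hx2
    obtain ⟨k, hk⟩ := hx2
    exact hall i μ d x hx (ker_stab hk)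
  have h2 : (⊤ : Submodule K V) ≤ LinearMap.ker (u ^ (d * d)) := by
    rw [← htop]
    exact iSup_le hle
  apply LinearMap.ext
  intro x
  exact h2 (Submodule.mem_top (x := x))

/-- Many operators commuting with `F`: some combination lowers the layers. -/
theorem exists_comb (I : Finset ι) (S : Finset K) {r : ℕ} (v : Fin r → Module.End K V)
    (hv : ∀ a, Commute F (v a)) (hvU : ∀ a i, ∀ x ∈ U i, v a x ∈ U i)
    (hr : ∑ i ∈ I, ∑ α ∈ S, ∑ j ∈ range (finrank K V), blocks F (U i) α j ^ 2 < r) :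
    ∃ c : Fin r → K, c ≠ 0 ∧ ∀ i ∈ I, ∀ α ∈ S, ∀ j < finrank K V, ∀ x ∈ layer F (U i) α j,
      (∑ a, c a • v a) x ∈ layer F (U i) α (j + 1) := by
  classical
  choose C π hCB hπA hπB hfin using fun (t : ι × K × ℕ) =>
    exists_compr (layer_succ_le (F := F) (U := U t.1) (α := t.2.1) t.2.2)
  let T := ↥(I ×ˢ S ×ˢ range (finrank K V))
  let Φ : (Fin r → K) →ₗ[K] ((t : T) → (C t.1 →ₗ[K] C t.1)) :=
    LinearMap.pi fun t => ∑ a, (LinearMap.proj a : (Fin r → K) →ₗ[K] K).smulRight
      ((π t.1) ∘ₗ (v a) ∘ₗ (C t.1).subtype)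
  have hΦ : ∀ c t x, (Φ c t x) = π t.1 ((∑ a, c a • v a) (x : V)) := by
    intro c t x
    simp only [Φ, LinearMap.pi_apply, LinearMap.sum_apply, LinearMap.smulRight_apply,
      LinearMap.proj_apply, LinearMap.smul_apply, LinearMap.comp_apply, Submodule.subtype_apply,
      map_sum, map_smul]
  have hdim : finrank K ((t : T) → (C t.1 →ₗ[K] C t.1)) < r := by
    rw [Module.finrank_pi_fintype]
    have h1 : ∀ t : T, finrank K (C t.1 →ₗ[K] C t.1) =
        blocks F (U t.1.1) t.1.2.1 t.1.2.2 ^ 2 := by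
      intro t
      rw [Module.finrank_linearMap, hfin, blocks, sq]
    rw [Finset.sum_congr rfl fun t _ => h1 t]
    rw [Finset.sum_coe_sort (I ×ˢ S ×ˢ range (finrank K V))
      (fun t : ι × K × ℕ => blocks F (U t.1) t.2.1 t.2.2 ^ 2), Finset.sum_product]
    refine lt_of_eq_of_lt (Finset.sum_congr rfl fun i _ => ?_) hr
    rw [Finset.sum_product]
  have hker : LinearMap.ker Φ ≠ ⊥ := by
    intro h0
    have h1 := LinearMap.finrank_le_finrank_of_injective (LinearMap.ker_eq_bot.1 h0)
    rw [Module.finrank_pi, Fintype.card_fin] at h1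
    omega
  obtain ⟨c, hc, hc0⟩ := (Submodule.ne_bot_iff _).1 hker
  refine ⟨c, hc0, ?_⟩
  intro i hi α hα j hj x hx
  set w : Module.End K V := ∑ a, c a • v a with hw
  have hwF : Commute F w := by
    rw [hw]
    exact Commute.sum_right _ _ _ fun a _ => (hv a).smul_right (c a)
  have hwU : ∀ i, ∀ x ∈ U i, w x ∈ U i := by
    intro i x hx
    rw [hw, LinearMap.sum_apply]
    exact Submodule.sum_mem _ fun a _ => Submodule.smul_mem _ _ (hvU a i x hx)
  let t : T := ⟨(i, α, j), by
    simp only [Finset.mem_product, Finset.mem_range]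
    exact ⟨hi, hα, hj⟩⟩
  have hΦt : ∀ y : C t.1, π t.1 (w (y : V)) = 0 := by
    intro y
    rw [← hΦ c t y, LinearMap.mem_ker.1 hc]
    rfl
  have h1 := hπB t.1 x hx
  have h2 : w ((π t.1 x : V)) ∈ layer F (U i) α (j + 1) := by
    have h3 := hπB t.1 (w (π t.1 x : V)) (layer_stable hwF (hwU i) (hCB t.1 (π t.1 x).2))
    rw [hΦt] at h3
    simpa using h3
  have h4 : w (x - (π t.1 x : V)) ∈ layer F (U i) α (j + 1) := layer_stable hwF (hwU i) h1
  have h5 : w x = w (x - (π t.1 x : V)) + w (π t.1 x : V) := by rw [← map_add, sub_add_cancel]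
  rw [h5]
  exact Submodule.add_mem _ h4 h2

/-- **Correspondences and Jordan blocks.** -/
theorem exists_nil (hF : ∀ i, ∀ x ∈ U i, F x ∈ U i) (htop : ⨆ i, U i = ⊤) (I : Finset ι)
    (hI : ∀ i ∉ I, U i = ⊥) (S : Finset K) (hS : ∀ α ∉ S, F.eigenspace α = ⊥) {r : ℕ}
    (v : Fin r → Module.End K V)
    (hv : ∀ a, Commute F (v a)) (hvU : ∀ a i, ∀ x ∈ U i, v a x ∈ U i)
    (hr : ∑ i ∈ I, ∑ α ∈ S, ∑ j ∈ range (finrank K V), blocks F (U i) α j ^ 2 < r) :
    ∃ c : Fin r → K, c ≠ 0 ∧ ∀ w : Module.End K V, Commute F w → (∀ i, ∀ x ∈ U i, w x ∈ U i) →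
      IsNilpotent ((∑ a, c a • v a) * w) := by
  obtain ⟨c, hc0, hc⟩ := exists_comb I S v hv hvU hr
  refine ⟨c, hc0, fun w hwF hwU => ?_⟩
  have huF : Commute F (∑ a, c a • v a) :=
    Commute.sum_right _ _ _ fun a _ => (hv a).smul_right (c a)
  have huU : ∀ i, ∀ x ∈ U i, (∑ a, c a • v a) x ∈ U i := by
    intro i x hx
    rw [LinearMap.sum_apply]
    exact Submodule.sum_mem _ fun a _ => Submodule.smul_mem _ _ (hvU a i x hx)
  refine nilp hF htop (huF.mul_right hwF) (fun i x hx => huU i _ (hwU i x hx)) ?_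
  intro i α j x hx
  rw [Module.End.mul_apply]
  have h1 := layer_stable hwF (hwU i) hx
  by_cases hi : i ∈ I
  · by_cases hα : α ∈ S
    · by_cases hj : j < finrank K V
      · exact hc i hi α hα j hj _ h1
      · rw [layer_top (by omega), Submodule.mem_bot] at h1
        rw [h1, map_zero]
        exact Submodule.zero_mem _
    · have h2 : w x = 0 := by
        have h3 := (mem_layer.1 h1).1.2
        rw [← Module.End.mem_eigenspace_iff, hS α hα] at h3
        exact (Submodule.mem_bot K).1 h3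
      rw [h2, map_zero]
      exact Submodule.zero_mem _
  · have h2 : w x = 0 := by
      have h3 := (mem_layer.1 h1).1.1
      rw [hI i hi] at h3
      exact (Submodule.mem_bot K).1 h3
    rw [h2, map_zero]
    exact Submodule.zero_mem _

end Nil

end Pool.Agent.U227.Jb
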