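import Pool.Agent.U227.JbLin

/-!
# Multiplicities and Jordan blocks
-/

set_option autoImplicit false
set_option linter.unusedSectionVars false

open Module Finset

namespace Pool.Agent.U227.Jb

variable {K : Type*} [Field K] {V : Type*} [AddCommGroup V] [Module K V] [FiniteDimensional K V]

variable {F : Module.End K V} {U : Submodule K V} {α : K}

/-- The set of eigenvalues. -/
noncomputable def eigs (F : Module.End K V) : Finset K :=
  (Module.End.finite_hasEigenvalue F).toFinset

lemma eigenspace_of_notMem (h : α ∉ eigs F) : F.eigenspace α = ⊥ := by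
  by_contra hne
  apply h
  rw [eigs, Set.Finite.mem_toFinset]
  exact hne

lemma layer_antitone (n : ℕ) : finrank K (layer F U α (n + 1)) ≤ finrank K (layer F U α n) :=
  Submodule.finrank_mono (layer_succ_le n)

lemma sum_blocks_le (d : ℕ) : ∑ j ∈ range d, blocks F U α j ^ 2 ≤
    (finrank K (layer F U α 0) - finrank K (layer F U α d)) ^ 2 := by
  have hmono : ∀ n, finrank K (layer F U α n) ≤ finrank K (layer F U α 0) := by
    intro n
    induction n with
    | zero => exact le_rfl
    | succ n ih => exact (layer_antitone n).trans ih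
  induction d with
  | zero => simp
  | succ d ih =>
    rw [Finset.sum_range_succ, blocks]
    have h1 := layer_antitone (F := F) (U := U) (α := α) d
    have h2 := hmono d
    obtain ⟨s, hs⟩ := Nat.exists_eq_add_of_le h1
    obtain ⟨t, ht⟩ := Nat.exists_eq_add_of_le h2
    have e1 : finrank K (layer F U α 0) - finrank K (layer F U α d) = t := by omega
    have e2 : finrank K (layer F U α d) - finrank K (layer F U α (d + 1)) = s := by omega
    have e3 : finrank K (layer F U α 0) - finrank K (layer F U α (d + 1)) = t + s := by omega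
    rw [e1] at ih
    rw [e2, e3]
    nlinarith [Nat.zero_le (t * s)]

lemma blocks_le_geo (d : ℕ) : ∑ j ∈ range d, blocks F U α j ^ 2 ≤ geoMult F U α ^ 2 := by
  refine (sum_blocks_le d).trans ?_
  rw [geoMult, ← layer_zero]
  exact Nat.pow_le_pow_left (Nat.sub_le _ _) 2

lemma eig_le_max : F.eigenspace α ≤ F.maxGenEigenspace α := by
  intro x hx
  rw [Module.End.mem_eigenspace_iff] at hx
  rw [Module.End.mem_maxGenEigenspace]
  exact ⟨1, by rw [pow_one]; exact sub_apply_eq hx⟩

lemma geo_le_alg : geoMult F U α ≤ algMult F U α :=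
  Submodule.finrank_mono (inf_le_inf_left U eig_le_max)

lemma pow_stable (hF : ∀ x ∈ U, F x ∈ U) (n : ℕ) :
    ∀ x ∈ U, ((F - α • (1 : Module.End K V)) ^ n) x ∈ U := by
  induction n with
  | zero => intro x hx; exact hx
  | succ n ih =>
    intro x hx
    rw [pow_succ', Module.End.mul_apply, LinearMap.sub_apply, LinearMap.smul_apply,
      Module.End.one_apply]
    exact Submodule.sub_mem _ (hF _ (ih x hx)) (Submodule.smul_mem _ _ (ih x hx))

/-- A chain of length two in a generalized eigenspace. -/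
lemma exists_chain (hF : ∀ x ∈ U, F x ∈ U) {x : V} (hx : x ∈ U) {k : ℕ}
    (hk : ((F - α • (1 : Module.End K V)) ^ k) x = 0)
    (h1 : (F - α • (1 : Module.End K V)) x ≠ 0) :
    ∃ y ∈ U, (F - α • (1 : Module.End K V)) y ≠ 0 ∧
      ((F - α • (1 : Module.End K V)) ^ 2) y = 0 := by
  classical
  have hex : ∃ k, ((F - α • (1 : Module.End K V)) ^ k) x = 0 := ⟨k, hk⟩
  set m := Nat.find hex with hm
  have hm0 := Nat.find_spec hex
  have hmin : ∀ l < m, ((F - α • (1 : Module.End K V)) ^ l) x ≠ 0 := fun l hl =>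
    Nat.find_min hex hl
  have hm2 : 2 ≤ m := by
    by_contra hcon
    push Not at hcon
    have : m = 0 ∨ m = 1 := by omega
    rcases this with h | h
    · rw [← hm, h, pow_zero, Module.End.one_apply] at hm0
      rw [hm0, map_zero] at h1
      exact h1 rfl
    · rw [← hm, h, pow_one] at hm0
      exact h1 hm0
  obtain ⟨t, ht⟩ := Nat.exists_eq_add_of_le hm2
  refine ⟨((F - α • (1 : Module.End K V)) ^ t) x, pow_stable hF t x hx, ?_, ?_⟩
  · rw [← Module.End.mul_apply, ← pow_succ']
    exact hmin _ (by omega)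
  · rw [← Module.End.mul_apply, ← pow_add, ← ht]
    exact hm0

lemma geo_pos (hF : ∀ x ∈ U, F x ∈ U) (h : geoMult F U α = 0) : algMult F U α = 0 := by
  have h0 : U ⊓ F.eigenspace α = ⊥ := Submodule.finrank_eq_zero.1 h
  rw [algMult, Submodule.finrank_eq_zero, eq_bot_iff]
  rintro x ⟨hx, hx2⟩
  rw [SetLike.mem_coe, Module.End.mem_maxGenEigenspace] at hx2
  obtain ⟨k, hk⟩ := hx2
  have hinj : ∀ k, ∀ x ∈ U, ((F - α • (1 : Module.End K V)) ^ k) x = 0 → x = 0 := by
    intro k
    induction k with
    | zero => intro x _ h0; exact h0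
    | succ k ih =>
      intro x hx h1
      rw [pow_succ', Module.End.mul_apply] at h1
      have h2 : ((F - α • (1 : Module.End K V)) ^ k) x ∈ U ⊓ F.eigenspace α :=
        ⟨pow_stable hF k x hx, Module.End.mem_eigenspace_iff.2 (eq_of_sub h1)⟩
      rw [h0] at h2
      exact ih x hx ((Submodule.mem_bot K).1 h2)
  rw [Submodule.mem_bot]
  exact hinj k x hx hk

lemma alg_of_notMem (hF : ∀ x ∈ U, F x ∈ U) (h : α ∉ eigs F) : algMult F U α = 0 := by
  apply geo_pos hF
  rw [geoMult, eigenspace_of_notMem h, inf_bot_eq, finrank_bot]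

lemma geo_of_notMem (h : α ∉ eigs F) : geoMult F U α = 0 := by
  rw [geoMult, eigenspace_of_notMem h, inf_bot_eq, finrank_bot]

lemma blocks_of_notMem (h : α ∉ eigs F) (j : ℕ) : blocks F U α j = 0 := by
  rw [blocks, layer, eigenspace_of_notMem h, inf_bot_eq, bot_inf_eq, finrank_bot]
  exact Nat.zero_sub _

lemma mult_ineq (hF : ∀ x ∈ U, F x ∈ U) :
    geoMult F U α ^ 2 + 3 * (algMult F U α - geoMult F U α) ≤ algMult F U α ^ 2 := by
  have h1 := geo_le_alg (F := F) (U := U) (α := α)
  have h2 := geo_pos (α := α) hF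
  obtain ⟨t, ht⟩ := Nat.exists_eq_add_of_le h1
  rw [ht, Nat.add_sub_cancel_left]
  rcases Nat.eq_zero_or_pos (geoMult F U α) with h3 | h3
  · have h4 := h2 h3
    have : t = 0 := by omega
    subst this
    simp
  · rcases Nat.eq_zero_or_pos t with h4 | h4
    · subst h4; simp
    · nlinarith [Nat.mul_le_mul h3 h4, Nat.mul_le_mul h4 h4]

section Sums

variable {gr : ℕ → Submodule K V} {n : ℕ}

lemma blockSum_eq : blockSum F gr n = ∑ i ∈ range (2 * n + 1), ∑ α ∈ eigs F,
    ∑ j ∈ range (finrank K V), blocks F (gr i) α j ^ 2 := by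
  apply Finset.sum_congr rfl
  intro i _
  apply finsum_eq_sum_of_support_subset
  intro α hα
  by_contra h
  apply hα
  apply Finset.sum_eq_zero
  intro j _
  rw [blocks_of_notMem h, sq, mul_zero]

lemma squareSum_eq (hF : ∀ i, ∀ x ∈ gr i, F x ∈ gr i) : squareSum F gr n =
    ∑ i ∈ range (2 * n + 1), ∑ α ∈ eigs F, algMult F (gr i) α ^ 2 := by
  apply Finset.sum_congr rfl
  intro i _
  apply finsum_eq_sum_of_support_subset
  intro α hα
  by_contra h
  apply hα
  change algMult F (gr i) α ^ 2 = 0
  rw [alg_of_notMem (hF i) h, sq, mul_zero]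

lemma nilRank_eq (hF : ∀ i, ∀ x ∈ gr i, F x ∈ gr i) : nilRank F gr n =
    ∑ i ∈ range (2 * n + 1), ∑ α ∈ eigs F, (algMult F (gr i) α - geoMult F (gr i) α) := by
  apply Finset.sum_congr rfl
  intro i _
  apply finsum_eq_sum_of_support_subset
  intro α hα
  by_contra h
  apply hα
  change algMult F (gr i) α - geoMult F (gr i) α = 0
  rw [alg_of_notMem (hF i) h, Nat.zero_sub]

/-- The inequality between the sums. -/
theorem blockSum_add (hF : ∀ i, ∀ x ∈ gr i, F x ∈ gr i) :
    blockSum F gr n + 3 * nilRank F gr n ≤ squareSum F gr n := by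
  rw [blockSum_eq, squareSum_eq hF, nilRank_eq hF, Finset.mul_sum, ← Finset.sum_add_distrib]
  apply Finset.sum_le_sum
  intro i _
  rw [Finset.mul_sum, ← Finset.sum_add_distrib]
  apply Finset.sum_le_sum
  intro α _
  exact (Nat.add_le_add_right (blocks_le_geo _) _).trans (mult_ineq (hF i))

/-- Semisimplicity from the equality of the multiplicities. -/
theorem semisimple_of [IsAlgClosed K] (hF : ∀ i, ∀ x ∈ gr i, F x ∈ gr i)
    (htop : ⨆ i, gr i = ⊤)
    (h : ∀ i α, ∀ x ∈ gr i ⊓ F.maxGenEigenspace α, F x = α • x) : F.IsSemisimple := by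
  classical
  set p : Polynomial K := ∏ α ∈ eigs F, (Polynomial.X - Polynomial.C α) with hp
  have hsq : Squarefree p := by
    have h1 : p.Separable := by
      rw [hp]
      exact Polynomial.separable_prod_X_sub_C_iff'.2 fun x _ y _ hxy => hxy
    exact h1.squarefree
  refine Module.End.isSemisimple_of_squarefree_aeval_eq_zero hsq ?_
  have hle : ∀ i, gr i ≤ LinearMap.ker (Polynomial.aeval F p) := by
    intro i
    have h1 : gr i = ⨆ μ, gr i ⊓ F.maxGenEigenspace μ := by
      rw [← Submodule.inf_iSup_genEigenspace (h := hF i) (k := ⊤),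
        show (⨆ μ, F.genEigenspace μ ⊤) = ⊤ from Module.End.iSup_maxGenEigenspace_eq_top F,
        inf_top_eq]
    rw [h1]
    apply iSup_le
    intro μ x hx
    rw [LinearMap.mem_ker]
    have h2 := h i μ x hx
    by_cases hμ : μ ∈ eigs F
    · rw [hp, ← Finset.prod_erase_mul _ _ hμ, map_mul, Module.End.mul_apply]
      have h3 : (Polynomial.aeval F (Polynomial.X - Polynomial.C μ)) x = 0 := by
        rw [map_sub, Polynomial.aeval_X, Polynomial.aeval_C, LinearMap.sub_apply,
          Module.algebraMap_end_apply, h2, sub_self]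
      rw [h3, map_zero]
    · have h3 : x ∈ F.eigenspace μ := Module.End.mem_eigenspace_iff.2 h2
      rw [eigenspace_of_notMem hμ, Submodule.mem_bot] at h3
      rw [h3, map_zero]
  have h2 : (⊤ : Submodule K V) ≤ LinearMap.ker (Polynomial.aeval F p) := by
    rw [← htop]
    exact iSup_le hle
  apply LinearMap.ext
  intro x
  exact h2 (Submodule.mem_top (x := x))

lemma eq_of_mult (hα : algMult F U α ≤ geoMult F U α) {x : V}
    (hx : x ∈ U ⊓ F.maxGenEigenspace α) : F x = α • x := by
  have h1 : U ⊓ F.eigenspace α = U ⊓ F.maxGenEigenspace α :=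
    Submodule.eq_of_le_of_finrank_le (inf_le_inf_left U eig_le_max) hα
  rw [← h1] at hx
  exact Module.End.mem_eigenspace_iff.1 hx.2

/-- If the sum of the differences of the multiplicities is zero, the operator is semisimple. -/
theorem semisimple_of_nilRank [IsAlgClosed K] (hF : ∀ i, ∀ x ∈ gr i, F x ∈ gr i)
    (htop : ⨆ i, gr i = ⊤) (hbot : ∀ i, 2 * n < i → gr i = ⊥) (h : nilRank F gr n = 0) :
    F.IsSemisimple := by
  apply semisimple_of hF htop
  intro i α x hx
  by_cases hi : 2 * n < i
  · have h1 := hx.1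
    rw [hbot i hi] at h1
    have h2 : x = 0 := (Submodule.mem_bot K).1 h1
    rw [h2, map_zero, smul_zero]
  · rw [nilRank_eq hF] at h
    apply eq_of_mult (U := gr i) _ hx
    by_cases hα : α ∈ eigs F
    · have h1 := (Finset.sum_eq_zero_iff.1 h) i (Finset.mem_range.2 (by omega))
      have h2 := (Finset.sum_eq_zero_iff.1 h1) α hα
      omega
    · rw [alg_of_notMem (hF i) hα]
      exact Nat.zero_le _

end Sums

end Pool.Agent.U227.Jb
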