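import Pool.Agent.U227.JbDefs
import Pool.Agent.U227.JbDual
import Pool.Agent.U227.JbKun
import Pool.Agent.U227.GapGeo

/-!
# Numerical correspondences and Jordan blocks of Frobenius
-/

set_option autoImplicit false
set_option linter.unusedSectionVars false

open CategoryTheory AlgebraicGeometry Finset

universe u v

namespace Pool.Agent.U227.Jb

open Pool.Agent.H914 Pool.Agent.H447 VarClass Obj WeilCohomology Pool.Agent.U227.Grp
  Pool.Agent.U227.Fr Pool.Agent.U227.Gap

variable {k : Type u} [Field k] {𝒱 : VarClass k} {ops : CycleOps 𝒱}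
  {W : WeilCohomology.{u, v} ops} {X : 𝒱.Obj} {D : X.Cycles} {f : X ⟶ X} {q : ℕ}

lemma iSup_gr : ⨆ i, W.gr X i = ⊤ := (W.isInternal X).submodule_iSup_eq_top

lemma gr_bot (i : ℕ) (hi : i ∉ range (2 * X.dim + 1)) : W.gr X i = ⊥ :=
  W.gr_eq_bot X i (by rw [Finset.mem_range] at hi; omega)

/-- **The number of independent correspondences is bounded by the Jordan blocks.** -/
theorem rank_le [IsAlgClosed W.K] (hD : X.IsCyc 1 D) (hHL : HardLefschetz W X D)
    (h1 : (1 : W.H X) ≠ 0) (hF : IsFrobenius W X f q) (hq : 0 < q) {r : ℕ}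
    (hr : NumRankAtLeast ops (X.prod X) X.dim r) :
    r ≤ blockSum (W.map f).toLinearMap (W.gr X) X.dim := by
  by_contra hcon
  push Not at hcon
  obtain ⟨z, w, hz, hw, hdet⟩ := hr
  rw [dim_prod, show X.dim + X.dim - X.dim = X.dim by omega] at hw
  rw [blockSum_eq] at hcon
  have hcomm : ∀ {y : (X.prod X).Cycles}, (X.prod X).IsCyc X.dim y →
      Commute ((W.map f).toLinearMap : Module.End W.K (W.H X)) (W.corr (W.cl _ y)) := by
    intro y hy
    apply LinearMap.ext
    intro a
    exact (kop_comm hD hHL h1 hF hq (kop_of_rop (rop_of_cyc hy)) a).symm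
  have hgr : ∀ {y : (X.prod X).Cycles}, (X.prod X).IsCyc X.dim y → ∀ i, ∀ a ∈ W.gr X i,
      W.corr (W.cl _ y) a ∈ W.gr X i := fun hy i a ha => kop_gr (kop_of_rop (rop_of_cyc hy)) ha
  obtain ⟨c, hc0, hc⟩ := exists_nil (F := (W.map f).toLinearMap) (U := W.gr X)
    (fun i x hx => map_gr hx) iSup_gr
    (range (2 * X.dim + 1)) (fun i hi => gr_bot i hi) (eigs (W.map f).toLinearMap)
    (fun α hα => eigenspace_of_notMem hα)
    (fun a => (W.corr (W.cl _ (z a)) : Module.End W.K (W.H X))) (fun a => hcomm (hz a))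
    (fun a i x hx => hgr (hz a) i x hx) hcon
  -- the combination of the rows vanishes
  have hkey : ∀ b, ∑ a, c a * ((((X.prod X).V.degCycle (ops.mul (z a) (w b)) : ℚ)) : W.K) = 0 := by
    intro b
    have hw' := ops.pull_mem (swap X X) (hw b)
    have hnil := hc (W.corr (W.cl _ (ops.pull (swap X X) (w b)))) (hcomm hw')
      (fun i x hx => hgr hw' i x hx)
    have hpar : Commute (par (W.isInternal X))
        ((∑ a, c a • (W.corr (W.cl _ (z a)) : Module.End W.K (W.H X))) *
          W.corr (W.cl _ (ops.pull (swap X X) (w b)))) := by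
      apply LinearMap.ext
      intro y
      have hT : ∀ i, ∀ y ∈ W.gr X i, ((∑ a, c a • (W.corr (W.cl _ (z a)) :
          Module.End W.K (W.H X))) * W.corr (W.cl _ (ops.pull (swap X X) (w b)))) y ∈
            W.gr X i := by
        intro i y hy
        rw [Module.End.mul_apply, LinearMap.sum_apply]
        exact Submodule.sum_mem _ fun a _ => Submodule.smul_mem _ _
          (hgr (hz a) i _ (hgr hw' i y hy))
      have h3 : ∀ i, ∀ y ∈ W.gr X i, (par (W.isInternal X) *
          ((∑ a, c a • (W.corr (W.cl _ (z a)) : Module.End W.K (W.H X))) *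
          W.corr (W.cl _ (ops.pull (swap X X) (w b))))) y =
          (((∑ a, c a • (W.corr (W.cl _ (z a)) : Module.End W.K (W.H X))) *
          W.corr (W.cl _ (ops.pull (swap X X) (w b)))) * par (W.isInternal X)) y := by
        intro i y hy
        rw [Module.End.mul_apply, Module.End.mul_apply _ (par (W.isInternal X)), par,
          scal_apply (W.isInternal X) _ (hT i y hy), scal_apply (W.isInternal X) _ hy, map_smul]
      have h4 := gr_ext (W.isInternal X) (F := par (W.isInternal X) *
          ((∑ a, c a • (W.corr (W.cl _ (z a)) : Module.End W.K (W.H X))) *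
          W.corr (W.cl _ (ops.pull (swap X X) (w b))))) h3
      rw [h4]
    have hnil2 : IsNilpotent (par (W.isInternal X) *
        ((∑ a, c a • (W.corr (W.cl _ (z a)) : Module.End W.K (W.H X))) *
          W.corr (W.cl _ (ops.pull (swap X X) (w b))))) := hpar.isNilpotent_mul_left hnil
    have htr := (LinearMap.isNilpotent_trace_of_isNilpotent hnil2).eq_zero
    rw [Finset.sum_mul, Finset.mul_sum, map_sum] at htr
    rw [← htr]
    apply Finset.sum_congr rfl
    intro a _
    rw [smul_mul_assoc, mul_smul_comm, map_smul, smul_eq_mul,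
      str_eq_deg (W := W) (by omega) (hz a) hw']
    congr 2
    have h4 := tr_mul_cl (W := W) (hz a) (ops.pull_mem (swap X X) (ops.pull_mem (swap X X) (hw b)))
        (by rw [dim_prod])
    rw [W.cl_pull, W.cl_pull, map_swap_swap, tr_mul_cl (hz a) (hw b) (by rw [dim_prod])] at h4
    exact_mod_cast h4
  have hdet' : ((Matrix.of fun a b => ((X.prod X).V.degCycle (ops.mul (z a) (w b)) : ℚ)).map
      (algebraMap ℚ W.K)).det ≠ 0 := by
    have h3 := RingHom.map_det (algebraMap ℚ W.K)
      (Matrix.of fun a b => ((X.prod X).V.degCycle (ops.mul (z a) (w b)) : ℚ))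
    rw [RingHom.mapMatrix_apply] at h3
    rw [← h3]
    intro h4
    exact hdet ((map_eq_zero _).1 h4)
  apply hdet'
  apply Matrix.exists_vecMul_eq_zero_iff.1
  refine ⟨c, hc0, ?_⟩
  funext b
  exact hkey b

/-- The pairing on the cohomology. -/
noncomputable def pairB (W : WeilCohomology.{u, v} ops) (X : 𝒱.Obj) :
    W.H X →ₗ[W.K] W.H X →ₗ[W.K] W.K :=
  (LinearMap.mul W.K (W.H X)).compr₂ (W.tr X)

lemma pairB_apply (x y : W.H X) : pairB W X x y = W.tr X (x * y) := rfl

/-- In even dimensions the rank of the nilpotent part is not one. -/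
theorem nil_ne_one [IsAlgClosed W.K] (hD : X.IsCyc 1 D) (hHL : HardLefschetz W X D)
    (h1 : (1 : W.H X) ≠ 0) (hF : IsFrobenius W X f q) (hq : 0 < q) (hn : Even X.dim) :
    nilRank (W.map f).toLinearMap (W.gr X) X.dim ≠ 1 := by
  have hqK : ((q : W.K) ^ X.dim) ≠ 0 := pow_ne_zero _ (by exact_mod_cast hq.ne')
  refine nilRank_ne_one two_ne_zero (fun i x hx => map_gr hx) iSup_gr
    (fun i hi => W.gr_eq_bot X i hi) (pairB W X) hqK ?_ ?_ ?_ ?_
  · intro x y
    rw [pairB_apply, pairB_apply, ← frob_tr hD hHL h1 hF, map_mul (W.map f)]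
    rfl
  · intro i j hij x hx y hy
    rw [pairB_apply]
    exact W.tr_eq_zero (W.mul_mem hx hy) hij
  · intro x hx
    exact W.nondeg x hx
  · intro x hx y hy
    rw [pairB_apply, pairB_apply, W.comm hx hy]
    have h2 : Even (X.dim * X.dim) := hn.mul_right _
    rw [h2.neg_one_pow, one_smul]

/-- The sum of the squares of the multiplicities is at most the multiplicity on the square. -/
theorem squareSum_le_pole [IsAlgClosed W.K] (hD : X.IsCyc 1 D) (hHL : HardLefschetz W X D)
    (h1 : (1 : W.H X) ≠ 0) (hF : IsFrobenius W X f q) (hq : 0 < q) :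
    squareSum (W.map f).toLinearMap (W.gr X) X.dim ≤ poleOrder W X f q := by
  have hqK : ((q : W.K) ^ X.dim) ≠ 0 := pow_ne_zero _ (by exact_mod_cast hq.ne')
  refine squareSum_le (fun i x hx => map_gr hx) iSup_gr (W.isInternal X).submodule_iSupIndep
    (pairB W X) hqK ?_ ?_ ?_
    (L := (LinearMap.mul W.K (W.H (X.prod X))).compl₁₂ (W.map (fst X X)).toLinearMap
      (W.map (snd X X)).toLinearMap) (W.kunneth X X).1 ?_ ?_
  · intro x y
    rw [pairB_apply, pairB_apply, ← frob_tr hD hHL h1 hF, map_mul (W.map f)]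
    rfl
  · intro i j hij x hx y hy
    rw [pairB_apply]
    exact W.tr_eq_zero (W.mul_mem hx hy) hij
  · intro x hx
    exact W.nondeg x hx
  · intro i j a ha b hb
    exact W.mul_mem (W.map_mem _ ha) (W.map_mem _ hb)
  · intro a b
    exact map_squareMap f a b

/-- **Numerical correspondences and Jordan blocks of Frobenius.** -/
theorem main [IsAlgClosed W.K] (hD : X.IsCyc 1 D) (hHL : HardLefschetz W X D)
    (hF : IsFrobenius W X f q) (hq : 0 < q) {r : ℕ}
    (hr : NumRankAtLeast ops (X.prod X) X.dim r) :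
    r ≤ jordanSum W X f ∧ r + 3 * nilpotentRank W X f ≤ poleOrder W X f q ∧
    (poleOrder W X f q ≤ r + 2 →
      Module.End.IsSemisimple (R := W.K) (M := W.H X) (W.map f).toLinearMap) ∧
    (Even X.dim → poleOrder W X f q ≤ r + 5 →
      Module.End.IsSemisimple (R := W.K) (M := W.H X) (W.map f).toLinearMap) := by
  have hst : ∀ i, ∀ x ∈ W.gr X i, (W.map f).toLinearMap x ∈ W.gr X i := fun i x hx => map_gr hx
  have hsum := blockSum_add (n := X.dim) hst
  rw [jordanSum, nilpotentRank]
  by_cases h1 : (1 : W.H X) = 0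
  · have hz : ∀ y : W.H X, y = 0 := fun y => by rw [← one_mul y, h1, zero_mul]
    have hz2 : ∀ y : W.H (X.prod X), y = 0 := fun y => by
      have h2 : (1 : W.H (X.prod X)) = 0 := by
        rw [← map_one (W.map (fst X X)), h1, map_zero]
      rw [← one_mul y, h2, zero_mul]
    have hr0 : r = 0 := by
      by_contra hr0
      obtain ⟨z, w, hz', hw, hdet⟩ := hr
      apply hdet
      rw [dim_prod, show X.dim + X.dim - X.dim = X.dim by omega] at hw
      have h3 : ∀ a b, (X.prod X).V.degCycle (ops.mul (z a) (w b)) = 0 := by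
        intro a b
        have h4 := tr_mul_cl (W := W) (hz' a) (hw b) (by rw [dim_prod])
        rw [hz2 (W.cl _ (z a) * W.cl _ (w b)), map_zero] at h4
        exact_mod_cast h4.symm
      have h5 : (Matrix.of fun a b => (X.prod X).V.degCycle (ops.mul (z a) (w b))) = 0 := by
        ext a b
        exact h3 a b
      rw [h5]
      have : Nonempty (Fin r) := ⟨⟨0, by omega⟩⟩
      exact Matrix.det_zero
    subst hr0
    have h2 : ((W.map f).toLinearMap : Module.End W.K (W.H X)) = 0 := by
      apply LinearMap.ext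
      intro y
      rw [hz ((W.map f).toLinearMap y)]
      rfl
    have h3 : squareSum (W.map f).toLinearMap (W.gr X) X.dim = 0 := by
      rw [squareSum_eq hst]
      apply Finset.sum_eq_zero
      intro i _
      apply Finset.sum_eq_zero
      intro α _
      have h4 : (W.gr X i ⊓ Module.End.maxGenEigenspace (W.map f).toLinearMap α :
          Submodule W.K (W.H X)) = ⊥ := by
        rw [Submodule.eq_bot_iff]
        exact fun y _ => hz y
      rw [algMult, h4, finrank_bot, sq, mul_zero]
    have hss : Module.End.IsSemisimple (R := W.K) (M := W.H X) (W.map f).toLinearMap := by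
      rw [h2]
      exact Module.End.isSemisimple_zero
    exact ⟨Nat.zero_le _, by omega, fun _ => hss, fun _ _ => hss⟩
  have hle := rank_le hD hHL h1 hF hq hr
  have hP := squareSum_le_pole hD hHL h1 hF hq
  have hss : nilRank (W.map f).toLinearMap (W.gr X) X.dim = 0 →
      Module.End.IsSemisimple (R := W.K) (M := W.H X) (W.map f).toLinearMap :=
    semisimple_of_nilRank hst iSup_gr (fun i hi => W.gr_eq_bot X i hi) (n := X.dim)
  refine ⟨hle, by omega, fun h => hss (by omega), fun hn h => hss ?_⟩
  have h2 := nil_ne_one hD hHL h1 hF hq hn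
  omega

end Pool.Agent.U227.Jb
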