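import Pool.Agent.U227.NmRank

/-!
# Stable subspaces, duality and ranks
-/

set_option autoImplicit false
set_option linter.unusedSectionVars false

open CategoryTheory AlgebraicGeometry Finset

universe u v

namespace Pool.Agent.U227.Nm

open Pool.Agent.H914 Pool.Agent.H447 VarClass Obj WeilCohomology Pool.Agent.U227.Grp
  Pool.Agent.U227.Fr Pool.Agent.U227.Gap Pool.Agent.U227.Jb

variable {k : Type u} [Field k] {𝒱 : VarClass k} {ops : CycleOps 𝒱}
  {W : WeilCohomology.{u, v} ops} {X : 𝒱.Obj} {D : X.Cycles} {f : X ⟶ X} {q : ℕ}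

lemma mem_I_of_ne [IsAlgClosed W.K] {i : ℕ} {α : W.K} (h : eigenPart W X f i α ≠ ⊥) :
    (i, α) ∈ range (2 * X.dim + 1) ×ˢ eigs (K := W.K) (V := W.H X) (W.map f).toLinearMap := by
  rw [Finset.mem_product]
  constructor
  · by_contra hi
    apply h
    rw [eigenPart, genPart, gr_bot i hi, bot_inf_eq]
  · by_contra hα
    exact h (eigenPart_of_notMem hα)

lemma kop_stable {S : Submodule W.K (W.H X)} (hst : ∀ φ ∈ cycOps W X X.dim, ∀ x ∈ S, φ x ∈ S)
    {φ : W.H X →ₗ[W.K] W.H X} (hφ : φ ∈ KOp W X X 0) {x : W.H X} (hx : x ∈ S) : φ x ∈ S := by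
  induction hφ using Submodule.span_induction with
  | mem φ hφ =>
    obtain ⟨p, hp, z, hz, rfl⟩ := hφ
    obtain rfl : p = X.dim := by omega
    exact hst _ ⟨W.cl _ z, ⟨z, hz, rfl⟩, rfl⟩ x hx
  | zero => exact Submodule.zero_mem _
  | add a b _ _ ha hb => exact Submodule.add_mem _ ha hb
  | smul c a _ ha => exact Submodule.smul_mem _ c ha

lemma cyc_kop {φ : W.H X →ₗ[W.K] W.H X} (hφ : φ ∈ cycOps W X X.dim) : φ ∈ KOp W X X 0 := by
  obtain ⟨_, ⟨z, hz, rfl⟩, rfl⟩ := hφ
  exact kop_of_rop (rop_of_cyc hz)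

/-- **One stable subspace.** -/
theorem bound_one [IsAlgClosed W.K] (hD : X.IsCyc 1 D) (hHL : HardLefschetz W X D)
    (h1 : (1 : W.H X) ≠ 0) (hF : IsFrobenius W X f q) (hq : 0 < q) {r : ℕ}
    (hr : NumRankAtLeast ops (X.prod X) X.dim r) {i : ℕ} {α : W.K} {T : Submodule W.K (W.H X)}
    (hT : IsStablePart (cycOps W X X.dim) (eigenPart W X f i α) T) :
    r + 2 * dimProd (eigenPart W X f i α) T ≤ poleOrder W X f q := by
  classical
  obtain ⟨hle, hbot, -, hst⟩ := hT
  have hne : eigenPart W X f i α ≠ ⊥ := by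
    intro h
    rw [h] at hle
    exact hbot (le_bot_iff.1 hle)
  have hI := mem_I_of_ne (W := W) hne
  refine le_trans ?_ (rank_family hD hHL h1 hF hq hr (fun t => if t = (i, α) then T else ⊥) ?_ ?_)
  · apply Nat.add_le_add_left
    apply Nat.mul_le_mul_left
    have h2 := Finset.single_le_sum (f := fun t : ℕ × W.K => dimProd (eigenPart W X f t.1 t.2)
      (if t = (i, α) then T else ⊥)) (fun t _ => Nat.zero_le _) hI
    simp only [if_true] at h2
    exact h2
  · intro t
    by_cases ht : t = (i, α)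
    · rw [if_pos ht, ht]; exact hle
    · rw [if_neg ht]; exact bot_le
  · intro t φ hφ x hx
    by_cases ht : t = (i, α)
    · simp only [if_pos ht] at hx ⊢
      exact hst φ hφ x hx
    · simp only [if_neg ht] at hx ⊢
      rw [Submodule.mem_bot] at hx ⊢
      rw [hx, map_zero]

lemma pairB_frob (hD : X.IsCyc 1 D) (hHL : HardLefschetz W X D) (h1 : (1 : W.H X) ≠ 0)
    (hF : IsFrobenius W X f q) (x y : W.H X) :
    pairB W X ((W.map f).toLinearMap x) ((W.map f).toLinearMap y) =
      (q : W.K) ^ X.dim * pairB W X x y := by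
  rw [pairB_apply, pairB_apply, ← frob_tr hD hHL h1 hF, map_mul (W.map f)]
  rfl

lemma pairB_gr (i j : ℕ) (hij : i + j ≠ 2 * X.dim) (x : W.H X) (hx : x ∈ W.gr X i) (y : W.H X)
    (hy : y ∈ W.gr X j) : pairB W X x y = 0 := by
  rw [pairB_apply]
  exact W.tr_eq_zero (W.mul_mem hx hy) hij

/-- The pairing of an eigenpart with the dual one is nondegenerate. -/
lemma orth_zero [IsAlgClosed W.K] (hD : X.IsCyc 1 D) (hHL : HardLefschetz W X D)
    (h1 : (1 : W.H X) ≠ 0) (hF : IsFrobenius W X f q) (hq : 0 < q) {i : ℕ} {α : W.K} {x : W.H X}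
    (hx : x ∈ eigenPart W X f i α)
    (h : ∀ y ∈ eigenPart W X f (2 * X.dim - i) ((q : W.K) ^ X.dim / α), pairB W X x y = 0) :
    x = 0 := by
  have hqK : ((q : W.K) ^ X.dim) ≠ 0 := pow_ne_zero _ (by exact_mod_cast hq.ne')
  exact eq_zero_of_orth (F := (W.map f).toLinearMap) (gr := W.gr X) (n := X.dim)
    (fun i x hx => map_gr hx) iSup_gr (pairB W X) hqK (pairB_frob hD hHL h1 hF) pairB_gr
    (fun x hx => W.nondeg x hx) hx h

lemma finrank_dual [IsAlgClosed W.K] (hD : X.IsCyc 1 D) (hHL : HardLefschetz W X D)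
    (h1 : (1 : W.H X) ≠ 0) (hF : IsFrobenius W X f q) (hq : 0 < q) {i : ℕ} (hi : i ≤ 2 * X.dim)
    (α : W.K) : Module.finrank W.K (eigenPart W X f (2 * X.dim - i) ((q : W.K) ^ X.dim / α)) =
      Module.finrank W.K (eigenPart W X f i α) := by
  have hqK : ((q : W.K) ^ X.dim) ≠ 0 := pow_ne_zero _ (by exact_mod_cast hq.ne')
  have key : ∀ {i : ℕ}, i ≤ 2 * X.dim → ∀ α : W.K, Module.finrank W.K (eigenPart W X f i α) ≤
      Module.finrank W.K (eigenPart W X f (2 * X.dim - i) ((q : W.K) ^ X.dim / α)) :=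
    fun hi α => algMult_le_dual (F := (W.map f).toLinearMap) (gr := W.gr X) (n := X.dim)
      (fun i x hx => map_gr hx) iSup_gr (pairB W X) hqK (pairB_frob hD hHL h1 hF) pairB_gr
      (fun x hx => W.nondeg x hx) hi α
  apply le_antisymm _ (key hi α)
  have h2 := key (i := 2 * X.dim - i) (by omega) ((q : W.K) ^ X.dim / α)
  rwa [show 2 * X.dim - (2 * X.dim - i) = i by omega, div_div_cancel₀ hqK] at h2

/-- **Two dual stable subspaces.** -/
theorem bound_two [IsAlgClosed W.K] (hD : X.IsCyc 1 D) (hHL : HardLefschetz W X D)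
    (h1 : (1 : W.H X) ≠ 0) (hF : IsFrobenius W X f q) (hq : 0 < q) {r : ℕ}
    (hr : NumRankAtLeast ops (X.prod X) X.dim r) {i : ℕ} {α : W.K} {T : Submodule W.K (W.H X)}
    (hT : IsStablePart (cycOps W X X.dim) (eigenPart W X f i α) T)
    (hsd : i ≠ X.dim ∨ α ^ 2 ≠ (q : W.K) ^ X.dim) :
    r + 4 * dimProd (eigenPart W X f i α) T ≤ poleOrder W X f q := by
  classical
  obtain ⟨hle, hbot, -, hst⟩ := hT
  have hqK : ((q : W.K) ^ X.dim) ≠ 0 := pow_ne_zero _ (by exact_mod_cast hq.ne')
  have hne : eigenPart W X f i α ≠ ⊥ := by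
    intro h
    rw [h] at hle
    exact hbot (le_bot_iff.1 hle)
  have hI := mem_I_of_ne (W := W) hne
  have hi : i ≤ 2 * X.dim := by
    have := (Finset.mem_product.1 hI).1
    rw [Finset.mem_range] at this
    simp only at this
    omega
  have hα : α ≠ 0 := by
    rintro rfl
    apply hne
    rw [eq_bot_iff]
    intro x hx
    rw [Submodule.mem_bot]
    refine orth_zero hD hHL h1 hF hq hx fun y hy => ?_
    refine gen_orth (F := (W.map f).toLinearMap) (pairB W X) (pairB_frob hD hHL h1 hF) ?_ hx.2 hy.2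
    rw [zero_mul]
    exact hqK.symm
  set j := 2 * X.dim - i with hj
  set β := (q : W.K) ^ X.dim / α with hβ
  have hneq : ((j, β) : ℕ × W.K) ≠ (i, α) := by
    intro h
    rw [Prod.mk.injEq] at h
    rcases hsd with h2 | h2
    · exact h2 (by omega)
    · apply h2
      rw [sq]
      nth_rewrite 1 [← h.2]
      rw [hβ, div_mul_cancel₀ _ hα]
  have hdual := finrank_dual hD hHL h1 hF hq hi α
  rw [← hj, ← hβ] at hdual
  set T' := orth (pairB W X) T (eigenPart W X f j β) with hT'
  have hrk : Module.finrank W.K T' + Module.finrank W.K T =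
      Module.finrank W.K (eigenPart W X f j β) :=
    finrank_orth (pairB W X) fun x hx h => orth_zero hD hHL h1 hF hq (hle hx) h
  have hne' : eigenPart W X f j β ≠ ⊥ := by
    intro h
    rw [h, finrank_bot] at hdual
    exact hne (Submodule.finrank_eq_zero.1 hdual.symm)
  have hI' := mem_I_of_ne (W := W) hne'
  have hst' : ∀ φ ∈ cycOps W X X.dim, ∀ y ∈ T', φ y ∈ T' := by
    intro φ hφ y hy
    have hφ' := cyc_kop hφ
    refine ⟨kop_eigenPart hD hHL h1 hF hq hφ' hy.1, fun x hx => ?_⟩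
    obtain ⟨ψ, hψ, hadj⟩ := KOp.exists_adjoint hφ'
    have hψ' : ψ ∈ KOp W X X 0 := KOp.cast hψ (by ring)
    have hψx := kop_stable hst hψ' hx
    rw [pairB_apply, W.comm (hle hx).1 (kop_gr hφ' hy.1.1), map_smul, hadj,
      W.comm hy.1.1 (hle hψx).1, map_smul]
    have h3 := hy.2 _ hψx
    rw [pairB_apply] at h3
    rw [h3, smul_zero, smul_zero]
  let S : ℕ × W.K → Submodule W.K (W.H X) :=
    fun t => if t = (i, α) then T else if t = (j, β) then T' else ⊥
  refine le_trans ?_ (rank_family hD hHL h1 hF hq hr S ?_ ?_)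
  · have h2 : ∑ t ∈ ({(i, α), (j, β)} : Finset (ℕ × W.K)),
        dimProd (eigenPart W X f t.1 t.2) (S t) ≤
        ∑ t ∈ range (2 * X.dim + 1) ×ˢ eigs (K := W.K) (V := W.H X) (W.map f).toLinearMap,
          dimProd (eigenPart W X f t.1 t.2) (S t) := by
      apply Finset.sum_le_sum_of_subset
      intro t ht
      rw [Finset.mem_insert, Finset.mem_singleton] at ht
      rcases ht with rfl | rfl
      · exact hI
      · exact hI'
    rw [Finset.sum_pair hneq.symm] at h2
    have h3 : S (i, α) = T := if_pos rfl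
    have h4 : S (j, β) = T' := by
      change (if ((j, β) : ℕ × W.K) = (i, α) then T else if ((j, β) : ℕ × W.K) = (j, β) then T'
        else ⊥) = T'
      rw [if_neg hneq, if_pos rfl]
    rw [h3, h4] at h2
    simp only at h2
    have h5 : dimProd (eigenPart W X f j β) T' = dimProd (eigenPart W X f i α) T := by
      rw [dimProd, dimProd, ← hdual, ← hrk, Nat.add_sub_cancel_left, Nat.add_sub_cancel,
        mul_comm]
    rw [h5] at h2
    omega
  · intro t
    simp only [S]
    by_cases ht : t = (i, α)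
    · rw [if_pos ht, ht]; exact hle
    · rw [if_neg ht]
      by_cases ht' : t = (j, β)
      · rw [if_pos ht', ht']; exact fun y hy => hy.1
      · rw [if_neg ht']; exact bot_le
  · intro t φ hφ x hx
    simp only [S] at hx ⊢
    by_cases ht : t = (i, α)
    · rw [if_pos ht] at hx ⊢
      exact hst φ hφ x hx
    · rw [if_neg ht] at hx ⊢
      by_cases ht' : t = (j, β)
      · rw [if_pos ht'] at hx ⊢
        exact hst' φ hφ x hx
      · rw [if_neg ht', Submodule.mem_bot] at hx ⊢
        rw [hx, map_zero]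

end Pool.Agent.U227.Nm
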