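import Pool.Agent.U227.Grp
import Pool.Agent.X252.GB

/-!
# Rational vector spaces with an action of a finite group: fixed vectors modulo a stable subspace
-/

set_option autoImplicit false
set_option linter.unusedSectionVars false

universe w

namespace Pool.Agent.U227.Lin

open Pool.Agent.X252.GA Pool.Agent.X252.SCT Pool.Agent.U227.Grp

variable {W : Type w} [AddCommGroup W] [Module ℚ W] {G : Type} [Group G]

/-- The vectors fixed by `H` lie in `S`. -/
def FixIn (σ : G →* Module.End ℚ W) (S : Submodule ℚ W) (H : Subgroup G) : Prop :=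
  ∀ w : W, (∀ h ∈ H, σ h w = w) → w ∈ S

/-- The representation `ρ` occurs in `W` modulo `S`: some map to `W` is modulo `S` additive,
equivariant and not zero. -/
def OccMod (σ : G →* Module.End ℚ W) (S : Submodule ℚ W) {V : Type} [AddCommGroup V] [Module ℚ V]
    (ρ : G →* Module.End ℚ V) : Prop :=
  ∃ f : V → W, (∀ v w, f (v + w) - (f v + f w) ∈ S) ∧ (∀ g v, f (ρ g v) - σ g (f v) ∈ S) ∧
    ∃ v, f v ∉ S

variable (σ : G →* Module.End ℚ W) {S : Submodule ℚ W}

/-- The action of the group ring. -/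
noncomputable def theta : MonoidAlgebra ℚ G →ₐ[ℚ] Module.End ℚ W :=
  MonoidAlgebra.lift ℚ (Module.End ℚ W) G σ

lemma theta_single (g : G) : theta σ (MonoidAlgebra.single g (1 : ℚ)) = σ g := by
  rw [theta, MonoidAlgebra.lift_single, one_smul]

lemma theta_stable (hS : ∀ g, ∀ s ∈ S, σ g s ∈ S) (x : MonoidAlgebra ℚ G) {s : W} (hs : s ∈ S) :
    theta σ x s ∈ S := by
  induction x using MonoidAlgebra.induction_linear with
  | zero => rw [map_zero]; exact S.zero_mem
  | add f g hf hg => rw [map_add]; exact S.add_mem hf hg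
  | single g r =>
    have h1 : (MonoidAlgebra.single g r : MonoidAlgebra ℚ G) =
        r • MonoidAlgebra.single g (1 : ℚ) := by
      rw [MonoidAlgebra.smul_single, smul_eq_mul, mul_one]
    rw [h1, map_smul, theta_single]
    exact S.smul_mem r (hS g s hs)

/-- The ideal of the elements which map `W` to `S`. -/
noncomputable def ideal (hS : ∀ g, ∀ s ∈ S, σ g s ∈ S) : Ideal (MonoidAlgebra ℚ G) where
  carrier := {x | ∀ w, theta σ x w ∈ S}
  add_mem' := by
    intro x y hx hy w
    rw [map_add]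
    exact S.add_mem (hx w) (hy w)
  zero_mem' := by
    intro w
    rw [map_zero]
    exact S.zero_mem
  smul_mem' := by
    intro c x hx w
    rw [smul_eq_mul, map_mul]
    exact theta_stable σ hS c (hx w)

lemma mem_ideal (hS : ∀ g, ∀ s ∈ S, σ g s ∈ S) {x : MonoidAlgebra ℚ G} :
    x ∈ ideal σ hS ↔ ∀ w, theta σ x w ∈ S := Iff.rfl

lemma ideal_right (hS : ∀ g, ∀ s ∈ S, σ g s ∈ S) (x : MonoidAlgebra ℚ G) (hx : x ∈ ideal σ hS)
    (y : MonoidAlgebra ℚ G) : x * y ∈ ideal σ hS := by
  rw [mem_ideal] at hx ⊢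
  intro w
  rw [map_mul]
  exact hx _

variable [Fintype G]

lemma card_ne (H : Subgroup G) : (Nat.card H : ℚ) ≠ 0 := by
  exact_mod_cast (Nat.card_pos (α := H)).ne'

lemma theta_nA_fixed (H : Subgroup G) {w : W} (hw : ∀ h ∈ H, σ h w = w) :
    theta σ (nA H) w = (Nat.card H : ℚ) • w := by
  classical
  rw [nA, map_sum, LinearMap.sum_apply, Finset.sum_congr rfl fun g hg => by
    rw [theta_single, hw g (Finset.mem_filter.1 hg).2], Finset.sum_const, ← Nat.cast_smul_eq_nsmul ℚ]
  congr 2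
  rw [Nat.card_eq_fintype_card, ← Fintype.card_subtype]

lemma fixed_theta_nA (H : Subgroup G) {h : G} (hh : h ∈ H) (w : W) :
    σ h (theta σ (nA H) w) = theta σ (nA H) w := by
  rw [← theta_single, ← Module.End.mul_apply, ← map_mul, single_mul_nA hh]

lemma nA_mem (hS : ∀ g, ∀ s ∈ S, σ g s ∈ S) {H : Subgroup G} :
    nA H ∈ ideal σ hS ↔ FixIn σ S H := by
  rw [mem_ideal]
  constructor
  · intro h w hw
    have h1 := h w
    rw [theta_nA_fixed σ H hw] at h1
    have h2 := S.smul_mem (Nat.card H : ℚ)⁻¹ h1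
    rwa [smul_smul, inv_mul_cancel₀ (card_ne H), one_smul] at h2
  · intro h w
    exact h _ fun g hg => fixed_theta_nA σ H hg w

/-- **Domination.** -/
theorem fixIn_of_dom (hS : ∀ g, ∀ s ∈ S, σ g s ∈ S) (H : Subgroup G) (ι : Type)
    (D : ι → Subgroup G) (hD : DomIn (fun _ _ _ ρ => OccMod σ S ρ) H D)
    (h : ∀ j, FixIn σ S (D j)) : FixIn σ S H := by
  classical
  rw [← nA_mem σ hS]
  refine dom_of_ideal (ideal σ hS) (ideal_right σ hS) ?_ H ι D hD fun j => (nA_mem σ hS).2 (h j)
  intro T hT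
  let _ : Module (MonoidAlgebra ℚ G) W :=
    { smul := fun x f => theta σ x f
      one_smul := fun f => by
        change theta σ 1 f = f
        rw [map_one]
        rfl
      mul_smul := fun x y f => by
        change theta σ (x * y) f = theta σ x (theta σ y f)
        rw [map_mul]
        rfl
      smul_zero := fun x => map_zero _
      smul_add := fun x f g => map_add _ _ _
      add_smul := fun x y f => by
        change theta σ (x + y) f = theta σ x f + theta σ y f
        rw [map_add]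
        rfl
      zero_smul := fun f => by
        change theta σ 0 f = 0
        rw [map_zero]
        rfl }
  have hsm : ∀ (x : MonoidAlgebra ℚ G) (f : W), x • f = theta σ x f := fun _ _ => rfl
  let S₀ : Submodule (MonoidAlgebra ℚ G) W :=
    { carrier := S
      add_mem' := fun ha hb => S.add_mem ha hb
      zero_mem' := S.zero_mem
      smul_mem' := fun x m hm => theta_stable σ hS x hm }
  have hmem : ∀ m, m ∈ S₀ ↔ m ∈ S := fun _ => Iff.rfl
  obtain ⟨n, ⟨m, rfl⟩, f, hf, s, hs⟩ := exists_hom (ideal σ hS) (ideal_right σ hS) T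
    (N := W ⧸ S₀) (U := {n | ∃ m, Submodule.Quotient.mk m = n}) (fun x hx => by
      rw [mem_ideal]
      intro w
      have h1 := hx _ ⟨w, rfl⟩
      rw [← Submodule.Quotient.mk_smul, Submodule.Quotient.mk_eq_zero, hmem, hsm] at h1
      exact h1)
  choose c hc using hf
  have hmk : ∀ s, (Submodule.Quotient.mk (theta σ (c s) m) : W ⧸ S₀) = f s := by
    intro s
    rw [hc s, ← Submodule.Quotient.mk_smul]
    rfl
  refine ⟨fun s => theta σ (c s) m, ?_, ?_, s, ?_⟩
  · intro v w
    rw [← hmem, ← Submodule.Quotient.mk_eq_zero, Submodule.Quotient.mk_sub,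
      Submodule.Quotient.mk_add, hmk, hmk, hmk, map_add, sub_self]
  · intro g v
    rw [← hmem, ← Submodule.Quotient.mk_eq_zero, Submodule.Quotient.mk_sub, hmk, repOf_apply,
      map_smul, ← hmk, ← Submodule.Quotient.mk_smul, hsm, theta_single, sub_self]
  · intro h
    apply hs
    rw [← hmk, Submodule.Quotient.mk_eq_zero]
    exact h

/-- **The exact law.** -/
theorem fixIn_iff (hS : ∀ g, ∀ s ∈ S, σ g s ∈ S) (H : Subgroup G) :
    FixIn σ S H ↔ ∀ (V : Type) [AddCommGroup V] [Module ℚ V] (ρ : G →* Module.End ℚ V), Irred ρ →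
      OccMod σ S ρ → ¬ HasFixed ρ H := by
  classical
  constructor
  · intro h V _ _ ρ hρ ⟨f, hadd, heq, v₁, hv₁⟩ ⟨v₀, hv₀, hfix⟩
    let φ₀ : V →+ W ⧸ S := AddMonoidHom.mk' (fun v => Submodule.Quotient.mk (f v)) (by
      intro v w
      rw [← Submodule.Quotient.mk_add]
      exact (Submodule.Quotient.eq S).2 (hadd v w))
    let φ : V →ₗ[ℚ] W ⧸ S := φ₀.toRatLinearMap
    have hφ : ∀ v, φ v = Submodule.Quotient.mk (f v) := fun _ => rfl
    have hz : ∀ v, φ v = 0 ↔ f v ∈ S := fun v => by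
      rw [hφ, Submodule.Quotient.mk_eq_zero]
    have hact : ∀ g v, φ (ρ g v) = Submodule.Quotient.mk (σ g (f v)) := fun g v => by
      rw [hφ]
      exact (Submodule.Quotient.eq S).2 (heq g v)
    have h1 : φ (∑ g : G with g ∈ H, ρ g v₀) = 0 := by
      rw [map_sum, Finset.sum_congr rfl fun g _ => hact g v₀]
      have h2 : (∑ g : G with g ∈ H, (Submodule.Quotient.mk (σ g (f v₀)) : W ⧸ S)) =
          Submodule.Quotient.mk (theta σ (nA H) (f v₀)) := by
        rw [nA, map_sum, LinearMap.sum_apply]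
        refine Eq.symm ((map_sum S.mkQ _ _).trans (Finset.sum_congr rfl fun g _ => ?_))
        rw [theta_single]
        rfl
      rw [h2, Submodule.Quotient.mk_eq_zero]
      exact (nA_mem σ hS).2 h (f v₀)
    have h3 : ∑ g : G with g ∈ H, ρ g v₀ = (Nat.card H : ℚ) • v₀ := by
      rw [Finset.sum_congr rfl fun g hg => hfix g (Finset.mem_filter.1 hg).2, Finset.sum_const,
        ← Nat.cast_smul_eq_nsmul ℚ]
      congr 2
      rw [Nat.card_eq_fintype_card, ← Fintype.card_subtype]
    rw [h3, map_smul, smul_eq_zero] at h1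
    have h4 : φ v₀ = 0 := h1.resolve_left (card_ne H)
    rcases hρ (LinearMap.ker φ) (fun g v hv => by
      rw [LinearMap.mem_ker, hz] at hv
      rw [LinearMap.mem_ker, hact, Submodule.Quotient.mk_eq_zero]
      exact hS g _ hv) with h5 | h5
    · exact hv₀ ((Submodule.mem_bot ℚ).1 (h5 ▸ LinearMap.mem_ker.2 h4))
    · exact hv₁ ((hz v₁).1 (LinearMap.mem_ker.1 (h5 ▸ Submodule.mem_top)))
  · intro h
    exact fixIn_of_dom σ hS H Empty (fun j => j.elim)
      (fun V _ _ ρ hρ hQ hv => (h V ρ hρ hQ hv).elim) fun j => j.elim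

/-- **The laws.** -/
theorem lin_laws (hS : ∀ g, ∀ s ∈ S, σ g s ∈ S) :
    QuotientLaws (S = ⊤) (FixIn σ S) ∧
    (S ≠ ⊤ → AtPrimes (FixIn σ S) →
      (∃ (V : Type) (_ : AddCommGroup V) (_ : Module ℚ V) (ρ : G →* Module.End ℚ V),
        IsFree ρ ∧ OccMod σ S ρ) ∧ CyclicSubgroups G) := by
  have hbot : S = ⊤ ↔ FixIn σ S ⊥ := by
    rw [Submodule.eq_top_iff']
    refine ⟨fun h w _ => h w, fun h w => h w fun g hg => ?_⟩
    rw [Subgroup.mem_bot.1 hg, map_one]
    rfl
  rw [ne_eq, hbot]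
  obtain ⟨-, p2, p3, p4, p6, p5⟩ := parts (G := G)
    (Q := fun _ _ _ ρ => OccMod σ S ρ) (FixIn σ S)
    (fun H ι D hD h => fixIn_of_dom σ hS H ι D hD h)
  exact ⟨⟨p2, p3, p4, p6⟩, p5⟩

end Pool.Agent.U227.Lin
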