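import Pool.Agent.U227.LinFix
import Mathlib.Data.Real.Basic
import Mathlib.LinearAlgebra.Basis.VectorSpace

/-!
# Lifts orthogonal to fibral cycles and group actions
-/

set_option autoImplicit false
set_option linter.unusedSectionVars false

universe w

namespace Pool.Agent.U227.Mdl

open Pool.Agent.X252.GA Pool.Agent.X252.SCT Pool.Agent.U227.Grp Pool.Agent.U227.Lin

section avg

variable {U U' : Type w} [AddCommGroup U] [Module ℚ U] [AddCommGroup U'] [Module ℚ U']
  {G : Type} [Group G]

lemma map_theta (σ : G →* Module.End ℚ U) (σ' : G →* Module.End ℚ U') (T : U →ₗ[ℚ] U')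
    (hT : ∀ g u, T (σ g u) = σ' g (T u)) (x : MonoidAlgebra ℚ G) (u : U) :
    T (theta σ x u) = theta σ' x (T u) := by
  induction x using MonoidAlgebra.induction_linear with
  | zero => rw [map_zero, map_zero, LinearMap.zero_apply, LinearMap.zero_apply, map_zero]
  | add f g hf hg => rw [map_add, map_add, LinearMap.add_apply, LinearMap.add_apply, map_add, hf, hg]
  | single g r =>
    have h1 : (MonoidAlgebra.single g r : MonoidAlgebra ℚ G) =
        r • MonoidAlgebra.single g (1 : ℚ) := by
      rw [MonoidAlgebra.smul_single, smul_eq_mul, mul_one]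
    rw [h1, map_smul, map_smul, LinearMap.smul_apply, LinearMap.smul_apply, map_smul, theta_single,
      theta_single, hT]

variable [Fintype G] (σ : G →* Module.End ℚ U)

/-- The mean over a subgroup. -/
noncomputable def avg (H : Subgroup G) : Module.End ℚ U := (Nat.card H : ℚ)⁻¹ • theta σ (nA H)

lemma avg_fixed (H : Subgroup G) {u : U} (hu : ∀ h ∈ H, σ h u = u) : avg σ H u = u := by
  rw [avg, LinearMap.smul_apply, theta_nA_fixed σ H hu, smul_smul, inv_mul_cancel₀ (card_ne H),
    one_smul]

lemma fixed_avg (H : Subgroup G) {h : G} (hh : h ∈ H) (u : U) : σ h (avg σ H u) = avg σ H u := by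
  rw [avg, LinearMap.smul_apply, map_smul, fixed_theta_nA σ H hh]

lemma map_avg (σ' : G →* Module.End ℚ U') (T : U →ₗ[ℚ] U') (hT : ∀ g u, T (σ g u) = σ' g (T u))
    (H : Subgroup G) (u : U) : T (avg σ H u) = avg σ' H (T u) := by
  rw [avg, avg, LinearMap.smul_apply, LinearMap.smul_apply, map_smul, map_theta σ σ' T hT]

end avg

/-- A finite group `G` acting on the cohomologically trivial cycles `L` of codimension `i` on a regular
model, on their restrictions `W` to the generic fibre, and on the cycles `F` of codimension `d + 1 - i`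
supported in closed fibres; the restriction `L → W` and the intersection pairing of `L` and `F`. -/
structure Model (G : Type) [Group G] (L W F : Type w) [AddCommGroup L] [Module ℚ L]
    [AddCommGroup W] [Module ℚ W] [AddCommGroup F] [Module ℚ F] where
  /-- the action on `L` -/
  actL : G →* Module.End ℚ L
  /-- the action on `W` -/
  actW : G →* Module.End ℚ W
  /-- the action on `F` -/
  actF : G →* Module.End ℚ F
  /-- the restriction to the generic fibre -/
  res : L →ₗ[ℚ] W
  /-- it is surjective -/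
  surj : Function.Surjective res
  /-- it is equivariant -/
  res_act : ∀ g x, res (actL g x) = actW g (res x)
  /-- the intersection pairing -/
  pair : L →ₗ[ℚ] F →ₗ[ℚ] ℝ
  /-- it is invariant -/
  pair_act : ∀ g x y, pair (actL g x) (actF g y) = pair x y

variable {G : Type} [Group G] {L W F : Type w} [AddCommGroup L] [Module ℚ L]
    [AddCommGroup W] [Module ℚ W] [AddCommGroup F] [Module ℚ F]

namespace Model

variable (D : Model G L W F)

/-- The elements of `W` with a lift orthogonal to `F`. -/
noncomputable def liftable : Submodule ℚ W := (LinearMap.ker D.pair).map D.res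

/-- All elements of `W` have a lift orthogonal to `F`. -/
def AllLift : Prop := ∀ w : W, ∃ x : L, D.res x = w ∧ ∀ y : F, D.pair x y = 0

/-- Every element of `W` fixed by `H` has a lift which is fixed by `H` and orthogonal to the elements of `F`
fixed by `H`. -/
def LiftsOn (H : Subgroup G) : Prop :=
  ∀ w : W, (∀ h ∈ H, D.actW h w = w) → ∃ x : L, (∀ h ∈ H, D.actL h x = x) ∧ D.res x = w ∧
    ∀ y : F, (∀ h ∈ H, D.actF h y = y) → D.pair x y = 0

/-- The representation `ρ` occurs in `W` modulo the elements with orthogonal lifts. -/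
def Obstructs {V : Type} [AddCommGroup V] [Module ℚ V] (ρ : G →* Module.End ℚ V) : Prop :=
  OccMod D.actW D.liftable ρ

/-- There is a nonzero invariant bilinear map on the product of the representation and the cycles
supported in closed fibres. -/
def PairsWithFibres {V : Type} [AddCommGroup V] [Module ℚ V] (ρ : G →* Module.End ℚ V) : Prop :=
  ∃ B : V →ₗ[ℚ] F →ₗ[ℚ] ℝ, (∀ g v y, B (ρ g v) (D.actF g y) = B v y) ∧ B ≠ 0

lemma mem_liftable {w : W} : w ∈ D.liftable ↔ ∃ x : L, D.pair x = 0 ∧ D.res x = w := by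
  rw [liftable, Submodule.mem_map]
  exact Iff.rfl

lemma pair_act' (g : G) (x : L) (y : F) : D.pair (D.actL g x) y = D.pair x (D.actF g⁻¹ y) := by
  have h1 : D.actF g (D.actF g⁻¹ y) = y := by
    rw [← Module.End.mul_apply, ← map_mul, mul_inv_cancel, map_one]
    rfl
  rw [← D.pair_act g x, h1]

lemma stable (g : G) (s : W) (hs : s ∈ D.liftable) : D.actW g s ∈ D.liftable := by
  rw [mem_liftable] at hs ⊢
  obtain ⟨x, hx, rfl⟩ := hs
  refine ⟨D.actL g x, LinearMap.ext fun y => ?_, D.res_act g x⟩
  rw [pair_act', hx]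
  rfl

lemma allLift_iff : D.AllLift ↔ D.liftable = ⊤ := by
  rw [Submodule.eq_top_iff']
  refine forall_congr' fun w => ?_
  rw [mem_liftable]
  exact ⟨fun ⟨x, h1, h2⟩ => ⟨x, LinearMap.ext h2, h1⟩,
    fun ⟨x, h1, h2⟩ => ⟨x, h2, fun y => by rw [h1]; rfl⟩⟩

variable [Fintype G]

lemma pair_avg (H : Subgroup G) (x : L) (y : F) :
    D.pair (avg D.actL H x) y = D.pair x (avg D.actF H y) := by
  classical
  have h1 : D.pair (theta D.actL (nA H) x) y = D.pair x (theta D.actF (nA H) y) := by
    rw [nA, map_sum, map_sum, LinearMap.sum_apply, LinearMap.sum_apply, map_sum, map_sum,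
      LinearMap.sum_apply]
    refine Finset.sum_nbij' (fun g => g⁻¹) (fun g => g⁻¹) ?_ ?_ ?_ ?_ ?_
    · intro g hg
      rw [Finset.mem_filter] at hg ⊢
      exact ⟨Finset.mem_univ _, H.inv_mem hg.2⟩
    · intro g hg
      rw [Finset.mem_filter] at hg ⊢
      exact ⟨Finset.mem_univ _, H.inv_mem hg.2⟩
    · intro g _; exact inv_inv g
    · intro g _; exact inv_inv g
    · intro g _
      rw [theta_single, theta_single, pair_act']
  rw [avg, avg, LinearMap.smul_apply, LinearMap.smul_apply, map_smul, map_smul,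
    LinearMap.smul_apply, h1]

/-- Orthogonality to the invariant elements. -/
lemma pair_eq_zero {H : Subgroup G} {x : L} (hx : ∀ h ∈ H, D.actL h x = x)
    (h : ∀ y : F, (∀ h ∈ H, D.actF h y = y) → D.pair x y = 0) : D.pair x = 0 := by
  refine LinearMap.ext fun y => ?_
  rw [← avg_fixed D.actL H hx, pair_avg, LinearMap.zero_apply]
  exact h _ fun g hg => fixed_avg D.actF H hg y

lemma liftsOn_iff (H : Subgroup G) : D.LiftsOn H ↔ FixIn D.actW D.liftable H := by
  constructor
  · intro h w hw
    obtain ⟨x, hx, hr, hp⟩ := h w hw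
    exact D.mem_liftable.2 ⟨x, D.pair_eq_zero hx hp, hr⟩
  · intro h w hw
    obtain ⟨x, hp, hr⟩ := D.mem_liftable.1 (h w hw)
    refine ⟨avg D.actL H x, fun g hg => fixed_avg D.actL H hg x, ?_, fun y _ => ?_⟩
    · rw [map_avg D.actL D.actW D.res D.res_act, hr, avg_fixed D.actW H hw]
    · rw [pair_avg, hp]
      rfl

/-- **Obstructing representations pair with the fibral cycles.** -/
theorem pairs_of_obstructs {V : Type} [AddCommGroup V] [Module ℚ V] (ρ : G →* Module.End ℚ V)
    (h : D.Obstructs ρ) : D.PairsWithFibres ρ := by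
  classical
  obtain ⟨f, hadd, heq, v₁, hv₁⟩ := h
  let φ₀ : V →+ W ⧸ D.liftable := AddMonoidHom.mk' (fun v => Submodule.Quotient.mk (f v)) (by
    intro v w
    rw [← Submodule.Quotient.mk_add]
    exact (Submodule.Quotient.eq D.liftable).2 (hadd v w))
  let φ : V →ₗ[ℚ] W ⧸ D.liftable := φ₀.toRatLinearMap
  have hφ : ∀ v, φ v = Submodule.Quotient.mk (f v) := fun _ => rfl
  let q : L →ₗ[ℚ] W ⧸ D.liftable := D.liftable.mkQ.comp D.res
  have hq : ∀ x, q x = Submodule.Quotient.mk (D.res x) := fun _ => rfl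
  have hqs : Function.Surjective q := (Submodule.mkQ_surjective _).comp D.surj
  obtain ⟨t, ht⟩ := q.exists_rightInverse_of_surjective (LinearMap.range_eq_top.2 hqs)
  have ht' : ∀ z, q (t z) = z := fun z => congrArg (fun u => u z) ht
  let x : V →ₗ[ℚ] L := ∑ g : G, (D.actL g⁻¹).comp (t.comp (φ.comp (ρ g)))
  have hx : ∀ v, x v = ∑ g : G, D.actL g⁻¹ (t (φ (ρ g v))) := fun v => by
    rw [LinearMap.sum_apply]
    rfl
  have hequiv : ∀ h v, x (ρ h v) = D.actL h (x v) := by
    intro h v
    rw [hx, hx, map_sum]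
    refine Finset.sum_nbij' (fun g => g * h) (fun g => g * h⁻¹) (fun _ _ => Finset.mem_univ _)
      (fun _ _ => Finset.mem_univ _) (fun g _ => by group) (fun g _ => by group) fun g _ => ?_
    rw [mul_inv_rev, map_mul, map_mul, ← Module.End.mul_apply (D.actL h), ← mul_assoc,
      ← map_mul D.actL h, mul_inv_cancel, map_one, one_mul]
    rfl
  have hone : ∀ g v, q (D.actL g⁻¹ (t (φ (ρ g v)))) = φ v := by
    intro g v
    have h1 : q (t (φ (ρ g v))) = Submodule.Quotient.mk (D.actW g (f v)) := by
      rw [ht', hφ]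
      exact (Submodule.Quotient.eq D.liftable).2 (heq g v)
    rw [hq] at h1
    have h2 := D.stable g⁻¹ _ ((Submodule.Quotient.eq D.liftable).1 h1)
    rw [map_sub, ← D.res_act, ← Module.End.mul_apply (D.actW g⁻¹), ← map_mul, inv_mul_cancel,
      map_one] at h2
    rw [hq, hφ]
    exact (Submodule.Quotient.eq D.liftable).2 h2
  refine ⟨D.pair.comp x, fun g v y => ?_, fun h0 => hv₁ ?_⟩
  · rw [LinearMap.comp_apply, LinearMap.comp_apply, hequiv, D.pair_act]
  · have h1 : D.pair (x v₁) = 0 := congrArg (fun u => u v₁) h0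
    have h2 : q (x v₁) = 0 := by
      rw [hq, Submodule.Quotient.mk_eq_zero, mem_liftable]
      exact ⟨x v₁, h1, rfl⟩
    rw [hx, map_sum, Finset.sum_congr rfl fun g _ => hone g v₁, Finset.sum_const, Finset.card_univ,
      ← Nat.cast_smul_eq_nsmul ℚ] at h2
    have h3 : (Fintype.card G : ℚ) ≠ 0 := by exact_mod_cast Fintype.card_ne_zero
    have h4 := (smul_eq_zero.1 h2).resolve_left h3
    rwa [hφ, Submodule.Quotient.mk_eq_zero] at h4

/-- **Subgroups which act trivially on the fibral cycles.** -/
theorem liftsOn_sup (H N : Subgroup G) (hN : ∀ g ∈ N, ∀ y : F, D.actF g y = y) :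
    D.LiftsOn H ↔ D.LiftsOn (H ⊔ N) := by
  rw [liftsOn_iff, liftsOn_iff]
  constructor
  · intro h w hw
    exact h w fun g hg => hw g (Subgroup.mem_sup_left hg)
  · intro h w hw
    obtain ⟨x₀, hx₀⟩ := D.surj w
    obtain ⟨x, hxr, hxf⟩ : ∃ x : L, D.res x = w ∧ ∀ g ∈ H, D.actL g x = x := by
      refine ⟨avg D.actL H x₀, ?_, fun g hg => fixed_avg D.actL H hg x₀⟩
      rw [map_avg D.actL D.actW D.res D.res_act, hx₀, avg_fixed D.actW H hw]
    have h1 : avg D.actW (H ⊔ N) w ∈ D.liftable :=
      h _ fun g hg => fixed_avg D.actW (H ⊔ N) hg w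
    have h2 : w - avg D.actW (H ⊔ N) w ∈ D.liftable := by
      rw [mem_liftable]
      refine ⟨x - avg D.actL (H ⊔ N) x, D.pair_eq_zero (H := H) (fun g hg => ?_) fun y hy => ?_, ?_⟩
      · rw [map_sub, hxf g hg, fixed_avg D.actL (H ⊔ N) (Subgroup.mem_sup_left hg)]
      · have h3 : ∀ g ∈ H ⊔ N, D.actF g y = y := by
          let K : Subgroup G :=
            { carrier := {g | D.actF g y = y}
              one_mem' := by
                change D.actF 1 y = y
                rw [map_one]
                rfl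
              mul_mem' := by
                intro a b ha hb
                change D.actF (a * b) y = y
                rw [map_mul, Module.End.mul_apply, hb, ha]
              inv_mem' := by
                intro a ha
                change D.actF a⁻¹ y = y
                have ha' : D.actF a y = y := ha
                conv_lhs => rw [← ha', ← Module.End.mul_apply, ← map_mul, inv_mul_cancel, map_one]
                rfl }
          have hK : H ⊔ N ≤ K := sup_le (fun g hg => hy g hg) fun g hg => hN g hg y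
          exact fun g hg => hK hg
        rw [map_sub, LinearMap.sub_apply, pair_avg, avg_fixed D.actF (H ⊔ N) h3, sub_self]
      · rw [map_sub, map_avg D.actL D.actW D.res D.res_act, hxr]
    have h4 := D.liftable.add_mem h2 h1
    rwa [sub_add_cancel] at h4

/-- **Lifts orthogonal to fibral cycles and group actions.** -/
theorem lifts :
    (∀ H : Subgroup G, D.LiftsOn H ↔
      ∀ (V : Type) [AddCommGroup V] [Module ℚ V] (ρ : G →* Module.End ℚ V), Irred ρ →
        D.Obstructs ρ → ¬ HasFixed ρ H) ∧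
    (∀ (V : Type) [AddCommGroup V] [Module ℚ V] (ρ : G →* Module.End ℚ V),
      D.Obstructs ρ → D.PairsWithFibres ρ) ∧
    (∀ N : Subgroup G, (∀ g ∈ N, ∀ y : F, D.actF g y = y) →
      (D.AllLift ↔ D.LiftsOn N) ∧ ∀ H : Subgroup G, D.LiftsOn H ↔ D.LiftsOn (H ⊔ N)) ∧
    QuotientLaws D.AllLift D.LiftsOn ∧
    (¬ D.AllLift → AtPrimes D.LiftsOn →
      (∃ (V : Type) (_ : AddCommGroup V) (_ : Module ℚ V) (ρ : G →* Module.End ℚ V),
        IsFree ρ ∧ D.Obstructs ρ ∧ D.PairsWithFibres ρ) ∧ CyclicSubgroups G) := by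
  have hP : D.LiftsOn = FixIn D.actW D.liftable := funext fun H => propext (D.liftsOn_iff H)
  have h0 : D.AllLift = (D.liftable = ⊤) := propext D.allLift_iff
  obtain ⟨h1, h2⟩ := lin_laws D.actW D.stable
  have hbot : D.AllLift ↔ D.LiftsOn ⊥ := by
    rw [h0, liftsOn_iff, Submodule.eq_top_iff']
    refine ⟨fun h w _ => h w, fun h w => h w fun g hg => ?_⟩
    rw [Subgroup.mem_bot.1 hg, map_one]
    rfl
  refine ⟨fun H => ?_, fun V _ _ ρ h => D.pairs_of_obstructs ρ h, fun N hN => ⟨?_, fun H =>
    D.liftsOn_sup H N hN⟩, ?_, fun hne hp => ?_⟩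
  · rw [liftsOn_iff]
    exact fixIn_iff _ D.stable H
  · rw [hbot, D.liftsOn_sup ⊥ N hN, bot_sup_eq]
  · rw [hP, h0]
    exact h1
  · rw [h0] at hne
    rw [hP] at hp
    obtain ⟨⟨V, i1, i2, ρ, hfree, hocc⟩, hcyc⟩ := h2 hne hp
    exact ⟨⟨V, i1, i2, ρ, hfree, hocc, D.pairs_of_obstructs ρ hocc⟩, hcyc⟩

end Model

end Pool.Agent.U227.Mdl
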