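import Pool.Agent.U227.GrpDefs
import Mathlib.CategoryTheory.Linear.Basic

/-!
# Objects of a linear category with an action of a finite group: definitions
-/

set_option autoImplicit false

open CategoryTheory

universe v u

namespace Pool.Agent.U227.Mot

open Pool.Agent.X252.GA Pool.Agent.X252.SCT Pool.Agent.U227.Grp

variable {C : Type u} [Category.{v} C] [Preadditive C]

/-- The property `P` holds for some object, for a direct sum of two objects with this property, and for
the direct summands of an object with this property. -/
structure IsStable (P : C → Prop) : Prop where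
  nonempty : ∃ M, P M
  sum : ∀ M N, P M → P N → ∃ (S : C) (i : M ⟶ S) (p : S ⟶ M) (j : N ⟶ S) (q : S ⟶ N),
    i ≫ p = 𝟙 M ∧ j ≫ q = 𝟙 N ∧ i ≫ q = 0 ∧ j ≫ p = 0 ∧ P S
  retract : ∀ (M N : C) (i : M ⟶ N) (p : N ⟶ M), i ≫ p = 𝟙 M → P N → P M

/-- The object `N` is, by the inclusion `i` and the projection `p`, the part of `M` fixed by the
subgroup `H`. For the motive of a variety `X` this is the motive of `X/H`. -/
structure IsFixedPart {G : Type} [Group G] {M : C} (a : G →* End M) (H : Subgroup G) {N : C}
    (i : N ⟶ M) (p : M ⟶ N) : Prop where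
  retract : i ≫ p = 𝟙 N
  fixed : ∀ h ∈ H, i ≫ (a h : M ⟶ M) = i
  factor : ∀ (T : C) (t : T ⟶ M), (∀ h ∈ H, t ≫ (a h : M ⟶ M) = t) → (t ≫ p) ≫ i = t

/-- The property `P` holds for the part of `M` fixed by `H`. -/
def OnQuotient (P : C → Prop) {G : Type} [Group G] {M : C} (a : G →* End M) (H : Subgroup G) :
    Prop :=
  ∃ (N : C) (i : N ⟶ M) (p : M ⟶ N), IsFixedPart a H i p ∧ P N

/-- The morphism factors through an object with the property `P`. -/
def FactorsThrough (P : C → Prop) {M N : C} (f : M ⟶ N) : Prop :=
  ∃ (T : C) (u : M ⟶ T) (w : T ⟶ N), P T ∧ u ≫ w = f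

/-- The representation `ρ` of `G` occurs in the endomorphisms of `M` modulo those which factor through
objects with the property `P`: some map to the endomorphisms is modulo these additive, equivariant and not
zero. -/
def OccursIn (P : C → Prop) {G : Type} [Group G] {M : C} (a : G →* End M) {V : Type}
    [AddCommGroup V] [Module ℚ V] (ρ : G →* Module.End ℚ V) : Prop :=
  ∃ f : V → (M ⟶ M), (∀ v w, FactorsThrough P (f (v + w) - (f v + f w))) ∧
    (∀ g v, FactorsThrough P (f (ρ g v) - f v ≫ (a g : M ⟶ M))) ∧ ∃ v, ¬ FactorsThrough P (f v)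

/-- Every irreducible rational representation which occurs has a nonzero vector fixed by some subgroup
`H` such that `P` holds for the part of `M` fixed by `H`. -/
def Covered (P : C → Prop) {G : Type} [Group G] {M : C} (a : G →* End M) : Prop :=
  ∀ (V : Type) [AddCommGroup V] [Module ℚ V] (ρ : G →* Module.End ℚ V), Irred ρ →
    OccursIn P a ρ → ∃ H : Subgroup G, HasFixed ρ H ∧ OnQuotient P a H

/-- Every irreducible rational representation which occurs, and which has a nonzero vector fixed by `H`,
has for some `j` a nonzero vector fixed by `D j`. -/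
def Dominates (P : C → Prop) {G : Type} [Group G] {M : C} (a : G →* End M) {ι : Type}
    (H : Subgroup G) (D : ι → Subgroup G) : Prop :=
  ∀ (V : Type) [AddCommGroup V] [Module ℚ V] (ρ : G →* Module.End ℚ V), Irred ρ →
    OccursIn P a ρ → HasFixed ρ H → ∃ j, HasFixed ρ (D j)

/-- Some irreducible rational representation in which the elements different from one fix only `0`
occurs. -/
def FreeOccurs (P : C → Prop) {G : Type} [Group G] {M : C} (a : G →* End M) : Prop :=
  ∃ (V : Type) (_ : AddCommGroup V) (_ : Module ℚ V) (ρ : G →* Module.End ℚ V),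
    IsFree ρ ∧ OccursIn P a ρ

end Pool.Agent.U227.Mot
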