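import Pool.Agent.U227.MotExact

/-!
# Detection by the subgroups of prime order
-/

set_option autoImplicit false
set_option linter.unusedSectionVars false

open CategoryTheory CategoryTheory.Limits Module

universe v u

namespace Pool.Agent.U227.Mot

open Pool.Agent.X252.GA Pool.Agent.X252.SCT Pool.Agent.U227.Grp

variable {C : Type u} [Category.{v} C] [Preadditive C]

/-- For all objects with an action of `G`, the property `P` of the parts fixed by the members of `F` implies
the property `P` of the object. -/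
def DetectsAll (P : C → Prop) {G : Type} [Group G] (F : Set (Subgroup G)) : Prop :=
  ∀ (M : C) (a : G →* End M), (∀ D ∈ F, OnQuotient P a D) → P M

/-- Every nonzero irreducible rational representation has a nonzero vector fixed by some member of `F`. -/
def CoversAll {G : Type} [Group G] (F : Set (Subgroup G)) : Prop :=
  ∀ (V : Type) [AddCommGroup V] [Module ℚ V] (ρ : G →* Module.End ℚ V), Irred ρ →
    (∃ v : V, v ≠ 0) → ∃ D ∈ F, HasFixed ρ D

/-- The subgroups of prime order. -/
def primeSubgroups (G : Type) [Group G] : Set (Subgroup G) := {D | (Nat.card D).Prime}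

variable [Linear ℚ C] {P : C → Prop} [IsIdempotentComplete C]

lemma onQuotient_bot (hP : IsStable P) {G : Type} [Group G] [Finite G] {M : C} (a : G →* End M) :
    OnQuotient P a ⊥ ↔ P M := by
  have : Fintype G := Fintype.ofFinite G
  rw [← nA_mem a hP, nA_bot, mem_ideal, act_one]
  exact ⟨FactorsThrough.of_id hP, fun h => ⟨M, 𝟙 M, 𝟙 M, h, Category.comp_id _⟩⟩

lemma coversAll_iff {G : Type} [Group G] (F : Set (Subgroup G)) : CoversAll F ↔ Covers F ⊥ := by
  constructor
  · intro h V _ _ ρ hρ ⟨v, hv, _⟩
    exact h V ρ hρ ⟨v, hv⟩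
  · intro h V _ _ ρ hρ ⟨v, hv⟩
    refine h V ρ hρ ⟨v, hv, fun g hg => ?_⟩
    rw [Subgroup.mem_bot.1 hg, map_one, Module.End.one_apply]

/-- **The exact criterion for the object itself.** -/
theorem detectsAll_iff [HasFiniteBiproducts C] (hP : IsStable P) (hN : ∃ N : C, ¬ P N) {G : Type}
    [Group G] [Finite G] (F : Set (Subgroup G)) : DetectsAll P F ↔ CoversAll F := by
  rw [coversAll_iff, ← detects_iff hP hN]
  exact forall₂_congr fun M a => by rw [onQuotient_bot hP]

/-- Subgroups of prime order. -/
lemma coversAll_prime {G : Type} [Group G] [Finite G] :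
    CoversAll (primeSubgroups G) ↔ ¬ FixedPointFree G := by
  constructor
  · rintro h ⟨V, _, _, ρ, hρ, hV, hfree⟩
    obtain ⟨D, hD, w, hw, hfix⟩ := h V ρ hρ hV
    have hne : Nontrivial D := by
      rw [← Finite.one_lt_card_iff_nontrivial]
      exact Nat.Prime.one_lt hD
    obtain ⟨⟨g, hg⟩, hg1⟩ := exists_ne (1 : D)
    exact hw (hfree g (fun h => hg1 (Subtype.ext h)) w (hfix g hg))
  · intro h V _ _ ρ hρ hV
    by_contra hno
    refine h ⟨V, inferInstance, inferInstance, ρ, hρ, hV, fun g hg v hv => ?_⟩
    by_contra hv0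
    apply hno
    have hZ : Nontrivial (Subgroup.zpowers g) := by
      refine ⟨⟨1, ⟨g, Subgroup.mem_zpowers g⟩, fun h1 => hg ?_⟩⟩
      exact (congrArg Subtype.val h1).symm
    have hp : (Nat.card (Subgroup.zpowers g)).minFac.Prime := by
      refine Nat.minFac_prime (ne_of_gt ?_)
      rw [Finite.one_lt_card_iff_nontrivial]
      exact hZ
    have := Fact.mk hp
    obtain ⟨⟨x, hx⟩, hxo⟩ := exists_prime_orderOf_dvd_card'
      (G := Subgroup.zpowers g) (Nat.card (Subgroup.zpowers g)).minFac (Nat.minFac_dvd _)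
    have hcard : Nat.card (Subgroup.zpowers x) = (Nat.card (Subgroup.zpowers g)).minFac := by
      rw [Nat.card_zpowers, ← hxo]
      exact (Subgroup.orderOf_mk x hx).symm
    refine ⟨Subgroup.zpowers x, ?_, v, hv0, fun d hd => ?_⟩
    · change (Nat.card (Subgroup.zpowers x)).Prime
      rw [hcard]
      exact hp
    · exact fixed_zpow ρ hv d (Subgroup.zpowers_le.2 hx hd)

/-- **The exact laws.** -/
theorem exactLaws [HasFiniteBiproducts C] (hP : IsStable P) :
    (∀ (G : Type) [Group G] [Finite G] (M : C) (a : G →* End M) (H : Subgroup G),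
      OnQuotient P a H ↔ NoFixed P a H) ∧
    ((∃ N : C, ¬ P N) → ∀ (G : Type) [Group G] [Finite G],
      (∀ (F : Set (Subgroup G)) (H : Subgroup G), Detects P F H ↔ Covers F H) ∧
      (∀ F : Set (Subgroup G), DetectsAll P F ↔ CoversAll F) ∧
      (DetectsAll P (primeSubgroups G) ↔ ¬ FixedPointFree G)) := by
  refine ⟨fun G _ _ M a H => onQuotient_iff a hP H, fun hN G _ _ =>
    ⟨fun F H => detects_iff hP hN F H, fun F => detectsAll_iff hP hN F, ?_⟩⟩
  rw [detectsAll_iff hP hN, coversAll_prime]

end Pool.Agent.U227.Mot
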