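import Pool.Agent.U227.MotMain
import Mathlib.CategoryTheory.Limits.Shapes.Biproducts
import Mathlib.LinearAlgebra.Matrix.ToLin

/-!
# The exact form of the criteria for actions of finite groups
-/

set_option autoImplicit false
set_option linter.unusedSectionVars false

open CategoryTheory CategoryTheory.Limits Module

universe v u

namespace Pool.Agent.U227.Mot

open Pool.Agent.X252.GA Pool.Agent.X252.SCT Pool.Agent.U227.Grp

variable {C : Type u} [Category.{v} C] [Preadditive C]

/-- No irreducible rational representation which occurs has a nonzero vector fixed by `H`. -/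
def NoFixed (P : C → Prop) {G : Type} [Group G] {M : C} (a : G →* End M) (H : Subgroup G) : Prop :=
  ∀ (V : Type) [AddCommGroup V] [Module ℚ V] (ρ : G →* Module.End ℚ V), Irred ρ →
    OccursIn P a ρ → ¬ HasFixed ρ H

/-- For all objects with an action of `G`, the property `P` of the parts fixed by the members of `F` implies
the property `P` of the part fixed by `H`. -/
def Detects (P : C → Prop) {G : Type} [Group G] (F : Set (Subgroup G)) (H : Subgroup G) : Prop :=
  ∀ (M : C) (a : G →* End M), (∀ D ∈ F, OnQuotient P a D) → OnQuotient P a H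

/-- Every irreducible rational representation with a nonzero vector fixed by `H` has a nonzero vector
fixed by some member of `F`. -/
def Covers {G : Type} [Group G] (F : Set (Subgroup G)) (H : Subgroup G) : Prop :=
  ∀ (V : Type) [AddCommGroup V] [Module ℚ V] (ρ : G →* Module.End ℚ V), Irred ρ →
    HasFixed ρ H → ∃ D ∈ F, HasFixed ρ D

variable [Linear ℚ C] {P : C → Prop}

section

variable [IsIdempotentComplete C] {G : Type} [Group G] [Finite G] {M : C} (a : G →* End M)

/-- **The exact law.** -/
theorem onQuotient_iff (hP : IsStable P) (H : Subgroup G) :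
    OnQuotient P a H ↔ NoFixed P a H := by
  classical
  have : Fintype G := Fintype.ofFinite G
  constructor
  · intro h V _ _ ρ hρ ⟨f, hadd, heq, v₁, hv₁⟩ ⟨v₀, hv₀, hfix⟩
    have hH := (nA_mem a hP).2 h
    rw [mem_ideal] at hH
    let S₀ : Submodule ℚ (M ⟶ M) :=
      { carrier := {f | FactorsThrough P f}
        add_mem' := fun ha hb => FactorsThrough.add hP ha hb
        zero_mem' := FactorsThrough.zero hP
        smul_mem' := fun x m hm => FactorsThrough.smul hm _ }
    have hmem : ∀ m, m ∈ S₀ ↔ FactorsThrough P m := fun _ => Iff.rfl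
    let φ₀ : V →+ (M ⟶ M) ⧸ S₀ := AddMonoidHom.mk' (fun v => Submodule.Quotient.mk (f v)) (by
      intro v w
      rw [← Submodule.Quotient.mk_add]
      exact (Submodule.Quotient.eq S₀).2 (hadd v w))
    let φ : V →ₗ[ℚ] (M ⟶ M) ⧸ S₀ := φ₀.toRatLinearMap
    have hφ : ∀ v, φ v = Submodule.Quotient.mk (f v) := fun _ => rfl
    have hz : ∀ v, φ v = 0 ↔ FactorsThrough P (f v) := fun v => by
      rw [hφ, Submodule.Quotient.mk_eq_zero, hmem]
    have hact : ∀ g v, φ (ρ g v) = Submodule.Quotient.mk (f v ≫ (a g : M ⟶ M)) := fun g v => by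
      rw [hφ]
      exact (Submodule.Quotient.eq S₀).2 (heq g v)
    have h1 : φ (∑ g : G with g ∈ H, ρ g v₀) = 0 := by
      rw [map_sum, Finset.sum_congr rfl fun g _ => hact g v₀]
      have h2 : (∑ g : G with g ∈ H, (Submodule.Quotient.mk (f v₀ ≫ (a g : M ⟶ M)) :
          (M ⟶ M) ⧸ S₀)) = Submodule.Quotient.mk (f v₀ ≫ act a (nA H)) := by
        rw [act_nA, Preadditive.comp_sum]
        exact (map_sum S₀.mkQ _ _).symm
      rw [h2, Submodule.Quotient.mk_eq_zero, hmem]
      exact hH.comp_left _
    have h3 : ∑ g : G with g ∈ H, ρ g v₀ = (Nat.card H : ℚ) • v₀ := by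
      rw [Finset.sum_congr rfl fun g hg => hfix g (Finset.mem_filter.1 hg).2, Finset.sum_const,
        ← Nat.cast_smul_eq_nsmul ℚ]
      congr 2
      rw [Nat.card_eq_fintype_card, ← Fintype.card_subtype]
    rw [h3, map_smul, smul_eq_zero] at h1
    have h4 : φ v₀ = 0 := h1.resolve_left (card_ne H)
    rcases hρ (LinearMap.ker φ) (fun g v hv => by
      rw [LinearMap.mem_ker, hz] at hv
      rw [LinearMap.mem_ker, hact, Submodule.Quotient.mk_eq_zero, hmem]
      exact hv.comp_right _) with h5 | h5
    · exact hv₀ ((Submodule.mem_bot ℚ).1 (h5 ▸ LinearMap.mem_ker.2 h4))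
    · exact hv₁ ((hz v₁).1 (LinearMap.mem_ker.1 (h5 ▸ Submodule.mem_top)))
  · intro h
    exact onQuotient_of_dom a hP H Empty (fun j => j.elim)
      (fun V _ _ ρ hρ hQ hv => (h V ρ hρ hQ hv).elim) fun j => j.elim

end

section tensor

variable [HasFiniteBiproducts C] (N : C) (n : ℕ)

/-- The sum of `n` copies. -/
noncomputable abbrev copies : C := ⨁ fun _ : Fin n => N

/-- The endomorphism given by a matrix. -/
noncomputable def matEnd (T : Matrix (Fin n) (Fin n) ℚ) : copies N n ⟶ copies N n :=
  ∑ i, ∑ j, T i j • (biproduct.π (fun _ : Fin n => N) j ≫ biproduct.ι (fun _ : Fin n => N) i)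

/-- The morphism given by a column. -/
noncomputable def col (x : Fin n → ℚ) : N ⟶ copies N n :=
  ∑ i, x i • biproduct.ι (fun _ : Fin n => N) i

lemma ι_π (i j : Fin n) : biproduct.ι (fun _ : Fin n => N) i ≫ biproduct.π (fun _ : Fin n => N) j =
    if i = j then 𝟙 N else 0 := by
  by_cases h : i = j
  · subst h
    rw [biproduct.ι_π_self, if_pos rfl]
  · rw [biproduct.ι_π_ne _ h, if_neg h]

lemma col_π (x : Fin n → ℚ) (j : Fin n) :
    col N n x ≫ biproduct.π (fun _ : Fin n => N) j = x j • 𝟙 N := by
  rw [col, Preadditive.sum_comp, Finset.sum_eq_single j]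
  · rw [Linear.smul_comp, ι_π, if_pos rfl]
  · intro i _ hi
    rw [Linear.smul_comp, ι_π, if_neg hi, smul_zero]
  · intro h
    exact absurd (Finset.mem_univ j) h

lemma col_matEnd (x : Fin n → ℚ) (T : Matrix (Fin n) (Fin n) ℚ) :
    col N n x ≫ matEnd N n T = col N n (T.mulVec x) := by
  rw [matEnd, Preadditive.comp_sum]
  conv_rhs => rw [col]
  refine Finset.sum_congr rfl fun i _ => ?_
  rw [Preadditive.comp_sum]
  have h1 : ∀ j, col N n x ≫ (T i j • (biproduct.π (fun _ : Fin n => N) j ≫
      biproduct.ι (fun _ : Fin n => N) i)) = (T i j * x j) • biproduct.ι (fun _ : Fin n => N) i := by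
    intro j
    rw [Linear.comp_smul, ← Category.assoc, col_π, Linear.smul_comp, Category.id_comp, smul_smul]
  rw [Finset.sum_congr rfl fun j _ => h1 j, ← Finset.sum_smul]
  rfl

lemma ι_eq (k : Fin n) : biproduct.ι (fun _ : Fin n => N) k = col N n (Pi.single k 1) := by
  classical
  rw [col, Finset.sum_eq_single k]
  · rw [Pi.single_eq_same, one_smul]
  · intro i _ hi
    rw [Pi.single_eq_of_ne hi, zero_smul]
  · intro h
    exact absurd (Finset.mem_univ k) h

lemma matEnd_comp (T S : Matrix (Fin n) (Fin n) ℚ) :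
    matEnd N n T ≫ matEnd N n S = matEnd N n (S * T) := by
  refine biproduct.hom_ext' _ _ fun k => ?_
  rw [← Category.assoc, ι_eq, col_matEnd, col_matEnd, col_matEnd, Matrix.mulVec_mulVec]

lemma matEnd_one : matEnd N n 1 = 𝟙 _ := by
  refine biproduct.hom_ext' _ _ fun k => ?_
  rw [ι_eq, col_matEnd, Matrix.one_mulVec, Category.comp_id]

lemma matEnd_add (T S : Matrix (Fin n) (Fin n) ℚ) :
    matEnd N n (T + S) = matEnd N n T + matEnd N n S := by
  simp only [matEnd, Matrix.add_apply, add_smul, Finset.sum_add_distrib]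

lemma matEnd_zero : matEnd N n 0 = 0 := by
  simp only [matEnd, Matrix.zero_apply, zero_smul, Finset.sum_const_zero]

lemma matEnd_sum {ι : Type} (s : Finset ι) (T : ι → Matrix (Fin n) (Fin n) ℚ) :
    matEnd N n (∑ j ∈ s, T j) = ∑ j ∈ s, matEnd N n (T j) := by
  classical
  induction s using Finset.induction_on with
  | empty => rw [Finset.sum_empty, Finset.sum_empty, matEnd_zero]
  | insert j s hj ih => rw [Finset.sum_insert hj, Finset.sum_insert hj, matEnd_add, ih]

variable [IsIdempotentComplete C] {G : Type} [Group G] [Finite G]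

/-- **Objects with a given obstruction.** -/
theorem exists_object (hP : IsStable P) {N : C} (hN : ¬ P N) {V : Type} [AddCommGroup V]
    [Module ℚ V] (ρ : G →* Module.End ℚ V) (hρ : Irred ρ) (hV : ∃ v : V, v ≠ 0) :
    ∃ (M : C) (a : G →* End M), ∀ H : Subgroup G, OnQuotient P a H ↔ ¬ HasFixed ρ H := by
  classical
  have : Fintype G := Fintype.ofFinite G
  have hfd : FiniteDimensional ℚ V := by
    obtain ⟨v, hv⟩ := hV
    have h1 : Submodule.span ℚ (Set.range fun g : G => ρ g v) = ⊤ := by
      refine (hρ _ fun g u hu => ?_).resolve_left fun h => hv ?_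
      · induction hu using Submodule.span_induction with
        | mem x hx =>
          obtain ⟨h, rfl⟩ := hx
          refine Submodule.subset_span ⟨g * h, ?_⟩
          change ρ (g * h) v = ρ g (ρ h v)
          rw [map_mul, Module.End.mul_apply]
        | zero => rw [map_zero]; exact Submodule.zero_mem _
        | add x y _ _ hx hy => rw [map_add]; exact Submodule.add_mem _ hx hy
        | smul t x _ hx => rw [map_smul]; exact Submodule.smul_mem _ _ hx
      · have h2 : v ∈ Submodule.span ℚ (Set.range fun g : G => ρ g v) :=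
          Submodule.subset_span ⟨1, by simp⟩
        rw [h] at h2
        exact (Submodule.mem_bot ℚ).1 h2
    exact Module.finite_def.2 (h1 ▸ Submodule.fg_span (Set.finite_range _))
  set n := finrank ℚ V
  let b : Basis (Fin n) ℚ V := finBasis ℚ V
  let a : G →* End (copies N n) :=
    { toFun := fun g => matEnd N n (LinearMap.toMatrix b b (ρ g))
      map_one' := by
        rw [map_one, LinearMap.toMatrix_one]
        exact matEnd_one N n
      map_mul' := fun g h => by
        rw [map_mul, LinearMap.toMatrix_mul]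
        exact (matEnd_comp N n _ _).symm }
  have ha : ∀ g, (a g : copies N n ⟶ copies N n) = matEnd N n (LinearMap.toMatrix b b (ρ g)) :=
    fun _ => rfl
  refine ⟨copies N n, a, fun H => ⟨fun h hf => hN ?_, fun h => ?_⟩⟩
  · obtain ⟨v, hv0, hv⟩ := hf
    obtain ⟨L, i, p, hL, hPL⟩ := h
    have hk : ∃ k, b.repr v k ≠ 0 := by
      by_contra hno
      push Not at hno
      apply hv0
      apply b.repr.injective
      rw [map_zero]
      ext k
      exact hno k
    obtain ⟨k, hk⟩ := hk
    have h1 : ∀ g ∈ H, col N n (b.repr v) ≫ (a g : copies N n ⟶ copies N n) =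
        col N n (b.repr v) := by
      intro g hg
      rw [ha, col_matEnd, LinearMap.toMatrix_mulVec_repr, hv g hg]
    have h2 := hL.factor N (col N n (b.repr v)) h1
    have h3 : col N n (b.repr v) ≫ ((b.repr v k)⁻¹ • biproduct.π (fun _ : Fin n => N) k) =
        𝟙 N := by
      rw [Linear.comp_smul, col_π, smul_smul, inv_mul_cancel₀ hk, one_smul]
    refine hP.retract N L (col N n (b.repr v) ≫ p)
      (i ≫ ((b.repr v k)⁻¹ • biproduct.π (fun _ : Fin n => N) k)) ?_ hPL
    rw [← Category.assoc, h2, h3]
  · rw [← nA_mem a hP, mem_ideal, act_nA]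
    have h1 : (∑ g : G with g ∈ H, ρ g) = 0 := by
      refine LinearMap.ext fun v => ?_
      rw [LinearMap.zero_apply]
      by_contra hne
      refine h ⟨_, hne, fun d hd => ?_⟩
      rw [LinearMap.sum_apply, map_sum]
      refine Finset.sum_nbij' (fun g => d * g) (fun g => d⁻¹ * g) ?_ ?_ ?_ ?_ ?_
      · intro g hg
        rw [Finset.mem_filter] at hg ⊢
        exact ⟨Finset.mem_univ _, H.mul_mem hd hg.2⟩
      · intro g hg
        rw [Finset.mem_filter] at hg ⊢
        exact ⟨Finset.mem_univ _, H.mul_mem (H.inv_mem hd) hg.2⟩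
      · intro g _; group
      · intro g _; group
      · intro g _
        rw [map_mul, Module.End.mul_apply]
    have h2 : (∑ g : G with g ∈ H, (a g : copies N n ⟶ copies N n)) = 0 := by
      rw [Finset.sum_congr rfl fun g _ => ha g, ← matEnd_sum, ← map_sum, h1, map_zero, matEnd_zero]
    rw [h2]
    exact FactorsThrough.zero hP

/-- **The exact criterion.** -/
theorem detects_iff (hP : IsStable P) (hN : ∃ N : C, ¬ P N) (F : Set (Subgroup G))
    (H : Subgroup G) : Detects P F H ↔ Covers F H := by
  constructor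
  · intro h V _ _ ρ hρ hH
    by_contra hno
    push Not at hno
    obtain ⟨N, hN⟩ := hN
    obtain ⟨v, hv, hv'⟩ := hH
    obtain ⟨M, a, hM⟩ := exists_object (G := G) hP hN ρ hρ ⟨v, hv⟩
    exact (hM H).1 (h M a fun D hD => (hM D).2 (hno D hD)) ⟨v, hv, hv'⟩
  · intro h M a hF
    have : Fintype G := Fintype.ofFinite G
    refine onQuotient_of_dom a hP H {D // D ∈ F} (fun D => D.1) (fun V _ _ ρ hρ _ hv => ?_)
      fun D => hF D.1 D.2
    obtain ⟨D, hD, hf⟩ := h V ρ hρ hv
    exact ⟨⟨D, hD⟩, hf⟩

end tensor

end Pool.Agent.U227.Mot
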