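import Pool.Agent.U227.MotMain
import Pool.Agent.U227.BrLin
import Mathlib.Algebra.Category.ModuleCat.Basic
import Mathlib.CategoryTheory.Preadditive.AdditiveFunctor
import Mathlib.CategoryTheory.Limits.Shapes.BinaryBiproducts

/-!
# Kernels of natural transformations and group actions
-/

set_option autoImplicit false
set_option linter.unusedSectionVars false

open CategoryTheory CategoryTheory.Limits Module
open scoped ZeroObject

universe v u w

namespace Pool.Agent.U227.Ker

open Pool.Agent.U227.Mot Pool.Agent.U227.Br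

/-- Families of additive functors `A m`, `J m` to vector spaces over `ℚ` and natural maps `A m ⟶ J m`, for
example the Abel-Jacobi maps on the homologically trivial cycles of codimension `m`. -/
structure NatMaps (C : Type u) [Category.{v} C] [Preadditive C] (κ : Type) where
  /-- the sources -/
  A : κ → C ⥤ ModuleCat.{w} ℚ
  /-- the targets -/
  J : κ → C ⥤ ModuleCat.{w} ℚ
  /-- additivity -/
  additive : ∀ m, (A m).Additive
  /-- the maps -/
  η : ∀ m, A m ⟶ J m

variable {C : Type u} [Category.{v} C] [Preadditive C] {κ : Type}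

namespace NatMaps

variable (T : NatMaps.{v, u, w} C κ)

/-- The map on the sources. -/
def map (m : κ) {M N : C} (f : M ⟶ N) : (T.A m).obj M →ₗ[ℚ] (T.A m).obj N := ((T.A m).map f).hom

/-- The map for `M`. -/
def aj (m : κ) (M : C) : (T.A m).obj M →ₗ[ℚ] (T.J m).obj M := ((T.η m).app M).hom

/-- The kernel of the map for `M`. -/
def kernel (m : κ) (M : C) : Submodule ℚ ((T.A m).obj M) := LinearMap.ker (T.aj m M)

/-- The dimension of the kernel. -/
noncomputable def kerDim (m : κ) (M : C) : ℕ := finrank ℚ (T.kernel m M)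

/-- The maps for `M` with index in `I` are injective. -/
def InjectiveIn (I : Set κ) (M : C) : Prop :=
  ∀ m ∈ I, Function.Injective (T.aj m M)

/-- If the kernel for `M` is finite-dimensional, then the dimensions of the kernels for the parts of `M` fixed
by the subgroups satisfy all Brauer relations. -/
def DimensionFormula {G : Type} [Group G] {M : C} (a : G →* End M) (m : κ) : Prop :=
  Module.Finite ℚ (T.kernel m M) → ∀ (ι : Type) [Fintype ι] (c : ι → ℤ) (D : ι → Subgroup G),
    BrauerRelation c D → ∀ (N : ι → C) (i : ∀ j, N j ⟶ M) (p : ∀ j, M ⟶ N j),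
      (∀ j, IsFixedPart a (D j) (i j) (p j)) → ∑ j, c j * (T.kerDim m (N j) : ℤ) = 0

variable {T}

lemma map_comp (m : κ) {M N L : C} (f : M ⟶ N) (g : N ⟶ L) (x : (T.A m).obj M) :
    T.map m (f ≫ g) x = T.map m g (T.map m f x) := by
  simp [map]

lemma map_id (m : κ) (M : C) (x : (T.A m).obj M) : T.map m (𝟙 M) x = x := by
  simp [map]

lemma map_add' (m : κ) {M N : C} (f g : M ⟶ N) (x : (T.A m).obj M) :
    T.map m (f + g) x = T.map m f x + T.map m g x := by
  have := T.additive m
  simp [map, Functor.map_add]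

lemma aj_map (m : κ) {M N : C} (f : M ⟶ N) (x : (T.A m).obj M) :
    T.aj m N (T.map m f x) = ((T.J m).map f).hom (T.aj m M x) :=
  congrArg (fun u => u.hom x) ((T.η m).naturality f)

lemma map_mem (m : κ) {M N : C} (f : M ⟶ N) {x : (T.A m).obj M} (hx : x ∈ T.kernel m M) :
    T.map m f x ∈ T.kernel m N := by
  rw [kernel, LinearMap.mem_ker] at hx ⊢
  rw [aj_map, hx, map_zero]

lemma injectiveIn_iff {I : Set κ} {M : C} :
    T.InjectiveIn I M ↔ ∀ m ∈ I, ∀ x ∈ T.kernel m M, x = 0 := by
  refine forall₂_congr fun m _ => ?_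
  rw [← LinearMap.ker_eq_bot, LinearMap.ker_eq_bot']
  rfl

theorem isStable [HasZeroObject C] [HasBinaryBiproducts C] (I : Set κ) :
    IsStable (T.InjectiveIn I) where
  nonempty := by
    refine ⟨0, injectiveIn_iff.2 fun m _ x _ => ?_⟩
    have h1 : (𝟙 (0 : C)) = (𝟙 (0 : C)) + 𝟙 (0 : C) := (isZero_zero C).eq_of_src _ _
    have h2 : T.map m (𝟙 (0 : C)) x = T.map m (𝟙 (0 : C) + 𝟙 (0 : C)) x := by rw [← h1]
    rw [map_add', map_id] at h2
    exact left_eq_add.1 h2
  sum := by
    intro M N hM hN
    rw [injectiveIn_iff] at hM hN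
    refine ⟨M ⊞ N, biprod.inl, biprod.fst, biprod.inr, biprod.snd, biprod.inl_fst,
      biprod.inr_snd, biprod.inl_snd, biprod.inr_fst, injectiveIn_iff.2 fun m hm x hx => ?_⟩
    have h1 := hM m hm _ (map_mem m biprod.fst hx)
    have h2 := hN m hm _ (map_mem m biprod.snd hx)
    have h3 : x = T.map m biprod.inl (T.map m biprod.fst x) +
        T.map m biprod.inr (T.map m biprod.snd x) := by
      rw [← map_comp, ← map_comp, ← map_add', biprod.total, map_id]
    rw [h3, h1, h2, map_zero, map_zero, add_zero]
  retract := by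
    intro M N i p hip hN
    rw [injectiveIn_iff] at hN
    refine injectiveIn_iff.2 fun m hm x hx => ?_
    have h1 := hN m hm _ (map_mem m i hx)
    rw [← map_id m M x, ← hip, map_comp, h1, map_zero]

section

variable {G : Type} [Group G] {M : C} (a : G →* End M) (m : κ)

/-- The representation on the kernel. -/
def rep : G →* Module.End ℚ (T.kernel m M) where
  toFun g := (T.map m (a g : M ⟶ M)).restrict fun _ hx => map_mem m _ hx
  map_one' := by
    refine LinearMap.ext fun x => Subtype.ext ?_
    rw [LinearMap.coe_restrict_apply, map_one]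
    exact map_id m M (x : (T.A m).obj M)
  map_mul' g h := by
    refine LinearMap.ext fun x => Subtype.ext ?_
    rw [LinearMap.coe_restrict_apply, map_mul]
    exact map_comp m (a h : M ⟶ M) (a g : M ⟶ M) (x : (T.A m).obj M)

lemma rep_coe (g : G) (x : T.kernel m M) :
    ((rep a m g x : T.kernel m M) : (T.A m).obj M) = T.map m (a g : M ⟶ M) x := rfl

lemma map_sum' {ι : Type} (s : Finset ι) (f : ι → (M ⟶ M)) (x : (T.A m).obj M) :
    T.map m (∑ j ∈ s, f j) x = ∑ j ∈ s, T.map m (f j) x := by
  classical
  induction s using Finset.induction_on with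
  | empty =>
    rw [Finset.sum_empty, Finset.sum_empty]
    have h1 : (0 : M ⟶ M) = 0 + 0 := (add_zero 0).symm
    have h2 : T.map m (0 : M ⟶ M) x = T.map m (0 + 0 : M ⟶ M) x := by rw [← h1]
    rw [map_add'] at h2
    exact left_eq_add.1 h2
  | insert j s hj ih => rw [Finset.sum_insert hj, Finset.sum_insert hj, map_add', ih]

variable [Finite G]

lemma fixed_eq {H : Subgroup G} {N : C} {i : N ⟶ M} {p : M ⟶ N} (hf : IsFixedPart a H i p)
    {x : (T.A m).obj M} (hx : ∀ h ∈ H, T.map m (a h : M ⟶ M) x = x) :
    T.map m i (T.map m p x) = x := by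
  classical
  have := Fintype.ofFinite G
  set e : M ⟶ M := ∑ g : G with g ∈ H, (a g : M ⟶ M) with he
  have h1 : ∀ h ∈ H, e ≫ (a h : M ⟶ M) = e := by
    intro h hh
    rw [he, Preadditive.sum_comp]
    refine Finset.sum_nbij' (fun g => h * g) (fun g => h⁻¹ * g) ?_ ?_ ?_ ?_ ?_
    · intro g hg
      rw [Finset.mem_filter] at hg ⊢
      exact ⟨Finset.mem_univ _, H.mul_mem hh hg.2⟩
    · intro g hg
      rw [Finset.mem_filter] at hg ⊢
      exact ⟨Finset.mem_univ _, H.mul_mem (H.inv_mem hh) hg.2⟩
    · intro g _; group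
    · intro g _; group
    · intro g _
      rw [map_mul]
      rfl
  have h2 := hf.factor M e h1
  have h3 : T.map m e x = (Nat.card H : ℚ) • x := by
    rw [he, map_sum', Finset.sum_congr rfl fun g hg => hx g (Finset.mem_filter.1 hg).2,
      Finset.sum_const, ← Nat.cast_smul_eq_nsmul ℚ]
    congr 2
    rw [Nat.card_eq_fintype_card, ← Fintype.card_subtype]
  have h4 : T.map m i (T.map m p (T.map m e x)) = T.map m e x := by
    rw [← map_comp, ← map_comp, ← Category.assoc, h2]
  have hc : (Nat.card H : ℚ) ≠ 0 := by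
    exact_mod_cast (Nat.card_pos (α := H)).ne'
  rw [h3, map_smul, map_smul] at h4
  exact smul_right_injective _ hc h4

lemma kerDim_fixed [FiniteDimensional ℚ (T.kernel m M)] {H : Subgroup G} {N : C} {i : N ⟶ M} {p : M ⟶ N}
    (hf : IsFixedPart a H i p) :
    T.kerDim m N = finrank ℚ (fixedSub (rep (T := T) a m) H) := by
  have hpi : ∀ y : (T.A m).obj N, T.map m p (T.map m i y) = y := fun y => by
    rw [← map_comp, hf.retract, map_id]
  let φ : T.kernel m N →ₗ[ℚ] T.kernel m M := (T.map m i).restrict fun _ hx => map_mem m _ hx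
  have hφ : ∀ y : T.kernel m N, ((φ y : T.kernel m M) : (T.A m).obj M) = T.map m i y := fun _ => rfl
  have hinj : Function.Injective φ := by
    intro y z h
    apply Subtype.ext
    rw [← hpi y, ← hpi z, ← hφ, ← hφ, h]
  have hrange : LinearMap.range φ = fixedSub (rep (T := T) a m) H := by
    apply le_antisymm
    · rintro _ ⟨y, rfl⟩
      rw [mem_fixedSub]
      intro h hh
      apply Subtype.ext
      rw [rep_coe, hφ, ← map_comp, hf.fixed h hh]
    · intro v hv
      rw [mem_fixedSub] at hv
      have h1 : ∀ h ∈ H, T.map m (a h : M ⟶ M) (v : (T.A m).obj M) = v := fun h hh => by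
        rw [← rep_coe, hv h hh]
      refine ⟨⟨T.map m p v, map_mem m p v.2⟩, Subtype.ext ?_⟩
      rw [hφ]
      exact fixed_eq a m hf h1
  rw [kerDim, ← hrange, LinearMap.finrank_range_of_inj hinj]

/-- **The dimensions of the kernels.** -/
theorem dimensionFormula : T.DimensionFormula a m := by
  intro hfin ι _ c D hcD N i p hf
  classical
  have := Fintype.ofFinite G
  have hfd : FiniteDimensional ℚ (T.kernel m M) := hfin
  have h1 := brauer (K := ℚ) c D hcD (fun g => LinearMap.trace ℚ _ (rep (T := T) a m g))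
    (fun x g => by
      beta_reduce
      rw [(rep (T := T) a m).map_mul, LinearMap.trace_mul_comm, ← (rep (T := T) a m).map_mul,
        show x⁻¹ * (x * g) = g by group])
    (fun j => (finrank ℚ (fixedSub (rep (T := T) a m) (D j)) : ℚ)) (fun j => by
      have h2 := card_mul_finrank (rep (T := T) a m) (D j)
      convert h2)
  have h3 : ∑ j, (c j : ℚ) * (T.kerDim m (N j) : ℚ) = 0 := by
    rw [← h1]
    exact Finset.sum_congr rfl fun j _ => by rw [kerDim_fixed a m (hf j)]
  exact_mod_cast h3

end

end NatMaps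

end Pool.Agent.U227.Ker
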