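import Pool.Agent.U227.MotKer

/-!
# Injectivity of natural maps, vanishing of functors and group actions
-/

set_option autoImplicit false

open CategoryTheory CategoryTheory.Limits Module

universe v u w

namespace Pool.Agent.U227.Ker

open Pool.Agent.X252.SCT Pool.Agent.U227.Grp Pool.Agent.U227.Mot Pool.Agent.U227.Br

variable {C : Type u} [Category.{v} C] [Preadditive C] {κ : Type}

/-- The spaces `A m (M)`, `m` in `I`, are zero. -/
def VanishIn (A : κ → C ⥤ ModuleCat.{w} ℚ) (I : Set κ) (M : C) : Prop :=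
  ∀ m ∈ I, ∀ x : (A m).obj M, x = 0

/-- If `A m (M)` is finite-dimensional, then the dimensions of the `A m (N)` for the parts `N` of `M` fixed
by the subgroups satisfy all Brauer relations. -/
def SpaceFormula (A : κ → C ⥤ ModuleCat.{w} ℚ) {G : Type} [Group G] {M : C} (a : G →* End M)
    (m : κ) : Prop :=
  Module.Finite ℚ ((A m).obj M) → ∀ (ι : Type) [Fintype ι] (c : ι → ℤ) (D : ι → Subgroup G),
    BrauerRelation c D → ∀ (N : ι → C) (i : ∀ j, N j ⟶ M) (p : ∀ j, M ⟶ N j),
      (∀ j, IsFixedPart a (D j) (i j) (p j)) → ∑ j, c j * (finrank ℚ ((A m).obj (N j)) : ℤ) = 0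

/-- The zero maps. -/
def zeroMaps (A : κ → C ⥤ ModuleCat.{w} ℚ) (h : ∀ m, (A m).Additive) : NatMaps.{v, u, w} C κ where
  A := A
  J := A
  additive := h
  η := fun _ => 0

lemma mem_kernel_zeroMaps (A : κ → C ⥤ ModuleCat.{w} ℚ) (h : ∀ m, (A m).Additive) (m : κ) (M : C)
    (x : (A m).obj M) : x ∈ (zeroMaps A h).kernel m M := by
  have h1 : (zeroMaps A h).aj m M x = 0 := rfl
  exact (LinearMap.mem_ker (f := (zeroMaps A h).aj m M) (y := x)).2 h1

lemma injectiveIn_zeroMaps (A : κ → C ⥤ ModuleCat.{w} ℚ) (h : ∀ m, (A m).Additive) (I : Set κ) :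
    (zeroMaps A h).InjectiveIn I = VanishIn A I := by
  funext M
  rw [NatMaps.injectiveIn_iff]
  apply propext
  exact ⟨fun h1 m hm x => h1 m hm x (mem_kernel_zeroMaps A h m M x), fun h1 m hm x _ => h1 m hm x⟩

lemma kernel_zeroMaps (A : κ → C ⥤ ModuleCat.{w} ℚ) (h : ∀ m, (A m).Additive) (m : κ) (M : C) :
    (zeroMaps A h).kernel m M = ⊤ :=
  eq_top_iff.2 fun x _ => mem_kernel_zeroMaps A h m M x

variable [Linear ℚ C] [IsIdempotentComplete C] [HasZeroObject C] [HasBinaryBiproducts C]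
  {G : Type} [Group G] [Finite G] {M : C}

/-- **Injectivity and group actions.** -/
theorem injectivity (T : NatMaps.{v, u, w} C κ) (I : Set κ) (a : G →* End M) :
    (T.InjectiveIn I M ↔ Covered (T.InjectiveIn I) a) ∧
    (∀ (H : Subgroup G) (ι : Type) (D : ι → Subgroup G), Dominates (T.InjectiveIn I) a H D →
      (∀ j, OnQuotient (T.InjectiveIn I) a (D j)) → OnQuotient (T.InjectiveIn I) a H) ∧
    QuotientLaws (T.InjectiveIn I M) (OnQuotient (T.InjectiveIn I) a) ∧
    (¬ T.InjectiveIn I M → AtPrimes (OnQuotient (T.InjectiveIn I) a) →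
      FreeOccurs (T.InjectiveIn I) a ∧ CyclicSubgroups G) ∧
    ∀ m, T.DimensionFormula a m := by
  obtain ⟨h1, h2, h3, h4⟩ := main (NatMaps.isStable (T := T) I) a
  exact ⟨h1, h2, h3, h4, fun m => NatMaps.dimensionFormula a m⟩

/-- **Vanishing and group actions.** -/
theorem vanishing (A : κ → C ⥤ ModuleCat.{w} ℚ) (h : ∀ m, (A m).Additive) (I : Set κ)
    (a : G →* End M) :
    (VanishIn A I M ↔ Covered (VanishIn A I) a) ∧
    (∀ (H : Subgroup G) (ι : Type) (D : ι → Subgroup G), Dominates (VanishIn A I) a H D →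
      (∀ j, OnQuotient (VanishIn A I) a (D j)) → OnQuotient (VanishIn A I) a H) ∧
    QuotientLaws (VanishIn A I M) (OnQuotient (VanishIn A I) a) ∧
    (¬ VanishIn A I M → AtPrimes (OnQuotient (VanishIn A I) a) →
      FreeOccurs (VanishIn A I) a ∧ CyclicSubgroups G) ∧
    ∀ m, SpaceFormula A a m := by
  obtain ⟨h1, h2, h3, h4⟩ := main (NatMaps.isStable (T := zeroMaps A h) I) a
  rw [injectiveIn_zeroMaps] at h1 h2 h3 h4
  refine ⟨h1, h2, h3, h4, fun m hfin ι _ c D hcD N i p hf => ?_⟩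
  have hk : ∀ L : C, (zeroMaps A h).kerDim m L = finrank ℚ ((A m).obj L) := by
    intro L
    rw [NatMaps.kerDim, kernel_zeroMaps]
    exact finrank_top ℚ _
  have hfin' : Module.Finite ℚ ((zeroMaps A h).kernel m M) := by
    have : Module.Finite ℚ ((A m).obj M) := hfin
    rw [kernel_zeroMaps]
    exact Module.Finite.equiv (Submodule.topEquiv (R := ℚ) (M := (A m).obj M)).symm
  have h5 := NatMaps.dimensionFormula (T := zeroMaps A h) a m hfin' ι c D hcD N i p hf
  rw [← h5]
  exact Finset.sum_congr rfl fun j _ => by rw [hk]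

end Pool.Agent.U227.Ker
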