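import Pool.Agent.U227.MotDefs
import Pool.Agent.U227.Grp
import Mathlib.CategoryTheory.Idempotents.Basic

/-!
# Objects of a linear category with an action of a finite group
-/

set_option autoImplicit false
set_option linter.unusedSectionVars false

open CategoryTheory Finset

universe v u

namespace Pool.Agent.U227.Mot

open Pool.Agent.X252.GA Pool.Agent.X252.SCT Pool.Agent.U227.Grp

variable {C : Type u} [Category.{v} C] [Preadditive C] [Linear ℚ C] {P : C → Prop}

namespace FactorsThrough

variable {M N K : C}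

lemma zero (hP : IsStable P) : FactorsThrough P (0 : M ⟶ N) := by
  obtain ⟨T, hT⟩ := hP.nonempty
  exact ⟨T, 0, 0, hT, Limits.comp_zero⟩

lemma add (hP : IsStable P) {f g : M ⟶ N} (hf : FactorsThrough P f) (hg : FactorsThrough P g) :
    FactorsThrough P (f + g) := by
  obtain ⟨T, u, w, hT, rfl⟩ := hf
  obtain ⟨T', u', w', hT', rfl⟩ := hg
  obtain ⟨S, i, p, j, q, h1, h2, h3, h4, hS⟩ := hP.sum T T' hT hT'
  refine ⟨S, u ≫ i + u' ≫ j, p ≫ w + q ≫ w', hS, ?_⟩
  rw [Preadditive.add_comp, Preadditive.comp_add, Preadditive.comp_add, Category.assoc,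
    Category.assoc, Category.assoc, Category.assoc, ← Category.assoc i p, h1, ← Category.assoc i q,
    h3, ← Category.assoc j p, h4, ← Category.assoc j q, h2, Category.id_comp, Category.id_comp,
    Limits.zero_comp, Limits.zero_comp, Limits.comp_zero, Limits.comp_zero, add_zero, zero_add]

lemma comp_left {f : M ⟶ N} (hf : FactorsThrough P f) (g : K ⟶ M) : FactorsThrough P (g ≫ f) := by
  obtain ⟨T, u, w, hT, rfl⟩ := hf
  exact ⟨T, g ≫ u, w, hT, Category.assoc _ _ _⟩

lemma comp_right {f : M ⟶ N} (hf : FactorsThrough P f) (g : N ⟶ K) : FactorsThrough P (f ≫ g) := by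
  obtain ⟨T, u, w, hT, rfl⟩ := hf
  exact ⟨T, u, w ≫ g, hT, (Category.assoc _ _ _).symm⟩

lemma smul {f : M ⟶ N} (hf : FactorsThrough P f) (r : ℚ) : FactorsThrough P (r • f) := by
  obtain ⟨T, u, w, hT, rfl⟩ := hf
  exact ⟨T, r • u, w, hT, Linear.smul_comp _ _ _ _ _ _⟩

lemma of_id (hP : IsStable P) (h : FactorsThrough P (𝟙 M)) : P M := by
  obtain ⟨T, u, w, hT, h⟩ := h
  exact hP.retract M T u w h hT

end FactorsThrough

section

variable {G : Type} [Group G] {M : C} (a : G →* End M)

/-- The action of the group ring. -/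
noncomputable def theta : MonoidAlgebra ℚ G →ₐ[ℚ] End M := MonoidAlgebra.lift ℚ (End M) G a

/-- The action as a morphism. -/
noncomputable def act (x : MonoidAlgebra ℚ G) : M ⟶ M := theta a x

lemma act_add (x y : MonoidAlgebra ℚ G) : act a (x + y) = act a x + act a y :=
  map_add (theta a) x y

lemma act_zero : act a (0 : MonoidAlgebra ℚ G) = 0 := map_zero (theta a)

lemma act_one : act a (1 : MonoidAlgebra ℚ G) = 𝟙 M := map_one (theta a)

lemma act_mul (x y : MonoidAlgebra ℚ G) : act a (x * y) = act a y ≫ act a x :=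
  map_mul (theta a) x y

lemma act_single (g : G) : act a (MonoidAlgebra.single g (1 : ℚ)) = (a g : M ⟶ M) := by
  rw [act, theta, MonoidAlgebra.lift_single, one_smul]

/-- The ideal of the elements which act by morphisms factoring through objects with `P`. -/
noncomputable def ideal (hP : IsStable P) : Ideal (MonoidAlgebra ℚ G) where
  carrier := {x | FactorsThrough P (act a x)}
  add_mem' := by
    intro x y hx hy
    change FactorsThrough P (act a (x + y))
    rw [act_add]
    exact FactorsThrough.add hP hx hy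
  zero_mem' := by
    change FactorsThrough P (act a 0)
    rw [act_zero]
    exact FactorsThrough.zero hP
  smul_mem' := by
    intro c x hx
    change FactorsThrough P (act a (c * x))
    rw [act_mul]
    exact hx.comp_right _

lemma mem_ideal (hP : IsStable P) {x : MonoidAlgebra ℚ G} :
    x ∈ ideal a hP ↔ FactorsThrough P (act a x) := Iff.rfl

lemma ideal_right (hP : IsStable P) (x : MonoidAlgebra ℚ G) (hx : x ∈ ideal a hP)
    (y : MonoidAlgebra ℚ G) : x * y ∈ ideal a hP := by
  rw [mem_ideal, act_mul]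
  exact FactorsThrough.comp_left hx _

variable [Fintype G]

open Classical in
lemma act_nA (H : Subgroup G) : act a (nA H) = ∑ g : G with g ∈ H, (a g : M ⟶ M) := by
  rw [act, nA, map_sum]
  exact Finset.sum_congr rfl fun g _ => act_single a g

lemma fixed_act_nA {H : Subgroup G} {T : C} {t : T ⟶ M}
    (ht : ∀ h ∈ H, t ≫ (a h : M ⟶ M) = t) : t ≫ act a (nA H) = (Nat.card H : ℚ) • t := by
  classical
  rw [act_nA, Preadditive.comp_sum, Finset.sum_congr rfl fun g hg => ht g (Finset.mem_filter.1 hg).2,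
    Finset.sum_const, ← Nat.cast_smul_eq_nsmul ℚ]
  congr 2
  rw [Nat.card_eq_fintype_card, ← Fintype.card_subtype]

lemma act_nA_fixed (H : Subgroup G) {h : G} (hh : h ∈ H) :
    act a (nA H) ≫ (a h : M ⟶ M) = act a (nA H) := by
  rw [← act_single, ← act_mul, single_mul_nA hh]

lemma card_ne (H : Subgroup G) : (Nat.card H : ℚ) ≠ 0 := by
  exact_mod_cast (Nat.card_pos (α := H)).ne'

/-- The fixed part and the ideal. -/
lemma nA_mem [IsIdempotentComplete C] (hP : IsStable P) {H : Subgroup G} :
    nA H ∈ ideal a hP ↔ OnQuotient P a H := by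
  rw [mem_ideal]
  constructor
  · intro h
    set e : M ⟶ M := (Nat.card H : ℚ)⁻¹ • act a (nA H) with he
    have hfix : ∀ g ∈ H, e ≫ (a g : M ⟶ M) = e := by
      intro g hg
      rw [he, Linear.smul_comp, act_nA_fixed a H hg]
    have hid : ∀ {T : C} {t : T ⟶ M}, (∀ h ∈ H, t ≫ (a h : M ⟶ M) = t) → t ≫ e = t := by
      intro T t ht
      rw [he, Linear.comp_smul, fixed_act_nA a ht, smul_smul, inv_mul_cancel₀ (card_ne H), one_smul]
    obtain ⟨N, i, p, hip, hpi⟩ := IsIdempotentComplete.idempotents_split M e (hid hfix)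
    have hie : i ≫ e = i := by
      rw [← hpi, ← Category.assoc, hip, Category.id_comp]
    refine ⟨N, i, p, ⟨hip, fun g hg => ?_, fun T t ht => ?_⟩, ?_⟩
    · rw [← hie, Category.assoc, hfix g hg]
    · rw [Category.assoc, hpi, hid ht]
    · apply FactorsThrough.of_id hP
      have h1 : 𝟙 N = i ≫ ((Nat.card H : ℚ)⁻¹ • act a (nA H)) ≫ p := by
        rw [← Category.assoc, ← he, hie, hip]
      rw [h1]
      exact ((h.smul _).comp_right p).comp_left i
  · rintro ⟨N, i, p, ⟨-, -, hfac⟩, hN⟩
    exact ⟨N, act a (nA H) ≫ p, i, hN, hfac _ _ fun g hg => act_nA_fixed a H hg⟩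

/-- **Domination.** -/
theorem onQuotient_of_dom [IsIdempotentComplete C] (hP : IsStable P) (H : Subgroup G) (ι : Type)
    (D : ι → Subgroup G) (hD : DomIn (fun _ _ _ ρ => OccursIn P a ρ) H D)
    (h : ∀ j, OnQuotient P a (D j)) : OnQuotient P a H := by
  classical
  rw [← nA_mem a hP]
  refine dom_of_ideal (ideal a hP) (ideal_right a hP) ?_ H ι D hD fun j => (nA_mem a hP).2 (h j)
  intro S hS
  let _ : Module (MonoidAlgebra ℚ G) (M ⟶ M) :=
    { smul := fun x f => f ≫ act a x
      one_smul := fun f => by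
        change f ≫ act a 1 = f
        rw [act_one, Category.comp_id]
      mul_smul := fun x y f => by
        change f ≫ act a (x * y) = (f ≫ act a y) ≫ act a x
        rw [act_mul, Category.assoc]
      smul_zero := fun x => Limits.zero_comp
      smul_add := fun x f g => Preadditive.add_comp _ _ _ _ _ _
      add_smul := fun x y f => by
        change f ≫ act a (x + y) = f ≫ act a x + f ≫ act a y
        rw [act_add, Preadditive.comp_add]
      zero_smul := fun f => by
        change f ≫ act a 0 = 0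
        rw [act_zero, Limits.comp_zero] }
  have hsm : ∀ (x : MonoidAlgebra ℚ G) (f : M ⟶ M), x • f = f ≫ act a x := fun _ _ => rfl
  let S₀ : Submodule (MonoidAlgebra ℚ G) (M ⟶ M) :=
    { carrier := {f | FactorsThrough P f}
      add_mem' := fun ha hb => FactorsThrough.add hP ha hb
      zero_mem' := FactorsThrough.zero hP
      smul_mem' := fun x m hm => FactorsThrough.comp_right hm _ }
  have hmem : ∀ m, m ∈ S₀ ↔ FactorsThrough P m := fun _ => Iff.rfl
  obtain ⟨n, ⟨m, rfl⟩, f, hf, s, hs⟩ := exists_hom (ideal a hP) (ideal_right a hP) S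
    (N := (M ⟶ M) ⧸ S₀) (U := {n | ∃ m, Submodule.Quotient.mk m = n}) (fun x hx => by
      have h1 := hx _ ⟨𝟙 M, rfl⟩
      rw [← Submodule.Quotient.mk_smul, Submodule.Quotient.mk_eq_zero, hmem, hsm,
        Category.id_comp] at h1
      exact h1)
  choose c hc using hf
  have hmk : ∀ s, (Submodule.Quotient.mk (m ≫ act a (c s)) : (M ⟶ M) ⧸ S₀) = f s := by
    intro s
    rw [hc s, ← Submodule.Quotient.mk_smul]
    rfl
  refine ⟨fun s => m ≫ act a (c s), ?_, ?_, s, ?_⟩
  · intro v w
    rw [← hmem, ← Submodule.Quotient.mk_eq_zero, Submodule.Quotient.mk_sub,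
      Submodule.Quotient.mk_add, hmk, hmk, hmk, map_add, sub_self]
  · intro g v
    rw [← hmem, ← Submodule.Quotient.mk_eq_zero, Submodule.Quotient.mk_sub, hmk, repOf_apply,
      map_smul, ← hmk, ← Submodule.Quotient.mk_smul, hsm, act_single, sub_self]
  · intro h
    apply hs
    rw [← hmk, Submodule.Quotient.mk_eq_zero]
    exact h

end

/-- **Properties of objects with an action of a finite group.** -/
theorem main [IsIdempotentComplete C] (hP : IsStable P) {G : Type} [Group G] [Finite G] {M : C}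
    (a : G →* End M) :
    (P M ↔ Covered P a) ∧
    (∀ (H : Subgroup G) (ι : Type) (D : ι → Subgroup G), Dominates P a H D →
      (∀ j, OnQuotient P a (D j)) → OnQuotient P a H) ∧
    QuotientLaws (P M) (OnQuotient P a) ∧
    (¬ P M → AtPrimes (OnQuotient P a) → FreeOccurs P a ∧ CyclicSubgroups G) := by
  have : Fintype G := Fintype.ofFinite G
  have hbot : P M ↔ OnQuotient P a ⊥ := by
    rw [← nA_mem a hP, nA_bot, mem_ideal, act_one]
    exact ⟨fun h => ⟨M, 𝟙 M, 𝟙 M, h, Category.comp_id _⟩, FactorsThrough.of_id hP⟩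
  rw [hbot]
  obtain ⟨p1, p2, p3, p4, p6, p5⟩ := parts (G := G)
    (Q := fun _ _ _ ρ => OccursIn P a ρ) (OnQuotient P a)
    (fun H ι D hD h => onQuotient_of_dom a hP H ι D hD h)
  refine ⟨⟨fun h V _ _ ρ hρ hQ => ?_, fun h => ?_⟩,
    fun H ι D hD h => onQuotient_of_dom a hP H ι D hD h, ⟨p2, p3, p4, p6⟩, ?_⟩
  · refine p1.1 h V ρ hρ hQ ?_
    obtain ⟨f, hadd, -, v, hv⟩ := hQ
    refine ⟨v, fun h0 => hv ?_⟩
    have h2 := (hadd 0 0).smul (-1)
    rw [add_zero, sub_add_cancel_left, smul_neg, neg_smul, one_smul, neg_neg] at h2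
    rwa [h0]
  · exact p1.2 fun V _ _ ρ hρ hQ _ => h V ρ hρ hQ
  · intro h0 hP'
    obtain ⟨⟨V, _, _, ρ, hfree, hocc⟩, hcyc⟩ := p5 h0 hP'
    exact ⟨⟨V, _, _, ρ, hfree, hocc⟩, hcyc⟩

end Pool.Agent.U227.Mot
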