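import Pool.Agent.U227.MotMain
import Mathlib.CategoryTheory.Preadditive.AdditiveFunctor
import Mathlib.CategoryTheory.Limits.Shapes.ZeroObjects
import Mathlib.CategoryTheory.Preadditive.Biproducts
import Mathlib.Algebra.Category.ModuleCat.Abelian
import Mathlib.Analysis.Complex.Basic

/-!
# Conditions on objects given by operators on a realisation
-/

set_option autoImplicit false
set_option linter.unusedSectionVars false

open CategoryTheory Limits Polynomial

universe w v u

namespace Pool.Agent.U227.Mot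

variable {C : Type u} [Category.{v} C] [Preadditive C] {K : Type w} [Field K]

/-- The operator `π M` on the realisation of `M` is given by an endomorphism of `M`. -/
def OperatorAlgebraic (R : C ⥤ ModuleCat.{w} K) (π : R ⟶ R) (M : C) : Prop :=
  ∃ e : M ⟶ M, R.map e = π.app M

/-- The eigenvalues of the operator `F` on the realisation of `M` are algebraic numbers all of whose
complex conjugates have absolute value `c`: some nonzero polynomial with rational coefficients all of whose
complex roots have absolute value `c` annihilates `F`. -/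
def IsPure [Algebra ℚ K] (R : C ⥤ ModuleCat.{w} K) (F : R ⟶ R) (c : ℝ) (M : C) : Prop :=
  ∃ p : ℚ[X], p ≠ 0 ∧ aeval (F.app M).hom (p.map (algebraMap ℚ K)) = 0 ∧
    ∀ z : ℂ, aeval z p = 0 → ‖z‖ = c

/-- The noncommutative Weil conjecture for `M`: the eigenvalues of `F₀` and `F₁` are algebraic numbers all of
whose complex conjugates have absolute value `1` and `√q`. -/
def WeilFor [Algebra ℚ K] (R₀ R₁ : C ⥤ ModuleCat.{w} K) (F₀ : R₀ ⟶ R₀) (F₁ : R₁ ⟶ R₁) (q : ℕ)
    (M : C) : Prop :=
  IsPure R₀ F₀ 1 M ∧ IsPure R₁ F₁ (Real.sqrt q) M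

section

variable [HasZeroObject C] [HasBinaryBiproducts C]

/-- A criterion for stability. -/
lemma isStable_of {P : C → Prop} (h0 : ∀ Z : C, 𝟙 Z = 0 → P Z)
    (h1 : ∀ M N, P M → P N → P (M ⊞ N))
    (h2 : ∀ (M N : C) (i : M ⟶ N) (p : N ⟶ M), i ≫ p = 𝟙 M → P N → P M) : IsStable P where
  nonempty := ⟨(HasZeroObject.zero' C).1, h0 _ ((isZero_zero C).eq_of_src _ _)⟩
  sum := fun M N hM hN => ⟨M ⊞ N, biprod.inl, biprod.fst, biprod.inr, biprod.snd, biprod.inl_fst,
    biprod.inr_snd, biprod.inl_snd, biprod.inr_fst, h1 M N hM hN⟩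
  retract := h2

lemma app_zero (R : C ⥤ ModuleCat.{w} K) [R.Additive] (π : R ⟶ R) {Z : C}
    (hZ : 𝟙 Z = 0) : π.app Z = 0 := by
  have h2 : π.app Z = R.map (𝟙 Z) ≫ π.app Z := by rw [R.map_id, Category.id_comp]
  rw [h2, hZ, R.map_zero, Limits.zero_comp]

lemma isStable_operatorAlgebraic (R : C ⥤ ModuleCat.{w} K)
    [R.Additive] (π : R ⟶ R) : IsStable (OperatorAlgebraic R π) := by
  refine isStable_of ?_ ?_ ?_
  · intro Z hZ
    exact ⟨0, by rw [app_zero R π hZ, R.map_zero]⟩
  · rintro M N ⟨e, he⟩ ⟨e', he'⟩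
    refine ⟨biprod.fst ≫ e ≫ biprod.inl + biprod.snd ≫ e' ≫ biprod.inr, ?_⟩
    rw [R.map_add, R.map_comp, R.map_comp, R.map_comp, R.map_comp, he, he', ← π.naturality,
      ← π.naturality, ← Category.assoc, ← Category.assoc, ← R.map_comp, ← R.map_comp,
      ← Preadditive.add_comp, ← R.map_add, biprod.total, R.map_id, Category.id_comp]
  · rintro M N i p hip ⟨e, he⟩
    refine ⟨i ≫ e ≫ p, ?_⟩
    rw [R.map_comp, R.map_comp, he, ← π.naturality, ← Category.assoc, ← R.map_comp, hip, R.map_id,
      Category.id_comp]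

lemma aeval_comm {V W : Type*} [AddCommGroup V] [Module K V] [AddCommGroup W] [Module K W]
    {g : V →ₗ[K] W} {A : Module.End K V} {B : Module.End K W} (h : ∀ x, g (A x) = B (g x))
    (P : K[X]) : ∀ x, g (aeval A P x) = aeval B P (g x) := by
  induction P using Polynomial.induction_on' with
  | add p q hp hq => intro x; rw [map_add, map_add, LinearMap.add_apply, map_add, hp, hq]; rfl
  | monomial n c =>
    intro x
    rw [← C_mul_X_pow_eq_monomial, map_mul, map_mul, aeval_C, aeval_C, map_pow, map_pow, aeval_X,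
      aeval_X, Module.End.mul_apply, Module.End.mul_apply, Module.algebraMap_end_apply,
      Module.algebraMap_end_apply, map_smul]
    congr 1
    induction n with
    | zero => rfl
    | succ n ih => rw [pow_succ', pow_succ', Module.End.mul_apply, Module.End.mul_apply, h, ih]

lemma app_comm (R : C ⥤ ModuleCat.{w} K) (F : R ⟶ R) {M N : C} (f : M ⟶ N) (P : K[X])
    (x : R.obj M) :
    (R.map f).hom (aeval (F.app M).hom P x) = aeval (F.app N).hom P ((R.map f).hom x) := by
  refine aeval_comm (fun y => ?_) P x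
  have h1 := congrArg (fun g => g.hom y) (F.naturality f)
  exact h1.symm

lemma isStable_isPure [Algebra ℚ K] (R : C ⥤ ModuleCat.{w} K) [R.Additive] (F : R ⟶ R) (c : ℝ)
    (R' : C ⥤ ModuleCat.{w} K) [R'.Additive] (F' : R' ⟶ R') (c' : ℝ) :
    IsStable (fun M => IsPure R F c M ∧ IsPure R' F' c' M) := by
  have key0 : ∀ (R : C ⥤ ModuleCat.{w} K) [R.Additive] (F : R ⟶ R) (c : ℝ) (Z : C), 𝟙 Z = 0 →
      IsPure R F c Z := by
    intro R _ F c Z hZ
    refine ⟨1, one_ne_zero, ?_, fun z hz => ?_⟩
    · apply LinearMap.ext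
      intro x
      have h1 : x = (R.map (𝟙 Z)).hom x := by rw [R.map_id]; rfl
      have h2 : x = 0 := by rw [h1, hZ, R.map_zero]; rfl
      rw [h2, map_zero, map_zero]
    · rw [map_one] at hz
      exact absurd hz one_ne_zero
  have key1 : ∀ (R : C ⥤ ModuleCat.{w} K) [R.Additive] (F : R ⟶ R) (c : ℝ) (M N : C),
      IsPure R F c M → IsPure R F c N → IsPure R F c (M ⊞ N) := by
    rintro R _ F c M N ⟨p, hp, hpa, hpz⟩ ⟨p', hp', hpa', hpz'⟩
    refine ⟨p * p', mul_ne_zero hp hp', ?_, fun z hz => ?_⟩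
    · apply LinearMap.ext
      intro x
      have h1 : x = (R.map (biprod.inl : M ⟶ M ⊞ N)).hom ((R.map biprod.fst).hom x) +
          (R.map (biprod.inr : N ⟶ M ⊞ N)).hom ((R.map biprod.snd).hom x) := by
        have h2 := congrArg (fun g => (R.map g).hom x) (biprod.total (X := M) (Y := N))
        beta_reduce at h2
        rw [R.map_add, R.map_comp, R.map_comp, R.map_id] at h2
        exact h2.symm
      have hM : ∀ y : R.obj M, aeval (F.app M).hom ((p * p').map (algebraMap ℚ K)) y = 0 := by
        intro y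
        rw [Polynomial.map_mul, mul_comm, map_mul, Module.End.mul_apply, hpa, LinearMap.zero_apply,
          map_zero]
      have hN : ∀ y : R.obj N, aeval (F.app N).hom ((p * p').map (algebraMap ℚ K)) y = 0 := by
        intro y
        rw [Polynomial.map_mul, map_mul, Module.End.mul_apply, hpa', LinearMap.zero_apply,
          map_zero]
      rw [LinearMap.zero_apply]
      conv_lhs => rw [h1]
      rw [map_add, ← app_comm R F (biprod.inl : M ⟶ M ⊞ N) _ ((R.map biprod.fst).hom x),
        ← app_comm R F (biprod.inr : N ⟶ M ⊞ N) _ ((R.map biprod.snd).hom x), hM, hN, map_zero,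
        map_zero, add_zero]
    · rw [map_mul] at hz
      exact (mul_eq_zero.1 hz).elim (hpz z) (hpz' z)
  have key2 : ∀ (R : C ⥤ ModuleCat.{w} K) [R.Additive] (F : R ⟶ R) (c : ℝ) (M N : C) (i : M ⟶ N)
      (p : N ⟶ M), i ≫ p = 𝟙 M → IsPure R F c N → IsPure R F c M := by
    rintro R _ F c M N i p hip ⟨P, hP, hPa, hPz⟩
    refine ⟨P, hP, ?_, hPz⟩
    apply LinearMap.ext
    intro x
    have h1 : ∀ y : R.obj M, y = (R.map p).hom ((R.map i).hom y) := by
      intro y
      have h2 := congrArg (fun g => (R.map g).hom y) hip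
      beta_reduce at h2
      rw [R.map_comp, R.map_id] at h2
      exact h2.symm
    rw [h1 (aeval (F.app M).hom (P.map (algebraMap ℚ K)) x), app_comm, hPa, LinearMap.zero_apply,
      map_zero, LinearMap.zero_apply]
  exact isStable_of (fun Z hZ => ⟨key0 R F c Z hZ, key0 R' F' c' Z hZ⟩)
    (fun M N hM hN => ⟨key1 R F c M N hM.1 hN.1, key1 R' F' c' M N hM.2 hN.2⟩)
    (fun M N i p hip hN => ⟨key2 R F c M N i p hip hN.1, key2 R' F' c' M N i p hip hN.2⟩)

end

end Pool.Agent.U227.Mot
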