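import Pool.Agent.U227.NmLin

/-!
# Orthogonal subspaces of generalized eigenspaces
-/

set_option autoImplicit false
set_option linter.unusedSectionVars false

open Module Finset

namespace Pool.Agent.U227.Nm

open Pool.Agent.U227.Jb

variable {K : Type*} [Field K] {V : Type*} [AddCommGroup V] [Module K V] [FiniteDimensional K V]

/-- The vectors of `P` which are orthogonal to `T`. -/
def orth (B : V →ₗ[K] V →ₗ[K] K) (T P : Submodule K V) : Submodule K V where
  carrier := {y | y ∈ P ∧ ∀ x ∈ T, B x y = 0}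
  zero_mem' := ⟨Submodule.zero_mem _, fun x _ => map_zero _⟩
  add_mem' := fun ⟨h1, h2⟩ ⟨h3, h4⟩ => ⟨Submodule.add_mem _ h1 h3, fun x hx => by
    rw [map_add, h2 x hx, h4 x hx, add_zero]⟩
  smul_mem' := fun c _ ⟨h1, h2⟩ => ⟨Submodule.smul_mem _ c h1, fun x hx => by
    rw [map_smul, h2 x hx, smul_zero]⟩

lemma mem_orth {B : V →ₗ[K] V →ₗ[K] K} {T P : Submodule K V} {y : V} :
    y ∈ orth B T P ↔ y ∈ P ∧ ∀ x ∈ T, B x y = 0 := Iff.rfl

lemma finrank_orth (B : V →ₗ[K] V →ₗ[K] K) {T P : Submodule K V}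
    (h : ∀ x ∈ T, (∀ y ∈ P, B x y = 0) → x = 0) :
    finrank K (orth B T P) + finrank K T = finrank K P := by
  let Ψ : P →ₗ[K] Module.Dual K T := (LinearMap.lcomp K K T.subtype) ∘ₗ B.flip ∘ₗ P.subtype
  have hΨ : ∀ (y : P) (x : T), Ψ y x = B (x : V) (y : V) := fun _ _ => rfl
  have hsurj : Function.Surjective Ψ := by
    rw [← LinearMap.dualMap_injective_iff, injective_iff_map_eq_zero]
    intro φ hφ
    obtain ⟨x, rfl⟩ := (Module.evalEquiv K T).surjective φ
    have h1 : (x : V) = 0 := by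
      apply h x x.2
      intro y hy
      have h2 := congrArg (fun g => g ⟨y, hy⟩) hφ
      exact h2
    have h2 : x = 0 := Subtype.ext h1
    rw [h2, map_zero]
  have h1 := LinearMap.finrank_range_add_finrank_ker Ψ
  rw [LinearMap.range_eq_top.2 hsurj, finrank_top, Subspace.dual_finrank_eq] at h1
  have h2 : orth B T P = (LinearMap.ker Ψ).map P.subtype := by
    ext y
    constructor
    · rintro ⟨hy, hy2⟩
      refine ⟨⟨y, hy⟩, ?_, rfl⟩
      rw [SetLike.mem_coe, LinearMap.mem_ker]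
      apply LinearMap.ext
      intro x
      exact hy2 x x.2
    · rintro ⟨y, hy, rfl⟩
      rw [SetLike.mem_coe, LinearMap.mem_ker] at hy
      exact ⟨y.2, fun x hx => congrArg (fun g => g ⟨x, hx⟩) hy⟩
  rw [h2, Submodule.finrank_map_subtype_eq]
  omega

variable [IsAlgClosed K] {F : Module.End K V} {gr : ℕ → Submodule K V} {n : ℕ}
    (hF : ∀ i, ∀ x ∈ gr i, F x ∈ gr i) (htop : ⨆ i, gr i = ⊤)
    (B : V →ₗ[K] V →ₗ[K] K) {c : K}
    (hc : c ≠ 0) (hB : ∀ x y, B (F x) (F y) = c * B x y)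
    (hgr : ∀ i j, i + j ≠ 2 * n → ∀ x ∈ gr i, ∀ y ∈ gr j, B x y = 0)
    (hnd : ∀ x, (∀ y, B x y = 0) → x = 0)

include hF htop hc hB hgr hnd

/-- The pairing of a generalized eigenspace with the dual one is nondegenerate. -/
lemma eq_zero_of_orth {i : ℕ} {α : K} {x : V} (hx : x ∈ gr i ⊓ F.maxGenEigenspace α)
    (h : ∀ y ∈ gr (2 * n - i) ⊓ F.maxGenEigenspace (c / α), B x y = 0) : x = 0 := by
  apply hnd
  have hle : ∀ j, gr j ≤ LinearMap.ker (B x) := by
    intro j
    have h1 : gr j = ⨆ μ, gr j ⊓ F.maxGenEigenspace μ := by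
      rw [← Submodule.inf_iSup_genEigenspace (h := hF j) (k := ⊤),
        show (⨆ μ, F.genEigenspace μ ⊤) = ⊤ from Module.End.iSup_maxGenEigenspace_eq_top F,
        inf_top_eq]
    rw [h1]
    apply iSup_le
    intro β y hy
    rw [LinearMap.mem_ker]
    by_cases hj : i + j = 2 * n
    · obtain rfl : j = 2 * n - i := by omega
      by_cases hβ : α * β = c
      · have hα : α ≠ 0 := by
          rintro rfl
          rw [zero_mul] at hβ
          exact hc hβ.symm
        obtain rfl : β = c / α := by rw [← hβ, mul_div_cancel_left₀ _ hα]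
        exact h y hy
      · exact gen_orth B hB hβ hx.2 hy.2
    · exact hgr i j hj _ hx.1 _ hy.1
  have h3 : (⊤ : Submodule K V) ≤ LinearMap.ker (B x) := by
    rw [← htop]
    exact iSup_le hle
  intro y
  exact h3 (Submodule.mem_top (x := y))

end Pool.Agent.U227.Nm
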