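import Pool.Agent.U227.NmBound
import Pool.Agent.U227.GapMain

/-!
# Tate's conjectures for the square from the absence of stable subspaces
-/

set_option autoImplicit false
set_option linter.unusedSectionVars false

open CategoryTheory AlgebraicGeometry Finset

universe u v

namespace Pool.Agent.U227.Nm

open Pool.Agent.H914 Pool.Agent.H447 VarClass Obj WeilCohomology Pool.Agent.U227.Grp
  Pool.Agent.U227.Fr Pool.Agent.U227.Gap Pool.Agent.U227.Jb

variable {k : Type u} [Field k] {𝒱 : VarClass k} {ops : CycleOps 𝒱}
  {W : WeilCohomology.{u, v} ops} {X : 𝒱.Obj} {D : X.Cycles} {f : X ⟶ X} {q : ℕ}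

variable (W X) in
/-- The algebra of the combinations of correspondences of degree zero. -/
noncomputable def kAlg : Subalgebra W.K (Module.End W.K (W.H X)) where
  carrier := {u | u ∈ KOp W X X 0}
  mul_mem' := by
    intro a b hu hv
    exact KOp.cast (KOp.comp (φ := b) (ψ := a) hu hv) (by ring)
  add_mem' := by
    intro a b hu hv
    exact Submodule.add_mem (KOp W X X 0) hu hv
  algebraMap_mem' := by
    intro c
    have h1 : c • (1 : Module.End W.K (W.H X)) ∈ KOp W X X 0 :=
      Submodule.smul_mem _ _ (kop_of_rop (rop_opAlg (W := W) (X := X)).one)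
    rwa [← Algebra.algebraMap_eq_smul_one] at h1

lemma mem_kAlg {u : Module.End W.K (W.H X)} : u ∈ kAlg W X ↔ u ∈ KOp W X X 0 := Iff.rfl

section Full

variable [IsAlgClosed W.K] (hD : X.IsCyc 1 D) (hHL : HardLefschetz W X D)
    (h1 : (1 : W.H X) ≠ 0) (hF : IsFrobenius W X f q) (hq : 1 < q)
    (hRH : RiemannHypothesis W X f q)
    (hirr : ∀ i α T, ¬ IsStablePart (cycOps W X X.dim) (eigenPart W X f i α) T)

include hD hHL h1 hF hq hirr

lemma full_part (i : ℕ) (α : W.K) (g : Module.End W.K (W.H X))
    (hg : ∀ x ∈ eigenPart W X f i α, g x ∈ eigenPart W X f i α) :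
    ∃ s ∈ KOp W X X 0, ∀ x ∈ eigenPart W X f i α, s x = g x := by
  by_cases hP : eigenPart W X f i α = ⊥
  · refine ⟨0, Submodule.zero_mem _, fun x hx => ?_⟩
    rw [hP, Submodule.mem_bot] at hx
    rw [hx, map_zero, map_zero]
  · refine full_on (kAlg W X) hP (fun s hs x hx => kop_eigenPart hD hHL h1 hF (by omega) hs hx)
      (fun T hT hst => ?_) g hg
    by_contra hcon
    push Not at hcon
    exact hirr i α T ⟨hT, hcon.1, hcon.2, fun φ hφ x hx => hst φ (cyc_kop hφ) x hx⟩

lemma scalar_part {i : ℕ} {α : W.K} {x : W.H X} (hx : x ∈ eigenPart W X f i α) :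
    (W.map f).toLinearMap x = α • x := by
  refine scalar_of_full (F := (W.map f).toLinearMap) (U := W.gr X i) (fun x hx => map_gr hx)
    (fun g hg => ?_) x hx
  obtain ⟨s, hs, hs2⟩ := full_part hD hHL h1 hF hq hirr i α g hg
  refine ⟨s, ?_, hs2⟩
  apply LinearMap.ext
  intro a
  exact (kop_comm hD hHL h1 hF (by omega) hs a).symm

lemma aeval_part (p : Polynomial W.K) {i : ℕ} {α : W.K} {x : W.H X}
    (hx : x ∈ eigenPart W X f i α) :
    Polynomial.aeval ((W.map f).toLinearMap : Module.End W.K (W.H X)) p x = p.eval α • x := by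
  induction p using Polynomial.induction_on' with
  | add p q hp hq => rw [map_add, LinearMap.add_apply, hp, hq, Polynomial.eval_add, add_smul]
  | monomial n a =>
    rw [Polynomial.aeval_monomial, Polynomial.eval_monomial, Module.End.mul_apply,
      Module.algebraMap_end_apply, mul_smul]
    congr 1
    induction n with
    | zero => rw [pow_zero, pow_zero, one_smul, Module.End.one_apply]
    | succ n ih =>
      rw [pow_succ', Module.End.mul_apply, ih, map_smul, scalar_part hD hHL h1 hF hq hirr hx,
        smul_smul, pow_succ]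

omit hD hHL h1 hF hq hirr in
lemma ext_parts {A B : Module.End W.K (W.H X)} (h : ∀ i α, ∀ x ∈ eigenPart W X f i α, A x = B x) :
    A = B := by
  rw [← sub_eq_zero]
  have h2 : (⊤ : Submodule W.K (W.H X)) ≤ LinearMap.ker (A - B) := by
    rw [← parts_top (W := W) (X := X) (f := f)]
    refine iSup₂_le fun t _ x hx => ?_
    rw [LinearMap.mem_ker, LinearMap.sub_apply, h _ _ x hx, sub_self]
  apply LinearMap.ext
  intro x
  exact h2 (Submodule.mem_top (x := x))

include hRH

/-- All operators commuting with the Frobenius are algebraic. -/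
theorem all_alg (T : Module.End W.K (W.H X)) (hTg : ∀ i, ∀ x ∈ W.gr X i, T x ∈ W.gr X i)
    (hTF : Commute ((W.map f).toLinearMap : Module.End W.K (W.H X)) T) : T ∈ KOp W X X 0 := by
  classical
  have hK := kunneth_of_rh hq hRH
  refine glue (F := (W.map f).toLinearMap) (gr := W.gr X) (range (2 * X.dim + 1)) ?_
    (KOp W X X 0) T ?_
  · intro x g hg
    have h2 : g = 0 := by
      have h3 : (⊤ : Submodule W.K (W.H X)) ≤ LinearMap.ker g := by
        rw [← parts_top (W := W) (X := X) (f := f)]
        refine iSup₂_le fun t ht x hx => ?_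
        rw [Finset.mem_product] at ht
        exact hg t.1 ht.1 t.2 ht.2 x hx
      apply LinearMap.ext
      intro x
      exact h3 (Submodule.mem_top (x := x))
    rw [h2, LinearMap.zero_apply]
  · intro i hi α hα
    obtain ⟨s, hs, hs2⟩ := full_part hD hHL h1 hF hq hirr i α T (fun x hx =>
      ⟨hTg i x hx.1, Module.End.mapsTo_maxGenEigenspace_of_comm hTF α hx.2⟩)
    set e : Module.End W.K (W.H X) := Polynomial.aeval
      ((W.map f).toLinearMap : Module.End W.K (W.H X))
      (Lagrange.basis (eigs (K := W.K) (V := W.H X) (W.map f).toLinearMap) id α) with he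
    have heK : e ∈ kAlg W X :=
      Polynomial.aeval_mem_adjoin_singleton _ _ |> fun h =>
        Algebra.adjoin_le (by
          rw [Set.singleton_subset_iff]
          exact kop_of_rop (rop_map f)) h
    have hpK : proj (W.isInternal X) i ∈ kAlg W X := kop_of_rop (rop_proj hK i)
    refine ⟨s * e * proj (W.isInternal X) i, (kAlg W X).mul_mem ((kAlg W X).mul_mem hs heK) hpK,
      ?_, ?_⟩
    · intro y hy
      have hb : Polynomial.eval α (Lagrange.basis
          (eigs (K := W.K) (V := W.H X) (W.map f).toLinearMap) id α) = 1 :=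
        Lagrange.eval_basis_self (Set.injOn_id _) hα
      rw [Module.End.mul_apply, Module.End.mul_apply, proj_same _ hy.1, he,
        aeval_part hD hHL h1 hF hq hirr _ hy, hb, one_smul, hs2 y hy]
    · intro j hj β hβ hne y hy
      rw [Module.End.mul_apply, Module.End.mul_apply]
      by_cases hji : j = i
      · subst hji
        have hβα : β ≠ α := hne.resolve_left (fun h => h rfl)
        have hb : Polynomial.eval β (Lagrange.basis
            (eigs (K := W.K) (V := W.H X) (W.map f).toLinearMap) id α) = 0 :=
          Lagrange.eval_basis_of_ne (v := id) hβα.symm hβ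
        rw [proj_same _ hy.1, he, aeval_part hD hHL h1 hF hq hirr _ hy, hb, zero_smul, map_zero]
      · rw [proj_ne _ hy.1 hji, map_zero, map_zero]

omit hRH in
/-- The Frobenius is semisimple. -/
theorem semisimple_all :
    Module.End.IsSemisimple (R := W.K) (M := W.H X) (W.map f).toLinearMap :=
  semisimple_of (F := (W.map f).toLinearMap) (gr := W.gr X) (fun _ _ hx => map_gr hx) iSup_gr
    fun _ _ _ hx => scalar_part hD hHL h1 hF hq hirr hx

end Full

end Pool.Agent.U227.Nm
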