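import Pool.Agent.U227.JbKun
import Pool.Agent.U227.GapThm

/-!
# Operators preserving a family of subspaces
-/

set_option autoImplicit false
set_option linter.unusedSectionVars false

open Module Finset

namespace Pool.Agent.U227.Nm

open Pool.Agent.U227.Jb Pool.Agent.U227.Gap

variable {K : Type*} [Field K] {V : Type*} [AddCommGroup V] [Module K V] [FiniteDimensional K V]

/-- Many operators preserving the subspaces `S t ≤ P t`: some combination maps `P t` to `S t` and `S t`
to zero. -/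
theorem exists_sq_zero {τ : Type*} [DecidableEq τ] (I : Finset τ) (P S : τ → Submodule K V)
    (hle : ∀ t ∈ I, S t ≤ P t) (htop : ⨆ t ∈ I, P t = ⊤) {r : ℕ} (v : Fin r → Module.End K V)
    (hvP : ∀ a, ∀ t ∈ I, ∀ x ∈ P t, v a x ∈ P t) (hvS : ∀ a, ∀ t ∈ I, ∀ x ∈ S t, v a x ∈ S t)
    (hr : ∑ t ∈ I, (finrank K (S t) ^ 2 + (finrank K (P t) - finrank K (S t)) ^ 2) < r) :
    ∃ c : Fin r → K, c ≠ 0 ∧ ∀ w : Module.End K V, (∀ t ∈ I, ∀ x ∈ P t, w x ∈ P t) →
      (∀ t ∈ I, ∀ x ∈ S t, w x ∈ S t) → IsNilpotent ((∑ a, c a • v a) * w) := by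
  classical
  choose C π hCB hπA hπB hfin using fun (t : I) => exists_compr (hle t.1 t.2)
  let Φ : (Fin r → K) →ₗ[K] ((t : I) → ((S t.1 →ₗ[K] S t.1) × (C t →ₗ[K] C t))) :=
    LinearMap.pi fun t => ∑ a, (LinearMap.proj a : (Fin r → K) →ₗ[K] K).smulRight
      ((v a).restrict (hvS a t.1 t.2), (π t) ∘ₗ (v a) ∘ₗ (C t).subtype)
  have hΦ1 : ∀ c (t : I) (x : S t.1), (((Φ c t).1 x : S t.1) : V) = (∑ a, c a • v a) (x : V) := by
    intro c t x
    simp only [Φ, LinearMap.pi_apply, LinearMap.sum_apply, LinearMap.smulRight_apply,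
      LinearMap.proj_apply, Prod.fst_sum, Prod.smul_fst, LinearMap.smul_apply,
      Submodule.coe_sum, Submodule.coe_smul]
    rfl
  have hΦ2 : ∀ c (t : I) (x : C t), (Φ c t).2 x = π t ((∑ a, c a • v a) (x : V)) := by
    intro c t x
    simp only [Φ, LinearMap.pi_apply, LinearMap.sum_apply, LinearMap.smulRight_apply,
      LinearMap.proj_apply, Prod.snd_sum, Prod.smul_snd, LinearMap.smul_apply,
      LinearMap.comp_apply, Submodule.subtype_apply, map_sum, map_smul]
  have hdim : finrank K ((t : I) → ((S t.1 →ₗ[K] S t.1) × (C t →ₗ[K] C t))) < r := by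
    rw [Module.finrank_pi_fintype]
    have h1 : ∀ t : I, finrank K ((S t.1 →ₗ[K] S t.1) × (C t →ₗ[K] C t)) =
        finrank K (S t.1) ^ 2 + (finrank K (P t.1) - finrank K (S t.1)) ^ 2 := by
      intro t
      rw [Module.finrank_prod, Module.finrank_linearMap, Module.finrank_linearMap, hfin, sq, sq]
    rw [Finset.sum_congr rfl fun t _ => h1 t]
    rw [Finset.sum_coe_sort I
      (fun t => finrank K (S t) ^ 2 + (finrank K (P t) - finrank K (S t)) ^ 2)]
    exact hr
  have hker : LinearMap.ker Φ ≠ ⊥ := by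
    intro h0
    have h1 := LinearMap.finrank_le_finrank_of_injective (LinearMap.ker_eq_bot.1 h0)
    rw [Module.finrank_pi, Fintype.card_fin] at h1
    omega
  obtain ⟨c, hc, hc0⟩ := (Submodule.ne_bot_iff _).1 hker
  refine ⟨c, hc0, ?_⟩
  set u : Module.End K V := ∑ a, c a • v a with hu
  have huS : ∀ t ∈ I, ∀ x ∈ S t, u x = 0 := by
    intro t ht x hx
    have h1 := hΦ1 c ⟨t, ht⟩ ⟨x, hx⟩
    rw [LinearMap.mem_ker.1 hc] at h1
    exact h1.symm
  have huC : ∀ (t : I) (x : C t), π t (u (x : V)) = 0 := by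
    intro t x
    rw [← hΦ2 c t x, LinearMap.mem_ker.1 hc]
    rfl
  have huP' : ∀ t ∈ I, ∀ x ∈ P t, u x ∈ P t := by
    intro t ht x hx
    rw [hu, LinearMap.sum_apply]
    exact Submodule.sum_mem _ fun a _ => Submodule.smul_mem _ _ (hvP a t ht x hx)
  have huP : ∀ t ∈ I, ∀ x ∈ P t, u x ∈ S t := by
    intro t ht x hx
    have h1 := hπB ⟨t, ht⟩ x hx
    have h2 : u x = u (x - (π ⟨t, ht⟩ x : V)) + u (π ⟨t, ht⟩ x : V) := by
      rw [← map_add, sub_add_cancel]
    rw [huS t ht _ h1, zero_add] at h2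
    rw [h2]
    have h3 := hπB ⟨t, ht⟩ (u (π ⟨t, ht⟩ x : V))
      (huP' t ht _ (hCB ⟨t, ht⟩ (π ⟨t, ht⟩ x).2))
    rw [huC ⟨t, ht⟩ (π ⟨t, ht⟩ x)] at h3
    simpa using h3
  intro w hwP hwS
  refine ⟨2, ?_⟩
  apply LinearMap.ext
  intro x
  have h2 : (⊤ : Submodule K V) ≤ LinearMap.ker ((u * w) ^ 2) := by
    rw [← htop]
    refine iSup₂_le fun t ht => ?_
    intro x hx
    rw [LinearMap.mem_ker, sq, Module.End.mul_apply, Module.End.mul_apply, Module.End.mul_apply]
    exact huS t ht _ (hwS t ht _ (huP t ht _ (hwP t ht x hx)))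
  exact h2 (Submodule.mem_top (x := x))

/-- An algebra of operators without stable subspaces of `P` induces all operators of `P`. -/
theorem full_on [IsAlgClosed K] (S : Subalgebra K (Module.End K V)) {P : Submodule K V}
    (hP : P ≠ ⊥) (hS : ∀ s ∈ S, ∀ x ∈ P, s x ∈ P)
    (h : ∀ T : Submodule K V, T ≤ P → (∀ s ∈ S, ∀ x ∈ T, s x ∈ T) → T = ⊥ ∨ T = P)
    (f : Module.End K V) (hf : ∀ x ∈ P, f x ∈ P) : ∃ s ∈ S, ∀ x ∈ P, s x = f x := by
  have hnt : Nontrivial P := by
    rw [Submodule.nontrivial_iff_ne_bot]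
    exact hP
  let S' : Subalgebra K (Module.End K P) :=
    { carrier := {u | ∃ s ∈ S, ∀ y : P, (u y : V) = s y}
      mul_mem' := by
        rintro u v ⟨s, hs, h1⟩ ⟨s', hs', h2⟩
        refine ⟨s * s', S.mul_mem hs hs', fun y => ?_⟩
        rw [Module.End.mul_apply, h1, h2]
        rfl
      add_mem' := by
        rintro u v ⟨s, hs, h1⟩ ⟨s', hs', h2⟩
        exact ⟨s + s', S.add_mem hs hs', fun y => by
          rw [LinearMap.add_apply, Submodule.coe_add, h1, h2, LinearMap.add_apply]⟩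
      algebraMap_mem' := by
        intro c
        exact ⟨algebraMap K _ c, S.algebraMap_mem c, fun y => rfl⟩ }
  have h1 : f.restrict hf ∈ S' := by
    apply burnside S'
    intro U hU
    have h2 := h (U.map P.subtype) (Submodule.map_subtype_le P U) ?_
    · rcases h2 with h2 | h2
      · left
        rw [eq_bot_iff]
        intro x hx
        have h3 : (x : V) ∈ U.map P.subtype := ⟨x, hx, rfl⟩
        rw [h2, Submodule.mem_bot] at h3
        rw [Submodule.mem_bot]
        exact Subtype.ext h3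
      · right
        rw [eq_top_iff]
        intro x _
        have h3 : (x : V) ∈ U.map P.subtype := by rw [h2]; exact x.2
        obtain ⟨y, hy, hyx⟩ := h3
        have h4 : y = x := Subtype.ext hyx
        rwa [← h4]
    · rintro s hs _ ⟨y, hy, rfl⟩
      have h3 : s.restrict (hS s hs) ∈ S' := ⟨s, hs, fun y => rfl⟩
      exact ⟨_, hU _ h3 y hy, rfl⟩
  obtain ⟨s, hs, h2⟩ := h1
  exact ⟨s, hs, fun x hx => (h2 ⟨x, hx⟩).symm⟩

/-- If all operators of a generalized eigenspace come from operators commuting with `F`, then `F` is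
scalar on it. -/
theorem scalar_of_full [IsAlgClosed K] [CharZero K] {F : Module.End K V} {U : Submodule K V} {α : K} (hF : ∀ x ∈ U, F x ∈ U)
    (h : ∀ f : Module.End K V, (∀ x ∈ U ⊓ F.maxGenEigenspace α, f x ∈ U ⊓ F.maxGenEigenspace α) →
      ∃ s : Module.End K V, Commute F s ∧ ∀ x ∈ U ⊓ F.maxGenEigenspace α, s x = f x) :
    ∀ x ∈ U ⊓ F.maxGenEigenspace α, F x = α • x := by
  set P := U ⊓ F.maxGenEigenspace α with hP
  have hst : ∀ x ∈ P, (F - α • (1 : Module.End K V)) x ∈ P := by
    intro x hx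
    have h1 : F x ∈ P :=
      ⟨hF x hx.1, F.mapsTo_maxGenEigenspace_of_comm (Commute.refl F) α hx.2⟩
    rw [LinearMap.sub_apply, LinearMap.smul_apply, Module.End.one_apply]
    exact Submodule.sub_mem _ h1 (Submodule.smul_mem _ _ hx)
  have hpow : ∀ (k : ℕ) (x : P), (((F - α • (1 : Module.End K V)).restrict hst ^ k) x : V) =
      ((F - α • (1 : Module.End K V)) ^ k) x := by
    intro k
    induction k with
    | zero => intro x; rfl
    | succ k ih =>
      intro x
      rw [pow_succ', pow_succ', Module.End.mul_apply, Module.End.mul_apply, ← ih x]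
      rfl
  have hn : (F - α • (1 : Module.End K V)).restrict hst = 0 := by
    apply nilp_central
    · refine ⟨finrank K V, ?_⟩
      apply LinearMap.ext
      intro x
      apply Subtype.ext
      rw [hpow]
      obtain ⟨k, hk⟩ := Module.End.mem_maxGenEigenspace _ _ _ |>.1 x.2.2
      exact ker_stab hk
    · intro T
      obtain ⟨π', hπ'⟩ := P.subtype.exists_leftInverse_of_injective (Submodule.ker_subtype P)
      have hπx : ∀ x : P, π' (x : V) = x := fun x => congrArg (fun g => g x) hπ'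
      obtain ⟨s, hs, hsx⟩ := h (P.subtype ∘ₗ T ∘ₗ π') (fun x _ => (T (π' x)).2)
      apply LinearMap.ext
      intro x
      apply Subtype.ext
      have h1 : ∀ y : P, s (y : V) = T y := by
        intro y
        rw [hsx y y.2]
        simp only [LinearMap.comp_apply, hπx, Submodule.subtype_apply]
      have h2 := comm_sub (α := α) hs
      have h3 : s ((F - α • (1 : Module.End K V)) (x : V)) =
          (F - α • (1 : Module.End K V)) (s x) := by
        rw [← Module.End.mul_apply, ← Module.End.mul_apply, h2.eq]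
      rw [Module.End.mul_apply, Module.End.mul_apply, ← h1]
      change s ((F - α • (1 : Module.End K V)) (x : V)) = (F - α • (1 : Module.End K V)) (T x : V)
      rw [h3, h1]
  intro x hx
  apply eq_of_sub
  have h1 := congrArg (fun g => ((g ⟨x, hx⟩ : P) : V)) hn
  exact h1

/-- Operators commuting with a semisimple operator `F`, glued from its eigenspaces. -/
theorem glue {F : Module.End K V} {ι : Type*} {gr : ι → Submodule K V} (I : Finset ι)
    (htop : ∀ x : V, (∀ g : Module.End K V, (∀ i ∈ I, ∀ α ∈ eigs F, ∀ y ∈ gr i ⊓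
      F.maxGenEigenspace α, g y = 0) → g x = 0))
    (S : Submodule K (Module.End K V)) (T : Module.End K V)
    (hT : ∀ i ∈ I, ∀ α ∈ eigs F, ∃ s ∈ S, (∀ y ∈ gr i ⊓ F.maxGenEigenspace α, s y = T y) ∧
      ∀ j ∈ I, ∀ β ∈ eigs F, (j ≠ i ∨ β ≠ α) → ∀ y ∈ gr j ⊓ F.maxGenEigenspace β, s y = 0) :
    T ∈ S := by
  classical
  choose! s hsS hs1 hs2 using hT
  have h1 : T = ∑ i ∈ I, ∑ α ∈ eigs F, s i α := by
    rw [← sub_eq_zero]
    apply LinearMap.ext
    intro x
    apply htop x
    intro i hi α hα y hy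
    rw [LinearMap.sub_apply, LinearMap.sum_apply, sub_eq_zero,
      Finset.sum_eq_single_of_mem i hi, LinearMap.sum_apply, Finset.sum_eq_single_of_mem α hα,
      hs1 i hi α hα y hy]
    · intro β hβ hne
      exact hs2 i hi β hβ i hi α hα (Or.inr hne.symm) y hy
    · intro j hj hne
      rw [LinearMap.sum_apply]
      exact Finset.sum_eq_zero fun β hβ => hs2 j hj β hβ i hi α hα (Or.inl hne.symm) y hy
  rw [h1]
  exact Submodule.sum_mem _ fun i hi => Submodule.sum_mem _ fun α hα => hsS i hi α hα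

end Pool.Agent.U227.Nm
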