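import Pool.Agent.U227.NmSq

/-!
# Tate's formula for the square of a variety, up to small defects
-/

set_option autoImplicit false
set_option linter.unusedSectionVars false

open CategoryTheory AlgebraicGeometry Finset

universe u v

namespace Pool.Agent.U227.Nm

open Pool.Agent.H914 Pool.Agent.H447 VarClass Obj WeilCohomology Pool.Agent.U227.Grp
  Pool.Agent.U227.Fr Pool.Agent.U227.Gap Pool.Agent.U227.Jb

variable {k : Type u} [Field k] {𝒱 : VarClass k} {ops : CycleOps 𝒱}
  {W : WeilCohomology.{u, v} ops} {X : 𝒱.Obj} {D : X.Cycles} {f : X ⟶ X} {q : ℕ}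

lemma mem_spanCycles_sq {x : W.H (X.prod X)} : x ∈ spanCycles W (X.prod X) X.dim ↔
    x ∈ Submodule.span W.K {c | ∃ z, (X.prod X).IsCyc X.dim z ∧ W.cl _ z = c} := by
  rw [spanCycles]
  have h : {c | ∃ p : ℕ, (p : ℤ) = X.dim ∧ ∃ z, (X.prod X).IsCyc p z ∧ W.cl _ z = c} =
      {c | ∃ z, (X.prod X).IsCyc X.dim z ∧ W.cl _ z = c} := by
    ext c
    constructor
    · rintro ⟨p, hp, z, hz, rfl⟩
      obtain rfl : p = X.dim := by exact_mod_cast hp
      exact ⟨z, hz, rfl⟩
    · rintro ⟨z, hz, rfl⟩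
      exact ⟨X.dim, rfl, z, hz, rfl⟩
  rw [h]

lemma cyc_tate (hF : IsFrobenius W X f q) {z : (X.prod X).Cycles}
    (hz : (X.prod X).IsCyc X.dim z) : W.cl _ z ∈ tatePart W X f q := by
  refine ⟨W.cl_mem hz, ?_⟩
  have h2 := hF X.dim _ ⟨z, hz, rfl⟩
  rw [SetLike.mem_coe, Module.End.mem_maxGenEigenspace]
  refine ⟨1, ?_⟩
  rw [pow_one, LinearMap.sub_apply, h2, LinearMap.smul_apply, Module.End.one_apply, sub_self]

/-- The Tate classes on a factor of the square. -/
lemma tate_factor (hD : X.IsCyc 1 D) (hHL : HardLefschetz W X D) (h1 : (1 : W.H X) ≠ 0)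
    (hF : IsFrobenius W X f q) (hspan : tatePart W X f q ≤ spanCycles W (X.prod X) X.dim) {j : ℕ}
    (hj : j ≤ X.dim) {x : W.H X} (hx : x ∈ eigenPart W X f (2 * j) ((q : W.K) ^ j)) :
    x ∈ spanCycles W X j := by
  obtain ⟨b₀, -, hb₀⟩ := exists_top (W := W) hD hHL h1
  have hξ : W.tr X (W.cl X D ^ X.dim) ≠ 0 := by
    intro h0
    have h2 := eq_zero_of_top (cl_pow_mem hD X.dim) h0
    apply h1
    refine (hHL 0 (Nat.zero_le _)).1 1 (W.one_mem X) ?_
    rw [Nat.sub_zero, LinearMap.pow_mulLeft, LinearMap.mulLeft_apply, mul_one]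
    exact h2
  have hfr : ∀ m, W.map f (W.cl X D ^ m) = (q : W.K) ^ m • W.cl X D ^ m := by
    intro m
    rw [map_pow, frob_cl hF ⟨b₀, hb₀⟩ hD, pow_one, _root_.smul_pow]
  have hb : W.cl X D ^ (X.dim - j) ∈
      Module.End.maxGenEigenspace (W.map f).toLinearMap ((q : W.K) ^ (X.dim - j)) := by
    rw [Module.End.mem_maxGenEigenspace]
    refine ⟨1, ?_⟩
    rw [pow_one, LinearMap.sub_apply, LinearMap.smul_apply, Module.End.one_apply, sub_eq_zero]
    exact hfr _
  set c : W.H (X.prod X) := W.map (fst X X) (W.cl X D ^ (X.dim - j)) * W.map (snd X X) x with hc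
  have hct : c ∈ tatePart W X f q := by
    refine ⟨?_, ?_⟩
    · have h2 := W.mul_mem (W.map_mem (fst X X) (cl_pow_mem (W := W) hD (X.dim - j)))
        (W.map_mem (snd X X) hx.1)
      rwa [show 2 * (X.dim - j) + 2 * j = 2 * X.dim by omega] at h2
    · have h2 := gen_bilin (F := (W.map f).toLinearMap) (G := (W.map (squareMap f)).toLinearMap)
        ((LinearMap.mul W.K (W.H (X.prod X))).compl₁₂ (W.map (fst X X)).toLinearMap
          (W.map (snd X X)).toLinearMap) (fun a b => map_squareMap f a b) hb hx.2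
      rw [← pow_add, show X.dim - j + j = X.dim by omega] at h2
      exact h2
  have hk : W.corr c ∈ KOp W X X 0 := mem_KOp_iff.2 ⟨c, by simpa using hspan hct, rfl⟩
  have hone : (1 : W.H X) ∈ spanCycles W X 0 :=
    Submodule.subset_span ⟨0, rfl, X.V.fundCycle, X.V.fundCycle_mem, W.cl_fund X⟩
  have hpow : W.cl X D ^ j ∈ spanCycles W X j := by
    have h2 := KOp.map_span (lp_kop (W := W) hD j) hone
    rwa [lp_apply, mul_one, zero_add] at h2
  have hval : W.corr c (W.cl X D ^ j) = W.tr X (W.cl X D ^ X.dim) • x := by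
    rw [corr_apply, hc, mul_assoc, ← W.even_comm (W.map_mem (fst X X) (cl_pow_mem hD j)),
      ← mul_assoc, ← map_mul, ← pow_add, show X.dim - j + j = X.dim by omega, push_snd]
  have h3 := KOp.map_span hk hpow
  rw [hval, add_zero] at h3
  have h4 := Submodule.smul_mem _ (W.tr X (W.cl X D ^ X.dim))⁻¹ h3
  rwa [smul_smul, inv_mul_cancel₀ hξ, one_smul] at h4

section Full

variable [IsAlgClosed W.K] (hD : X.IsCyc 1 D) (hHL : HardLefschetz W X D)
    (h1 : (1 : W.H X) ≠ 0) (hF : IsFrobenius W X f q) (hq : 1 < q)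
    (hRH : RiemannHypothesis W X f q)
    (hirr : ∀ i α T, ¬ IsStablePart (cycOps W X X.dim) (eigenPart W X f i α) T)

include hD hHL h1 hF hq hRH hirr

theorem formula_all : NumRankAtLeast ops (X.prod X) X.dim (poleOrder W X f q) := by
  classical
  set 𝒞 : Set (W.H (X.prod X)) := {c | ∃ z, (X.prod X).IsCyc X.dim z ∧ W.cl _ z = c} with h𝒞
  have hspan : Submodule.span W.K 𝒞 = tatePart W X f q := by
    apply le_antisymm
    · rw [Submodule.span_le]
      rintro _ ⟨z, hz, rfl⟩
      exact cyc_tate hF hz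
    · intro x hx
      exact mem_spanCycles_sq.1 (tate_span hD hHL h1 hF hq hRH hirr hx)
  obtain ⟨b, hb, hbs, hli⟩ := exists_linearIndependent W.K 𝒞
  have hfin : Finite b := hli.finite
  have : Fintype b := Fintype.ofFinite b
  have hcard : Fintype.card b = poleOrder W X f q := by
    have h2 := finrank_span_eq_card hli
    rw [Subtype.range_coe, hbs, hspan] at h2
    exact h2.symm
  let e : Fin (poleOrder W X f q) ≃ b := (finCongr hcard.symm).trans (Fintype.equivFin b).symm
  choose z hz hzc using fun a : Fin (poleOrder W X f q) => hb (e a).2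
  refine ⟨z, z, hz, fun a => ?_, ?_⟩
  · rw [dim_prod, show X.dim + X.dim - X.dim = X.dim by omega]
    exact hz a
  · intro hdet
    have h3 := RingHom.map_det (algebraMap ℚ W.K)
      (Matrix.of fun a b => (X.prod X).V.degCycle (ops.mul (z a) (z b)))
    rw [hdet, map_zero, RingHom.mapMatrix_apply] at h3
    obtain ⟨c, hc0, hc⟩ := Matrix.exists_vecMul_eq_zero_iff.2 h3.symm
    set γ : W.H (X.prod X) := ∑ a, c a • W.cl _ (z a) with hγ
    have hγt : γ ∈ tatePart W X f q := by
      rw [hγ]
      exact Submodule.sum_mem _ fun a _ => Submodule.smul_mem _ _ (cyc_tate hF (hz a))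
    have hγb : ∀ b, W.tr _ (γ * W.cl _ (z b)) = 0 := by
      intro b
      have h4 := congrFun hc b
      rw [Matrix.vecMul, dotProduct] at h4
      rw [hγ, Finset.sum_mul, map_sum]
      refine Eq.trans ?_ h4
      apply Finset.sum_congr rfl
      intro a _
      rw [smul_mul_assoc, map_smul, smul_eq_mul, tr_mul_cl (hz a) (hz b) (by rw [dim_prod])]
      rfl
    have hγ0 : γ = 0 := by
      apply tate_zero hD hHL h1 hF hq hγt
      intro y hy
      rw [← hspan, ← hbs] at hy
      induction hy using Submodule.span_induction with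
      | mem y hy =>
        have h4 := hγb (e.symm ⟨y, hy⟩)
        rw [hzc, Equiv.apply_symm_apply] at h4
        exact h4
      | zero => rw [mul_zero, map_zero]
      | add a b _ _ ha hb => rw [mul_add, map_add, ha, hb, add_zero]
      | smul c a _ ha => rw [mul_smul_comm, map_smul, ha, smul_zero]
    have hli2 : LinearIndependent W.K (fun a => W.cl _ (z a)) := by
      have h5 := hli.comp e e.injective
      have h6 : (fun a => W.cl (X.prod X) (z a)) = ((↑) : b → W.H (X.prod X)) ∘ e := by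
        funext a
        exact hzc a
      rw [h6]
      exact h5
    apply hc0
    funext a
    exact Fintype.linearIndependent_iff.1 hli2 c hγ0 a

theorem all_of_irr : TateForSquare W X f q := by
  refine ⟨formula_all hD hHL h1 hF hq hRH hirr, tate_span hD hHL h1 hF hq hRH hirr,
    fun j hj x hx => tate_factor hD hHL h1 hF (tate_span hD hHL h1 hF hq hRH hirr) hj hx,
    semisimple_all hD hHL h1 hF hq hirr, ?_⟩
  intro z hz hnum
  rw [dim_prod, show X.dim + X.dim - X.dim = X.dim by omega] at hnum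
  apply tate_zero hD hHL h1 hF hq (cyc_tate hF hz)
  intro y hy
  have h2 := mem_spanCycles_sq.1 (tate_span hD hHL h1 hF hq hRH hirr hy)
  clear hy
  induction h2 using Submodule.span_induction with
  | mem y hy2 =>
    obtain ⟨w, hw, rfl⟩ := hy2
    rw [tr_mul_cl hz hw (by rw [dim_prod]), hnum w hw, Rat.cast_zero]
  | zero => rw [mul_zero, map_zero]
  | add a b _ _ ha hb => rw [mul_add, map_add, ha, hb, add_zero]
  | smul c a _ ha => rw [mul_smul_comm, map_smul, ha, smul_zero]

end Full

/-- The trivial case. -/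
lemma all_of_zero (h1 : (1 : W.H X) = 0) : TateForSquare W X f q := by
  have hz : ∀ y : W.H X, y = 0 := fun y => by rw [← one_mul y, h1, zero_mul]
  have hz2 : ∀ y : W.H (X.prod X), y = 0 := fun y => by
    have h2 : (1 : W.H (X.prod X)) = 0 := by
      rw [← map_one (W.map (fst X X)), h1, map_zero]
    rw [← one_mul y, h2, zero_mul]
  refine ⟨?_, fun c _ => by rw [hz2 c]; exact Submodule.zero_mem _,
    fun j _ x _ => by rw [hz x]; exact Submodule.zero_mem _, ?_, fun z _ _ => hz2 _⟩
  · have h3 : poleOrder W X f q = 0 := by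
      rw [poleOrder, algMult, Submodule.finrank_eq_zero, Submodule.eq_bot_iff]
      exact fun y _ => hz2 y
    rw [h3]
    exact ⟨Fin.elim0, Fin.elim0, fun a => a.elim0, fun a => a.elim0, by
      rw [Matrix.det_isEmpty]; exact one_ne_zero⟩
  · have h2 : ((W.map f).toLinearMap : Module.End W.K (W.H X)) = 0 := by
      apply LinearMap.ext
      intro y
      rw [hz ((W.map f).toLinearMap y)]
      rfl
    rw [h2]
    exact Module.End.isSemisimple_zero

lemma dimProd_pos {P T : Submodule W.K (W.H X)} (h : T ≤ P) (hb : T ≠ ⊥) (ht : T ≠ P) :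
    1 ≤ dimProd P T := by
  have h2 : 0 < Module.finrank W.K T := by
    rw [pos_iff_ne_zero]
    exact fun h0 => hb (Submodule.finrank_eq_zero.1 h0)
  have h3 : Module.finrank W.K T < Module.finrank W.K P :=
    Submodule.finrank_lt_finrank_of_lt (lt_of_le_of_ne h ht)
  rw [dimProd]
  exact Nat.mul_pos h2 (by omega)

/-- **Tate's formula for the square of a variety, up to small defects.** -/
theorem main [IsAlgClosed W.K] (hD : X.IsCyc 1 D) (hHL : HardLefschetz W X D)
    (hF : IsFrobenius W X f q) (hq : 1 < q) (hRH : RiemannHypothesis W X f q) {r : ℕ}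
    (hr : NumRankAtLeast ops (X.prod X) X.dim r) :
    (∀ i α T, IsStablePart (cycOps W X X.dim) (eigenPart W X f i α) T →
      r + 2 * dimProd (eigenPart W X f i α) T ≤ poleOrder W X f q ∧
      ((i ≠ X.dim ∨ α ^ 2 ≠ (q : W.K) ^ X.dim) →
        r + 4 * dimProd (eigenPart W X f i α) T ≤ poleOrder W X f q)) ∧
    (poleOrder W X f q ≤ r + 1 → TateForSquare W X f q) ∧
    ((∀ α : W.K, α ^ 2 = (q : W.K) ^ X.dim → eigenPart W X f X.dim α = ⊥) →
      poleOrder W X f q ≤ r + 3 → TateForSquare W X f q) := by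
  by_cases h1 : (1 : W.H X) = 0
  · refine ⟨fun i α T hT => ?_, fun _ => all_of_zero h1, fun _ _ => all_of_zero h1⟩
    exfalso
    apply hT.2.1
    rw [Submodule.eq_bot_iff]
    exact fun y _ => by rw [← one_mul y, h1, zero_mul]
  have hq0 : 0 < q := by omega
  refine ⟨fun i α T hT => ⟨bound_one hD hHL h1 hF hq0 hr hT,
    fun h => bound_two hD hHL h1 hF hq0 hr hT h⟩, fun h => ?_, fun hn h => ?_⟩
  · refine all_of_irr hD hHL h1 hF hq hRH fun i α T hT => ?_
    have h2 := bound_one hD hHL h1 hF hq0 hr hT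
    have h3 := dimProd_pos hT.1 hT.2.1 hT.2.2.1
    omega
  · refine all_of_irr hD hHL h1 hF hq hRH fun i α T hT => ?_
    have hsd : i ≠ X.dim ∨ α ^ 2 ≠ (q : W.K) ^ X.dim := by
      by_contra hcon
      push Not at hcon
      obtain ⟨rfl, hα⟩ := hcon
      have h4 := hT.1
      rw [hn α hα] at h4
      exact hT.2.1 (le_bot_iff.1 h4)
    have h2 := bound_two hD hHL h1 hF hq0 hr hT hsd
    have h3 := dimProd_pos hT.1 hT.2.1 hT.2.2.1
    omega

end Pool.Agent.U227.Nm
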