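import Pool.Agent.U227.NmDefs
import Pool.Agent.U227.NmDual
import Pool.Agent.U227.JbTop

/-!
# Stable subspaces and the number of independent correspondences
-/

set_option autoImplicit false
set_option linter.unusedSectionVars false

open CategoryTheory AlgebraicGeometry Finset

universe u v

namespace Pool.Agent.U227.Nm

open Pool.Agent.H914 Pool.Agent.H447 VarClass Obj WeilCohomology Pool.Agent.U227.Grp
  Pool.Agent.U227.Fr Pool.Agent.U227.Gap Pool.Agent.U227.Jb

variable {k : Type u} [Field k] {𝒱 : VarClass k} {ops : CycleOps 𝒱}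
  {W : WeilCohomology.{u, v} ops} {X : 𝒱.Obj} {D : X.Cycles} {f : X ⟶ X} {q : ℕ}

/-- If the determinant of the intersection numbers is not zero, no combination of the cycles is
nilpotent with all products. -/
lemma not_all_nil {r : ℕ} {z w : Fin r → (X.prod X).Cycles}
    (hz : ∀ a, (X.prod X).IsCyc X.dim (z a)) (hw : ∀ b, (X.prod X).IsCyc X.dim (w b))
    (hdet : (Matrix.of fun a b => (X.prod X).V.degCycle (ops.mul (z a) (w b))).det ≠ 0)
    {c : Fin r → W.K} (hc0 : c ≠ 0)
    (hc : ∀ b, IsNilpotent ((∑ a, c a • (W.corr (W.cl _ (z a)) : Module.End W.K (W.H X))) *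
      W.corr (W.cl _ (ops.pull (swap X X) (w b))))) : False := by
  have hgr : ∀ {y : (X.prod X).Cycles}, (X.prod X).IsCyc X.dim y → ∀ i, ∀ a ∈ W.gr X i,
      W.corr (W.cl _ y) a ∈ W.gr X i := fun hy i a ha => kop_gr (kop_of_rop (rop_of_cyc hy)) ha
  have hkey : ∀ b, ∑ a, c a * ((((X.prod X).V.degCycle (ops.mul (z a) (w b)) : ℚ)) : W.K) = 0 := by
    intro b
    have hw' := ops.pull_mem (swap X X) (hw b)
    have hnil := hc b
    have hpar : Commute (par (W.isInternal X))
        ((∑ a, c a • (W.corr (W.cl _ (z a)) : Module.End W.K (W.H X))) *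
          W.corr (W.cl _ (ops.pull (swap X X) (w b)))) := by
      apply LinearMap.ext
      intro y
      have hT : ∀ i, ∀ y ∈ W.gr X i, ((∑ a, c a • (W.corr (W.cl _ (z a)) :
          Module.End W.K (W.H X))) * W.corr (W.cl _ (ops.pull (swap X X) (w b)))) y ∈
            W.gr X i := by
        intro i y hy
        rw [Module.End.mul_apply, LinearMap.sum_apply]
        exact Submodule.sum_mem _ fun a _ => Submodule.smul_mem _ _
          (hgr (hz a) i _ (hgr hw' i y hy))
      have h3 : ∀ i, ∀ y ∈ W.gr X i, (par (W.isInternal X) *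
          ((∑ a, c a • (W.corr (W.cl _ (z a)) : Module.End W.K (W.H X))) *
          W.corr (W.cl _ (ops.pull (swap X X) (w b))))) y =
          (((∑ a, c a • (W.corr (W.cl _ (z a)) : Module.End W.K (W.H X))) *
          W.corr (W.cl _ (ops.pull (swap X X) (w b)))) * par (W.isInternal X)) y := by
        intro i y hy
        rw [Module.End.mul_apply, Module.End.mul_apply _ (par (W.isInternal X)), par,
          scal_apply (W.isInternal X) _ (hT i y hy), scal_apply (W.isInternal X) _ hy, map_smul]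
      have h4 := gr_ext (W.isInternal X) (F := par (W.isInternal X) *
          ((∑ a, c a • (W.corr (W.cl _ (z a)) : Module.End W.K (W.H X))) *
          W.corr (W.cl _ (ops.pull (swap X X) (w b))))) h3
      rw [h4]
    have hnil2 : IsNilpotent (par (W.isInternal X) *
        ((∑ a, c a • (W.corr (W.cl _ (z a)) : Module.End W.K (W.H X))) *
          W.corr (W.cl _ (ops.pull (swap X X) (w b))))) := hpar.isNilpotent_mul_left hnil
    have htr := (LinearMap.isNilpotent_trace_of_isNilpotent hnil2).eq_zero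
    rw [Finset.sum_mul, Finset.mul_sum, map_sum] at htr
    rw [← htr]
    apply Finset.sum_congr rfl
    intro a _
    rw [smul_mul_assoc, mul_smul_comm, map_smul, smul_eq_mul,
      str_eq_deg (W := W) (by omega) (hz a) hw']
    congr 2
    have h4 := tr_mul_cl (W := W) (hz a) (ops.pull_mem (swap X X) (ops.pull_mem (swap X X) (hw b)))
        (by rw [dim_prod])
    rw [W.cl_pull, W.cl_pull, map_swap_swap, tr_mul_cl (hz a) (hw b) (by rw [dim_prod])] at h4
    exact_mod_cast h4
  have hdet' : ((Matrix.of fun a b => ((X.prod X).V.degCycle (ops.mul (z a) (w b)) : ℚ)).map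
      (algebraMap ℚ W.K)).det ≠ 0 := by
    have h3 := RingHom.map_det (algebraMap ℚ W.K)
      (Matrix.of fun a b => ((X.prod X).V.degCycle (ops.mul (z a) (w b)) : ℚ))
    rw [RingHom.mapMatrix_apply] at h3
    rw [← h3]
    intro h4
    exact hdet ((map_eq_zero _).1 h4)
  apply hdet'
  apply Matrix.exists_vecMul_eq_zero_iff.1
  refine ⟨c, hc0, ?_⟩
  funext b
  exact hkey b

lemma mem_eigenPart {i : ℕ} {α : W.K} {x : W.H X} : x ∈ eigenPart W X f i α ↔
    x ∈ W.gr X i ∧ x ∈ Module.End.maxGenEigenspace (W.map f).toLinearMap α := Iff.rfl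

lemma kop_eigenPart (hD : X.IsCyc 1 D) (hHL : HardLefschetz W X D) (h1 : (1 : W.H X) ≠ 0)
    (hF : IsFrobenius W X f q) (hq : 0 < q) {φ : W.H X →ₗ[W.K] W.H X} (hφ : φ ∈ KOp W X X 0)
    {i : ℕ} {α : W.K} {x : W.H X} (hx : x ∈ eigenPart W X f i α) : φ x ∈ eigenPart W X f i α := by
  refine ⟨kop_gr hφ hx.1, ?_⟩
  have hcomm : Commute ((W.map f).toLinearMap : Module.End W.K (W.H X)) φ := by
    apply LinearMap.ext
    intro a
    exact (kop_comm hD hHL h1 hF hq hφ a).symm
  exact Module.End.mapsTo_maxGenEigenspace_of_comm hcomm α hx.2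

lemma map_eigenPart {i : ℕ} {α : W.K} {x : W.H X} (hx : x ∈ eigenPart W X f i α) :
    (W.map f).toLinearMap x ∈ eigenPart W X f i α :=
  ⟨map_gr hx.1, Module.End.mapsTo_maxGenEigenspace_of_comm (Commute.refl _) α hx.2⟩

lemma eigenPart_of_notMem {i : ℕ} {α : W.K} [IsAlgClosed W.K]
    (h : α ∉ eigs (K := W.K) (V := W.H X) (W.map f).toLinearMap) :
    eigenPart W X f i α = ⊥ := by
  have h2 := alg_of_notMem (F := (W.map f).toLinearMap) (U := W.gr X i) (fun x hx => map_gr hx) h
  rw [algMult, Submodule.finrank_eq_zero] at h2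
  exact h2

/-- The parts span the cohomology. -/
lemma parts_top [IsAlgClosed W.K] : ⨆ t ∈ range (2 * X.dim + 1) ×ˢ
    eigs (K := W.K) (V := W.H X) (W.map f).toLinearMap, eigenPart W X f t.1 t.2 = ⊤ := by
  rw [eq_top_iff, ← iSup_gr (W := W) (X := X)]
  apply iSup_le
  intro i
  by_cases hi : i ∈ range (2 * X.dim + 1)
  · have h1 : W.gr X i = ⨆ μ, W.gr X i ⊓
        Module.End.maxGenEigenspace (W.map f).toLinearMap μ := by
      rw [← Submodule.inf_iSup_genEigenspace (h := fun x hx => map_gr hx) (k := ⊤),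
        show (⨆ μ, Module.End.genEigenspace (W.map f).toLinearMap μ ⊤) = ⊤ from
          Module.End.iSup_maxGenEigenspace_eq_top _, inf_top_eq]
    rw [h1]
    apply iSup_le
    intro μ
    by_cases hμ : μ ∈ eigs (K := W.K) (V := W.H X) (W.map f).toLinearMap
    · exact le_iSup₂_of_le (i, μ) (Finset.mem_product.2 ⟨hi, hμ⟩) le_rfl
    · have h2 := eigenPart_of_notMem (W := W) (X := X) (f := f) (i := i) hμ
      rw [eigenPart, genPart] at h2
      rw [h2]
      exact bot_le
  · rw [gr_bot i hi]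
    exact bot_le

/-- **Stable subspaces and ranks.** -/
theorem rank_family [IsAlgClosed W.K] (hD : X.IsCyc 1 D) (hHL : HardLefschetz W X D)
    (h1 : (1 : W.H X) ≠ 0) (hF : IsFrobenius W X f q) (hq : 0 < q) {r : ℕ}
    (hr : NumRankAtLeast ops (X.prod X) X.dim r) (S : ℕ × W.K → Submodule W.K (W.H X))
    (hS : ∀ t, S t ≤ eigenPart W X f t.1 t.2)
    (hst : ∀ t, ∀ φ ∈ cycOps W X X.dim, ∀ x ∈ S t, φ x ∈ S t) :
    r + 2 * ∑ t ∈ range (2 * X.dim + 1) ×ˢ eigs (K := W.K) (V := W.H X) (W.map f).toLinearMap,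
      dimProd (eigenPart W X f t.1 t.2) (S t) ≤ poleOrder W X f q := by
  classical
  refine le_trans ?_ (squareSum_le_pole hD hHL h1 hF hq)
  rw [squareSum_eq (fun i x hx => map_gr hx), ← Finset.sum_product' (s := range (2 * X.dim + 1))
    (t := eigs (W.map f).toLinearMap)
    (f := fun i α => algMult (W.map f).toLinearMap (W.gr X i) α ^ 2)]
  have hsplit : ∀ t : ℕ × W.K, (Module.finrank W.K (S t) ^ 2 +
      (Module.finrank W.K (eigenPart W X f t.1 t.2) - Module.finrank W.K (S t)) ^ 2) +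
      2 * dimProd (eigenPart W X f t.1 t.2) (S t) =
        algMult (W.map f).toLinearMap (W.gr X t.1) t.2 ^ 2 := by
    intro t
    have h2 : Module.finrank W.K (S t) ≤ Module.finrank W.K (eigenPart W X f t.1 t.2) :=
      Submodule.finrank_mono (hS t)
    have h3 : algMult (W.map f).toLinearMap (W.gr X t.1) t.2 =
        Module.finrank W.K (eigenPart W X f t.1 t.2) := rfl
    rw [h3, dimProd]
    obtain ⟨d, hd⟩ := Nat.exists_eq_add_of_le h2
    rw [hd, Nat.add_sub_cancel_left]
    ring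
  have hsum : (∑ t ∈ range (2 * X.dim + 1) ×ˢ eigs (K := W.K) (V := W.H X)
      (W.map f).toLinearMap, (Module.finrank W.K (S t) ^ 2 +
      (Module.finrank W.K (eigenPart W X f t.1 t.2) - Module.finrank W.K (S t)) ^ 2)) +
      2 * ∑ t ∈ range (2 * X.dim + 1) ×ˢ eigs (K := W.K) (V := W.H X) (W.map f).toLinearMap,
        dimProd (eigenPart W X f t.1 t.2) (S t) =
      ∑ t ∈ range (2 * X.dim + 1) ×ˢ eigs (K := W.K) (V := W.H X) (W.map f).toLinearMap,
        algMult (W.map f).toLinearMap (W.gr X t.1) t.2 ^ 2 := by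
    rw [Finset.mul_sum, ← Finset.sum_add_distrib]
    exact Finset.sum_congr rfl fun t _ => hsplit t
  suffices h : r ≤ ∑ t ∈ range (2 * X.dim + 1) ×ˢ eigs (K := W.K) (V := W.H X)
      (W.map f).toLinearMap, (Module.finrank W.K (S t) ^ 2 +
      (Module.finrank W.K (eigenPart W X f t.1 t.2) - Module.finrank W.K (S t)) ^ 2) by
    omega
  by_contra hcon
  push Not at hcon
  obtain ⟨z, w, hz, hw, hdet⟩ := hr
  rw [dim_prod, show X.dim + X.dim - X.dim = X.dim by omega] at hw
  have hP : ∀ {y : (X.prod X).Cycles}, (X.prod X).IsCyc X.dim y → ∀ t : ℕ × W.K,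
      ∀ x ∈ eigenPart W X f t.1 t.2, W.corr (W.cl _ y) x ∈ eigenPart W X f t.1 t.2 :=
    fun hy t x hx => kop_eigenPart hD hHL h1 hF hq (kop_of_rop (rop_of_cyc hy)) hx
  have hS' : ∀ {y : (X.prod X).Cycles}, (X.prod X).IsCyc X.dim y → ∀ t : ℕ × W.K,
      ∀ x ∈ S t, W.corr (W.cl _ y) x ∈ S t :=
    fun {y} hy t x hx => hst t _ ⟨W.cl _ y, ⟨y, hy, rfl⟩, rfl⟩ x hx
  obtain ⟨c, hc0, hc⟩ := exists_sq_zero (range (2 * X.dim + 1) ×ˢ
    eigs (K := W.K) (V := W.H X) (W.map f).toLinearMap)
    (fun t => eigenPart W X f t.1 t.2) S (fun t _ => hS t) parts_top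
    (fun a => (W.corr (W.cl _ (z a)) : Module.End W.K (W.H X)))
    (fun a t _ x hx => hP (hz a) t x hx) (fun a t _ x hx => hS' (hz a) t x hx) hcon
  refine not_all_nil (W := W) hz hw hdet hc0 fun b => ?_
  have hw' := ops.pull_mem (swap X X) (hw b)
  exact hc _ (fun t _ x hx => hP hw' t x hx) (fun t _ x hx => hS' hw' t x hx)

end Pool.Agent.U227.Nm
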