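import Pool.Agent.U227.NmFull

/-!
# Tate's conjectures for the square of a variety
-/

set_option autoImplicit false
set_option linter.unusedSectionVars false

open CategoryTheory AlgebraicGeometry Finset

universe u v

namespace Pool.Agent.U227.Nm

open Pool.Agent.H914 Pool.Agent.H447 VarClass Obj WeilCohomology Pool.Agent.U227.Grp
  Pool.Agent.U227.Fr Pool.Agent.U227.Gap Pool.Agent.U227.Jb

/-- An operator is semisimple if the space is spanned by eigenvectors for finitely many
eigenvalues. -/
lemma semisimple_of_span {K : Type*} [Field K] {V : Type*} [AddCommGroup V] [Module K V]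
    [FiniteDimensional K V] {G : Module.End K V} (S : Finset K)
    (h : ∀ x, x ∈ Submodule.span K {x | ∃ μ ∈ S, G x = μ • x}) : G.IsSemisimple := by
  classical
  set p : Polynomial K := ∏ μ ∈ S, (Polynomial.X - Polynomial.C μ) with hp
  have hsq : Squarefree p := by
    have h1 : p.Separable := by
      rw [hp]
      exact Polynomial.separable_prod_X_sub_C_iff'.2 fun x _ y _ hxy => hxy
    exact h1.squarefree
  refine Module.End.isSemisimple_of_squarefree_aeval_eq_zero hsq ?_
  apply LinearMap.ext
  intro x
  rw [LinearMap.zero_apply]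
  induction h x using Submodule.span_induction with
  | mem x hx =>
    obtain ⟨μ, hμ, hx⟩ := hx
    rw [hp, ← Finset.prod_erase_mul _ _ hμ, map_mul, Module.End.mul_apply]
    have h3 : (Polynomial.aeval G (Polynomial.X - Polynomial.C μ)) x = 0 := by
      rw [map_sub, Polynomial.aeval_X, Polynomial.aeval_C, LinearMap.sub_apply,
        Module.algebraMap_end_apply, hx, sub_self]
    rw [h3, map_zero]
  | zero => rw [map_zero]
  | add a b _ _ ha hb => rw [map_add, ha, hb, add_zero]
  | smul c a _ ha => rw [map_smul, ha, smul_zero]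

variable {k : Type u} [Field k] {𝒱 : VarClass k} {ops : CycleOps 𝒱}
  {W : WeilCohomology.{u, v} ops} {X : 𝒱.Obj} {D : X.Cycles} {f : X ⟶ X} {q : ℕ}

section Full

variable [IsAlgClosed W.K] (hD : X.IsCyc 1 D) (hHL : HardLefschetz W X D)
    (h1 : (1 : W.H X) ≠ 0) (hF : IsFrobenius W X f q) (hq : 1 < q)
    (hRH : RiemannHypothesis W X f q)
    (hirr : ∀ i α T, ¬ IsStablePart (cycOps W X X.dim) (eigenPart W X f i α) T)

include hD hHL h1 hF

/-- The trace on the square. -/
lemma frob_tr_sq (c : W.H (X.prod X)) :
    W.tr (X.prod X) (W.map (squareMap f) c) = (q : W.K) ^ (2 * X.dim) * W.tr (X.prod X) c := by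
  refine W.kunneth_induction (p := fun c => W.tr (X.prod X) (W.map (squareMap f) c) =
    (q : W.K) ^ (2 * X.dim) * W.tr (X.prod X) c) ?_ ?_ c
  · intro a b ha hb
    rw [map_add, map_add, map_add, ha, hb, mul_add]
  · intro i j a _ b _
    rw [map_squareMap, W.tr_prod, W.tr_prod, frob_tr hD hHL h1 hF, frob_tr hD hHL h1 hF]
    ring

include hq

/-- The pairing is nondegenerate on the Tate part. -/
lemma tate_zero {x : W.H (X.prod X)} (hx : x ∈ tatePart W X f q)
    (h : ∀ y ∈ tatePart W X f q, W.tr (X.prod X) (x * y) = 0) : x = 0 := by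
  have hq0 : (q : W.K) ≠ 0 := by exact_mod_cast (by omega : q ≠ 0)
  have hc : ((q : W.K) ^ (2 * X.dim)) ≠ 0 := pow_ne_zero _ hq0
  have hdim : (X.prod X).dim = 2 * X.dim := by rw [dim_prod]; ring
  refine eq_zero_of_orth (F := (W.map (squareMap f)).toLinearMap) (gr := W.gr (X.prod X))
    (n := (X.prod X).dim) (fun i x hx => W.map_mem _ hx) iSup_gr (pairB W (X.prod X)) hc ?_
    (fun i j hij x hx y hy => pairB_gr i j hij x hx y hy) (fun x hx => W.nondeg x hx)
    (i := 2 * X.dim) (α := (q : W.K) ^ X.dim) hx ?_
  · intro x y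
    rw [pairB_apply, pairB_apply, ← frob_tr_sq hD hHL h1 hF, map_mul (W.map (squareMap f))]
    rfl
  · intro y hy
    rw [pairB_apply]
    apply h
    rw [hdim, show 2 * (2 * X.dim) - 2 * X.dim = 2 * X.dim by omega,
      show (q : W.K) ^ (2 * X.dim) / (q : W.K) ^ X.dim = (q : W.K) ^ X.dim by
        rw [two_mul, pow_add, mul_div_assoc, div_self (pow_ne_zero _ hq0), mul_one]] at hy
    exact hy

include hirr

lemma squareMap_semisimple : Module.End.IsSemisimple (R := W.K) (M := W.H (X.prod X))
    (W.map (squareMap f)).toLinearMap := by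
  classical
  set S := (eigs (K := W.K) (V := W.H X) (W.map f).toLinearMap ×ˢ
    eigs (K := W.K) (V := W.H X) (W.map f).toLinearMap).image (fun t => t.1 * t.2) with hS
  have hspan : ∀ a : W.H X, a ∈ Submodule.span W.K
      {x | ∃ μ ∈ eigs (K := W.K) (V := W.H X) (W.map f).toLinearMap, W.map f x = μ • x} := by
    intro a
    have h2 : (⊤ : Submodule W.K (W.H X)) ≤ Submodule.span W.K
        {x | ∃ μ ∈ eigs (K := W.K) (V := W.H X) (W.map f).toLinearMap, W.map f x = μ • x} := by
      rw [← parts_top (W := W) (X := X) (f := f)]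
      refine iSup₂_le fun t ht x hx => ?_
      rw [Finset.mem_product] at ht
      exact Submodule.subset_span ⟨t.2, ht.2, scalar_part hD hHL h1 hF hq hirr hx⟩
    exact h2 Submodule.mem_top
  refine semisimple_of_span S fun c => ?_
  refine W.kunneth_induction (p := fun c => c ∈ Submodule.span W.K
    {x | ∃ μ ∈ S, (W.map (squareMap f)).toLinearMap x = μ • x}) ?_ ?_ c
  · exact fun a b ha hb => Submodule.add_mem _ ha hb
  · intro i j a hai b hbj
    clear hai hbj
    induction hspan a using Submodule.span_induction with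
    | mem a ha =>
      obtain ⟨μ, hμ, ha⟩ := ha
      induction hspan b using Submodule.span_induction with
      | mem b hb =>
        obtain ⟨ν, hν, hb⟩ := hb
        refine Submodule.subset_span ⟨μ * ν, Finset.mem_image.2
          ⟨(μ, ν), Finset.mem_product.2 ⟨hμ, hν⟩, rfl⟩, ?_⟩
        change W.map (squareMap f) (W.map (fst X X) a * W.map (snd X X) b) = _
        rw [map_squareMap, ha, hb, map_smul, map_smul, smul_mul_assoc, mul_smul_comm, smul_smul]
      | zero => rw [map_zero, mul_zero]; exact Submodule.zero_mem _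
      | add x y _ _ hx hy => rw [map_add, mul_add]; exact Submodule.add_mem _ hx hy
      | smul c x _ hx => rw [map_smul, mul_smul_comm]; exact Submodule.smul_mem _ c hx
    | zero => rw [map_zero, zero_mul]; exact Submodule.zero_mem _
    | add x y _ _ hx hy => rw [map_add, add_mul]; exact Submodule.add_mem _ hx hy
    | smul c x _ hx => rw [map_smul, smul_mul_assoc]; exact Submodule.smul_mem _ c hx

lemma tate_eig {c : W.H (X.prod X)} (hc : c ∈ tatePart W X f q) :
    W.map (squareMap f) c = (q : W.K) ^ X.dim • c := by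
  have h2 := (squareMap_semisimple hD hHL h1 hF hq hirr).isFinitelySemisimple
  have h3 := hc.2
  rw [h2.maxGenEigenspace_eq_eigenspace] at h3
  exact Module.End.mem_eigenspace_iff.1 h3

include hRH

/-- **The Tate part is spanned by the classes of cycles.** -/
theorem tate_span : tatePart W X f q ≤ spanCycles W (X.prod X) X.dim := by
  intro c hc
  have hq0 : (q : W.K) ^ X.dim ≠ 0 := pow_ne_zero _ (by exact_mod_cast (by omega : q ≠ 0))
  have hK : W.corr c ∈ KOp W X X 0 := by
    apply all_alg hD hHL h1 hF hq hRH hirr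
    · intro i x hx
      have h2 := W.corr_isHom hc.1 i x (by rw [grZ_natCast]; exact hx)
      rwa [sub_self, mul_zero, add_zero, grZ_natCast] at h2
    · apply LinearMap.ext
      intro a
      have h2 := corr_squareMap (frob_tr hD hHL h1 hF) c a
      rw [tate_eig hD hHL h1 hF hq hirr hc, W.corr_smul, LinearMap.smul_apply] at h2
      exact (smul_right_injective _ hq0 h2).symm
  obtain ⟨γ, hγ, hγc⟩ := mem_KOp_iff.1 hK
  have h2 : c = γ := by
    have h3 : c + (-1 : W.K) • γ = 0 := by
      apply corr_inj
      rw [W.corr_add, W.corr_smul, hγc]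
      apply LinearMap.ext
      intro a
      rw [LinearMap.add_apply, LinearMap.smul_apply, LinearMap.zero_apply, neg_smul, one_smul,
        add_neg_cancel]
    rw [neg_smul, one_smul, ← sub_eq_add_neg, sub_eq_zero] at h3
    exact h3
  rw [h2]
  simpa using hγ

end Full

end Pool.Agent.U227.Nm
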