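import Pool.Agent.U227.LinFix
import Mathlib.Topology.Algebra.Module.Basic

/-!
# Density of the image of an equivariant map and group actions
-/

set_option autoImplicit false
set_option linter.unusedSectionVars false

universe w

namespace Pool.Agent.U227.Reg

open Pool.Agent.X252.GA Pool.Agent.X252.SCT Pool.Agent.U227.Grp Pool.Agent.U227.Lin

/-- A rational vector space `A` (motivic cohomology), a rational vector space `W` with a topology (absolute
Hodge cohomology) in which sums and the multiplications with rational numbers are continuous, a `ℚ`-linear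
map `r : A → W` (the regulator) and linear actions of the group `G` on `A` and on `W`, on `W` by
continuous maps, such that `r` is equivariant. -/
structure Regulator (G : Type) [Group G] (A W : Type w) [AddCommGroup A] [Module ℚ A]
    [AddCommGroup W] [Module ℚ W] [TopologicalSpace W] where
  /-- the action on `A` -/
  actA : G →* Module.End ℚ A
  /-- the action on `W` -/
  actW : G →* Module.End ℚ W
  /-- it is continuous -/
  cont : ∀ g, Continuous (actW g)
  /-- the regulator -/
  r : A →ₗ[ℚ] W
  /-- it is equivariant -/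
  r_act : ∀ g x, r (actA g x) = actW g (r x)

variable {G : Type} [Group G] {A W : Type w} [AddCommGroup A] [Module ℚ A]
    [AddCommGroup W] [Module ℚ W] [TopologicalSpace W] [ContinuousAdd W] [ContinuousConstSMul ℚ W]

namespace Regulator

variable (D : Regulator G A W)

/-- The closure of the image. -/
def clos : Submodule ℚ W := (LinearMap.range D.r).topologicalClosure

omit [ContinuousAdd W] [ContinuousConstSMul ℚ W] in
/-- Every element of `W` fixed by `H` is a limit of images of elements of `A` fixed by `H`. -/
def DenseOn (H : Subgroup G) : Prop :=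
  ∀ w : W, (∀ h ∈ H, D.actW h w = w) → w ∈ closure (D.r '' {x | ∀ h ∈ H, D.actA h x = x})

/-- The representation `ρ` occurs in `W` modulo the closure of the image. -/
def Obstructs {V : Type} [AddCommGroup V] [Module ℚ V] (ρ : G →* Module.End ℚ V) : Prop :=
  OccMod D.actW D.clos ρ

lemma mem_clos {w : W} : w ∈ D.clos ↔ w ∈ closure (Set.range D.r) := by
  rw [clos, ← SetLike.mem_coe, Submodule.topologicalClosure_coe, LinearMap.coe_range]

lemma stable (g : G) (s : W) (hs : s ∈ D.clos) : D.actW g s ∈ D.clos := by
  rw [mem_clos] at hs ⊢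
  refine map_mem_closure (D.cont g) hs ?_
  rintro _ ⟨x, rfl⟩
  exact ⟨D.actA g x, D.r_act g x⟩

lemma dense_iff : DenseRange D.r ↔ D.clos = ⊤ := by
  rw [Submodule.eq_top_iff']
  exact forall_congr' fun w => D.mem_clos.symm

variable [Fintype G]

lemma cont_theta (H : Subgroup G) : Continuous (theta D.actW (nA H)) := by
  classical
  have h1 : (theta D.actW (nA H) : W → W) = fun w => ∑ g : G with g ∈ H, D.actW g w := by
    funext w
    rw [nA, map_sum, LinearMap.sum_apply]
    exact Finset.sum_congr rfl fun g _ => by rw [theta_single]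
  rw [h1]
  exact continuous_finsetSum _ fun g _ => D.cont g

lemma r_theta (x : MonoidAlgebra ℚ G) (u : A) : D.r (theta D.actA x u) = theta D.actW x (D.r u) := by
  induction x using MonoidAlgebra.induction_linear with
  | zero => rw [map_zero, map_zero, LinearMap.zero_apply, LinearMap.zero_apply, map_zero]
  | add f g hf hg => rw [map_add, map_add, LinearMap.add_apply, LinearMap.add_apply, map_add, hf, hg]
  | single g r =>
    have h1 : (MonoidAlgebra.single g r : MonoidAlgebra ℚ G) =
        r • MonoidAlgebra.single g (1 : ℚ) := by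
      rw [MonoidAlgebra.smul_single, smul_eq_mul, mul_one]
    rw [h1, map_smul, map_smul, LinearMap.smul_apply, LinearMap.smul_apply, map_smul, theta_single,
      theta_single, D.r_act]

lemma denseOn_iff (H : Subgroup G) : D.DenseOn H ↔ FixIn D.actW D.clos H := by
  constructor
  · intro h w hw
    exact D.mem_clos.2 (closure_mono (Set.image_subset_range _ _) (h w hw))
  · intro h w hw
    have h1 : (Nat.card H : ℚ)⁻¹ • theta D.actW (nA H) w = w := by
      rw [theta_nA_fixed D.actW H hw, smul_smul, inv_mul_cancel₀ (card_ne H), one_smul]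
    have h2 : Continuous fun z : W => (Nat.card H : ℚ)⁻¹ • theta D.actW (nA H) z :=
      (D.cont_theta H).const_smul _
    have h3 : ∀ z ∈ Set.range D.r, (Nat.card H : ℚ)⁻¹ • theta D.actW (nA H) z ∈
        D.r '' {x | ∀ h ∈ H, D.actA h x = x} := by
      rintro _ ⟨x, rfl⟩
      refine ⟨(Nat.card H : ℚ)⁻¹ • theta D.actA (nA H) x, fun g hg => ?_, ?_⟩
      · rw [map_smul, fixed_theta_nA D.actA H hg]
      · rw [map_smul, r_theta]
    have h4 := map_mem_closure (f := fun z : W => (Nat.card H : ℚ)⁻¹ • theta D.actW (nA H) z)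
      h2 (D.mem_clos.1 (h w hw)) h3
    change (Nat.card H : ℚ)⁻¹ • theta D.actW (nA H) w ∈ _ at h4
    rwa [h1] at h4

/-- **Subgroups which act trivially on `W`.** -/
theorem denseOn_sup (H N : Subgroup G) (hN : ∀ g ∈ N, ∀ w : W, D.actW g w = w) :
    D.DenseOn H ↔ D.DenseOn (H ⊔ N) := by
  rw [denseOn_iff, denseOn_iff]
  refine forall_congr' fun w => ⟨fun h hw => h fun g hg => hw g (Subgroup.mem_sup_left hg),
    fun h hw => h ?_⟩
  let K : Subgroup G :=
    { carrier := {g | D.actW g w = w}
      one_mem' := by
        change D.actW 1 w = w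
        rw [map_one]
        rfl
      mul_mem' := by
        intro a b ha hb
        change D.actW (a * b) w = w
        rw [map_mul, Module.End.mul_apply, hb, ha]
      inv_mem' := by
        intro a ha
        change D.actW a⁻¹ w = w
        have ha' : D.actW a w = w := ha
        conv_lhs => rw [← ha', ← Module.End.mul_apply, ← map_mul, inv_mul_cancel, map_one]
        rfl }
  have hK : H ⊔ N ≤ K := sup_le (fun g hg => hw g hg) fun g hg => hN g hg w
  exact fun g hg => hK hg

/-- **Density and group actions.** -/
theorem density :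
    (∀ H : Subgroup G, D.DenseOn H ↔
      ∀ (V : Type) [AddCommGroup V] [Module ℚ V] (ρ : G →* Module.End ℚ V), Irred ρ →
        D.Obstructs ρ → ¬ HasFixed ρ H) ∧
    (∀ N : Subgroup G, (∀ g ∈ N, ∀ w : W, D.actW g w = w) →
      (DenseRange D.r ↔ D.DenseOn N) ∧ ∀ H : Subgroup G, D.DenseOn H ↔ D.DenseOn (H ⊔ N)) ∧
    QuotientLaws (DenseRange D.r) D.DenseOn ∧
    (¬ DenseRange D.r → AtPrimes D.DenseOn →
      (∃ (V : Type) (_ : AddCommGroup V) (_ : Module ℚ V) (ρ : G →* Module.End ℚ V),
        IsFree ρ ∧ D.Obstructs ρ) ∧ CyclicSubgroups G) := by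
  have hP : D.DenseOn = FixIn D.actW D.clos := funext fun H => propext (D.denseOn_iff H)
  have h0 : DenseRange D.r = (D.clos = ⊤) := propext D.dense_iff
  obtain ⟨h1, h2⟩ := lin_laws D.actW D.stable
  have hbot : DenseRange D.r ↔ D.DenseOn ⊥ := by
    rw [h0, denseOn_iff, Submodule.eq_top_iff']
    refine ⟨fun h w _ => h w, fun h w => h w fun g hg => ?_⟩
    rw [Subgroup.mem_bot.1 hg, map_one]
    rfl
  refine ⟨fun H => ?_, fun N hN => ⟨?_, fun H => D.denseOn_sup H N hN⟩, ?_, fun hne hp => ?_⟩
  · rw [denseOn_iff]
    exact fixIn_iff _ D.stable H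
  · rw [hbot, D.denseOn_sup ⊥ N hN, bot_sup_eq]
  · rw [hP, h0]
    exact h1
  · rw [h0] at hne
    rw [hP] at hp
    exact h2 hne hp

end Regulator

end Pool.Agent.U227.Reg
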