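import Pool.Agent.U227.Grp

/-!
# Two-sided ideals of rational group rings are stable under the involution
-/

set_option autoImplicit false

namespace Pool.Agent.U227.Grp

open Pool.Agent.X252.GA

variable {G : Type} [Group G]

/-- The anti-automorphism `g ↦ g⁻¹` of the group ring. -/
noncomputable def sig (x : MonoidAlgebra ℚ G) : MonoidAlgebra ℚ G :=
  MonoidAlgebra.mapDomain (fun g => g⁻¹) x

lemma sig_add (x y : MonoidAlgebra ℚ G) : sig (x + y) = sig x + sig y :=
  MonoidAlgebra.mapDomain_add _ x y

lemma sig_zero : sig (0 : MonoidAlgebra ℚ G) = 0 := MonoidAlgebra.mapDomain_zero _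

lemma sig_single (g : G) (r : ℚ) : sig (MonoidAlgebra.single g r) = MonoidAlgebra.single g⁻¹ r :=
  MonoidAlgebra.mapDomain_single

lemma sig_mul (x y : MonoidAlgebra ℚ G) : sig (x * y) = sig y * sig x := by
  induction x using MonoidAlgebra.induction_linear with
  | zero => rw [zero_mul, sig_zero, mul_zero]
  | add f g hf hg => rw [add_mul, sig_add, hf, hg, sig_add, mul_add]
  | single g r =>
    induction y using MonoidAlgebra.induction_linear with
    | zero => rw [mul_zero, sig_zero, zero_mul]
    | add f g hf hg => rw [mul_add, sig_add, hf, hg, sig_add, add_mul]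
    | single h s =>
      rw [MonoidAlgebra.single_mul_single, sig_single, sig_single, sig_single,
        MonoidAlgebra.single_mul_single, mul_inv_rev, mul_comm]

lemma sig_sig (x : MonoidAlgebra ℚ G) : sig (sig x) = x := by
  induction x using MonoidAlgebra.induction_linear with
  | zero => rw [sig_zero, sig_zero]
  | add f g hf hg => rw [sig_add, sig_add, hf, hg]
  | single g r => rw [sig_single, sig_single, inv_inv]

lemma tau_comm (x y : MonoidAlgebra ℚ G) : (x * y).coeff 1 = (y * x).coeff 1 := by
  induction x using MonoidAlgebra.induction_linear with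
  | zero => rw [zero_mul, mul_zero]
  | add f g hf hg =>
    rw [add_mul, mul_add, MonoidAlgebra.coeff_add, MonoidAlgebra.coeff_add, Finsupp.add_apply,
      Finsupp.add_apply, hf, hg]
  | single g r =>
    induction y using MonoidAlgebra.induction_linear with
    | zero => rw [zero_mul, mul_zero]
    | add f g hf hg =>
      rw [add_mul, mul_add, MonoidAlgebra.coeff_add, MonoidAlgebra.coeff_add, Finsupp.add_apply,
        Finsupp.add_apply, hf, hg]
    | single h s =>
      classical
      rw [MonoidAlgebra.single_mul_single, MonoidAlgebra.single_mul_single,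
        MonoidAlgebra.coeff_single, MonoidAlgebra.coeff_single, Finsupp.single_apply,
        Finsupp.single_apply, mul_comm s r]
      have : g * h = 1 ↔ h * g = 1 := by
        rw [mul_eq_one_iff_eq_inv, mul_eq_one_iff_inv_eq, eq_comm]
      simp only [this]

lemma tau_sig [Fintype G] (x y : MonoidAlgebra ℚ G) :
    (x * sig y).coeff 1 = ∑ g : G, x.coeff g * y.coeff g := by
  induction x using MonoidAlgebra.induction_linear with
  | zero => simp
  | add f g hf hg =>
    rw [add_mul, MonoidAlgebra.coeff_add, Finsupp.add_apply, hf, hg, ← Finset.sum_add_distrib]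
    refine Finset.sum_congr rfl fun a _ => ?_
    rw [MonoidAlgebra.coeff_add, Finsupp.add_apply, add_mul]
  | single g r =>
    induction y using MonoidAlgebra.induction_linear with
    | zero => simp [sig_zero]
    | add f f' hf hg =>
      rw [sig_add, mul_add, MonoidAlgebra.coeff_add, Finsupp.add_apply, hf, hg,
        ← Finset.sum_add_distrib]
      refine Finset.sum_congr rfl fun a _ => ?_
      rw [MonoidAlgebra.coeff_add, Finsupp.add_apply, mul_add]
    | single h s =>
      classical
      rw [sig_single, MonoidAlgebra.single_mul_single, MonoidAlgebra.coeff_single,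
        Finsupp.single_apply, MonoidAlgebra.coeff_single, MonoidAlgebra.coeff_single]
      rw [Finset.sum_eq_single g]
      · rw [Finsupp.single_apply, Finsupp.single_apply, if_pos rfl]
        have : g * h⁻¹ = 1 ↔ h = g := by
          rw [mul_inv_eq_one, eq_comm]
        simp only [this]
        split_ifs <;> simp
      · intro a _ ha
        rw [Finsupp.single_apply, if_neg (Ne.symm ha), zero_mul]
      · intro h; exact absurd (Finset.mem_univ _) h

lemma eq_zero_of_tau [Fintype G] {x : MonoidAlgebra ℚ G} (h : (x * sig x).coeff 1 = 0) : x = 0 := by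
  rw [tau_sig] at h
  have h1 := (Finset.sum_eq_zero_iff_of_nonneg (fun g _ => mul_self_nonneg (x.coeff g))).1 h
  rw [← MonoidAlgebra.coeff_eq_zero]
  ext g
  exact mul_self_eq_zero.1 (h1 g (Finset.mem_univ g))

/-- Two-sided ideals have a one. -/
lemma exists_one [Fintype G] (I : Ideal (MonoidAlgebra ℚ G)) :
    ∃ e ∈ I, ∃ f, e + f = 1 ∧ ∀ x ∈ I, x * f = 0 := by
  have : NeZero (Nat.card G : ℚ) := ⟨by exact_mod_cast Nat.card_pos.ne'⟩
  have hss : IsSemisimpleRing (MonoidAlgebra ℚ G) := inferInstance
  obtain ⟨L, hL⟩ := exists_isCompl I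
  have h1 : (1 : MonoidAlgebra ℚ G) ∈ I ⊔ L := by rw [hL.sup_eq_top]; trivial
  obtain ⟨e, he, f, hf, hef⟩ := Submodule.mem_sup.1 h1
  refine ⟨e, he, f, hef, fun x hx => ?_⟩
  have h2 : x * f ∈ I := by
    have h3 : x * f = x - x * e := by
      rw [eq_sub_iff_add_eq, add_comm, ← mul_add, hef, mul_one]
    rw [h3]
    exact I.sub_mem hx (I.mul_mem_left x he)
  have h3 : x * f ∈ I ⊓ L := ⟨h2, L.smul_mem x hf⟩
  rw [hL.inf_eq_bot, Submodule.mem_bot] at h3
  exact h3

/-- **Two-sided ideals are stable under the involution.** -/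
theorem sig_mem [Fintype G] (I : Ideal (MonoidAlgebra ℚ G)) (hI : ∀ x ∈ I, ∀ y, x * y ∈ I)
    {x : MonoidAlgebra ℚ G} (hx : x ∈ I) : sig x ∈ I := by
  obtain ⟨e, he, f, hef, hf⟩ := exists_one I
  have h1 : sig x * f = 0 := by
    apply eq_zero_of_tau
    rw [sig_mul, sig_sig, tau_comm, ← mul_assoc, mul_assoc _ x, mul_assoc (sig f),
      hf _ (hI x hx _), mul_zero]
    rfl
  have h2 : sig x = sig x * e := by
    conv_lhs => rw [← mul_one (sig x), ← hef, mul_add, h1, add_zero]
  rw [h2]
  exact I.mul_mem_left _ he

end Pool.Agent.U227.Grp
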