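import Pool.Agent.U227.MotKerMain
import Pool.Agent.U227.MotDet
import Pool.Agent.U227.LinFix

/-!
# Vanishing of additive functors and group actions: the exact form
-/

set_option autoImplicit false
set_option linter.unusedSectionVars false

open CategoryTheory CategoryTheory.Limits Module
open scoped ZeroObject

universe v u w

namespace Pool.Agent.U227.Van

open Pool.Agent.X252.GA Pool.Agent.X252.SCT Pool.Agent.U227.Grp Pool.Agent.U227.Mot
  Pool.Agent.U227.Ker Pool.Agent.U227.Lin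

variable {C : Type u} [Category.{v} C] [Preadditive C] {κ : Type}

/-- The representation `ρ` occurs in `A m (M)` for some `m` in `I`: some equivariant linear map to this
space is not zero. -/
def OccursAt (A : κ → C ⥤ ModuleCat.{w} ℚ) (I : Set κ) {G : Type} [Group G] {M : C} (a : G →* End M)
    {V : Type} [AddCommGroup V] [Module ℚ V] (ρ : G →* Module.End ℚ V) : Prop :=
  ∃ m ∈ I, ∃ f : V →ₗ[ℚ] (A m).obj M,
    (∀ g v, f (ρ g v) = ((A m).map (a g : M ⟶ M)).hom (f v)) ∧ f ≠ 0

lemma fmap_comp (F : C ⥤ ModuleCat.{w} ℚ) {M N L : C} (f : M ⟶ N) (g : N ⟶ L) (x : F.obj M) :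
    (F.map (f ≫ g)).hom x = (F.map g).hom ((F.map f).hom x) := by
  simp

lemma fmap_id (F : C ⥤ ModuleCat.{w} ℚ) (M : C) (x : F.obj M) : (F.map (𝟙 M)).hom x = x := by
  simp

/-- The action on the space. -/
noncomputable def spAct (F : C ⥤ ModuleCat.{w} ℚ) {G : Type} [Group G] {M : C} (a : G →* End M) :
    G →* Module.End ℚ (F.obj M) where
  toFun g := (F.map (a g : M ⟶ M)).hom
  map_one' := by
    refine LinearMap.ext fun x => ?_
    rw [map_one]
    exact fmap_id F M x
  map_mul' g h := by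
    refine LinearMap.ext fun x => ?_
    rw [map_mul]
    exact fmap_comp F (a h : M ⟶ M) (a g : M ⟶ M) x

lemma spAct_apply (F : C ⥤ ModuleCat.{w} ℚ) {G : Type} [Group G] {M : C} (a : G →* End M) (g : G)
    (x : F.obj M) : spAct F a g x = (F.map (a g : M ⟶ M)).hom x := rfl

lemma occMod_iff (F : C ⥤ ModuleCat.{w} ℚ) {G : Type} [Group G] {M : C} (a : G →* End M)
    {V : Type} [AddCommGroup V] [Module ℚ V] (ρ : G →* Module.End ℚ V) :
    OccMod (spAct F a) ⊥ ρ ↔ ∃ f : V →ₗ[ℚ] F.obj M,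
      (∀ g v, f (ρ g v) = (F.map (a g : M ⟶ M)).hom (f v)) ∧ f ≠ 0 := by
  constructor
  · rintro ⟨f, hadd, heq, v, hv⟩
    simp only [Submodule.mem_bot, sub_eq_zero] at hadd heq hv
    refine ⟨(AddMonoidHom.mk' f hadd).toRatLinearMap, fun g v => heq g v, fun h => hv ?_⟩
    exact congrArg (fun u : V →ₗ[ℚ] F.obj M => u v) h
  · rintro ⟨f, heq, hf⟩
    refine ⟨f, fun v w => ?_, fun g v => ?_, ?_⟩
    · rw [map_add, sub_self]
      exact Submodule.zero_mem _
    · rw [heq, spAct_apply, sub_self]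
      exact Submodule.zero_mem _
    · by_contra hcon
      push Not at hcon
      exact hf (LinearMap.ext fun v => (Submodule.mem_bot ℚ).1 (hcon v))

lemma isStable_true [HasZeroObject C] [HasBinaryBiproducts C] : IsStable (fun _ : C => True) where
  nonempty := ⟨0, trivial⟩
  sum M N _ _ := ⟨M ⊞ N, biprod.inl, biprod.fst, biprod.inr, biprod.snd, biprod.inl_fst,
      biprod.inr_snd, biprod.inl_snd, biprod.inr_fst, trivial⟩
  retract _ _ _ _ _ _ := trivial

variable [Linear ℚ C] [IsIdempotentComplete C] [HasZeroObject C]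

lemma exists_fixedPart [HasBinaryBiproducts C] {G : Type} [Group G] [Finite G] {M : C}
    (a : G →* End M) (H : Subgroup G) :
    ∃ (N : C) (i : N ⟶ M) (p : M ⟶ N), IsFixedPart a H i p := by
  have : Fintype G := Fintype.ofFinite G
  obtain ⟨N, i, p, h, -⟩ := (nA_mem (P := fun _ : C => True) a isStable_true (H := H)).1
    ⟨M, 𝟙 M, act a (nA H), trivial, Category.id_comp _⟩
  exact ⟨N, i, p, h⟩

variable (A : κ → C ⥤ ModuleCat.{w} ℚ)

lemma onQuotient_vanish [HasBinaryBiproducts C] (h : ∀ m, (A m).Additive) (I : Set κ) {G : Type}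
    [Group G] [Finite G] {M : C} (a : G →* End M) (H : Subgroup G) :
    OnQuotient (VanishIn A I) a H ↔ ∀ m ∈ I, FixIn (spAct (A m) a) ⊥ H := by
  constructor
  · rintro ⟨N, i, p, hf, hN⟩ m hm x hx
    have h1 : ((A m).map i).hom (((A m).map p).hom x) = x :=
      NatMaps.fixed_eq (T := zeroMaps A h) a m hf hx
    rw [Submodule.mem_bot, ← h1, hN m hm (((A m).map p).hom x), map_zero]
  · intro hx
    obtain ⟨N, i, p, hf⟩ := exists_fixedPart a H
    refine ⟨N, i, p, hf, fun m hm y => ?_⟩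
    have h1 : ((A m).map i).hom y = 0 := by
      refine (Submodule.mem_bot ℚ).1 (hx m hm _ fun g hg => ?_)
      rw [spAct_apply, ← fmap_comp, hf.fixed g hg]
    rw [← fmap_id (A m) N y, ← hf.retract, fmap_comp, h1, map_zero]

/-- **Vanishing and group actions, exact form.** -/
theorem vanishExact [HasFiniteBiproducts C] (h : ∀ m, (A m).Additive) (I : Set κ) :
    (∀ (G : Type) [Group G] [Finite G] (M : C) (a : G →* End M),
      (∀ H : Subgroup G, OnQuotient (VanishIn A I) a H ↔
        ∀ (V : Type) [AddCommGroup V] [Module ℚ V] (ρ : G →* Module.End ℚ V), Irred ρ →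
          OccursAt A I a ρ → ¬ HasFixed ρ H) ∧
      QuotientLaws (VanishIn A I M) (OnQuotient (VanishIn A I) a) ∧
      (¬ VanishIn A I M → AtPrimes (OnQuotient (VanishIn A I) a) →
        (∃ (V : Type) (_ : AddCommGroup V) (_ : Module ℚ V) (ρ : G →* Module.End ℚ V),
          IsFree ρ ∧ OccursAt A I a ρ) ∧ CyclicSubgroups G)) ∧
    ((∃ N : C, ¬ VanishIn A I N) → ∀ (G : Type) [Group G] [Finite G],
      (∀ (F : Set (Subgroup G)) (H : Subgroup G), Detects (VanishIn A I) F H ↔ Covers F H) ∧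
      (∀ F : Set (Subgroup G), DetectsAll (VanishIn A I) F ↔ CoversAll F) ∧
      (DetectsAll (VanishIn A I) (primeSubgroups G) ↔ ¬ FixedPointFree G)) := by
  have := hasBinaryBiproducts_of_finite_biproducts C
  have hst : IsStable (VanishIn A I) := by
    have h1 := NatMaps.isStable (T := zeroMaps A h) I
    rwa [injectiveIn_zeroMaps] at h1
  have hS : ∀ (G : Type) [Group G] (M : C) (a : G →* End M) (m : κ), ∀ g,
      ∀ s ∈ (⊥ : Submodule ℚ ((A m).obj M)), spAct (A m) a g s ∈
        (⊥ : Submodule ℚ ((A m).obj M)) := by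
    intro G _ M a m g s hs
    rw [(Submodule.mem_bot ℚ).1 hs, map_zero]
    exact Submodule.zero_mem _
  refine ⟨fun G _ _ M a => ⟨fun H => ?_, (main hst a).2.2.1, fun hne hp => ?_⟩,
    fun hN => (exactLaws hst).2 hN⟩
  · have : Fintype G := Fintype.ofFinite G
    rw [onQuotient_vanish A h I a H]
    constructor
    · rintro h1 V _ _ ρ hρ ⟨m, hm, hocc⟩
      exact (fixIn_iff _ (hS G M a m) H).1 (h1 m hm) V ρ hρ ((occMod_iff (A m) a ρ).2 hocc)
    · intro h1 m hm
      refine (fixIn_iff _ (hS G M a m) H).2 fun V _ _ ρ hρ hocc => ?_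
      exact h1 V ρ hρ ⟨m, hm, (occMod_iff (A m) a ρ).1 hocc⟩
  · have : Fintype G := Fintype.ofFinite G
    have h1 : ∃ m ∈ I, ∃ x : (A m).obj M, x ≠ 0 := by
      by_contra hcon
      push Not at hcon
      exact hne hcon
    obtain ⟨m, hm, x, hx⟩ := h1
    have h2 : (⊥ : Submodule ℚ ((A m).obj M)) ≠ ⊤ := by
      intro h3
      have h4 : x ∈ (⊥ : Submodule ℚ ((A m).obj M)) := by rw [h3]; trivial
      exact hx ((Submodule.mem_bot ℚ).1 h4)
    obtain ⟨⟨V, i1, i2, ρ, hfree, hocc⟩, hcyc⟩ := (lin_laws (spAct (A m) a) (hS G M a m)).2 h2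
      fun D hD => ((onQuotient_vanish A h I a D).1 (hp D hD)) m hm
    exact ⟨⟨V, i1, i2, ρ, hfree, m, hm, (occMod_iff (A m) a ρ).1 hocc⟩, hcyc⟩

end Pool.Agent.U227.Van
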